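import Pool.Agent.Lib.MP_cb4a0f_co.Bag.Stmts

/-!
# MP_cb4a0f_co: patterns realise consecutive blocks of arches
-/

open Classical

namespace RotWqo.Bag

namespace Arch

/-- Weak comparison of natural numbers in the direction `s`. -/
def le (s : Bool) (a b : ℕ) : Prop := if s then a ≤ b else b ≤ a

theorem lt_irrefl' {s : Bool} {a : ℕ} : ¬ lt s a a := by cases s <;> simp [lt]

theorem lt_trans' {s : Bool} {a b c : ℕ} (h : lt s a b) (h' : lt s b c) : lt s a c := by
  cases s <;> simp only [lt] at * <;> simp at * <;> omega

theorem lt_asymm' {s : Bool} {a b : ℕ} (h : lt s a b) (h' : lt s b a) : False :=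
  lt_irrefl' (lt_trans' h h')

theorem le_refl' {s : Bool} {a : ℕ} : le s a a := by cases s <;> simp [le]

theorem le_of_lt' {s : Bool} {a b : ℕ} (h : lt s a b) : le s a b := by
  cases s <;> simp only [lt, le] at * <;> simp at * <;> omega

theorem le_trans' {s : Bool} {a b c : ℕ} (h : le s a b) (h' : le s b c) : le s a c := by
  cases s <;> simp only [le] at * <;> simp at * <;> omega

theorem not_lt_le {s : Bool} {a b : ℕ} (h : lt s a b) (h' : le s b a) : False := by
  cases s <;> simp only [lt, le] at * <;> simp at * <;> omega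

/-- Among more than `3 |U|` places one is free. -/
theorem free_choice {H : Type*} (U : Finset H) (K : ℕ) (hK : 3 * U.card < K)
    (B : Fin 3 → ℕ → H → Prop)
    (hB : ∀ i g a a', a < a' → a' < K → B i a g → B i a' g → False) :
    ∃ a < K, ∀ i, ∀ g ∈ U, ¬ B i a g := by
  by_contra hcon
  have hc : ∀ a : Fin K, ∃ i g, g ∈ U ∧ B i a g := by
    intro a
    by_contra h
    exact hcon ⟨a, a.2, fun i g hg hb => h ⟨i, g, hg, hb⟩⟩
  choose i g hg hb using hc
  have h1 : (Finset.univ : Finset (Fin K)).card ≤
      ((Finset.univ : Finset (Fin 3)) ×ˢ U).card := by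
    refine Finset.card_le_card_of_injOn (fun a => (i a, g a)) ?_ ?_
    · intro a _
      simp [hg a]
    · intro a _ a' _ h
      simp only [Prod.mk.injEq] at h
      rcases lt_trichotomy a a' with h2 | h2 | h2
      · exact (hB (i a) (g a) a a' h2 a'.2 (hb a) (by rw [h.1, h.2]; exact hb a')).elim
      · exact h2
      · exact (hB (i a) (g a) a' a h2 a.2 (by rw [h.1, h.2]; exact hb a') (hb a)).elim
  simp at h1
  omega

/-- Ranges of a monotone chain are disjoint. -/
theorem range_disj {s : Bool} {n L a a' g : ℕ} {P Q : ℕ → ℕ}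
    (h : ∀ i j, i < j → j < n → lt s (Q i) (P j)) (haa : a < a')
    (ha' : a' * (L + 1) < n) (h1 : le s g (Q (a * (L + 1) + L)))
    (h2 : le s (P (a' * (L + 1))) g) : False := by
  have h3 : a * (L + 1) + L < a' * (L + 1) := by
    have : (a + 1) * (L + 1) ≤ a' * (L + 1) := Nat.mul_le_mul_right _ haa
    nlinarith
  exact not_lt_le (h _ _ h3 ha') (le_trans' h2 h1)

/-! ### The combinatorics of blocks -/

theorem cap_lt (rs : List (ℕ × ℕ)) : ∀ p < len rs, cap rs p < len rs := by
  induction rs with
  | nil => intro p hp; simp [len] at hp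
  | cons b rs ih =>
    obtain ⟨R, j⟩ := b
    intro p hp
    simp only [len, cap, sw] at hp ⊢
    have := ih (p - 2 * R)
    split_ifs <;> omega

theorem cap_cap (rs : List (ℕ × ℕ)) : ∀ p < len rs, cap rs (cap rs p) = p := by
  induction rs with
  | nil => intro p hp; simp [len] at hp
  | cons b rs ih =>
    obtain ⟨R, j⟩ := b
    intro p hp
    simp only [len] at hp
    rcases Nat.lt_or_ge p (2 * R) with h | h
    · simp only [cap, sw]
      split_ifs <;> omega
    · have h1 := ih (p - 2 * R) (by omega)
      have h2 : cap ((R, j) :: rs) p = 2 * R + cap rs (p - 2 * R) := by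
        simp only [cap]
        rw [if_neg (by omega), if_neg (by omega)]
      rw [h2]
      simp only [cap]
      rw [if_neg (by omega), if_neg (by omega), Nat.add_sub_cancel_left, h1]
      omega

/-- The index in the pattern T. -/
def ixT : List (ℕ × ℕ) → ℕ → ℕ
  | [], p => p
  | (R, j) :: rs, p =>
    if p < 2 * R then (if j + 1 < R ∧ p = j + 1 then j else p)
    else 2 * R + ixT rs (p - 2 * R)

/-- The kind in the pattern T. -/
def bT : List (ℕ × ℕ) → ℕ → Bool
  | [], _ => false
  | (R, j) :: rs, p =>
    if p < 2 * R then decide (j + 1 < R ∧ p = j + 1)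
    else bT rs (p - 2 * R)

/-- The kind in the pattern A. -/
def bA : List (ℕ × ℕ) → ℕ → Bool
  | [], _ => false
  | (R, j) :: rs, p =>
    if p < 2 * R then decide (j + 1 < R ∧ (p = j ∨ p = 2 * R - 2 - j))
    else bA rs (p - 2 * R)

/-- The order at the other end in the pattern T. -/
def kT (rs : List (ℕ × ℕ)) (p : ℕ) : ℕ := 2 * ixT rs p + (if bT rs p then 0 else 1)

theorem ixT_lt (rs : List (ℕ × ℕ)) : ∀ p < len rs, ixT rs p < len rs := by
  induction rs with
  | nil => intro p hp; simp [len] at hp
  | cons b rs ih =>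
    obtain ⟨R, j⟩ := b
    intro p hp
    simp only [len, ixT] at hp ⊢
    have := ih (p - 2 * R)
    split_ifs <;> omega

theorem ixT_mono (rs : List (ℕ × ℕ)) : ∀ p q, p < q → q < len rs → ixT rs p < ixT rs q ∨
    (ixT rs p = ixT rs q ∧ bT rs p = false ∧ bT rs q = true) := by
  induction rs with
  | nil => intro p q _ hq; simp [len] at hq
  | cons b rs ih =>
    obtain ⟨R, j⟩ := b
    intro p q hpq hq
    simp only [len] at hq
    simp only [ixT, bT]
    rcases Nat.lt_or_ge q (2 * R) with h | h
    · simp only [if_pos h, if_pos (show p < 2 * R by omega), decide_eq_false_iff_not,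
        decide_eq_true_eq]
      split_ifs <;> omega
    · rcases Nat.lt_or_ge p (2 * R) with h' | h'
      · simp only [if_neg (show ¬ q < 2 * R by omega), if_pos h']
        left
        split_ifs <;> omega
      · simp only [if_neg (show ¬ q < 2 * R by omega), if_neg (show ¬ p < 2 * R by omega)]
        have := ih (p - 2 * R) (q - 2 * R) (by omega) (by omega)
        rcases this with h1 | h1
        · left; omega
        · right; exact ⟨by omega, h1.2⟩

theorem kT_cons (R j : ℕ) (rs : List (ℕ × ℕ)) (p : ℕ) : kT ((R, j) :: rs) p =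
    if p < 2 * R then (if j + 1 < R ∧ p = j + 1 then 2 * j else 2 * p + 1)
    else 4 * R + kT rs (p - 2 * R) := by
  unfold kT
  simp only [ixT, bT]
  by_cases h : p < 2 * R
  · simp only [if_pos h, decide_eq_true_eq]
    split_ifs <;> omega
  · simp only [if_neg h]
    split_ifs <;> omega

theorem cap_ge (R i : ℕ) (rs : List (ℕ × ℕ)) (p : ℕ) (h : 2 * R ≤ p) :
    cap ((R, i) :: rs) p = 2 * R + cap rs (p - 2 * R) := by
  simp only [cap]
  rw [if_neg (by omega), if_neg (by omega)]

theorem cap_block (R i : ℕ) (rs : List (ℕ × ℕ)) (p : ℕ) (h : p < 2 * R) :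
    (¬ i + 1 < R ∧ cap ((R, i) :: rs) p = 2 * R - 1 - p) ∨ (i + 1 < R ∧
    ((p = i ∧ cap ((R, i) :: rs) p = 2 * R - 2 - i) ∨
     (p = i + 1 ∧ cap ((R, i) :: rs) p = 2 * R - 1 - i) ∨
     (p = 2 * R - 1 - i ∧ cap ((R, i) :: rs) p = i + 1) ∨
     (p = 2 * R - 2 - i ∧ cap ((R, i) :: rs) p = i) ∨
     (p ≠ i ∧ p ≠ i + 1 ∧ p ≠ 2 * R - 1 - i ∧ p ≠ 2 * R - 2 - i ∧
      cap ((R, i) :: rs) p = 2 * R - 1 - p))) := by
  simp only [cap, sw]
  split_ifs <;> omega

theorem kT_block (R i : ℕ) (rs : List (ℕ × ℕ)) (p : ℕ) (h : p < 2 * R) :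
    (i + 1 < R ∧ p = i + 1 ∧ kT ((R, i) :: rs) p = 2 * i) ∨
    (¬ (i + 1 < R ∧ p = i + 1) ∧ kT ((R, i) :: rs) p = 2 * p + 1) := by
  rw [kT_cons, if_pos h]
  split_ifs <;> omega

theorem kT_ge (R i : ℕ) (rs : List (ℕ × ℕ)) (p : ℕ) (h : 2 * R ≤ p) :
    kT ((R, i) :: rs) p = 4 * R + kT rs (p - 2 * R) := by
  rw [kT_cons, if_neg (by omega)]

theorem kT_nc (rs : List (ℕ × ℕ)) : ∀ p < len rs, ∀ j < len rs, kT rs p < kT rs j →
    kT rs j < kT rs (cap rs p) → kT rs p < kT rs (cap rs j) ∧
      kT rs (cap rs j) < kT rs (cap rs p) := by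
  induction rs with
  | nil => intro p hp; simp [len] at hp
  | cons b rs ih =>
    obtain ⟨R, i⟩ := b
    intro p hp j hj h1 h2
    simp only [len] at hp hj
    rcases Nat.lt_or_ge p (2 * R) with hp' | hp'
    · have a1 := kT_block R i rs p hp'
      have a2 := cap_block R i rs p hp'
      have a3 : cap ((R, i) :: rs) p < 2 * R := by omega
      have a4 := kT_block R i rs _ a3
      rcases Nat.lt_or_ge j (2 * R) with hj' | hj'
      · have b1 := kT_block R i rs j hj'
        have b2 := cap_block R i rs j hj'
        have b3 : cap ((R, i) :: rs) j < 2 * R := by omega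
        have b4 := kT_block R i rs _ b3
        generalize kT ((R, i) :: rs) p = x1 at *
        generalize kT ((R, i) :: rs) (cap ((R, i) :: rs) p) = x2 at *
        generalize cap ((R, i) :: rs) p = x3 at *
        generalize kT ((R, i) :: rs) (cap ((R, i) :: rs) j) = y2 at *
        generalize kT ((R, i) :: rs) j = y1 at *
        generalize cap ((R, i) :: rs) j = y3 at *
        rcases a2 with a2 | ⟨a2, a5 | a5 | a5 | a5 | a5⟩ <;>
          rcases b2 with b2 | ⟨b2, b5 | b5 | b5 | b5 | b5⟩ <;> omega
      · have b1 := kT_ge R i rs j hj'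
        omega
    · have a1 := kT_ge R i rs p hp'
      have a2 := cap_ge R i rs p hp'
      rcases Nat.lt_or_ge j (2 * R) with hj' | hj'
      · have b1 := kT_block R i rs j hj'
        omega
      · have b1 := kT_ge R i rs j hj'
        have b2 := cap_ge R i rs j hj'
        have a4 := kT_ge R i rs (2 * R + cap rs (p - 2 * R)) (by omega)
        have b4 := kT_ge R i rs (2 * R + cap rs (j - 2 * R)) (by omega)
        rw [Nat.add_sub_cancel_left] at a4 b4
        rw [a1, b1] at h1
        rw [b1, a2, a4] at h2
        rw [a1, b2, b4, a2, a4]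
        have := ih (p - 2 * R) (by omega) (j - 2 * R) (by omega) (by omega) (by omega)
        omega

theorem bA_block (R i : ℕ) (rs : List (ℕ × ℕ)) (p : ℕ) (h : p < 2 * R) :
    (i + 1 < R ∧ (p = i ∨ p = 2 * R - 2 - i) ∧ bA ((R, i) :: rs) p = true) ∨
    (¬ (i + 1 < R ∧ (p = i ∨ p = 2 * R - 2 - i)) ∧ bA ((R, i) :: rs) p = false) := by
  simp only [bA, if_pos h]
  by_cases h1 : i + 1 < R ∧ (p = i ∨ p = 2 * R - 2 - i)
  · left; simp [h1]
  · right; simp [h1]

theorem bA_ge (R i : ℕ) (rs : List (ℕ × ℕ)) (p : ℕ) (h : 2 * R ≤ p) :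
    bA ((R, i) :: rs) p = bA rs (p - 2 * R) := by
  simp only [bA]
  rw [if_neg (by omega)]

theorem bA_cap (rs : List (ℕ × ℕ)) : ∀ p < len rs, bA rs (cap rs p) = bA rs p := by
  induction rs with
  | nil => intro p hp; simp [len] at hp
  | cons b rs ih =>
    obtain ⟨R, j⟩ := b
    intro p hp
    simp only [len] at hp
    rcases Nat.lt_or_ge p (2 * R) with h | h
    · have a1 := bA_block R j rs p h
      have a2 := cap_block R j rs p h
      have a3 : cap ((R, j) :: rs) p < 2 * R := by omega
      have a4 := bA_block R j rs _ a3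
      rcases a1 with ⟨a1, a5, a6⟩ | ⟨a5, a6⟩ <;> rcases a4 with ⟨a7, a8, a9⟩ | ⟨a8, a9⟩ <;>
        rw [a6, a9] <;> exfalso <;> clear a6 a9 <;> omega
    · rw [cap_ge R j rs p h, bA_ge R j rs p h, bA_ge R j rs _ (by omega),
        Nat.add_sub_cancel_left]
      exact ih _ (by omega)

theorem bA_false (rs : List (ℕ × ℕ)) : ∀ p < len rs, ∀ j < len rs, bA rs p = false →
    bA rs j = false → p < j → j < cap rs p → p < cap rs j ∧ cap rs j < cap rs p := by
  induction rs with
  | nil => intro p hp; simp [len] at hp
  | cons b rs ih =>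
    obtain ⟨R, i⟩ := b
    intro p hp j hj hbp hbj h1 h2
    simp only [len] at hp hj
    rcases Nat.lt_or_ge p (2 * R) with hp' | hp'
    · have a1 := bA_block R i rs p hp'
      have a2 := cap_block R i rs p hp'
      rw [hbp] at a1
      simp only [Bool.false_eq_true, and_false, false_or, and_true] at a1
      rcases Nat.lt_or_ge j (2 * R) with hj' | hj'
      · have b1 := bA_block R i rs j hj'
        have b2 := cap_block R i rs j hj'
        rw [hbj] at b1
        simp only [Bool.false_eq_true, and_false, false_or, and_true] at b1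
        clear hbp hbj ih
        rcases a2 with a2 | ⟨a2, a5 | a5 | a5 | a5 | a5⟩ <;>
          rcases b2 with b2 | ⟨b2, b5 | b5 | b5 | b5 | b5⟩ <;> omega
      · omega
    · have a2 := cap_ge R i rs p hp'
      have b2 := cap_ge R i rs j (by omega)
      rw [bA_ge R i rs p hp'] at hbp
      rw [bA_ge R i rs j (by omega)] at hbj
      rw [a2] at h2
      rw [a2, b2]
      have := ih (p - 2 * R) (by omega) (j - 2 * R) (by omega) hbp hbj (by omega) (by omega)
      omega

theorem bA_true (rs : List (ℕ × ℕ)) : ∀ p < len rs, ∀ j < len rs, bA rs p = true →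
    bA rs j = true → p < j → j < cap rs p → False := by
  induction rs with
  | nil => intro p hp; simp [len] at hp
  | cons b rs ih =>
    obtain ⟨R, i⟩ := b
    intro p hp j hj hbp hbj h1 h2
    simp only [len] at hp hj
    rcases Nat.lt_or_ge p (2 * R) with hp' | hp'
    · have a1 := bA_block R i rs p hp'
      have a2 := cap_block R i rs p hp'
      rw [hbp] at a1
      simp only [Bool.true_eq_false, and_false, or_false, and_true] at a1
      rcases Nat.lt_or_ge j (2 * R) with hj' | hj'
      · have b1 := bA_block R i rs j hj'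
        rw [hbj] at b1
        simp only [Bool.true_eq_false, and_false, or_false, and_true] at b1
        clear hbp hbj ih
        omega
      · omega
    · have a2 := cap_ge R i rs p hp'
      rw [bA_ge R i rs p hp'] at hbp
      rw [bA_ge R i rs j (by omega)] at hbj
      rw [a2] at h2
      exact ih (p - 2 * R) (by omega) (j - 2 * R) (by omega) hbp hbj (by omega) (by omega)

/-! ### The system -/

variable {V H : Type*}

section chain

variable {s : Bool} {n : ℕ} {P Q : ℕ → ℕ}

theorem chain_lt (h1 : ∀ i < n, lt s (P i) (Q i))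
    (h2 : ∀ i j, i < j → j < n → lt s (Q i) (P j)) {i j : ℕ} (hij : i < j) (hj : j < n)
    (b b' : Bool) : lt s (if b then Q i else P i) (if b' then Q j else P j) := by
  have a1 := h1 i (by omega)
  have a2 := h1 j hj
  have a3 := h2 i j hij hj
  cases b <;> cases b' <;> simp only [if_true, Bool.false_eq_true, if_false]
  · exact lt_trans' a1 a3
  · exact lt_trans' a1 (lt_trans' a3 a2)
  · exact a3
  · exact lt_trans' a3 a2

theorem chain_lo (h1 : ∀ i < n, lt s (P i) (Q i))
    (h2 : ∀ i j, i < j → j < n → lt s (Q i) (P j)) {o i : ℕ} (hi : i < n) (ho : o ≤ i)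
    (b : Bool) : le s (P o) (if b then Q i else P i) := by
  rcases Nat.eq_or_lt_of_le ho with rfl | h
  · cases b <;> simp only [if_true, Bool.false_eq_true, if_false]
    · exact le_refl'
    · exact le_of_lt' (h1 _ hi)
  · exact le_of_lt' (chain_lt h1 h2 h hi false b)

theorem chain_hi (h1 : ∀ i < n, lt s (P i) (Q i))
    (h2 : ∀ i j, i < j → j < n → lt s (Q i) (P j)) {o i : ℕ} (ho : o < n) (hi : i ≤ o)
    (b : Bool) : le s (if b then Q i else P i) (Q o) := by
  rcases Nat.eq_or_lt_of_le hi with rfl | h
  · cases b <;> simp only [if_true, Bool.false_eq_true, if_false]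
    · exact le_of_lt' (h1 _ ho)
    · exact le_refl'
  · exact le_of_lt' (chain_lt h1 h2 h ho b true)

theorem between_le {lo hi a b g : ℕ} (h1 : le s lo a) (h2 : le s a hi) (h3 : le s lo b)
    (h4 : le s b hi) (h5 : a < g) (h6 : g < b) : le s lo g ∧ le s g hi := by
  cases s <;> simp only [le, if_true, Bool.false_eq_true, if_false] at * <;> omega

end chain

/-- The half-edge with a given index and kind. -/
def pick (e f : ℕ → H) (o i : ℕ) (b : Bool) : H := if b then f (o + i) else e (o + i)

theorem pick_mem {G : RotGraph V H} {x y z : V} {e f : ℕ → H} {n o i : ℕ}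
    (he : ∀ i < n, e i ∈ G.darts ∧ G.base (e i) = x ∧ G.base (G.opp (e i)) = y)
    (hf : ∀ i < n, f i ∈ G.darts ∧ G.base (f i) = x ∧ G.base (G.opp (f i)) = z)
    (b : Bool) (h : o + i < n) : pick e f o i b ∈ G.darts ∧ G.base (pick e f o i b) = x ∧
      G.base (G.opp (pick e f o i b)) = if b then z else y := by
  cases b <;> simp only [pick, if_true, Bool.false_eq_true, if_false]
  · exact he _ h
  · exact hf _ h

theorem pos_pick {G : RotGraph V H} {e f : ℕ → H} {o i : ℕ} (b : Bool) :
    pos G (pick e f o i b) = if b then pos G (f (o + i)) else pos G (e (o + i)) := by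
  cases b <;> simp [pick]

theorem pos_opp_pick {G : RotGraph V H} {e f : ℕ → H} {o i : ℕ} (b : Bool) :
    pos G (G.opp (pick e f o i b)) =
      if b then pos G (G.opp (f (o + i))) else pos G (G.opp (e (o + i))) := by
  cases b <;> simp [pick]

theorem pos_opp_pick' {G : RotGraph V H} {e f : ℕ → H} {o i : ℕ} (b : Bool) :
    pos G (G.opp (pick e f o i b)) =
      if !b then pos G (G.opp (e (o + i))) else pos G (G.opp (f (o + i))) := by
  cases b <;> simp [pick]

theorem arches_T {G : RotGraph V H} {A : Finset V} {x y : V} {e f : ℕ → H} {s : Bool}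
    {n o L' : ℕ} (hP : PatT G A n x y e f s) {U : Finset H} (hn : o + L' < n)
    (hx : ∀ g ∈ U, G.base g = x → le true (pos G (e o)) (pos G g) →
      le true (pos G g) (pos G (f (o + L'))) → False)
    (hy : ∀ g ∈ U, G.base g = y → le s (pos G (G.opp (f o))) (pos G g) →
      le s (pos G g) (pos G (G.opp (e (o + L')))) → False)
    (rs : List (ℕ × ℕ)) (h0 : 0 < len rs) (hL : len rs ≤ L') :
    Arches G A U x (pos G (e o)) (len rs) (fun p => pick e f o (ixT rs p) (bT rs p))
      (cap rs) := by
  have hix : ∀ p < len rs, o + ixT rs p < n := fun p hp => by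
    have := ixT_lt rs p hp; omega
  have hm := fun p (hp : p < len rs) => pick_mem hP.e_mem hP.f_mem (bT rs p) (hix p hp)
  have hef : ∀ i < n, lt true (pos G (e i)) (pos G (f i)) := fun i hi => by
    simpa [lt] using hP.ef i hi
  have hfe : ∀ i j, i < j → j < n → lt true (pos G (f i)) (pos G (e j)) := fun i j h1 h2 => by
    simpa [lt] using hP.fe i j h1 h2
  have hX1 : ∀ p < len rs, le true (pos G (e o))
      (pos G (pick e f o (ixT rs p) (bT rs p))) := fun p hp => by
    rw [pos_pick]
    exact chain_lo (P := fun i => pos G (e i)) (Q := fun i => pos G (f i)) hef hfe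
      (hix p hp) (by omega) _
  have hX2 : ∀ p < len rs, le true (pos G (pick e f o (ixT rs p) (bT rs p)))
      (pos G (f (o + L'))) := fun p hp => by
    rw [pos_pick]
    exact chain_hi (P := fun i => pos G (e i)) (Q := fun i => pos G (f i)) hef hfe
      hn (by have := ixT_lt rs p hp; omega) _
  have hY1 : ∀ p < len rs, le s (pos G (G.opp (f o)))
      (pos G (G.opp (pick e f o (ixT rs p) (bT rs p)))) := fun p hp => by
    rw [pos_opp_pick']
    exact chain_lo (P := fun i => pos G (G.opp (f i))) (Q := fun i => pos G (G.opp (e i)))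
      hP.ef' hP.fe' (hix p hp) (by omega) _
  have hY2 : ∀ p < len rs, le s (pos G (G.opp (pick e f o (ixT rs p) (bT rs p))))
      (pos G (G.opp (e (o + L')))) := fun p hp => by
    rw [pos_opp_pick']
    exact chain_hi (P := fun i => pos G (G.opp (f i))) (Q := fun i => pos G (G.opp (e i)))
      hP.ef' hP.fe' hn (by have := ixT_lt rs p hp; omega) _
  have hk : ∀ p < len rs, ∀ q < len rs, kT rs p < kT rs q →
      lt s (pos G (G.opp (pick e f o (ixT rs p) (bT rs p))))
        (pos G (G.opp (pick e f o (ixT rs q) (bT rs q)))) := by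
    intro p hp q hq h
    rw [pos_opp_pick', pos_opp_pick']
    rcases Nat.lt_trichotomy (ixT rs p) (ixT rs q) with h1 | h1 | h1
    · exact chain_lt (P := fun i => pos G (G.opp (f i))) (Q := fun i => pos G (G.opp (e i)))
        hP.ef' hP.fe' (by omega) (hix q hq) _ _
    · unfold kT at h
      have h2 : bT rs p = true ∧ bT rs q = false := by
        cases h3 : bT rs p <;> cases h4 : bT rs q <;> simp [h3, h4] at h ⊢ <;> omega
      rw [h2.1, h2.2, h1]
      simpa using hP.ef' _ (hix q hq)
    · unfold kT at h
      exfalso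
      split_ifs at h <;> omega
  have hk' : ∀ p < len rs, ∀ q < len rs,
      lt s (pos G (G.opp (pick e f o (ixT rs p) (bT rs p))))
        (pos G (G.opp (pick e f o (ixT rs q) (bT rs q)))) → kT rs p < kT rs q := by
    intro p hp q hq h
    rcases Nat.lt_trichotomy (kT rs p) (kT rs q) with h1 | h1 | h1
    · exact h1
    · exfalso
      unfold kT at h1
      have h2 : ixT rs p = ixT rs q ∧ bT rs p = bT rs q := by
        cases h3 : bT rs p <;> cases h4 : bT rs q <;> simp [h3, h4] at h1 ⊢ <;> omega
      rw [h2.1, h2.2] at h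
      exact lt_irrefl' h
    · exact (lt_asymm' (hk q hq p hp h1) h).elim
  refine ⟨?_, ?_, ?_, ?_, ?_, ?_, ?_⟩
  · intro p hp
    have h1 := hm p hp
    simp only [ite_self] at h1
    exact ⟨h1.1, h1.2.1, by rw [h1.2.2]; exact hP.hy, by rw [h1.2.2]; exact hP.hxy⟩
  · intro p hp
    have h1 := hm p hp
    simp only [ite_self] at h1
    exact ⟨fun h => hx _ h h1.2.1 (hX1 p hp) (hX2 p hp),
      fun h => hy _ h h1.2.2 (hY1 p hp) (hY2 p hp)⟩
  · intro p q hpq hq
    have h1 : lt true (pos G (pick e f o (ixT rs p) (bT rs p)))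
        (pos G (pick e f o (ixT rs q) (bT rs q))) := by
      rw [pos_pick, pos_pick]
      rcases ixT_mono rs p q hpq hq with h | h
      · exact chain_lt (P := fun i => pos G (e i)) (Q := fun i => pos G (f i)) hef hfe
          (by omega) (hix q hq) _ _
      · rw [h.1, h.2.1, h.2.2]
        simpa using hef _ (hix q hq)
    simpa [lt] using h1
  · intro g hg hgx hlt
    have h1 := hX1 0 h0
    simp only [le, if_true] at h1
    exact lt_of_lt_of_le hlt h1
  · intro g hg hgx hle
    have h1 := hX2 (len rs - 1) (by omega)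
    simp only [le, if_true] at h1
    by_contra hcon
    refine hx g hg hgx (by simpa [le] using hle) ?_
    simp only [le, if_true]
    exact (not_lt.1 hcon).trans h1
  · intro p hp
    have h1 := (hm p hp).2.2
    have h2 := (hm _ (cap_lt rs p hp)).2.2
    simp only [ite_self] at h1 h2
    rw [h1, h2]
  · intro p hp g hg hgy h1 h2
    have hp' := cap_lt rs p hp
    have h3 := between_le (hY1 p hp) (hY2 p hp) (hY1 _ hp') (hY2 _ hp') h1 h2
    have h4 := (hm p hp).2.2
    simp only [ite_self] at h4
    refine ⟨fun h => hy g h (by rw [hgy, h4]) h3.1 h3.2, ?_⟩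
    intro j hj hgj
    have hj' := cap_lt rs j hj
    subst hgj
    cases s with
    | false =>
      have a1 : kT rs j < kT rs p := hk' j hj p hp (by simpa [lt] using h1)
      have a2 : kT rs (cap rs p) < kT rs j := hk' _ hp' j hj (by simpa [lt] using h2)
      have a3 := kT_nc rs _ hp' j hj a2 (by rw [cap_cap rs p hp]; exact a1)
      rw [cap_cap rs p hp] at a3
      have a4 := hk _ hp' _ hj' a3.1
      have a5 := hk _ hj' _ hp a3.2
      simp only [lt, Bool.false_eq_true, if_false] at a4 a5
      exact ⟨a5, a4⟩
    | true =>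
      have a1 : kT rs p < kT rs j := hk' p hp j hj (by simpa [lt] using h1)
      have a2 : kT rs j < kT rs (cap rs p) := hk' j hj _ hp' (by simpa [lt] using h2)
      have a3 := kT_nc rs p hp j hj a1 a2
      have a4 := hk _ hp _ hj' a3.1
      have a5 := hk _ hj' _ hp' a3.2
      simp only [lt, if_true] at a4 a5
      exact ⟨a4, a5⟩

theorem arches_A {G : RotGraph V H} {A : Finset V} {x y z : V} {e f : ℕ → H} {s s' : Bool}
    {n o L' : ℕ} (hP : PatA G A n x y z e f s s') {U : Finset H} (hn : o + L' < n)
    (hx : ∀ g ∈ U, G.base g = x → le true (pos G (e o)) (pos G g) →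
      le true (pos G g) (pos G (f (o + L'))) → False)
    (hy : ∀ g ∈ U, G.base g = y → le s (pos G (G.opp (e o))) (pos G g) →
      le s (pos G g) (pos G (G.opp (e (o + L')))) → False)
    (hz : ∀ g ∈ U, G.base g = z → le s' (pos G (G.opp (f o))) (pos G g) →
      le s' (pos G g) (pos G (G.opp (f (o + L')))) → False)
    (rs : List (ℕ × ℕ)) (h0 : 0 < len rs) (hL : len rs ≤ L') :
    Arches G A U x (pos G (e o)) (len rs) (fun p => pick e f o p (bA rs p)) (cap rs) := by
  have hix : ∀ p < len rs, o + p < n := fun p hp => by omega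
  have hm := fun p (hp : p < len rs) => pick_mem hP.e_mem hP.f_mem (bA rs p) (hix p hp)
  have hef : ∀ i < n, lt true (pos G (e i)) (pos G (f i)) := fun i hi => by
    simpa [lt] using hP.ef i hi
  have hfe : ∀ i j, i < j → j < n → lt true (pos G (f i)) (pos G (e j)) := fun i j h1 h2 => by
    simpa [lt] using hP.fe i j h1 h2
  have hX1 : ∀ p < len rs, le true (pos G (e o))
      (pos G (pick e f o p (bA rs p))) := fun p hp => by
    rw [pos_pick]
    exact chain_lo (P := fun i => pos G (e i)) (Q := fun i => pos G (f i)) hef hfe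
      (hix p hp) (by omega) _
  have hX2 : ∀ p < len rs, le true (pos G (pick e f o p (bA rs p)))
      (pos G (f (o + L'))) := fun p hp => by
    rw [pos_pick]
    exact chain_hi (P := fun i => pos G (e i)) (Q := fun i => pos G (f i)) hef hfe
      hn (by omega) _
  have mono' : ∀ (P : ℕ → ℕ) (t : Bool), (∀ i j, i < j → j < n → lt t (P i) (P j)) →
      ∀ i j, i ≤ j → j < n → le t (P i) (P j) := by
    intro P t h i j hij hj
    rcases Nat.eq_or_lt_of_le hij with rfl | h1
    · exact le_refl'
    · exact le_of_lt' (h i j h1 hj)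
  have mono'' : ∀ (P : ℕ → ℕ) (t : Bool), (∀ i j, i < j → j < n → lt t (P i) (P j)) →
      ∀ i j, i < n → j < n → lt t (P i) (P j) → i < j := by
    intro P t h i j hi hj hl
    rcases Nat.lt_trichotomy i j with h1 | h1 | h1
    · exact h1
    · subst h1; exact (lt_irrefl' hl).elim
    · exact (lt_asymm' (h j i h1 hi) hl).elim
  have hYe : ∀ p < len rs, bA rs p = false → pick e f o p (bA rs p) = e (o + p) := by
    intro p _ h; simp [pick, h]
  have hYf : ∀ p < len rs, bA rs p = true → pick e f o p (bA rs p) = f (o + p) := by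
    intro p _ h; simp [pick, h]
  have hY : ∀ p < len rs, le s (pos G (G.opp (e o))) (pos G (G.opp (e (o + p)))) ∧
      le s (pos G (G.opp (e (o + p)))) (pos G (G.opp (e (o + L')))) := fun p hp =>
    ⟨mono' (fun i => pos G (G.opp (e i))) s hP.ee' _ _ (by omega) (by omega),
      mono' (fun i => pos G (G.opp (e i))) s hP.ee' _ _ (by omega) (by omega)⟩
  have hZ : ∀ p < len rs, le s' (pos G (G.opp (f o))) (pos G (G.opp (f (o + p)))) ∧
      le s' (pos G (G.opp (f (o + p)))) (pos G (G.opp (f (o + L')))) := fun p hp =>
    ⟨mono' (fun i => pos G (G.opp (f i))) s' hP.ff' _ _ (by omega) (by omega),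
      mono' (fun i => pos G (G.opp (f i))) s' hP.ff' _ _ (by omega) (by omega)⟩
  refine ⟨?_, ?_, ?_, ?_, ?_, ?_, ?_⟩
  · intro p hp
    have h1 := hm p hp
    refine ⟨h1.1, h1.2.1, ?_, ?_⟩
    · rw [h1.2.2]; split_ifs; exacts [hP.hz, hP.hy]
    · rw [h1.2.2]; split_ifs; exacts [hP.hxz, hP.hxy]
  · intro p hp
    have h1 := hm p hp
    refine ⟨fun h => hx _ h h1.2.1 (hX1 p hp) (hX2 p hp), fun h => ?_⟩
    cases hb : bA rs p with
    | false =>
      rw [hb] at h1
      simp only [hb] at h
      have h2 : pick e f o p false = e (o + p) := by simp [pick]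
      rw [h2] at h h1
      exact hy _ h (by simpa using h1.2.2) (hY p hp).1 (hY p hp).2
    | true =>
      rw [hb] at h1
      simp only [hb] at h
      have h2 : pick e f o p true = f (o + p) := by simp [pick]
      rw [h2] at h h1
      exact hz _ h (by simpa using h1.2.2) (hZ p hp).1 (hZ p hp).2
  · intro p q hpq hq
    have h1 : lt true (pos G (pick e f o p (bA rs p)))
        (pos G (pick e f o q (bA rs q))) := by
      rw [pos_pick, pos_pick]
      exact chain_lt (P := fun i => pos G (e i)) (Q := fun i => pos G (f i)) hef hfe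
          (by omega) (hix q hq) _ _
    simpa [lt] using h1
  · intro g hg hgx hlt
    have h1 := hX1 0 h0
    simp only [le, if_true] at h1
    exact lt_of_lt_of_le hlt h1
  · intro g hg hgx hle
    have h1 := hX2 (len rs - 1) (by omega)
    simp only [le, if_true] at h1
    by_contra hcon
    refine hx g hg hgx (by simpa [le] using hle) ?_
    simp only [le, if_true]
    exact (not_lt.1 hcon).trans h1
  · intro p hp
    have h1 := (hm p hp).2.2
    have h2 := (hm _ (cap_lt rs p hp)).2.2
    rw [bA_cap rs p hp] at h2
    simp only [bA_cap rs p hp]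
    rw [h1, h2]
  · intro p hp g hg hgy h1 h2
    have hp' := cap_lt rs p hp
    have hbp := bA_cap rs p hp
    have h4 := (hm p hp).2.2
    simp only [h4] at hgy
    simp only [hbp] at h2
    cases hb : bA rs p with
    | false =>
      have c1 : pick e f o p false = e (o + p) := by simp [pick]
      have c2 : pick e f o (cap rs p) false = e (o + cap rs p) := by simp [pick]
      rw [hb] at h1 h2 hgy hbp
      rw [c1] at h1
      rw [c2] at h2
      simp only [Bool.false_eq_true, if_false] at hgy
      have h3 := between_le (hY p hp).1 (hY p hp).2 (hY _ hp').1 (hY _ hp').2 h1 h2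
      refine ⟨fun h => hy g h hgy h3.1 h3.2, ?_⟩
      intro j hj hgj
      have hj' := cap_lt rs j hj
      cases hbj : bA rs j with
      | false =>
        have c3 : pick e f o j false = e (o + j) := by simp [pick]
        have c4 : pick e f o (cap rs j) false = e (o + cap rs j) := by simp [pick]
        rw [bA_cap rs j hj, hbp, hbj, c1, c2, c4]
        rw [hbj, c3] at hgj
        subst hgj
        cases s with
        | false =>
          have a1 := mono'' (fun i => pos G (G.opp (e i))) false hP.ee' (o + j) (o + p)
            (by omega) (by omega) (by simpa [lt] using h1)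
          have a2 := mono'' (fun i => pos G (G.opp (e i))) false hP.ee' (o + cap rs p) (o + j)
            (by omega) (by omega) (by simpa [lt] using h2)
          have a3 := bA_false rs _ hp' j hj hbp hbj (by omega)
            (by rw [cap_cap rs p hp]; omega)
          rw [cap_cap rs p hp] at a3
          have a4 := hP.ee' (o + cap rs p) (o + cap rs j) (by omega) (by omega)
          have a5 := hP.ee' (o + cap rs j) (o + p) (by omega) (by omega)
          simp only [lt, Bool.false_eq_true, if_false] at a4 a5
          exact ⟨a5, a4⟩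
        | true =>
          have a1 := mono'' (fun i => pos G (G.opp (e i))) true hP.ee' (o + p) (o + j)
            (by omega) (by omega) (by simpa [lt] using h1)
          have a2 := mono'' (fun i => pos G (G.opp (e i))) true hP.ee' (o + j) (o + cap rs p)
            (by omega) (by omega) (by simpa [lt] using h2)
          have a3 := bA_false rs p hp j hj hb hbj (by omega) (by omega)
          have a4 := hP.ee' (o + p) (o + cap rs j) (by omega) (by omega)
          have a5 := hP.ee' (o + cap rs j) (o + cap rs p) (by omega) (by omega)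
          simp only [lt, if_true] at a4 a5
          exact ⟨a4, a5⟩
      | true =>
        exfalso
        have c3 : pick e f o j true = f (o + j) := by simp [pick]
        rw [hbj, c3] at hgj
        have d1 := (hP.f_mem (o + j) (by omega)).2.2
        rw [← hgj, hgy] at d1
        rcases hP.sep d1 with d2 | d2
        · have := d2 (o + cap rs p) (by omega) (o + j) (by omega)
          rw [← hgj] at this
          omega
        · have := d2 (o + p) (by omega) (o + j) (by omega)
          rw [← hgj] at this
          omega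
    | true =>
      have c1 : pick e f o p true = f (o + p) := by simp [pick]
      have c2 : pick e f o (cap rs p) true = f (o + cap rs p) := by simp [pick]
      rw [hb] at h1 h2 hgy hbp
      rw [c1] at h1
      rw [c2] at h2
      simp only [if_true] at hgy
      have h3 := between_le (hZ p hp).1 (hZ p hp).2 (hZ _ hp').1 (hZ _ hp').2 h1 h2
      refine ⟨fun h => hz g h hgy h3.1 h3.2, ?_⟩
      intro j hj hgj
      exfalso
      cases hbj : bA rs j with
      | false =>
        have c3 : pick e f o j false = e (o + j) := by simp [pick]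
        rw [hbj, c3] at hgj
        have d1 := (hP.e_mem (o + j) (by omega)).2.2
        rw [← hgj, hgy] at d1
        rcases hP.sep d1.symm with d2 | d2
        · have := d2 (o + j) (by omega) (o + p) (by omega)
          rw [← hgj] at this
          omega
        · have := d2 (o + j) (by omega) (o + cap rs p) (by omega)
          rw [← hgj] at this
          omega
      | true =>
        have c3 : pick e f o j true = f (o + j) := by simp [pick]
        rw [hbj, c3] at hgj
        subst hgj
        cases s' with
        | false =>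
          have a1 := mono'' (fun i => pos G (G.opp (f i))) false hP.ff' (o + j) (o + p)
            (by omega) (by omega) (by simpa [lt] using h1)
          have a2 := mono'' (fun i => pos G (G.opp (f i))) false hP.ff' (o + cap rs p) (o + j)
            (by omega) (by omega) (by simpa [lt] using h2)
          exact bA_true rs _ hp' j hj hbp hbj (by omega)
            (by rw [cap_cap rs p hp]; omega)
        | true =>
          have a1 := mono'' (fun i => pos G (G.opp (f i))) true hP.ff' (o + p) (o + j)
            (by omega) (by omega) (by simpa [lt] using h1)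
          have a2 := mono'' (fun i => pos G (G.opp (f i))) true hP.ff' (o + j) (o + cap rs p)
            (by omega) (by omega) (by simpa [lt] using h2)
          exact bA_true rs p hp j hj hb hbj (by omega) (by omega)

end Arch

open Arch in
/-- Module (A). -/
theorem stArch : StArch := by
  intro L m
  refine ⟨(3 * m + 1) * (L + 1), ?_⟩
  intro V H G A x U hU hm hpat
  have hK : 3 * U.card < 3 * m + 1 := by omega
  have hlast : ∀ a < 3 * m + 1, a * (L + 1) + L < (3 * m + 1) * (L + 1) := by
    intro a ha
    have : (a + 1) * (L + 1) ≤ (3 * m + 1) * (L + 1) := Nat.mul_le_mul_right _ ha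
    nlinarith
  have hfst : ∀ a < 3 * m + 1, a * (L + 1) < (3 * m + 1) * (L + 1) := by
    intro a ha
    have := hlast a ha
    omega
  rcases hpat with ⟨y, e, f, s, hP⟩ | ⟨y, z, e, f, s, s', hP⟩
  · have hfe : ∀ i j, i < j → j < (3 * m + 1) * (L + 1) →
        lt true (pos G (f i)) (pos G (e j)) := fun i j h1 h2 => by
      simpa [lt] using hP.fe i j h1 h2
    obtain ⟨a, ha, hfree⟩ := free_choice U (3 * m + 1) hK
      (fun i a g => if i = 0 then G.base g = x ∧ le true (pos G (e (a * (L + 1)))) (pos G g) ∧
          le true (pos G g) (pos G (f (a * (L + 1) + L)))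
        else G.base g = y ∧ le s (pos G (G.opp (f (a * (L + 1))))) (pos G g) ∧
          le s (pos G g) (pos G (G.opp (e (a * (L + 1) + L)))))
      (by
        intro i g a a' haa ha' h1 h2
        by_cases hi : i = 0
        · simp only [if_pos hi] at h1 h2
          exact range_disj (P := fun i => pos G (e i)) (Q := fun i => pos G (f i)) hfe haa
            (hfst a' ha') h1.2.2 h2.2.1
        · simp only [if_neg hi] at h1 h2
          exact range_disj (P := fun i => pos G (G.opp (f i)))
            (Q := fun i => pos G (G.opp (e i))) hP.fe' haa (hfst a' ha') h1.2.2 h2.2.1)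
    refine ⟨pos G (e (a * (L + 1))), fun rs h0 hL => ⟨_, arches_T hP (L' := L) (hlast a ha)
      ?_ ?_ rs h0 hL⟩⟩
    · intro g hg hgx h1 h2
      refine hfree 0 g hg ?_
      simp only [if_true]
      exact ⟨hgx, h1, h2⟩
    · intro g hg hgy h1 h2
      refine hfree 1 g hg ?_
      rw [if_neg (by decide)]
      exact ⟨hgy, h1, h2⟩
  · have hfe : ∀ i j, i < j → j < (3 * m + 1) * (L + 1) →
        lt true (pos G (f i)) (pos G (e j)) := fun i j h1 h2 => by
      simpa [lt] using hP.fe i j h1 h2
    obtain ⟨a, ha, hfree⟩ := free_choice U (3 * m + 1) hK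
      (fun i a g => if i = 0 then G.base g = x ∧ le true (pos G (e (a * (L + 1)))) (pos G g) ∧
          le true (pos G g) (pos G (f (a * (L + 1) + L)))
        else if i = 1 then G.base g = y ∧
          le s (pos G (G.opp (e (a * (L + 1))))) (pos G g) ∧
          le s (pos G g) (pos G (G.opp (e (a * (L + 1) + L))))
        else G.base g = z ∧ le s' (pos G (G.opp (f (a * (L + 1))))) (pos G g) ∧
          le s' (pos G g) (pos G (G.opp (f (a * (L + 1) + L)))))
      (by
        intro i g a a' haa ha' h1 h2
        by_cases hi : i = 0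
        · simp only [if_pos hi] at h1 h2
          exact range_disj (P := fun i => pos G (e i)) (Q := fun i => pos G (f i)) hfe haa
            (hfst a' ha') h1.2.2 h2.2.1
        · by_cases hi' : i = 1
          · simp only [if_neg hi, if_pos hi'] at h1 h2
            exact range_disj (P := fun i => pos G (G.opp (e i)))
              (Q := fun i => pos G (G.opp (e i))) hP.ee' haa (hfst a' ha') h1.2.2 h2.2.1
          · simp only [if_neg hi, if_neg hi'] at h1 h2
            exact range_disj (P := fun i => pos G (G.opp (f i)))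
              (Q := fun i => pos G (G.opp (f i))) hP.ff' haa (hfst a' ha') h1.2.2 h2.2.1)
    refine ⟨pos G (e (a * (L + 1))), fun rs h0 hL => ⟨_, arches_A hP (L' := L) (hlast a ha)
      ?_ ?_ ?_ rs h0 hL⟩⟩
    · intro g hg hgx h1 h2
      refine hfree 0 g hg ?_
      simp only [if_true]
      exact ⟨hgx, h1, h2⟩
    · intro g hg hgy h1 h2
      refine hfree 1 g hg ?_
      rw [if_neg (by decide), if_pos rfl]
      exact ⟨hgy, h1, h2⟩
    · intro g hg hgz h1 h2
      refine hfree 2 g hg ?_
      rw [if_neg (by decide), if_neg (by decide)]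
      exact ⟨hgz, h1, h2⟩

end RotWqo.Bag
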