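import Pool.Agent.Lib.MP_cb4a0f_co.Bag.Stmts

/-!
# MP_cb4a0f_co: consecutive blocks of arches realise every matching (module C)
-/

open Classical

namespace RotWqo.Bag

theorem sw_lt {R j p : ℕ} (h : p < R) : sw R j p < R := by
  unfold sw
  split_ifs <;> omega

theorem sw_sw (R j p : ℕ) : sw R j (sw R j p) = p := by
  unfold sw
  split_ifs <;> omega

/-- the properties required in module C -/
def GoodC (R : ℕ) (μ : ℕ → ℕ) (rs : List (ℕ × ℕ)) (bot : ℕ → ℕ) : Prop :=
  R ≤ len rs ∧
    (∀ p < len rs, cap rs p < len rs ∧ cap rs (cap rs p) = p ∧ cap rs p ≠ p) ∧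
    (∀ p, R ≤ p → p < len rs → R ≤ bot p ∧ bot p < len rs ∧ bot (bot p) = p ∧ bot p ≠ p) ∧
    (∀ p q, R ≤ p → p < q → q < bot p → bot p < len rs → p < bot q ∧ bot q < bot p) ∧
    ∀ i < R, Wk (cap rs) bot R i (μ i)

theorem cap_cons_lt {R j : ℕ} {rs : List (ℕ × ℕ)} {p : ℕ} (h : p < R) :
    cap ((R, j) :: rs) p = 2 * R - 1 - sw R j p := by
  simp only [cap, if_pos h]

theorem cap_cons_mid {R j : ℕ} {rs : List (ℕ × ℕ)} {p : ℕ} (h : R ≤ p) (h2 : p < 2 * R) :
    cap ((R, j) :: rs) p = sw R j (2 * R - 1 - p) := by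
  simp only [cap, if_neg (not_lt.2 h), if_pos h2]

theorem cap_cons_ge {R j : ℕ} {rs : List (ℕ × ℕ)} {p : ℕ} :
    cap ((R, j) :: rs) (2 * R + p) = 2 * R + cap rs p := by
  have h1 : ¬ (2 * R + p < R) := by omega
  have h2 : ¬ (2 * R + p < 2 * R) := by omega
  simp only [cap, if_neg h1, if_neg h2, Nat.add_sub_cancel_left]

theorem cap_cons_ok {R j : ℕ} {rs : List (ℕ × ℕ)} (_hR : 0 < R)
    (h : ∀ p < len rs, cap rs p < len rs ∧ cap rs (cap rs p) = p ∧ cap rs p ≠ p) :
    ∀ p < len ((R, j) :: rs), cap ((R, j) :: rs) p < len ((R, j) :: rs) ∧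
      cap ((R, j) :: rs) (cap ((R, j) :: rs) p) = p ∧ cap ((R, j) :: rs) p ≠ p := by
  intro p hp
  have hl : len ((R, j) :: rs) = 2 * R + len rs := rfl
  rw [hl] at hp ⊢
  rcases lt_or_ge p R with h1 | h1
  · have h2 := sw_lt (j := j) h1
    rw [cap_cons_lt h1, cap_cons_mid (by omega) (by omega)]
    refine ⟨by omega, ?_, by omega⟩
    rw [show 2 * R - 1 - (2 * R - 1 - sw R j p) = sw R j p by omega, sw_sw]
  · rcases lt_or_ge p (2 * R) with h2 | h2
    · have h3 : 2 * R - 1 - p < R := by omega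
      have h4 := sw_lt (j := j) h3
      rw [cap_cons_mid h1 h2, cap_cons_lt h4, sw_sw]
      refine ⟨by omega, by omega, by omega⟩
    · obtain ⟨q, rfl⟩ := Nat.exists_eq_add_of_le h2
      obtain ⟨a, b, c⟩ := h q (by omega)
      rw [cap_cons_ge, cap_cons_ge, b]
      refine ⟨by omega, rfl, by omega⟩

/-- one more block in front -/
theorem step_same {R j : ℕ} {μ : ℕ → ℕ} {rs : List (ℕ × ℕ)} {bot : ℕ → ℕ} (hR : 0 < R)
    (hμ : ∀ i < R, μ i < R)
    (h : GoodC R (fun i => sw R j (μ (sw R j i))) rs bot) :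
    GoodC R μ ((R, j) :: rs)
      (fun p => if p < 3 * R then 4 * R - 1 - p else 2 * R + bot (p - 2 * R)) := by
  obtain ⟨h1, h2, h3, h4, h5⟩ := h
  have hl : len ((R, j) :: rs) = 2 * R + len rs := rfl
  have hb1 : ∀ p, p < 3 * R →
      (if p < 3 * R then 4 * R - 1 - p else 2 * R + bot (p - 2 * R)) = 4 * R - 1 - p :=
    fun p hp => if_pos hp
  have hb2 : ∀ q, R ≤ q →
      (if 2 * R + q < 3 * R then 4 * R - 1 - (2 * R + q) else
        2 * R + bot (2 * R + q - 2 * R)) = 2 * R + bot q := by
    intro q hq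
    rw [if_neg (by omega), Nat.add_sub_cancel_left]
  have hw : ∀ p q, Wk (cap rs) bot R p q → Wk (cap ((R, j) :: rs))
      (fun p => if p < 3 * R then 4 * R - 1 - p else 2 * R + bot (p - 2 * R)) R
      (2 * R + p) (sw R j q) := by
    intro p q hpq
    induction hpq with
    | done p hp =>
      refine Wk.step _ _ (by rw [cap_cons_ge]; omega) ?_
      rw [cap_cons_ge, hb1 _ (by omega),
        show 4 * R - 1 - (2 * R + cap rs p) = 2 * R - 1 - cap rs p by omega]
      have e1 : cap ((R, j) :: rs) (2 * R - 1 - cap rs p) = sw R j (cap rs p) := by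
        rw [cap_cons_mid (by omega) (by omega),
          show 2 * R - 1 - (2 * R - 1 - cap rs p) = cap rs p by omega]
      have e2 := sw_lt (j := j) hp
      rw [← e1]
      exact Wk.done _ (by rw [e1]; exact e2)
    | step p q hp _ ih =>
      refine Wk.step _ _ (by rw [cap_cons_ge]; omega) ?_
      rw [cap_cons_ge, hb2 _ hp]
      exact ih
  refine ⟨by omega, cap_cons_ok hR h2, ?_, ?_, ?_⟩
  · intro p hp hp2
    rw [hl] at hp2 ⊢
    dsimp only
    rcases lt_or_ge p (3 * R) with h6 | h6
    · rw [hb1 p h6, hb1 _ (by omega)]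
      omega
    · obtain ⟨q, rfl⟩ := Nat.exists_eq_add_of_le (show 2 * R ≤ p by omega)
      obtain ⟨a, b, c, d⟩ := h3 q (by omega) (by omega)
      rw [hb2 q (by omega), hb2 _ a, c]
      refine ⟨by omega, by omega, rfl, by omega⟩
  · intro p q hp hpq hqb hb
    rw [hl] at hb
    dsimp only at hqb hb ⊢
    rcases lt_or_ge p (3 * R) with h6 | h6
    · rw [hb1 p h6] at hqb hb ⊢
      rw [hb1 q (by omega)]
      omega
    · obtain ⟨p', rfl⟩ := Nat.exists_eq_add_of_le (show 2 * R ≤ p by omega)
      obtain ⟨q', rfl⟩ := Nat.exists_eq_add_of_le (show 2 * R ≤ q by omega)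
      rw [hb2 p' (by omega)] at hqb hb ⊢
      rw [hb2 q' (by omega)]
      have := h4 p' q' (by omega) (by omega) (by omega) (by omega)
      omega
  · intro i hi
    have e1 := sw_lt (j := j) hi
    have e2 : cap ((R, j) :: rs) i = 2 * R - 1 - sw R j i := cap_cons_lt hi
    refine Wk.step _ _ (by rw [e2]; omega) ?_
    rw [e2, hb1 _ (by omega), show 4 * R - 1 - (2 * R - 1 - sw R j i) = 2 * R + sw R j i by omega]
    have e3 := hw _ _ (h5 (sw R j i) e1)
    rw [sw_sw, sw_sw] at e3
    exact e3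

/-- the last two strands are matched: a block without swap, and then the blocks for the others -/
theorem step_two {R : ℕ} {μ : ℕ → ℕ} {rs : List (ℕ × ℕ)} {bot : ℕ → ℕ} (hR : 2 ≤ R)
    (hμ : ∀ i < R, μ i < R ∧ μ (μ i) = i ∧ μ i ≠ i) (hlast : μ (R - 1) = R - 2)
    (h : GoodC (R - 2) μ rs bot) :
    GoodC R μ ((R, R) :: rs)
      (fun p => if p < R + 2 then 2 * R + 1 - p else
        if p < 3 * R - 2 then 4 * R - 1 - p else 2 * R + bot (p - 2 * R)) := by
  obtain ⟨h1, h2, h3, h4, h5⟩ := h
  have hl : len ((R, R) :: rs) = 2 * R + len rs := rfl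
  have hsw : ∀ p, sw R R p = p := by
    intro p
    unfold sw
    rw [if_neg (by omega)]
  have hb0 : ∀ p, p < R + 2 → (if p < R + 2 then 2 * R + 1 - p else
        if p < 3 * R - 2 then 4 * R - 1 - p else 2 * R + bot (p - 2 * R)) = 2 * R + 1 - p :=
    fun p hp => if_pos hp
  have hb1 : ∀ p, R + 2 ≤ p → p < 3 * R - 2 → (if p < R + 2 then 2 * R + 1 - p else
        if p < 3 * R - 2 then 4 * R - 1 - p else 2 * R + bot (p - 2 * R)) = 4 * R - 1 - p := by
    intro p hp hp2
    rw [if_neg (by omega), if_pos hp2]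
  have hb2 : ∀ q, R - 2 ≤ q → (if 2 * R + q < R + 2 then 2 * R + 1 - (2 * R + q) else
        if 2 * R + q < 3 * R - 2 then 4 * R - 1 - (2 * R + q) else
          2 * R + bot (2 * R + q - 2 * R)) = 2 * R + bot q := by
    intro q hq
    rcases Nat.eq_zero_or_pos q with h0 | h0
    · -- then `R = 2`
      have : R = 2 := by omega
      subst this
      rw [if_neg (by omega), if_neg (by omega), Nat.add_sub_cancel_left]
    · rw [if_neg (by omega), if_neg (by omega), Nat.add_sub_cancel_left]
  have hw : ∀ p q, Wk (cap rs) bot (R - 2) p q → Wk (cap ((R, R) :: rs))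
      (fun p => if p < R + 2 then 2 * R + 1 - p else
        if p < 3 * R - 2 then 4 * R - 1 - p else 2 * R + bot (p - 2 * R)) R
      (2 * R + p) q := by
    intro p q hpq
    induction hpq with
    | done p hp =>
      refine Wk.step _ _ (by rw [cap_cons_ge]; omega) ?_
      rw [cap_cons_ge, hb1 _ (by omega) (by omega),
        show 4 * R - 1 - (2 * R + cap rs p) = 2 * R - 1 - cap rs p by omega]
      have e1 : cap ((R, R) :: rs) (2 * R - 1 - cap rs p) = cap rs p := by
        rw [cap_cons_mid (by omega) (by omega),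
          show 2 * R - 1 - (2 * R - 1 - cap rs p) = cap rs p by omega, hsw]
      have e2 : cap ((R, R) :: rs) (2 * R - 1 - cap rs p) < R := by rw [e1]; omega
      have e3 := Wk.done (τ := cap ((R, R) :: rs)) (bot := fun p => if p < R + 2 then 2 * R + 1 - p
        else if p < 3 * R - 2 then 4 * R - 1 - p else 2 * R + bot (p - 2 * R)) (R := R)
        (2 * R - 1 - cap rs p) e2
      rw [e1] at e3
      exact e3
    | step p q hp _ ih =>
      refine Wk.step _ _ (by rw [cap_cons_ge]; omega) ?_
      rw [cap_cons_ge, hb2 _ hp]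
      exact ih
  have hc : ∀ i < R, cap ((R, R) :: rs) i = 2 * R - 1 - i := by
    intro i hi
    rw [cap_cons_lt hi, hsw]
  have hc2 : ∀ i, R ≤ i → i < 2 * R → cap ((R, R) :: rs) i = 2 * R - 1 - i := by
    intro i hi hi2
    rw [cap_cons_mid hi hi2, hsw]
  refine ⟨by omega, cap_cons_ok (by omega) h2, ?_, ?_, ?_⟩
  · intro p hp hp2
    rw [hl] at hp2 ⊢
    dsimp only
    rcases lt_or_ge p (R + 2) with h6 | h6
    · rw [hb0 p h6, hb0 _ (by omega)]
      omega
    · rcases lt_or_ge p (3 * R - 2) with h7 | h7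
      · rw [hb1 p h6 h7, hb1 _ (by omega) (by omega)]
        omega
      · obtain ⟨q, rfl⟩ := Nat.exists_eq_add_of_le (show 2 * R ≤ p by omega)
        obtain ⟨a, b, c, d⟩ := h3 q (by omega) (by omega)
        rw [hb2 q (by omega), hb2 _ a, c]
        refine ⟨by omega, by omega, rfl, by omega⟩
  · intro p q hp hpq hqb hb
    rw [hl] at hb
    dsimp only at hqb hb ⊢
    rcases lt_or_ge p (R + 2) with h6 | h6
    · rw [hb0 p h6] at hqb hb ⊢
      omega
    · rcases lt_or_ge p (3 * R - 2) with h7 | h7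
      · rw [hb1 p h6 h7] at hqb hb ⊢
        rw [hb1 q (by omega) (by omega)]
        omega
      · obtain ⟨p', rfl⟩ := Nat.exists_eq_add_of_le (show 2 * R ≤ p by omega)
        obtain ⟨q', rfl⟩ := Nat.exists_eq_add_of_le (show 2 * R ≤ q by omega)
        rw [hb2 p' (by omega)] at hqb hb ⊢
        rw [hb2 q' (by omega)]
        have := h4 p' q' (by omega) (by omega) (by omega) (by omega)
        omega
  · intro i hi
    have hμR : μ (R - 2) = R - 1 := by
      rw [← hlast]; exact (hμ (R - 1) (by omega)).2.1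
    refine Wk.step _ _ (by rw [hc i hi]; omega) ?_
    rw [hc i hi]
    rcases lt_or_ge i (R - 2) with h6 | h6
    · rw [hb1 _ (by omega) (by omega),
        show 4 * R - 1 - (2 * R - 1 - i) = 2 * R + i by omega]
      exact hw _ _ (h5 i h6)
    · rw [hb0 _ (by omega)]
      have e1 : cap ((R, R) :: rs) (2 * R + 1 - (2 * R - 1 - i)) = 2 * R - 3 - i := by
        rw [hc2 _ (by omega) (by omega)]; omega
      have e4 : μ i = 2 * R - 3 - i := by
        rcases Nat.eq_or_lt_of_le h6 with h7 | h7
        · rw [← h7, hμR]; omega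
        · have : i = R - 1 := by omega
          rw [this, hlast]; omega
      have e2 : cap ((R, R) :: rs) (2 * R + 1 - (2 * R - 1 - i)) < R := by rw [e1]; omega
      have e3 := Wk.done (τ := cap ((R, R) :: rs)) (bot := fun p => if p < R + 2 then 2 * R + 1 - p
        else if p < 3 * R - 2 then 4 * R - 1 - p else 2 * R + bot (p - 2 * R)) (R := R)
        (2 * R + 1 - (2 * R - 1 - i)) e2
      rw [e1, ← e4] at e3
      exact e3

theorem comb_aux (R : ℕ) : ∃ L : ℕ, ∀ μ : ℕ → ℕ,
    (∀ i < R, μ i < R ∧ μ (μ i) = i ∧ μ i ≠ i) →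
    ∃ (rs : List (ℕ × ℕ)) (bot : ℕ → ℕ), len rs ≤ L ∧ GoodC R μ rs bot := by
  induction R using Nat.strong_induction_on with
  | _ R ih =>
    rcases Nat.lt_or_ge R 2 with hR | hR
    · refine ⟨0, fun μ hμ => ?_⟩
      rcases Nat.eq_zero_or_pos R with h0 | h0
      · subst h0
        refine ⟨[], fun p => p, le_refl _, le_refl _, ?_, ?_, ?_, ?_⟩
        · intro p hp; exact absurd hp (Nat.not_lt_zero _)
        · intro p _ hp; exact absurd hp (Nat.not_lt_zero _)
        · intro p q _ _ _ hb; exact absurd hb (Nat.not_lt_zero _)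
        · intro i hi; exact absurd hi (Nat.not_lt_zero _)
      · have h1 : R = 1 := by omega
        subst h1
        obtain ⟨a, _, c⟩ := hμ 0 (by omega)
        omega
    · obtain ⟨L, hL⟩ := ih (R - 2) (by omega)
      have key : ∀ d : ℕ, ∀ μ : ℕ → ℕ, (∀ i < R, μ i < R ∧ μ (μ i) = i ∧ μ i ≠ i) →
          R - 2 - μ (R - 1) ≤ d → ∃ (rs : List (ℕ × ℕ)) (bot : ℕ → ℕ),
            len rs ≤ 2 * R * (d + 1) + L ∧ GoodC R μ rs bot := by
        intro d
        induction d with
        | zero =>
          intro μ hμ hd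
          obtain ⟨a, b, c⟩ := hμ (R - 1) (by omega)
          have hlast : μ (R - 1) = R - 2 := by omega
          have hμR : μ (R - 2) = R - 1 := by rw [← hlast]; exact b
          have hμ' : ∀ i < R - 2, μ i < R - 2 ∧ μ (μ i) = i ∧ μ i ≠ i := by
            intro i hi
            obtain ⟨a', b', c'⟩ := hμ i (by omega)
            refine ⟨?_, b', c'⟩
            have n1 : μ i ≠ R - 1 := by
              intro h; rw [h] at b'; omega
            have n2 : μ i ≠ R - 2 := by
              intro h; rw [h] at b'; omega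
            omega
          obtain ⟨rs, bot, h1, h2⟩ := hL μ hμ'
          refine ⟨(R, R) :: rs, _, ?_, step_two hR hμ hlast h2⟩
          have hl : len ((R, R) :: rs) = 2 * R + len rs := rfl
          rw [hl]
          omega
        | succ d ihd =>
          intro μ hμ hd
          rcases Nat.lt_or_ge (R - 2 - μ (R - 1)) (d + 1) with h6 | h6
          · obtain ⟨rs, bot, h1, h2⟩ := ihd μ hμ (by omega)
            refine ⟨rs, bot, h1.trans ?_, h2⟩
            have : 2 * R * (d + 1) ≤ 2 * R * (d + 1 + 1) := Nat.mul_le_mul_left _ (by omega)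
            omega
          · obtain ⟨a, b, c⟩ := hμ (R - 1) (by omega)
            obtain ⟨j, hj⟩ : ∃ j, j = μ (R - 1) := ⟨_, rfl⟩
            have hj2 : j + 1 < R := by omega
            have hswR : sw R j (R - 1) = R - 1 := by
              unfold sw
              rw [if_pos hj2, if_neg (by omega), if_neg (by omega)]
            have hswj : sw R j j = j + 1 := by
              unfold sw
              rw [if_pos hj2, if_pos rfl]
            have hμ' : ∀ i < R, sw R j (μ (sw R j i)) < R ∧
                sw R j (μ (sw R j (sw R j (μ (sw R j i))))) = i ∧ sw R j (μ (sw R j i)) ≠ i := by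
              intro i hi
              obtain ⟨a', b', c'⟩ := hμ (sw R j i) (sw_lt hi)
              refine ⟨sw_lt a', ?_, ?_⟩
              · rw [sw_sw, b', sw_sw]
              · intro h
                apply c'
                rw [← sw_sw R j (μ (sw R j i)), h]
            obtain ⟨rs, bot, h1, h2⟩ := ihd (fun i => sw R j (μ (sw R j i))) hμ' (by
              rw [hswR, ← hj, hswj]
              omega)
            refine ⟨(R, j) :: rs, _, ?_, step_same (by omega) (fun i hi => (hμ i hi).1) h2⟩
            have hl : len ((R, j) :: rs) = 2 * R + len rs := rfl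
            rw [hl]
            have : 2 * R * (d + 1 + 1) = 2 * R * (d + 1) + 2 * R := by ring
            omega
      refine ⟨2 * R * (R + 1) + L, fun μ hμ => ?_⟩
      exact key R μ hμ (by omega)

theorem stComb : StComb := by
  intro R
  obtain ⟨L, hL⟩ := comb_aux R
  refine ⟨L, fun μ hμ => ?_⟩
  obtain ⟨rs, bot, h0, h1, h2, h3, h4, h5⟩ := hL μ hμ
  exact ⟨rs, bot, h0, h1, h2, h3, h4, h5⟩

end RotWqo.Bag
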