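import Pool.Agent.Lib.MP_cb4a0f_co.Bag.SkelDef

/-!
# MP_cb4a0f_co: pieces with few bad half-edges have coordinates
-/

open Classical

namespace RotWqo.Bag

universe u v

namespace Crd8

/-! ### A sequence with steps of size one -/

/-- An injective sequence in an interval of its own length with steps of size one is increasing or
decreasing. -/
lemma steps (f : ℕ → ℕ) (s : ℕ)
    (h1 : ∀ i, i + 1 < s → f (i + 1) = f i + 1 ∨ f i = f (i + 1) + 1)
    (hinj : ∀ i < s, ∀ j < s, f i = f j → i = j) :
    (∀ i < s, f i = f 0 + i) ∨ ∀ i < s, f 0 = f i + i := by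
  induction s with
  | zero => left; intro i hi; omega
  | succ n ih =>
    have h2 := ih (fun i hi => h1 i (by omega)) (fun i hi j hj => hinj i (by omega) j (by omega))
    rcases Nat.eq_zero_or_pos n with rfl | hn
    · left
      intro i hi
      have : i = 0 := by omega
      subst this
      rfl
    · have h3 := h1 (n - 1) (by omega)
      rw [Nat.sub_add_cancel hn] at h3
      rcases Nat.lt_or_ge n 2 with hn2 | hn2
      · have hn1 : n = 1 := by omega
        subst hn1
        simp only [Nat.sub_self] at h3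
        rcases h3 with h3 | h3
        · left
          intro i hi
          rcases Nat.lt_or_ge i 1 with h | h
          · have : i = 0 := by omega
            subst this
            rfl
          · have : i = 1 := by omega
            subst this
            exact h3
        · right
          intro i hi
          rcases Nat.lt_or_ge i 1 with h | h
          · have : i = 0 := by omega
            subst this
            rfl
          · have : i = 1 := by omega
            subst this
            exact h3
      · rcases h2 with h2 | h2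
        · left
          intro i hi
          rcases Nat.lt_or_ge i n with h | h
          · exact h2 i h
          · have hin : i = n := by omega
            subst hin
            rcases h3 with h3 | h3
            · rw [h3, h2 (i - 1) (by omega)]
              omega
            · exfalso
              have h4 := h2 (i - 1) (by omega)
              have h5 := h2 (i - 2) (by omega)
              have h6 := hinj i (by omega) (i - 2) (by omega) (by omega)
              omega
        · right
          intro i hi
          rcases Nat.lt_or_ge i n with h | h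
          · exact h2 i h
          · have hin : i = n := by omega
            subst hin
            rcases h3 with h3 | h3
            · exfalso
              have h4 := h2 (i - 1) (by omega)
              have h5 := h2 (i - 2) (by omega)
              have h6 := hinj i (by omega) (i - 2) (by omega) (by omega)
              omega
            · have h4 := h2 (i - 1) (by omega)
              omega

lemma steps' (f : ℕ → ℕ) (s t : ℕ)
    (h1 : ∀ i, i + 1 < s → f (i + 1) = f i + 1 ∨ f i = f (i + 1) + 1)
    (hinj : ∀ i < s, ∀ j < s, f i = f j → i = j) (hr : ∀ i < s, t ≤ f i ∧ f i < t + s) :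
    (∀ i < s, f i = t + i) ∨ ∀ i < s, f i = t + (s - 1 - i) := by
  rcases Nat.eq_zero_or_pos s with rfl | hs
  · left; intro i hi; omega
  rcases steps f s h1 hinj with h | h
  · left
    intro i hi
    have h2 := h i hi
    have h3 := h (s - 1) (by omega)
    have h4 := hr 0 hs
    have h5 := hr (s - 1) (by omega)
    omega
  · right
    intro i hi
    have h2 := h i hi
    have h3 := h (s - 1) (by omega)
    have h4 := hr 0 hs
    have h5 := hr (s - 1) (by omega)
    omega

variable {V : Type u} {H : Type v} {G : RotGraph V H} {A : Finset V}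

/-! ### Classes -/

/-- The number of bad half-edges at `v` before the place `i`. -/
noncomputable def cn (G : RotGraph V H) (A : Finset V) (v : V) (i : ℕ) : ℕ :=
  ((Bad G A).filter (fun g => G.base g = v ∧ pos G g < i)).card

/-- The class of a half-edge. -/
noncomputable def cl (G : RotGraph V H) (A : Finset V) (h : H) : ℕ :=
  cn G A (G.base h) (pos G h)

/-- The first place of the class `j` at `v`. -/
noncomputable def st (G : RotGraph V H) (A : Finset V) (v : V) (j : ℕ) : ℕ :=
  ((Finset.range (G.rot v).length).filter (fun i => cn G A v i < j)).card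

/-- The number of members of the class `j` at `v`. -/
noncomputable def sz (G : RotGraph V H) (A : Finset V) (v : V) (j : ℕ) : ℕ :=
  st G A v (j + 1) - st G A v j

/-- The place of a half-edge in its class. -/
noncomputable def off (G : RotGraph V H) (A : Finset V) (h : H) : ℕ :=
  pos G h - st G A (G.base h) (cl G A h)

lemma cn_mono (v : V) : Monotone (cn G A v) := by
  intro i j hij
  refine Finset.card_le_card fun g hg => ?_
  rw [Finset.mem_filter] at hg ⊢
  exact ⟨hg.1, hg.2.1, by omega⟩

lemma lt_st {v : V} {i j : ℕ} (hi : i < (G.rot v).length) :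
    i < st G A v j ↔ cn G A v i < j := by
  constructor
  · intro h
    by_contra hc
    push Not at hc
    have h1 : ((Finset.range (G.rot v).length).filter (fun i => cn G A v i < j)) ⊆
        Finset.range i := by
      intro k hk
      rw [Finset.mem_filter] at hk
      rw [Finset.mem_range]
      by_contra hki
      push Not at hki
      have h2 := cn_mono (G := G) (A := A) v hki
      have h3 := hk.2
      omega
    have h2 := Finset.card_le_card h1
    rw [Finset.card_range] at h2
    have h3 : st G A v j ≤ i := h2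
    omega
  · intro h
    have h1 : Finset.range (i + 1) ⊆
        ((Finset.range (G.rot v).length).filter (fun i => cn G A v i < j)) := by
      intro k hk
      rw [Finset.mem_range] at hk
      exact Finset.mem_filter.2 ⟨Finset.mem_range.2 (by omega),
        lt_of_le_of_lt (cn_mono v (by omega)) h⟩
    have h2 := Finset.card_le_card h1
    rw [Finset.card_range] at h2
    exact h2

lemma st_le (v : V) (j : ℕ) : st G A v j ≤ (G.rot v).length := by
  have := Finset.card_filter_le (Finset.range (G.rot v).length) (fun i => cn G A v i < j)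
  rwa [Finset.card_range] at this

lemma st_mono (v : V) {i j : ℕ} (h : i ≤ j) : st G A v i ≤ st G A v j := by
  refine Finset.card_le_card fun k hk => ?_
  rw [Finset.mem_filter] at hk ⊢
  exact ⟨hk.1, by omega⟩

lemma pos_lt {h : H} (hh : h ∈ G.darts) : pos G h < (G.rot (G.base h)).length :=
  List.idxOf_lt_length_of_mem (mem_rot_of hh)

lemma exists_at (v : V) {i : ℕ} (hi : i < (G.rot v).length) :
    ∃ h ∈ G.darts, G.base h = v ∧ pos G h = i := by
  have h1 := (G.mem_rot v (G.rot v)[i]).1 (List.getElem_mem hi)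
  exact ⟨_, h1.1, h1.2, by rw [pos_eq h1.2]; exact (G.nodup v).idxOf_getElem i hi⟩

/-- The members of a class are the half-edges in an interval of places. -/
lemma cl_eq_iff {h : H} (hh : h ∈ G.darts) {j : ℕ} : cl G A h = j ↔
    st G A (G.base h) j ≤ pos G h ∧ pos G h < st G A (G.base h) (j + 1) := by
  have h1 := lt_st (A := A) (j := j) (pos_lt hh)
  have h2 := lt_st (A := A) (j := j + 1) (pos_lt hh)
  have h3 : cl G A h = cn G A (G.base h) (pos G h) := rfl
  rw [h2, ← not_lt, h1, ← h3]
  omega

lemma pos_eq_off {h : H} (hh : h ∈ G.darts) :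
    pos G h = st G A (G.base h) (cl G A h) + off G A h := by
  have := ((cl_eq_iff (A := A) hh).1 rfl).1
  unfold off
  omega

lemma off_lt {h : H} (hh : h ∈ G.darts) : off G A h < sz G A (G.base h) (cl G A h) := by
  have := (cl_eq_iff (A := A) hh).1 rfl
  unfold off sz
  omega

lemma cl_le {N : ℕ} (hN : (Bad G A).card ≤ N) (h : H) : cl G A h ≤ N :=
  (Finset.card_filter_le _ _).trans hN

lemma exists_off (v : V) {j o : ℕ} (ho : o < sz G A v j) :
    ∃ h ∈ G.darts, G.base h = v ∧ cl G A h = j ∧ off G A h = o := by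
  have h1 := st_le (G := G) (A := A) v (j + 1)
  unfold sz at ho
  obtain ⟨h, hh, hv, hp⟩ := exists_at (G := G) v (i := st G A v j + o) (by omega)
  have hc : cl G A h = j := by
    rw [cl_eq_iff hh, hv, hp]
    omega
  refine ⟨h, hh, hv, hc, ?_⟩
  unfold off
  rw [hv, hc, hp]
  omega

lemma cl_mono {h h' : H} (hv : G.base h = G.base h') (hp : pos G h ≤ pos G h') :
    cl G A h ≤ cl G A h' := by
  unfold cl
  rw [hv]
  exact cn_mono _ hp

lemma off_inj {h h' : H} (hh : h ∈ G.darts) (hh' : h' ∈ G.darts) (hv : G.base h = G.base h')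
    (hc : cl G A h = cl G A h') (ho : off G A h = off G A h') : h = h' := by
  refine pos_inj hh hh' hv ?_
  rw [pos_eq_off (A := A) hh, pos_eq_off (A := A) hh', hv, hc, ho]

lemma pos_lt_iff {h h' : H} (hh : h ∈ G.darts) (hh' : h' ∈ G.darts)
    (hv : G.base h = G.base h') :
    pos G h < pos G h' ↔ cl G A h < cl G A h' ∨ cl G A h = cl G A h' ∧ off G A h < off G A h' := by
  have h1 := pos_eq_off (A := A) hh
  have h2 := pos_eq_off (A := A) hh'
  rw [hv] at h1
  rcases lt_trichotomy (cl G A h) (cl G A h') with hc | hc | hc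
  · refine ⟨fun _ => Or.inl hc, fun _ => ?_⟩
    by_contra hn
    push Not at hn
    have := cl_mono (A := A) hv.symm hn
    omega
  · rw [hc] at h1
    constructor
    · intro h3
      exact Or.inr ⟨hc, by omega⟩
    · rintro (h3 | ⟨_, h3⟩)
      · omega
      · omega
  · constructor
    · intro h3
      have := cl_mono (A := A) hv h3.le
      omega
    · rintro (h3 | ⟨h3, _⟩) <;> omega

/-! ### Parallel half-edges -/

lemma step_par {h h' : H} (hh : h ∈ G.darts) (hh' : h' ∈ G.darts) (hA : G.base h ∈ A)
    (hv : G.base h' = G.base h) (hp : pos G h' = pos G h + 1) (hc : cl G A h' = cl G A h) :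
    Par G A h h' := by
  by_contra hn
  have hb : h ∈ Bad G A := Finset.mem_filter.2 ⟨hh, hA, h', hh', hv, hp, hn⟩
  have h1 : cn G A (G.base h) (pos G h) < cn G A (G.base h) (pos G h + 1) := by
    refine Finset.card_lt_card ?_
    rw [Finset.ssubset_iff_of_subset]
    · refine ⟨h, Finset.mem_filter.2 ⟨hb, rfl, Nat.lt_succ_self _⟩, fun h2 => ?_⟩
      exact lt_irrefl _ (Finset.mem_filter.1 h2).2.2
    · intro g hg
      rw [Finset.mem_filter] at hg ⊢
      exact ⟨hg.1, hg.2.1, by omega⟩
  unfold cl at hc
  rw [hv, hp] at hc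
  omega

lemma par_cl {h h' : H} (hpar : Par G A h h') : cl G A h' = cl G A h := by
  obtain ⟨hi, hi', hv, -, hp, -⟩ := id hpar
  have hb : h ∉ Bad G A := by
    intro hb
    obtain ⟨-, -, k, hk, hkv, hkp, hkn⟩ := Finset.mem_filter.1 hb
    have : k = h' := pos_inj hk hi'.1 (hkv.trans hv.symm) (by omega)
    subst this
    exact hkn hpar
  unfold cl
  rw [hv, hp]
  unfold cn
  congr 1
  ext g
  simp only [Finset.mem_filter]
  constructor
  · rintro ⟨h1, h2, h3⟩
    refine ⟨h1, h2, ?_⟩
    by_contra h4
    have h5 : g = h := pos_inj (Finset.mem_filter.1 h1).1 hi.1 h2 (by omega)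
    subst h5
    exact hb h1
  · rintro ⟨h1, h2, h3⟩
    exact ⟨h1, h2, by omega⟩

lemma inn_opp {h : H} (hi : Inn G A h) : Inn G A (G.opp h) := by
  obtain ⟨h1, h2, h3, h4⟩ := hi
  refine ⟨G.opp_mem _ h1, h3, ?_, ?_⟩
  · rwa [G.opp_opp _ h1]
  · rw [G.opp_opp _ h1]
    exact fun h => h4 h.symm

lemma par_opp {h h' : H} (hpar : Par G A h h') :
    Par G A (G.opp h) (G.opp h') ∨ Par G A (G.opp h') (G.opp h) := by
  obtain ⟨hi, hi', hv, hv', hp, hq⟩ := hpar
  rcases hq with hq | hq
  · left
    refine ⟨inn_opp hi, inn_opp hi', hv', ?_, hq, ?_⟩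
    · rw [G.opp_opp _ hi.1, G.opp_opp _ hi'.1]
      exact hv
    · left
      rw [G.opp_opp _ hi.1, G.opp_opp _ hi'.1]
      exact hp
  · right
    refine ⟨inn_opp hi', inn_opp hi, hv'.symm, ?_, hq, ?_⟩
    · rw [G.opp_opp _ hi.1, G.opp_opp _ hi'.1]
      exact hv.symm
    · right
      rw [G.opp_opp _ hi.1, G.opp_opp _ hi'.1]
      exact hp

lemma par_cl_opp {h h' : H} (hpar : Par G A h h') : cl G A (G.opp h') = cl G A (G.opp h) := by
  rcases par_opp hpar with h1 | h1
  · exact par_cl h1
  · exact (par_cl h1).symm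

lemma same_aux (n : ℕ) : ∀ h h' : H, h ∈ G.darts → h' ∈ G.darts → G.base h ∈ A →
    G.base h' = G.base h → cl G A h' = cl G A h → pos G h' = pos G h + (n + 1) →
    Inn G A h ∧ Inn G A h' ∧ G.base (G.opp h') = G.base (G.opp h) ∧
      cl G A (G.opp h') = cl G A (G.opp h) := by
  induction n with
  | zero =>
    intro h h' hh hh' hA hv hc hp
    have h1 := step_par hh hh' hA hv hp hc
    exact ⟨h1.1, h1.2.1, h1.2.2.2.1, par_cl_opp h1⟩
  | succ n ih =>
    intro h h' hh hh' hA hv hc hp
    have h1 := pos_lt hh'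
    rw [hv] at h1
    obtain ⟨k, hk, hkv, hkp⟩ := exists_at (G := G) (G.base h) (i := pos G h + 1) (by omega)
    have h2 : cl G A h ≤ cl G A k := cl_mono hkv.symm (by omega)
    have h3 : cl G A k ≤ cl G A h' := cl_mono (hkv.trans hv.symm) (by omega)
    have hkc : cl G A k = cl G A h := by omega
    have h4 := step_par hh hk hA hkv hkp hkc
    have h5 := ih k h' hk hh' (hkv ▸ hA) (hv.trans hkv.symm) (hc.trans hkc.symm) (by omega)
    exact ⟨h4.1, h5.2.1, h5.2.2.1.trans h4.2.2.2.1, h5.2.2.2.trans (par_cl_opp h4)⟩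

/-- Two members of a class belong to edges inside the piece, and their other halves are in one
class. -/
lemma same {h h' : H} (hh : h ∈ G.darts) (hh' : h' ∈ G.darts) (hA : G.base h ∈ A)
    (hv : G.base h' = G.base h) (hc : cl G A h' = cl G A h) (hne : h' ≠ h) :
    Inn G A h ∧ Inn G A h' ∧ G.base (G.opp h') = G.base (G.opp h) ∧
      cl G A (G.opp h') = cl G A (G.opp h) := by
  rcases lt_trichotomy (pos G h) (pos G h') with hp | hp | hp
  · exact same_aux (pos G h' - pos G h - 1) h h' hh hh' hA hv hc (by omega)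
  · exact absurd (pos_inj hh' hh hv hp.symm) hne
  · obtain ⟨h1, h2, h3, h4⟩ := same_aux (pos G h - pos G h' - 1) h' h hh' hh (hv ▸ hA) hv.symm
      hc.symm (by omega)
    exact ⟨h2, h1, h3.symm, h4.symm⟩

lemma same' {h h' : H} (hh : h ∈ G.darts) (hh' : h' ∈ G.darts) (hA : G.base h ∈ A)
    (hv : G.base h' = G.base h) (hc : cl G A h' = cl G A h) :
    G.base (G.opp h') = G.base (G.opp h) ∧ cl G A (G.opp h') = cl G A (G.opp h) := by
  by_cases hne : h' = h
  · subst hne
    exact ⟨rfl, rfl⟩
  · exact (same hh hh' hA hv hc hne).2.2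

lemma opp_inj {h h' : H} (hh : h ∈ G.darts) (hh' : h' ∈ G.darts) (he : G.opp h = G.opp h') :
    h = h' := by
  rw [← G.opp_opp _ hh, he, G.opp_opp _ hh']

/-- The place of the other half of the member number `i` of a class. -/
noncomputable def fo (G : RotGraph V H) (A : Finset V) (v : V) (j i : ℕ) : ℕ :=
  if hx : ∃ h ∈ G.darts, G.base h = v ∧ cl G A h = j ∧ off G A h = i
  then pos G (G.opp hx.choose) else 0

lemma fo_eq {h : H} (hh : h ∈ G.darts) :
    fo G A (G.base h) (cl G A h) (off G A h) = pos G (G.opp h) := by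
  have hx : ∃ h' ∈ G.darts, G.base h' = G.base h ∧ cl G A h' = cl G A h ∧
    off G A h' = off G A h := ⟨h, hh, rfl, rfl, rfl⟩
  have h1 := hx.choose_spec
  unfold fo
  rw [dif_pos hx]
  rw [off_inj h1.1 hh h1.2.1 h1.2.2.1 h1.2.2.2]

lemma fo_range {h : H} (hh : h ∈ G.darts) (hA : G.base h ∈ A) :
    ∀ i < sz G A (G.base h) (cl G A h),
      st G A (G.base (G.opp h)) (cl G A (G.opp h)) ≤ fo G A (G.base h) (cl G A h) i ∧
      fo G A (G.base h) (cl G A h) i < st G A (G.base (G.opp h)) (cl G A (G.opp h)) +
        sz G A (G.base (G.opp h)) (cl G A (G.opp h)) := by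
  intro i hi
  obtain ⟨k, hk, hkv, hkc, hko⟩ := exists_off (G := G) (A := A) _ hi
  have h1 := fo_eq (A := A) hk
  rw [hkv, hkc, hko] at h1
  have h2 := same' hh hk hA hkv hkc
  have h3 := (cl_eq_iff (A := A) (G.opp_mem _ hk) (j := cl G A (G.opp h))).1 h2.2
  rw [h2.1] at h3
  have h4 := st_mono (G := G) (A := A) (G.base (G.opp h)) (Nat.le_succ (cl G A (G.opp h)))
  rw [h1]
  unfold sz
  rw [Nat.succ_eq_add_one] at h4
  omega

lemma fo_inj {h : H} (hh : h ∈ G.darts) (hA : G.base h ∈ A) :
    ∀ i < sz G A (G.base h) (cl G A h), ∀ j < sz G A (G.base h) (cl G A h),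
      fo G A (G.base h) (cl G A h) i = fo G A (G.base h) (cl G A h) j → i = j := by
  intro i hi j hj hij
  obtain ⟨k, hk, hkv, hkc, hko⟩ := exists_off (G := G) (A := A) _ hi
  obtain ⟨l, hl, hlv, hlc, hlo⟩ := exists_off (G := G) (A := A) _ hj
  have h1 := fo_eq (A := A) hk
  rw [hkv, hkc, hko] at h1
  have h2 := fo_eq (A := A) hl
  rw [hlv, hlc, hlo] at h2
  have h3 := same' hh hk hA hkv hkc
  have h4 := same' hh hl hA hlv hlc
  have h5 : G.opp k = G.opp l := pos_inj (G.opp_mem _ hk) (G.opp_mem _ hl)
    (h3.1.trans h4.1.symm) (by omega)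
  have h6 := opp_inj hk hl h5
  rw [← hko, ← hlo, h6]

lemma sz_le {h : H} (hh : h ∈ G.darts) (hA : G.base h ∈ A) :
    sz G A (G.base h) (cl G A h) ≤ sz G A (G.base (G.opp h)) (cl G A (G.opp h)) := by
  have h1 := Finset.card_le_card_of_injOn (s := Finset.range (sz G A (G.base h) (cl G A h)))
    (t := Finset.Ico (st G A (G.base (G.opp h)) (cl G A (G.opp h)))
      (st G A (G.base (G.opp h)) (cl G A (G.opp h)) +
        sz G A (G.base (G.opp h)) (cl G A (G.opp h)))) (fo G A (G.base h) (cl G A h))
    (by
      intro i hi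
      exact Finset.mem_coe.2 (Finset.mem_Ico.2 (fo_range hh hA i (Finset.mem_range.1 hi))))
    (by
      intro i hi j hj hij
      exact fo_inj hh hA i (Finset.mem_range.1 hi) j (Finset.mem_range.1 hj) hij)
  rwa [Finset.card_range, Nat.card_Ico, Nat.add_sub_cancel_left] at h1

lemma sz_eq {h : H} (hh : h ∈ G.darts) (hA : G.base h ∈ A) (hA' : G.base (G.opp h) ∈ A) :
    sz G A (G.base (G.opp h)) (cl G A (G.opp h)) = sz G A (G.base h) (cl G A h) := by
  refine le_antisymm ?_ (sz_le hh hA)
  have := sz_le (G.opp_mem _ hh) hA'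
  rwa [G.opp_opp _ hh] at this

lemma dir {h : H} (hh : h ∈ G.darts) (hA : G.base h ∈ A) (hA' : G.base (G.opp h) ∈ A) :
    (∀ k ∈ G.darts, G.base k = G.base h → cl G A k = cl G A h →
      off G A (G.opp k) = off G A k) ∨
    (∀ k ∈ G.darts, G.base k = G.base h → cl G A k = cl G A h →
      off G A (G.opp k) = sz G A (G.base h) (cl G A h) - 1 - off G A k) := by
  have h1 : ∀ i, i + 1 < sz G A (G.base h) (cl G A h) →
      fo G A (G.base h) (cl G A h) (i + 1) = fo G A (G.base h) (cl G A h) i + 1 ∨
      fo G A (G.base h) (cl G A h) i = fo G A (G.base h) (cl G A h) (i + 1) + 1 := by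
    intro i hi
    obtain ⟨k, hk, hkv, hkc, hko⟩ := exists_off (G := G) (A := A) _
      (Nat.lt_of_succ_lt hi)
    obtain ⟨l, hl, hlv, hlc, hlo⟩ := exists_off (G := G) (A := A) _ hi
    have e1 := fo_eq (A := A) hk
    rw [hkv, hkc, hko] at e1
    have e2 := fo_eq (A := A) hl
    rw [hlv, hlc, hlo] at e2
    have e3 := pos_eq_off (A := A) hk
    have e4 := pos_eq_off (A := A) hl
    rw [hkv, hkc, hko] at e3
    rw [hlv, hlc, hlo] at e4
    have e5 := step_par hk hl (hkv ▸ hA) (hlv.trans hkv.symm) (by omega) (hlc.trans hkc.symm)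
    rw [e1, e2]
    exact e5.2.2.2.2.2
  have h2 := steps' (fo G A (G.base h) (cl G A h)) (sz G A (G.base h) (cl G A h))
    (st G A (G.base (G.opp h)) (cl G A (G.opp h))) h1 (fo_inj hh hA) (by
      have := fo_range hh hA
      rwa [sz_eq hh hA hA'] at this)
  have key : ∀ k ∈ G.darts, G.base k = G.base h → cl G A k = cl G A h →
      off G A k < sz G A (G.base h) (cl G A h) ∧
      fo G A (G.base h) (cl G A h) (off G A k) =
        st G A (G.base (G.opp h)) (cl G A (G.opp h)) + off G A (G.opp k) := by
    intro k hk hkv hkc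
    have e1 := fo_eq (A := A) hk
    have e2 := same' hh hk hA hkv hkc
    have e3 := pos_eq_off (A := A) (G.opp_mem _ hk)
    have e4 := off_lt (A := A) hk
    rw [hkv, hkc] at e1 e4
    rw [e2.1, e2.2] at e3
    exact ⟨e4, e1.trans e3⟩
  rcases h2 with h2 | h2
  · left
    intro k hk hkv hkc
    obtain ⟨e1, e2⟩ := key k hk hkv hkc
    have e3 := h2 _ e1
    omega
  · right
    intro k hk hkv hkc
    obtain ⟨e1, e2⟩ := key k hk hkv hkc
    have e3 := h2 _ e1
    omega

/-- The lexicographic order. -/
def lx (a b : ℕ × ℕ) : Prop := a.1 < b.1 ∨ a.1 = b.1 ∧ a.2 < b.2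

end Crd8

open Crd8 in
theorem stCrd : StCrd.{u, v} := by
  intro V H G A N hAv hN
  rcases isEmpty_or_nonempty V with hV | hV
  · have : IsEmpty H := ⟨fun h => hV.false (G.base h)⟩
    refine ⟨fun _ => 0, fun _ => 0, fun _ => 0, fun _ _ => 0, fun _ _ => false,
      fun _ _ => false, fun _ _ => (0, 0), ?_⟩
    have hA0 : A = ∅ := by
      ext x
      exact (hV.false x).elim
    subst hA0
    refine ⟨?_, ?_, ?_, ?_, ?_, ?_, ?_, ?_, ?_, ?_⟩
    · simp
    · intro h; exact isEmptyElim h
    · intro h; exact isEmptyElim h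
    · intro v; exact isEmptyElim v
    · intro h; exact isEmptyElim h
    · intro h; exact isEmptyElim h
    · intro v; exact isEmptyElim v
    · intro h; exact isEmptyElim h
    · intro h; exact isEmptyElim h
    · intro h; exact isEmptyElim h
  -- numbering of the vertices
  obtain ⟨e, he⟩ : ∃ e : V → ℕ, Set.BijOn e (A : Set V) (Finset.range A.card : Set ℕ) := by
    let e : V → ℕ := fun v => if hv : v ∈ A then (A.equivFin ⟨v, hv⟩ : ℕ) else 0
    have hev : ∀ v (hv : v ∈ A), e v = (A.equivFin ⟨v, hv⟩ : ℕ) := fun v hv => dif_pos hv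
    refine ⟨e, ?_, ?_, ?_⟩
    · intro v hv
      rw [hev v hv]
      exact Finset.mem_coe.2 (Finset.mem_range.2 (A.equivFin ⟨v, hv⟩).2)
    · intro v hv w hw hvw
      rw [hev v hv, hev w hw] at hvw
      have := A.equivFin.injective (Fin.ext hvw)
      exact congrArg Subtype.val this
    · intro i hi
      have hi' : i < A.card := Finset.mem_range.1 (Finset.mem_coe.1 hi)
      refine ⟨(A.equivFin.symm ⟨i, hi'⟩).1, (A.equivFin.symm ⟨i, hi'⟩).2, ?_⟩
      rw [hev _ (A.equivFin.symm ⟨i, hi'⟩).2]
      simp
  have hinv : ∀ v ∈ A, Function.invFunOn e (A : Set V) (e v) = v := fun v hv =>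
    he.injOn.leftInvOn_invFunOn (Finset.mem_coe.2 hv)
  set inv := Function.invFunOn e (A : Set V) with hinvdef
  -- the class of the other halves
  let P : ℕ → ℕ → ℕ × ℕ := fun i j =>
    if hx : ∃ h ∈ dts G A, G.base h = inv i ∧ cl G A h = j
    then (e (G.base (G.opp hx.choose)), cl G A (G.opp hx.choose)) else (0, 0)
  have hmem : ∀ {h : H}, h ∈ dts G A ↔ h ∈ G.darts ∧ G.base h ∈ A := by
    intro h
    unfold dts
    rw [Finset.mem_filter]
  have hP : ∀ h ∈ dts G A,
      P (e (G.base h)) (cl G A h) = (e (G.base (G.opp h)), cl G A (G.opp h)) := by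
    intro h hh
    have hA := (hmem.1 hh).2
    have hx : ∃ h' ∈ dts G A, G.base h' = inv (e (G.base h)) ∧ cl G A h' = cl G A h :=
      ⟨h, hh, (hinv _ hA).symm, rfl⟩
    have h1 := hx.choose_spec
    have h2 : P (e (G.base h)) (cl G A h) =
      (e (G.base (G.opp hx.choose)), cl G A (G.opp hx.choose)) := dif_pos hx
    rw [h2]
    have h3 := same' (hmem.1 hh).1 (hmem.1 h1.1).1 hA (h1.2.1.trans (hinv _ hA)) h1.2.2
    rw [h3.1, h3.2]
  let R : ℕ → ℕ → Prop := fun i j =>
    ¬ ∀ h ∈ dts G A, G.base h = inv i → cl G A h = j → off G A (G.opp h) = off G A h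
  refine ⟨e, cl G A, off G A, fun i j => sz G A (inv i) j,
    fun i j => decide (∃ h ∈ bd G A, G.base h = inv i ∧ cl G A h = j),
    fun i j => decide (R i j ∧ lx (P i j) (i, j)), P, ?_⟩
  refine ⟨he, fun h _ => cl_le hN h, ?_, ?_, ?_, ?_, ?_, ?_, ?_, ?_⟩
  · -- off_lt
    intro h hh
    simp only [hinv _ (hmem.1 hh).2]
    exact off_lt (hmem.1 hh).1
  · -- surj
    intro v hv j _ o ho
    simp only [hinv _ hv] at ho
    obtain ⟨h, h1, h2, h3, h4⟩ := exists_off (G := G) (A := A) v ho
    exact ⟨h, hmem.2 ⟨h1, h2 ▸ hv⟩, h2, h3, h4⟩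
  · -- mono
    intro h hh h' hh' hv
    exact pos_lt_iff (hmem.1 hh).1 (hmem.1 hh').1 hv
  · -- b_iff
    intro h hh
    simp only [decide_eq_true_eq, hinv _ (hmem.1 hh).2]
    constructor
    · rintro ⟨g, hg, hgv, hgc⟩
      rw [mem_bd] at hg
      by_contra hn
      have hne : g ≠ h := by
        rintro rfl
        exact hn (mem_bd.2 hg)
      have h1 := same (hmem.1 hh).1 hg.1 (hmem.1 hh).2 hgv hgc hne
      exact hg.2.2 h1.2.1.2.2.1
    · intro hb
      exact ⟨h, hb, rfl, rfl⟩
  · -- b_one
    intro v hv j _ hb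
    simp only [decide_eq_true_eq, hinv _ hv] at hb
    obtain ⟨g, hg, hgv, hgc⟩ := hb
    rw [mem_bd] at hg
    simp only [hinv _ hv]
    have h1 := off_lt (A := A) hg.1
    rw [hgv, hgc] at h1
    by_contra hn
    obtain ⟨o, ho, hoo⟩ : ∃ o, o < sz G A v j ∧ o ≠ off G A g := by
      rcases Nat.eq_zero_or_pos (off G A g) with h | h
      · exact ⟨1, by omega, by omega⟩
      · exact ⟨0, by omega, by omega⟩
    obtain ⟨k, hk, hkv, hkc, hko⟩ := exists_off (G := G) (A := A) v ho
    have hne : k ≠ g := by
      rintro rfl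
      exact hoo hko.symm
    have h2 := same hg.1 hk hg.2.1 (hkv.trans hgv.symm) (hkc.trans hgc.symm) hne
    exact hg.2.2 h2.1.2.2.1
  · -- p_eq
    intro h hh _
    exact hP h hh
  · -- s_eq
    intro h hh hA'
    simp only [hinv _ (hmem.1 hh).2, hinv _ hA']
    exact sz_eq (hmem.1 hh).1 (hmem.1 hh).2 hA'
  · -- off_opp
    intro h hh hA'
    have hd := (hmem.1 hh).1
    have hA := (hmem.1 hh).2
    have hh' : G.opp h ∈ dts G A := hmem.2 ⟨G.opp_mem _ hd, hA'⟩
    have hoo := G.opp_opp _ hd
    simp only [hinv _ hA, decide_eq_decide]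
    have hR : R (e (G.base h)) (cl G A h) ↔ R (e (G.base (G.opp h))) (cl G A (G.opp h)) := by
      have aux : ∀ g ∈ dts G A, G.base (G.opp g) ∈ A →
          ¬ R (e (G.base g)) (cl G A g) → ¬ R (e (G.base (G.opp g))) (cl G A (G.opp g)) := by
        intro g hg hgA hR
        simp only [R, not_not] at hR ⊢
        intro k hk hkv hkc
        rw [hinv _ hgA] at hkv
        have h1 := same' (G.opp_mem _ (hmem.1 hg).1) (hmem.1 hk).1 hgA hkv hkc
        rw [G.opp_opp _ (hmem.1 hg).1] at h1
        have h2 := hR (G.opp k) (hmem.2 ⟨G.opp_mem _ (hmem.1 hk).1, by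
          rw [h1.1]; exact (hmem.1 hg).2⟩) (by rw [h1.1, hinv _ (hmem.1 hg).2]) h1.2
        rw [G.opp_opp _ (hmem.1 hk).1] at h2
        exact h2.symm
      constructor
      · intro h1
        by_contra h2
        have h3 := aux _ hh' (by rw [hoo]; exact hA) (not_not.2 h2)
        rw [hoo] at h3
        exact h3 h1
      · intro h1
        by_contra h2
        exact aux _ hh hA' (not_not.2 h2) h1
    by_cases hr : R (e (G.base h)) (cl G A h)
    · have hr' := hR.1 hr
      have hPh := hP h hh
      have hPh' := hP _ hh'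
      rw [hoo] at hPh'
      have h1 : off G A (G.opp h) = sz G A (G.base h) (cl G A h) - 1 - off G A h := by
        rcases dir hd hA hA' with h2 | h2
        · exfalso
          apply hr
          intro k hk hkv hkc
          rw [hinv _ hA] at hkv
          exact h2 k (hmem.1 hk).1 hkv hkc
        · exact h2 h hd rfl rfl
      -- the two classes are different
      have hne : ¬ (e (G.base (G.opp h)) = e (G.base h) ∧ cl G A (G.opp h) = cl G A h) := by
        rintro ⟨h2, -⟩
        have h3 := he.injOn (Finset.mem_coe.2 hA') (Finset.mem_coe.2 hA) h2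
        apply hr
        intro k hk hkv hkc
        rw [hinv _ hA] at hkv
        have h4 := same' hd (hmem.1 hk).1 hA hkv hkc
        by_contra hoff
        -- the class has one member only
        have h5 : ∀ l ∈ G.darts, G.base l = G.base h → cl G A l = cl G A h → l = h := by
          intro l hl hlv hlc
          by_contra hln
          have h6 := same hd hl hA hlv hlc hln
          exact h6.1.2.2.2 h3
        have h6 : sz G A (G.base h) (cl G A h) = 1 := by
          have h7 := off_lt (A := A) hd
          by_contra hn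
          obtain ⟨o, ho, hoo⟩ : ∃ o, o < sz G A (G.base h) (cl G A h) ∧ o ≠ off G A h := by
            rcases Nat.eq_zero_or_pos (off G A h) with h | h
            · exact ⟨1, by omega, by omega⟩
            · exact ⟨0, by omega, by omega⟩
          obtain ⟨l, hl, hlv, hlc, hlo⟩ := exists_off (G := G) (A := A) _ ho
          have := h5 l hl hlv hlc
          subst this
          exact hoo hlo.symm
        have h7 : k = h := h5 k (hmem.1 hk).1 hkv hkc
        subst h7
        have h8 := off_lt (A := A) hd
        have h9 := off_lt (A := A) (G.opp_mem _ hd)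
        rw [sz_eq hd hA hA'] at h9
        omega
      rw [if_neg, h1]
      rw [hPh, hPh']
      unfold lx
      simp only [hr, hr', true_and]
      intro hiff
      rcases lt_trichotomy (e (G.base (G.opp h))) (e (G.base h)) with h2 | h2 | h2
      · have := hiff.1 (Or.inl h2)
        omega
      · rcases lt_trichotomy (cl G A (G.opp h)) (cl G A h) with h3 | h3 | h3
        · have := hiff.1 (Or.inr ⟨h2, h3⟩)
          omega
        · exact hne ⟨h2, h3⟩
        · have := hiff.2 (Or.inr ⟨h2.symm, h3⟩)
          omega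
      · have := hiff.2 (Or.inl h2)
        omega
    · have hr' := fun h1 => hr (hR.2 h1)
      rw [if_pos]
      · simp only [R, not_not] at hr
        exact hr h hh (hinv _ hA).symm rfl
      · exact ⟨fun h1 => (hr h1.1).elim, fun h1 => (hr' h1.1).elim⟩

end RotWqo.Bag
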