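import Pool.Agent.Lib.MP_cb4a0f_co.Main

/-!
# MP_cb4a0f_co: rotated graphs with bags, definitions of the modules
-/

open Classical

namespace RotWqo.Bag

variable {V H : Type*}

/-- The position of a half-edge in the list of half-edges at its end. -/
noncomputable def pos (G : RotGraph V H) (h : H) : ℕ := (G.rot (G.base h)).idxOf h

/-- The half-edges at `A`. -/
noncomputable def dts (G : RotGraph V H) (A : Finset V) : Finset H :=
  G.darts.filter (fun h => G.base h ∈ A)

/-- The half-edges of loops at `A`. -/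
noncomputable def loopsAt (G : RotGraph V H) (A : Finset V) : Finset H :=
  G.darts.filter (fun h => G.base h ∈ A ∧ G.base (G.opp h) = G.base h)

/-- Half-edges at `A` of edges inside `A` that are not loops. -/
def Inn (G : RotGraph V H) (A : Finset V) (h : H) : Prop :=
  h ∈ G.darts ∧ G.base h ∈ A ∧ G.base (G.opp h) ∈ A ∧ G.base (G.opp h) ≠ G.base h

/-- `h'` follows `h` in the list at their common end, and the other halves are neighbours in the
list at the other common end. -/
def Par (G : RotGraph V H) (A : Finset V) (h h' : H) : Prop :=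
  Inn G A h ∧ Inn G A h' ∧ G.base h' = G.base h ∧ G.base (G.opp h') = G.base (G.opp h) ∧
    pos G h' = pos G h + 1 ∧
    (pos G (G.opp h') = pos G (G.opp h) + 1 ∨ pos G (G.opp h) = pos G (G.opp h') + 1)

/-- The half-edges at `A` that are followed by a half-edge that is not parallel to them. -/
noncomputable def Bad (G : RotGraph V H) (A : Finset V) : Finset H :=
  G.darts.filter (fun h => G.base h ∈ A ∧ ∃ h' ∈ G.darts, G.base h' = G.base h ∧
    pos G h' = pos G h + 1 ∧ ¬ Par G A h h')

/-- Comparison of natural numbers in the direction `s`. -/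
def lt (s : Bool) (a b : ℕ) : Prop := if s then a < b else b < a

/-- Pattern T: edges `e i`, `f i` between `x` and `y`, in the order `e 0, f 0, e 1, f 1, ...` at `x`
and `f 0, e 0, f 1, e 1, ...` at `y` (in one of the two directions). -/
structure PatT (G : RotGraph V H) (A : Finset V) (n : ℕ) (x y : V) (e f : ℕ → H) (s : Bool) :
    Prop where
  hx : x ∈ A
  hy : y ∈ A
  hxy : y ≠ x
  e_mem : ∀ i < n, e i ∈ G.darts ∧ G.base (e i) = x ∧ G.base (G.opp (e i)) = y
  f_mem : ∀ i < n, f i ∈ G.darts ∧ G.base (f i) = x ∧ G.base (G.opp (f i)) = y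
  ef : ∀ i < n, pos G (e i) < pos G (f i)
  fe : ∀ i j, i < j → j < n → pos G (f i) < pos G (e j)
  ef' : ∀ i < n, lt s (pos G (G.opp (f i))) (pos G (G.opp (e i)))
  fe' : ∀ i j, i < j → j < n → lt s (pos G (G.opp (e i))) (pos G (G.opp (f j)))

/-- Pattern A: edges `e i` between `x` and `y`, edges `f i` between `x` and `z`, in the order
`e 0, f 0, e 1, f 1, ...` at `x`, the `e i` monotone at `y`, the `f i` monotone at `z`, and in
disjoint intervals if `y = z`. -/
structure PatA (G : RotGraph V H) (A : Finset V) (n : ℕ) (x y z : V) (e f : ℕ → H)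
    (s s' : Bool) : Prop where
  hx : x ∈ A
  hy : y ∈ A
  hz : z ∈ A
  hxy : y ≠ x
  hxz : z ≠ x
  e_mem : ∀ i < n, e i ∈ G.darts ∧ G.base (e i) = x ∧ G.base (G.opp (e i)) = y
  f_mem : ∀ i < n, f i ∈ G.darts ∧ G.base (f i) = x ∧ G.base (G.opp (f i)) = z
  ef : ∀ i < n, pos G (e i) < pos G (f i)
  fe : ∀ i j, i < j → j < n → pos G (f i) < pos G (e j)
  ee' : ∀ i j, i < j → j < n → lt s (pos G (G.opp (e i))) (pos G (G.opp (e j)))
  ff' : ∀ i j, i < j → j < n → lt s' (pos G (G.opp (f i))) (pos G (G.opp (f j)))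
  sep : y = z → (∀ i < n, ∀ j < n, pos G (G.opp (e i)) < pos G (G.opp (f j))) ∨
    ∀ i < n, ∀ j < n, pos G (G.opp (f j)) < pos G (G.opp (e i))

/-- A pattern of length `n`. -/
def Pat (G : RotGraph V H) (A : Finset V) (n : ℕ) (x : V) : Prop :=
  (∃ y e f s, PatT G A n x y e f s) ∨ ∃ y z e f s s', PatA G A n x y z e f s s'

/-! ### Arches -/

/-- Transposition of `j` and `j + 1` among the numbers smaller than `R`. -/
def sw (R j p : ℕ) : ℕ :=
  if j + 1 < R then (if p = j then j + 1 else if p = j + 1 then j else p) else p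

/-- Consecutive blocks of nested arches: a block `(R, j)` joins `p < R` to `2 R - 1 - sw R j p`. -/
def cap : List (ℕ × ℕ) → ℕ → ℕ
  | [], p => p
  | (R, j) :: rs, p =>
    if p < R then 2 * R - 1 - sw R j p
    else if p < 2 * R then sw R j (2 * R - 1 - p)
    else 2 * R + cap rs (p - 2 * R)

/-- The number of positions. -/
def len : List (ℕ × ℕ) → ℕ
  | [] => 0
  | (R, _) :: rs => 2 * R + len rs

/-- The half-edges `u 0, ..., u (L - 1)` at `x` (in this order, without half-edges of `U` between
them, and in the place `lo` among the half-edges of `U`) continue by arches: the other halves of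
`u i` and `u (τ i)` are at the same vertex and between them there are no half-edges of `U` and only
complete pairs of the system. -/
structure Arches (G : RotGraph V H) (A : Finset V) (U : Finset H) (x : V) (lo L : ℕ) (u : ℕ → H)
    (τ : ℕ → ℕ) : Prop where
  mem : ∀ i < L, u i ∈ G.darts ∧ G.base (u i) = x ∧ G.base (G.opp (u i)) ∈ A ∧
    G.base (G.opp (u i)) ≠ x
  disj : ∀ i < L, u i ∉ U ∧ G.opp (u i) ∉ U
  mono : ∀ i j, i < j → j < L → pos G (u i) < pos G (u j)
  free_left : ∀ g ∈ U, G.base g = x → pos G g < lo → pos G g < pos G (u 0)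
  free_right : ∀ g ∈ U, G.base g = x → lo ≤ pos G g → pos G (u (L - 1)) < pos G g
  same : ∀ i < L, G.base (G.opp (u (τ i))) = G.base (G.opp (u i))
  inside : ∀ i < L, ∀ g ∈ G.darts, G.base g = G.base (G.opp (u i)) →
    pos G (G.opp (u i)) < pos G g → pos G g < pos G (G.opp (u (τ i))) →
    g ∉ U ∧ ∀ j < L, g = G.opp (u j) → pos G (G.opp (u i)) < pos G (G.opp (u (τ j))) ∧
      pos G (G.opp (u (τ j))) < pos G (G.opp (u (τ i)))

/-- The walk that leaves through the position `p` follows the arch of `p`, and then either arrives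
at a position smaller than `R` and stops, or continues from the partner for `bot`. -/
inductive Wk (τ bot : ℕ → ℕ) (R : ℕ) : ℕ → ℕ → Prop
  | done (p : ℕ) : τ p < R → Wk τ bot R p (τ p)
  | step (p q : ℕ) : R ≤ τ p → Wk τ bot R (bot (τ p)) q → Wk τ bot R p q

/-! ### Flows -/

/-- `U` is the set of half-edges at `A` of a system of trails from `x` inside `A`: the half-edges of
`U` at `x` are the starts, the trails turn by `M` at the other vertices, without crossings, and end
with the half-edges in `T` (there `t a` of them arrive at `a`), or with the half-edges in `bd G A`,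
through which they leave `A`. `en p` is the last half-edge traversed by the trail that starts with
`p`. -/
structure Flow (G : RotGraph V H) (A : Finset V) (x : V) (t : V → ℕ) (U T : Finset H)
    (M : H → H → Prop) (en : H → H) : Prop where
  U_mem : ∀ h ∈ U, h ∈ G.darts ∧ G.base h ∈ A
  bd_sub : bd G A ⊆ U
  T_sub : T ⊆ U
  T_x : ∀ h ∈ T, G.base h ≠ x
  T_bd : ∀ h ∈ T, G.base (G.opp h) ∈ A
  T_card : ∀ a ∈ A, a ≠ x → (T.filter (fun h => G.base h = a)).card = t a
  M_symm : ∀ a b, M a b → M b a
  M_fun : ∀ a b c, M a b → M a c → b = c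
  M_mem : ∀ a b, M a b → a ∈ U ∧ a ∉ T ∧ G.base a ≠ x ∧ G.base b = G.base a
  M_total : ∀ a ∈ U, a ∉ T → G.base a ≠ x → ∃ b, M a b
  nc : ∀ v ∈ A, v ≠ x → NC M ((G.rot v).filter (fun h => h ∈ U))
  run : ∀ p ∈ U, G.base p = x → Run G.opp M p (en p) ∧ (en p ∈ bd G A ∨ G.opp (en p) ∈ T)
  surj_bd : ∀ b ∈ bd G A, ∃ p ∈ U, G.base p = x ∧ en p = b
  surj_T : ∀ g ∈ T, ∃ p ∈ U, G.base p = x ∧ G.opp (en p) = g
  card : (U.filter (fun h => G.base h = x)).card =
    cut G A + ∑ a ∈ A.erase x, t a
  U_card : U.card ≤ 2 * A.card * (cut G A + ∑ a ∈ A.erase x, t a)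

/-! ### Trees of bags -/

/-- The union of the bags below a node. -/
noncomputable def bset (t : Tree (Finset V)) : Finset V := t.set.sup id

/-- `t` is a tree of bags: its leaves are disjoint nonempty sets of at most `k` vertices with at
most `k` half-edges of loops, with union the set of vertices of `G`, and at most `k` edges of `G`
leave the union of the bags below any node. -/
structure IsBagTree (k : ℕ) (G : RotGraph V H) (t : Tree (Finset V)) : Prop where
  pw : t.leaves.Pairwise Disjoint
  ne : ∀ B ∈ t.leaves, B.Nonempty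
  card : ∀ B ∈ t.leaves, B.card ≤ k
  loops : ∀ B ∈ t.leaves, (loopsAt G B).card ≤ k
  verts : bset t = G.verts
  cuts : ∀ s, IsSub s t → cut G (bset s) ≤ k

/-- Linked trees of bags (with respect to all sets of vertices). -/
def LinkedB (G : RotGraph V H) (t : Tree (Finset V)) : Prop :=
  ∀ b a : Tree (Finset V), ∀ m, IsSub b t →
    PathGe (fun S : Finset (Finset V) => cut G (S.sup id)) m a b →
    cut G (bset b) = m → cut G (bset a) = m →
      ∀ X : Finset V, bset a ⊆ X → X ⊆ bset b → m ≤ cut G X

end RotWqo.Bag
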