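import Pool.Agent.Lib.MP_cb4a0f_co.Bag.Stmts

/-!
# MP_cb4a0f_co: rotated graphs with bags, flows with demands

Edge version of Menger's theorem with demands at the vertices, by tight sets, with noncrossing
transitions at the inner vertices.
-/

open Classical

namespace RotWqo.Bag

variable {V H : Type*}

/-! ### Noncrossing matchings of unbalanced words -/

/-- All the letters with `p` are matched with letters without `p`. -/
theorem fl_ncm (p : H → Prop) : ∀ (n : ℕ) (l : List H), l.length = n → l.Nodup →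
    (l.filter (fun a => p a)).length ≤ (l.filter (fun a => ¬ p a)).length →
    ∃ M : H → H → Prop, (∀ a b, M a b → M b a) ∧ (∀ a b c, M a b → M a c → b = c) ∧
      (∀ a b, M a b → a ∈ l ∧ b ∈ l ∧ (p a ↔ ¬ p b)) ∧ (∀ a ∈ l, p a → ∃ b, M a b) ∧ NC M l ∧
      (l.filter (fun a => ¬ p a ∧ ¬ ∃ b, M a b)).length + (l.filter (fun a => p a)).length =
        (l.filter (fun a => ¬ p a)).length := by
  intro n
  induction n using Nat.strong_induction_on with
  | _ n ih =>
    intro l hl hnd hbal
    by_cases hp0 : ∀ a ∈ l, ¬ p a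
    · refine ⟨fun _ _ => False, by simp, by simp, by simp, fun a ha hpa => absurd hpa (hp0 a ha),
        NC.done _ (by simp), ?_⟩
      have h1 : l.filter (fun a => p a) = [] := by
        rw [List.filter_eq_nil_iff]
        intro a ha
        simpa using hp0 a ha
      rw [h1]
      simp
    · push Not at hp0
      have h12 : (∃ a ∈ l, p a) ∧ (∃ a ∈ l, ¬ p a) := by
        refine ⟨hp0, ?_⟩
        obtain ⟨a0, ha0, hpa0⟩ := hp0
        have h1 : 0 < (l.filter (fun a => p a)).length :=
          List.length_pos_of_mem (List.mem_filter.2 ⟨ha0, by simpa using hpa0⟩)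
        have h1' := lt_of_lt_of_le h1 hbal
        obtain ⟨b, hb⟩ := List.exists_mem_of_length_pos h1'
        rw [List.mem_filter] at hb
        exact ⟨b, hb.1, by simpa using hb.2⟩
      obtain ⟨l₁, a, b, l₂, rfl, hab⟩ := lk_adj p l h12.1 h12.2
      have hrot : l₁ ++ a :: b :: l₂ ~r a :: b :: (l₂ ++ l₁) := by
        have := List.isRotated_append (l := l₁) (l' := a :: b :: l₂)
        simpa using this
      have hnd2 : (a :: b :: (l₂ ++ l₁)).Nodup := hrot.nodup_iff.1 hnd
      rw [List.nodup_cons, List.nodup_cons] at hnd2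
      obtain ⟨ha, hb, hnd'⟩ := hnd2
      have hbal' : ((l₂ ++ l₁).filter (fun a => p a)).length ≤
          ((l₂ ++ l₁).filter (fun a => ¬ p a)).length := by
        by_cases hpa : p a
        · have hpb : ¬ p b := hab.1 hpa
          simp [List.filter_append, hpa, hpb] at hbal ⊢
          omega
        · have hpb : p b := by
            by_contra h
            exact hpa (hab.2 h)
          simp [List.filter_append, hpa, hpb] at hbal ⊢
          omega
      have hlen : (l₂ ++ l₁).length < n := by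
        rw [← hl]; simp; omega
      obtain ⟨M, hs, hf, hm, he, hnc, hcnt⟩ := ih _ hlen (l₂ ++ l₁) rfl hnd' hbal'
      have hab' : a ≠ b := fun h => ha (by rw [h]; simp)
      have ha' : a ∉ l₂ ++ l₁ := fun h => ha (List.mem_cons_of_mem _ h)
      have hMa : ∀ x, ¬ M a x := fun x h => ha' (hm _ _ h).1
      have hMb : ∀ x, ¬ M b x := fun x h => hb (hm _ _ h).1
      have hMa' : ∀ x, ¬ M x a := fun x h => ha' (hm _ _ h).2.1
      have hMb' : ∀ x, ¬ M x b := fun x h => hb (hm _ _ h).2.1
      have hmem : ∀ x, x ∈ l₁ ++ a :: b :: l₂ ↔ x = a ∨ x = b ∨ x ∈ l₂ ++ l₁ := by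
        intro x; rw [hrot.mem_iff]; simp
      refine ⟨fun x y => M x y ∨ (x = a ∧ y = b) ∨ (x = b ∧ y = a), ?_, ?_, ?_, ?_, ?_, ?_⟩
      · rintro x y (h | ⟨rfl, rfl⟩ | ⟨rfl, rfl⟩)
        · exact Or.inl (hs _ _ h)
        · exact Or.inr (Or.inr ⟨rfl, rfl⟩)
        · exact Or.inr (Or.inl ⟨rfl, rfl⟩)
      · rintro x y z (h | ⟨rfl, rfl⟩ | ⟨rfl, rfl⟩) (h' | ⟨h1, h2⟩ | ⟨h1, h2⟩)
        · exact hf _ _ _ h h'
        · subst h1; exact absurd h (hMa _)
        · subst h1; exact absurd h (hMb _)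
        · exact absurd h' (hMa _)
        · exact h2.symm
        · exact absurd h1 hab'
        · exact absurd h' (hMb _)
        · exact absurd h1.symm hab'
        · exact h2.symm
      · rintro x y (h | ⟨rfl, rfl⟩ | ⟨rfl, rfl⟩)
        · obtain ⟨h1, h2, h3⟩ := hm _ _ h
          exact ⟨(hmem x).2 (Or.inr (Or.inr h1)), (hmem y).2 (Or.inr (Or.inr h2)), h3⟩
        · exact ⟨(hmem _).2 (Or.inl rfl), (hmem _).2 (Or.inr (Or.inl rfl)), hab⟩
        · refine ⟨(hmem _).2 (Or.inr (Or.inl rfl)), (hmem _).2 (Or.inl rfl), ?_⟩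
          tauto
      · intro x hx hpx
        rcases (hmem x).1 hx with rfl | rfl | hx
        · exact ⟨b, Or.inr (Or.inl ⟨rfl, rfl⟩)⟩
        · exact ⟨a, Or.inr (Or.inr ⟨rfl, rfl⟩)⟩
        · obtain ⟨y, hy⟩ := he x hx hpx
          exact ⟨y, Or.inl hy⟩
      · refine NC.pair _ a b (l₂ ++ l₁) hrot (Or.inr (Or.inl ⟨rfl, rfl⟩)) (hnc.congr ?_)
        intro x hx y
        have hxa : x ≠ a := fun h => ha' (h ▸ hx)
        have hxb : x ≠ b := fun h => hb (h ▸ hx)
        constructor
        · exact Or.inl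
        · rintro (h | ⟨h, -⟩ | ⟨h, -⟩)
          · exact h
          · exact absurd h hxa
          · exact absurd h hxb
      · -- the number of unmatched letters
        have e1 : ((l₁ ++ a :: b :: l₂).filter (fun c => ¬ p c ∧
            ¬ ∃ d, (M c d ∨ (c = a ∧ d = b) ∨ (c = b ∧ d = a)))).length =
            ((l₂ ++ l₁).filter (fun c => ¬ p c ∧ ¬ ∃ d, M c d)).length := by
          have hperm := (hrot.perm.filter (fun c => ¬ p c ∧
            ¬ ∃ d, (M c d ∨ (c = a ∧ d = b) ∨ (c = b ∧ d = a)))).length_eq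
          rw [hperm]
          rw [List.filter_cons_of_neg, List.filter_cons_of_neg]
          · congr 1
            refine List.filter_congr ?_
            intro c hc
            rw [decide_eq_decide]
            have hca : c ≠ a := fun h => ha' (h ▸ hc)
            have hcb : c ≠ b := fun h => hb (h ▸ hc)
            simp [hca, hcb]
          · intro h
            exact (of_decide_eq_true h).2 ⟨a, Or.inr (Or.inr ⟨rfl, rfl⟩)⟩
          · intro h
            exact (of_decide_eq_true h).2 ⟨b, Or.inr (Or.inl ⟨rfl, rfl⟩)⟩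
        rw [e1]
        by_cases hpa : p a
        · have hpb : ¬ p b := hab.1 hpa
          have e2 : ((l₁ ++ a :: b :: l₂).filter (fun c => p c)).length =
              ((l₂ ++ l₁).filter (fun c => p c)).length + 1 := by
            simp [List.filter_append, hpa, hpb]; omega
          have e3 : ((l₁ ++ a :: b :: l₂).filter (fun c => ¬ p c)).length =
              ((l₂ ++ l₁).filter (fun c => ¬ p c)).length + 1 := by
            simp [List.filter_append, hpa, hpb]; omega
          rw [e2, e3]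
          omega
        · have hpb : p b := by
            by_contra h
            exact hpa (hab.2 h)
          have e2 : ((l₁ ++ a :: b :: l₂).filter (fun c => p c)).length =
              ((l₂ ++ l₁).filter (fun c => p c)).length + 1 := by
            simp [List.filter_append, hpa, hpb]; omega
          have e3 : ((l₁ ++ a :: b :: l₂).filter (fun c => ¬ p c)).length =
              ((l₂ ++ l₁).filter (fun c => ¬ p c)).length + 1 := by
            simp [List.filter_append, hpa, hpb]; omega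
          rw [e2, e3]
          omega

/-! ### Minimal systems -/

/-- The number of half-edges of `U` leaving `X` plus the demands in `X`. -/
noncomputable def fd (G : RotGraph V H) (w : V → ℕ) (U : Finset H) (X : Finset V) : ℕ :=
  (lkOut G U X).card + ∑ a ∈ X, w a

/-- Tight sets. -/
def FTg (G : RotGraph V H) (A : Finset V) (x : V) (w : V → ℕ) (m : ℕ) (U : Finset H)
    (X : Finset V) : Prop :=
  x ∈ X ∧ X ⊆ A ∧ fd G w U X = m

/-- A minimal system of half-edges that carries the flow. -/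
structure FSys (G : RotGraph V H) (A : Finset V) (x : V) (w : V → ℕ) (m : ℕ) (U : Finset H) :
    Prop where
  sub : U ⊆ G.darts
  opp_mem : ∀ h ∈ U, G.opp h ∈ U
  ge : ∀ X, x ∈ X → X ⊆ A → m ≤ fd G w U X
  tgA : FTg G A x w m U A
  bdA : bd G A ⊆ U
  sep : ∀ h ∈ U, ∃ X, FTg G A x w m U X ∧
    ((G.base h ∈ X ∧ G.base (G.opp h) ∉ X) ∨ (G.base (G.opp h) ∈ X ∧ G.base h ∉ X))

theorem exists_FSys (G : RotGraph V H) (A : Finset V) (x : V) (hx : x ∈ A) (w : V → ℕ) (m : ℕ)
    (hA : cut G A + ∑ a ∈ A, w a = m)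
    (hX : ∀ X : Finset V, x ∈ X → X ⊆ A → m ≤ cut G X + ∑ a ∈ X, w a) :
    ∃ U, FSys G A x w m U := by
  classical
  set S : Finset (Finset H) := G.darts.powerset.filter (fun U => (∀ h ∈ U, G.opp h ∈ U) ∧
    ∀ X : Finset V, x ∈ X → X ⊆ A → m ≤ fd G w U X) with hS
  have hmemS : ∀ U, U ∈ S ↔ U ⊆ G.darts ∧ (∀ h ∈ U, G.opp h ∈ U) ∧
      ∀ X : Finset V, x ∈ X → X ⊆ A → m ≤ fd G w U X := by
    intro U
    rw [hS, Finset.mem_filter, Finset.mem_powerset]
  have hne : S.Nonempty := ⟨G.darts, (hmemS _).2 ⟨fun _ h => h, G.opp_mem, hX⟩⟩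
  obtain ⟨U, hUS, hmin⟩ := Finset.exists_min_image S Finset.card hne
  obtain ⟨h1, h2, h3⟩ := (hmemS U).1 hUS
  have hsubA : lkOut G U A ⊆ bd G A := Finset.filter_subset_filter _ h1
  have hcutA : cut G A = (bd G A).card := rfl
  have hge : m ≤ (lkOut G U A).card + ∑ a ∈ A, w a := h3 A hx (fun _ h => h)
  have heA : lkOut G U A = bd G A :=
    Finset.eq_of_subset_of_card_le hsubA (by omega)
  refine ⟨U, h1, h2, h3, ⟨hx, fun _ h => h, ?_⟩, ?_, ?_⟩
  · rw [fd, heA]
    exact hA
  · rw [← heA]; exact Finset.filter_subset _ _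
  · intro h hh
    by_contra hcon
    push Not at hcon
    have hdart : h ∈ G.darts := h1 hh
    set U' : Finset H := (U.erase h).erase (G.opp h) with hU'
    have hsub : U' ⊆ U := (Finset.erase_subset _ _).trans (Finset.erase_subset _ _)
    have hU'S : U' ∈ S := by
      refine (hmemS U').2 ⟨hsub.trans h1, ?_, ?_⟩
      · intro y hy
        rw [hU', Finset.mem_erase, Finset.mem_erase] at hy ⊢
        obtain ⟨hx1, hx2, hx3⟩ := hy
        have hxd : y ∈ G.darts := h1 hx3
        refine ⟨fun he => hx2 ?_, fun he => hx1 ?_, h2 y hx3⟩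
        · rw [← G.opp_opp y hxd, he, G.opp_opp h hdart]
        · rw [← G.opp_opp y hxd, he]
      · intro X hxX hXA
        have hout : lkOut G U' X = ((lkOut G U X).erase h).erase (G.opp h) := by
          ext y
          simp only [mem_lkOut, hU', Finset.mem_erase]
          tauto
        rw [fd, hout]
        by_cases htg : fd G w U X = m
        · obtain ⟨c1, c2⟩ := hcon X ⟨hxX, hXA, htg⟩
          have n1 : h ∉ lkOut G U X := fun hm => (mem_lkOut.1 hm).2.2 (c1 (mem_lkOut.1 hm).2.1)
          have n2 : G.opp h ∉ lkOut G U X := by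
            intro hm
            obtain ⟨-, m1, m2⟩ := mem_lkOut.1 hm
            rw [G.opp_opp h hdart] at m2
            exact m2 (c2 m1)
          rw [Finset.erase_eq_of_notMem n1, Finset.erase_eq_of_notMem n2]
          exact le_of_eq htg.symm
        · have hge : m + 1 ≤ (lkOut G U X).card + ∑ a ∈ X, w a := by
            have h4 := h3 X hxX hXA
            have h5 : (lkOut G U X).card + ∑ a ∈ X, w a = fd G w U X := rfl
            omega
          by_cases n1 : h ∈ lkOut G U X
          · have n2 : G.opp h ∉ (lkOut G U X).erase h := by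
              intro hm
              rw [Finset.mem_erase, mem_lkOut] at hm
              exact (mem_lkOut.1 n1).2.2 hm.2.2.1
            rw [Finset.erase_eq_of_notMem n2, Finset.card_erase_of_mem n1]
            have : 0 < (lkOut G U X).card := Finset.card_pos.2 ⟨_, n1⟩
            omega
          · rw [Finset.erase_eq_of_notMem n1]
            have := Finset.pred_card_le_card_erase (s := lkOut G U X) (a := G.opp h)
            omega
    have hlt : U'.card < U.card := by
      refine Finset.card_lt_card ⟨hsub, fun hle => ?_⟩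
      have := hle hh
      rw [hU', Finset.mem_erase, Finset.mem_erase] at this
      exact this.2.1 rfl
    exact absurd (hmin U' hU'S) (not_le.2 hlt)

/-- The forward half-edges. -/
def FF (G : RotGraph V H) (A : Finset V) (x : V) (w : V → ℕ) (m : ℕ) (U : Finset H) (h : H) :
    Prop :=
  h ∈ U ∧ ∃ X, FTg G A x w m U X ∧ G.base h ∈ X ∧ G.base (G.opp h) ∉ X

section Sys

variable {G : RotGraph V H} {A : Finset V} {x : V} {w : V → ℕ} {m : ℕ} {U : Finset H}

theorem FSys.inter_union (S : FSys G A x w m U) {X Y : Finset V} (hX : FTg G A x w m U X)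
    (hY : FTg G A x w m U Y) : FTg G A x w m U (X ∩ Y) ∧ FTg G A x w m U (X ∪ Y) ∧
    ∀ h ∈ U, ¬ ((G.base h ∈ X ∧ G.base h ∉ Y) ∧ G.base (G.opp h) ∈ Y ∧ G.base (G.opp h) ∉ X) := by
  obtain ⟨x1, x2, x3⟩ := hX
  obtain ⟨y1, y2, y3⟩ := hY
  have a1 : x ∈ X ∩ Y := Finset.mem_inter.2 ⟨x1, y1⟩
  have a2 : X ∩ Y ⊆ A := Finset.inter_subset_left.trans x2
  have a3 : x ∈ X ∪ Y := Finset.mem_union.2 (Or.inl x1)
  have a4 : X ∪ Y ⊆ A := Finset.union_subset x2 y2
  have g1 := S.ge _ a1 a2
  have g2 := S.ge _ a3 a4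
  have key := lk_submod G U X Y
  have hw := Finset.sum_union_inter (s₁ := X) (s₂ := Y) (f := w)
  have u1 : fd G w U (X ∩ Y) = (lkOut G U (X ∩ Y)).card + ∑ a ∈ X ∩ Y, w a := rfl
  have u2 : fd G w U (X ∪ Y) = (lkOut G U (X ∪ Y)).card + ∑ a ∈ X ∪ Y, w a := rfl
  have u3 : fd G w U X = (lkOut G U X).card + ∑ a ∈ X, w a := rfl
  have u4 : fd G w U Y = (lkOut G U Y).card + ∑ a ∈ Y, w a := rfl
  refine ⟨⟨a1, a2, by omega⟩, ⟨a3, a4, by omega⟩, ?_⟩
  have h0 : (U.filter (fun h => (G.base h ∈ X ∧ G.base h ∉ Y) ∧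
          G.base (G.opp h) ∈ Y ∧ G.base (G.opp h) ∉ X)).card = 0 := by omega
  rw [Finset.card_eq_zero, Finset.filter_eq_empty_iff] at h0
  exact fun h hh => h0 hh

theorem FSys.F_or (S : FSys G A x w m U) {h : H} (hh : h ∈ U) :
    FF G A x w m U h ∨ FF G A x w m U (G.opp h) := by
  obtain ⟨X, hX, h1 | h1⟩ := S.sep h hh
  · exact Or.inl ⟨hh, X, hX, h1⟩
  · refine Or.inr ⟨S.opp_mem h hh, X, hX, h1.1, ?_⟩
    rw [G.opp_opp h (S.sub hh)]
    exact h1.2

theorem FSys.not_both (S : FSys G A x w m U) {h : H} (h1 : FF G A x w m U h)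
    (h2 : FF G A x w m U (G.opp h)) : False := by
  obtain ⟨hh, X, hX, p1, p2⟩ := h1
  obtain ⟨-, Y, hY, q1, q2⟩ := h2
  rw [G.opp_opp h (S.sub hh)] at q2
  exact (S.inter_union hX hY).2.2 h hh ⟨⟨p1, q2⟩, q1, p2⟩

theorem FSys.enter (S : FSys G A x w m U) {h : H} (h1 : FF G A x w m U h) {Z : Finset V}
    (hZ : FTg G A x w m U Z) (h2 : G.base (G.opp h) ∈ Z) : G.base h ∈ Z := by
  by_contra h3
  refine S.not_both h1 ⟨S.opp_mem h h1.1, Z, hZ, h2, ?_⟩
  rw [G.opp_opp h (S.sub h1.1)]
  exact h3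

theorem FSys.card_opp (S : FSys G A x w m U) (p q : H → Prop) [DecidablePred p]
    [DecidablePred q] (hpq : ∀ h ∈ U, p h ↔ q (G.opp h)) : (U.filter (fun h => p h)).card =
      (U.filter (fun h => q h)).card := by
  refine Finset.card_bij' (fun h _ => G.opp h) (fun h _ => G.opp h) ?_ ?_ ?_ ?_
  · intro h hh
    rw [Finset.mem_filter] at hh ⊢
    exact ⟨S.opp_mem h hh.1, (hpq h hh.1).1 hh.2⟩
  · intro h hh
    rw [Finset.mem_filter] at hh ⊢
    refine ⟨S.opp_mem h hh.1, (hpq _ (S.opp_mem h hh.1)).2 ?_⟩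
    rw [G.opp_opp h (S.sub hh.1)]
    exact hh.2
  · intro h hh
    exact G.opp_opp h (S.sub (Finset.mem_filter.1 hh).1)
  · intro h hh
    exact G.opp_opp h (S.sub (Finset.mem_filter.1 hh).1)

/-- The smallest tight set containing a vertex. -/
theorem FSys.smallest (S : FSys G A x w m U) {a : V} (ha : a ∈ A) :
    ∃ I, FTg G A x w m U I ∧ a ∈ I ∧ ∀ X, FTg G A x w m U X → a ∈ X → I ⊆ X := by
  classical
  have hne : (A.powerset.filter (fun X => FTg G A x w m U X ∧ a ∈ X)).Nonempty :=
    ⟨A, by simp [S.tgA, ha]⟩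
  obtain ⟨I, hI, hmin⟩ := Finset.exists_min_image _ Finset.card hne
  rw [Finset.mem_filter] at hI
  obtain ⟨-, hIt, haI⟩ := hI
  refine ⟨I, hIt, haI, ?_⟩
  intro X hX haX
  have h1 := (S.inter_union hIt hX).1
  have h2 := hmin (I ∩ X) (by
    rw [Finset.mem_filter, Finset.mem_powerset]
    exact ⟨h1.2.1, h1, Finset.mem_inter.2 ⟨haI, haX⟩⟩)
  have h3 : I ∩ X = I := Finset.eq_of_subset_of_card_le Finset.inter_subset_left h2
  rw [← h3]
  exact Finset.inter_subset_right

/-- The forward half-edges at a vertex leave the smallest tight set containing it. -/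
theorem FF.leaves {a : V} {I : Finset V} (hsub : ∀ X, FTg G A x w m U X → a ∈ X → I ⊆ X) {h : H}
    (hb : G.base h = a) (hF : FF G A x w m U h) : G.base (G.opp h) ∉ I := by
  obtain ⟨-, X, hX, p1, p2⟩ := hF
  exact fun h3 => p2 (hsub X hX (hb ▸ p1) h3)

/-- There are at most `m` forward half-edges at a vertex. -/
theorem FSys.card_le (S : FSys G A x w m U) {a : V} (ha : a ∈ A) :
    (U.filter (fun h => G.base h = a ∧ FF G A x w m U h)).card ≤ m := by
  obtain ⟨I, hIt, haI, hsub⟩ := S.smallest ha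
  have h1 : U.filter (fun h => G.base h = a ∧ FF G A x w m U h) ⊆ lkOut G U I := by
    intro h hh
    rw [Finset.mem_filter] at hh
    rw [mem_lkOut]
    exact ⟨hh.1, by rw [hh.2.1]; exact haI, FF.leaves hsub hh.2.1 hh.2.2⟩
  have h2 := Finset.card_le_card h1
  have h3 : (lkOut G U I).card + ∑ a ∈ I, w a = m := hIt.2.2
  omega

/-- The half-edges of `U` at `x` are forward. -/
theorem FSys.fwd_x (S : FSys G A x w m U) {h : H} (hh : h ∈ U) (hb : G.base h = x) :
    FF G A x w m U h := by
  obtain ⟨X, hX, h1 | h1⟩ := S.sep h hh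
  · exact ⟨hh, X, hX, h1⟩
  · rw [hb] at h1
    exact absurd hX.1 h1.2

theorem FSys.card_x (S : FSys G A x w m U) (hx : x ∈ A) (hw : w x = 0) :
    (U.filter (fun h => G.base h = x)).card = m ∧ FTg G A x w m U {x} := by
  have h1 : (U.filter (fun h => G.base h = x)).card ≤ m := by
    refine le_trans (Finset.card_le_card ?_) (S.card_le hx)
    intro h hh
    rw [Finset.mem_filter] at hh ⊢
    exact ⟨hh.1, hh.2, S.fwd_x hh.1 hh.2⟩
  have hxx : ({x} : Finset V) ⊆ A := by
    intro a ha
    rw [Finset.mem_singleton] at ha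
    rw [ha]
    exact hx
  have h2 := S.ge {x} (Finset.mem_singleton_self x) hxx
  have h3 : fd G w U {x} = (lkOut G U {x}).card := by
    rw [fd, Finset.sum_singleton, hw, Nat.add_zero]
  have h4 : (lkOut G U {x}).card ≤ (U.filter (fun h => G.base h = x)).card := by
    refine Finset.card_le_card ?_
    intro h hh
    rw [mem_lkOut] at hh
    rw [Finset.mem_filter]
    exact ⟨hh.1, by simpa using hh.2.1⟩
  exact ⟨by omega, Finset.mem_singleton_self x, hxx, by omega⟩

theorem FSys.conserve (S : FSys G A x w m U) (hx : x ∈ A) (hw : w x = 0) {a : V} (ha : a ∈ A)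
    (hax : a ≠ x) :
    (U.filter (fun h => G.base h = a ∧ FF G A x w m U h)).card + w a =
      (U.filter (fun h => G.base h = a ∧ ¬ FF G A x w m U h)).card := by
  classical
  apply le_antisymm
  · obtain ⟨I, hIt, haI, hsub⟩ := S.smallest ha
    have key := lk_erase G U I a haI
    have hge : m ≤ fd G w U (I.erase a) := by
      refine S.ge _ (Finset.mem_erase.2 ⟨hax.symm, hIt.1⟩)
        ((Finset.erase_subset _ _).trans hIt.2.1)
    have hsum := Finset.sum_erase_add I w haI
    have u1 : fd G w U (I.erase a) = (lkOut G U (I.erase a)).card + ∑ b ∈ I.erase a, w b := rfl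
    have u2 : (lkOut G U I).card + ∑ b ∈ I, w b = m := hIt.2.2
    have c1 : (U.filter (fun h => G.base h = a ∧ FF G A x w m U h)).card ≤
        (U.filter (fun h => G.base h = a ∧ G.base (G.opp h) ∉ I)).card := by
      refine Finset.card_le_card ?_
      intro h hh
      rw [Finset.mem_filter] at hh ⊢
      exact ⟨hh.1, hh.2.1, FF.leaves hsub hh.2.1 hh.2.2⟩
    have c2 : (U.filter (fun h => (G.base h ∈ I ∧ G.base h ≠ a) ∧ G.base (G.opp h) = a)).card =
        (U.filter (fun h => G.base h = a ∧ (G.base (G.opp h) ∈ I ∧ G.base (G.opp h) ≠ a))).card := by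
      refine S.card_opp _ _ ?_
      intro h hh
      rw [G.opp_opp h (S.sub hh)]
      tauto
    have c3 : (U.filter (fun h => G.base h = a ∧
        (G.base (G.opp h) ∈ I ∧ G.base (G.opp h) ≠ a))).card ≤
        (U.filter (fun h => G.base h = a ∧ ¬ FF G A x w m U h)).card := by
      refine Finset.card_le_card ?_
      intro h hh
      rw [Finset.mem_filter] at hh ⊢
      exact ⟨hh.1, hh.2.1, fun hf => FF.leaves hsub hh.2.1 hf hh.2.2.1⟩
    omega
  · have hne : (A.powerset.filter (fun X => FTg G A x w m U X ∧ a ∉ X)).Nonempty :=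
      ⟨{x}, by
        rw [Finset.mem_filter, Finset.mem_powerset]
        have := (S.card_x hx hw).2
        exact ⟨this.2.1, this, by simpa using hax⟩⟩
    obtain ⟨J, hJ, hmax⟩ := Finset.exists_max_image _ Finset.card hne
    rw [Finset.mem_filter] at hJ
    obtain ⟨-, hJt, haJ⟩ := hJ
    have hsub : ∀ X, FTg G A x w m U X → a ∉ X → X ⊆ J := by
      intro X hX haX
      have h1 := (S.inter_union hJt hX).2.1
      have h2 := hmax (J ∪ X) (by
        rw [Finset.mem_filter, Finset.mem_powerset]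
        exact ⟨h1.2.1, h1, by rw [Finset.mem_union]; tauto⟩)
      have h3 : J = J ∪ X := Finset.eq_of_subset_of_card_le Finset.subset_union_left h2
      rw [h3]
      exact Finset.subset_union_right
    have hF : ∀ h ∈ U, G.base h = a → ¬ FF G A x w m U h → G.base (G.opp h) ∈ J := by
      intro h hh hb hf
      obtain ⟨-, X, hX, p1, p2⟩ := (S.F_or hh).resolve_left hf
      rw [G.opp_opp h (S.sub hh), hb] at p2
      exact hsub X hX p2 p1
    have key := lk_insert G U J a haJ
    have hge : m ≤ fd G w U (insert a J) := by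
      refine S.ge _ (Finset.mem_insert_of_mem hJt.1) ?_
      intro b hb
      rcases Finset.mem_insert.1 hb with rfl | hb
      · exact ha
      · exact hJt.2.1 hb
    have hsum := Finset.sum_insert (f := w) haJ
    have u1 : fd G w U (insert a J) = (lkOut G U (insert a J)).card + ∑ b ∈ insert a J, w b := rfl
    have u2 : (lkOut G U J).card + ∑ b ∈ J, w b = m := hJt.2.2
    have c1 : (U.filter (fun h => G.base h = a ∧ ¬ FF G A x w m U h)).card ≤
        (U.filter (fun h => G.base h = a ∧ G.base (G.opp h) ∈ J)).card := by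
      refine Finset.card_le_card ?_
      intro h hh
      rw [Finset.mem_filter] at hh ⊢
      exact ⟨hh.1, hh.2.1, hF h hh.1 hh.2.1 hh.2.2⟩
    have c2 : (U.filter (fun h => G.base h ∈ J ∧ G.base (G.opp h) = a)).card =
        (U.filter (fun h => G.base h = a ∧ G.base (G.opp h) ∈ J)).card := by
      refine S.card_opp _ _ ?_
      intro h hh
      rw [G.opp_opp h (S.sub hh)]
      tauto
    have c3 : (U.filter (fun h => G.base h = a ∧
        (G.base (G.opp h) ∉ J ∧ G.base (G.opp h) ≠ a))).card ≤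
        (U.filter (fun h => G.base h = a ∧ FF G A x w m U h)).card := by
      refine Finset.card_le_card ?_
      intro h hh
      rw [Finset.mem_filter] at hh ⊢
      refine ⟨hh.1, hh.2.1, ?_⟩
      by_contra hf
      exact hh.2.2.1 (hF h hh.1 hh.2.1 hf)
    omega

/-- The half-edges of `U` that are not forward come from `A`. -/
theorem FSys.back_mem (S : FSys G A x w m U) {h : H} (hh : h ∈ U) (hf : ¬ FF G A x w m U h) :
    G.base (G.opp h) ∈ A := by
  obtain ⟨-, X, hX, p1, -⟩ := (S.F_or hh).resolve_left hf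
  exact hX.2.1 p1

/-- The turning relation. -/
theorem FSys.exists_turn (S : FSys G A x w m U) (hx : x ∈ A) (hw : w x = 0) :
    ∃ M : H → H → Prop, (∀ a b, M a b → M b a) ∧
      (∀ a b c, M a b → M a c → b = c) ∧
      (∀ a b, M a b → a ∈ U ∧ b ∈ U ∧ G.base a ∈ A ∧ G.base a ≠ x ∧ G.base b = G.base a ∧
        (FF G A x w m U a ↔ ¬ FF G A x w m U b)) ∧
      (∀ a ∈ U, G.base a ∈ A → G.base a ≠ x → FF G A x w m U a → ∃ b, M a b) ∧
      (∀ v ∈ A, v ≠ x → NC M ((G.rot v).filter (fun a => a ∈ U))) ∧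
      ∀ v ∈ A, v ≠ x → (U.filter (fun h => G.base h = v ∧ (¬ FF G A x w m U h ∧
        ¬ ∃ b, M h b))).card = w v := by
  classical
  have hex : ∀ v : V, ∃ M : H → H → Prop, (∀ a b, M a b → M b a) ∧
      (∀ a b c, M a b → M a c → b = c) ∧
      (∀ a b, M a b → (a ∈ U ∧ G.base a = v) ∧ (b ∈ U ∧ G.base b = v) ∧ v ∈ A ∧ v ≠ x ∧
        (FF G A x w m U a ↔ ¬ FF G A x w m U b)) ∧
      (v ∈ A → v ≠ x → ∀ a ∈ U, G.base a = v → FF G A x w m U a → ∃ b, M a b) ∧
      (v ∈ A → v ≠ x → NC M ((G.rot v).filter (fun a => a ∈ U))) ∧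
      (v ∈ A → v ≠ x → (U.filter (fun h => G.base h = v ∧ (¬ FF G A x w m U h ∧
        ¬ ∃ b, M h b))).card = w v) := by
    intro v
    by_cases hv : v ∈ A ∧ v ≠ x
    · have hcons := S.conserve hx hw hv.1 hv.2
      obtain ⟨M, m1, m2, m3, m4, m5, m6⟩ := fl_ncm (FF G A x w m U) _
        ((G.rot v).filter (fun a => a ∈ U)) rfl ((G.nodup v).filter _) (by
          rw [lk_count G U S.sub v (FF G A x w m U),
            lk_count G U S.sub v (fun a => ¬ FF G A x w m U a)]
          omega)
      have hmem : ∀ a, a ∈ (G.rot v).filter (fun a => a ∈ U) ↔ a ∈ U ∧ G.base a = v := by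
        intro a
        simp only [List.mem_filter, decide_eq_true_eq, G.mem_rot]
        constructor
        · rintro ⟨⟨_, h2⟩, h3⟩
          exact ⟨h3, h2⟩
        · rintro ⟨h1, h2⟩
          exact ⟨⟨S.sub h1, h2⟩, h1⟩
      refine ⟨M, m1, m2, ?_, ?_, fun _ _ => m5, ?_⟩
      · intro a b hab
        obtain ⟨p1, p2, p3⟩ := m3 a b hab
        exact ⟨(hmem a).1 p1, (hmem b).1 p2, hv.1, hv.2, p3⟩
      · intro _ _ a ha hb hF
        exact m4 a ((hmem a).2 ⟨ha, hb⟩) hF
      · intro _ _
        rw [lk_count G U S.sub v (FF G A x w m U),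
            lk_count G U S.sub v (fun a => ¬ FF G A x w m U a),
            lk_count G U S.sub v (fun a => ¬ FF G A x w m U a ∧ ¬ ∃ b, M a b)] at m6
        omega
    · refine ⟨fun _ _ => False, by simp, by simp, by simp, ?_, ?_, ?_⟩
      · intro h1 h2; exact absurd ⟨h1, h2⟩ hv
      · intro h1 h2; exact absurd ⟨h1, h2⟩ hv
      · intro h1 h2; exact absurd ⟨h1, h2⟩ hv
  choose M m1 m2 m3 m4 m5 m6 using hex
  refine ⟨fun a b => M (G.base a) a b, ?_, ?_, ?_, ?_, ?_, ?_⟩
  · intro a b hab
    have h := m3 _ a b hab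
    rw [h.2.1.2]
    exact m1 _ _ _ hab
  · intro a b c hab hac
    exact m2 _ _ _ _ hab hac
  · intro a b hab
    have h := m3 _ a b hab
    exact ⟨h.1.1, h.2.1.1, h.2.2.1, h.2.2.2.1, h.2.1.2, h.2.2.2.2⟩
  · intro a ha h1 h2 hF
    exact m4 _ h1 h2 a ha rfl hF
  · intro v hv hvx
    refine (m5 v hv hvx).congr ?_
    intro y hy z
    rw [List.mem_filter, G.mem_rot] at hy
    rw [hy.1.2]
  · intro v hv hvx
    rw [← m6 v hv hvx]
    congr 1
    refine Finset.filter_congr ?_
    intro h _
    constructor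
    · rintro ⟨rfl, h2⟩
      exact ⟨rfl, h2⟩
    · rintro ⟨rfl, h2⟩
      exact ⟨rfl, h2⟩

/-- The size of the system. -/
theorem FSys.card_U (S : FSys G A x w m U) :
    (U.filter (fun h => G.base h ∈ A)).card ≤ 2 * A.card * m := by
  classical
  set F : Finset H := U.filter (fun h => G.base h ∈ A ∧ FF G A x w m U h) with hF
  have h1 : F.card ≤ A.card * m := by
    have : F ⊆ A.biUnion (fun a => U.filter (fun h => G.base h = a ∧ FF G A x w m U h)) := by
      intro h hh
      rw [hF, Finset.mem_filter] at hh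
      rw [Finset.mem_biUnion]
      exact ⟨G.base h, hh.2.1, Finset.mem_filter.2 ⟨hh.1, rfl, hh.2.2⟩⟩
    refine (Finset.card_le_card this).trans ?_
    exact Finset.card_biUnion_le_card_mul _ _ _ (fun a ha => S.card_le ha)
  have h2 : (U.filter (fun h => G.base h ∈ A)) ⊆ F ∪ F.image G.opp := by
    intro h hh
    rw [Finset.mem_filter] at hh
    rw [Finset.mem_union]
    by_cases hf : FF G A x w m U h
    · exact Or.inl (Finset.mem_filter.2 ⟨hh.1, hh.2, hf⟩)
    · refine Or.inr (Finset.mem_image.2 ⟨G.opp h, ?_, G.opp_opp h (S.sub hh.1)⟩)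
      rw [hF, Finset.mem_filter]
      exact ⟨S.opp_mem h hh.1, S.back_mem hh.1 hf, (S.F_or hh.1).resolve_left hf⟩
  have h3 := Finset.card_le_card h2
  have h4 := Finset.card_union_le F (F.image G.opp)
  have h5 : (F.image G.opp).card ≤ F.card := Finset.card_image_le
  have h6 : 2 * A.card * m = A.card * m + A.card * m := by ring
  omega

/-- Flows with demands exist. -/
theorem FSys.exists_flow (S : FSys G A x w m U) (hx : x ∈ A) (hw : w x = 0) (t : V → ℕ)
    (ht : ∀ a ∈ A, a ≠ x → w a = t a) (hm : cut G A + ∑ a ∈ A.erase x, t a = m) :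
    ∃ U T M en, Flow G A x t U T M en := by
  classical
  obtain ⟨M, m1, m2, m3, m4, m5, m6⟩ := S.exists_turn hx hw
  have hMU : ∀ a b, M a b → b ∈ U := fun a b h => (m3 a b h).2.1
  set W : Finset H := U.filter (fun h => G.base h ∈ A) with hW
  set T : Finset H := W.filter (fun h => ¬ FF G A x w m U h ∧ ¬ ∃ b, M h b) with hT
  have hWmem : ∀ h, h ∈ W ↔ h ∈ U ∧ G.base h ∈ A := by
    intro h
    rw [hW, Finset.mem_filter]
  have hTmem : ∀ h, h ∈ T ↔ (h ∈ U ∧ G.base h ∈ A) ∧ ¬ FF G A x w m U h ∧ ¬ ∃ b, M h b := by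
    intro h
    rw [hT, Finset.mem_filter, hWmem]
  have hbd : ∀ h, h ∈ bd G A ↔ h ∈ G.darts ∧ G.base h ∈ A ∧ G.base (G.opp h) ∉ A := by
    intro h
    rw [bd, Finset.mem_filter]
  have hTx : ∀ h ∈ T, G.base h ≠ x := by
    intro h hh hb
    rw [hTmem] at hh
    exact hh.2.1 (S.fwd_x hh.1.1 hb)
  have hTcard : ∀ a ∈ A, a ≠ x → (T.filter (fun h => G.base h = a)).card = t a := by
    intro a ha hax
    rw [← ht a ha hax, ← m6 a ha hax]
    congr 1
    ext h
    simp only [Finset.mem_filter, hTmem]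
    constructor
    · rintro ⟨⟨⟨h1, h2⟩, h3⟩, h4⟩
      exact ⟨h1, h4, h3⟩
    · rintro ⟨h1, h2, h3⟩
      exact ⟨⟨⟨h1, by rw [h2]; exact ha⟩, h3⟩, h2⟩
  -- the next half-edge
  have hnext : ∀ a, FF G A x w m U a → G.base (G.opp a) ∈ A → G.opp a ∉ T →
      ∃ b, M (G.opp a) b ∧ FF G A x w m U b ∧ G.base b = G.base (G.opp a) ∧ G.base b ≠ x := by
    intro a ha h1 h2
    have ha' : G.opp a ∈ U := S.opp_mem a ha.1
    have hnf : ¬ FF G A x w m U (G.opp a) := fun h => S.not_both ha h
    have h3 : ∃ b, M (G.opp a) b := by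
      by_contra hcon
      exact h2 ((hTmem _).2 ⟨⟨ha', h1⟩, hnf, hcon⟩)
    obtain ⟨b, hb⟩ := h3
    obtain ⟨-, -, -, h5, h6, h7⟩ := m3 _ _ hb
    refine ⟨b, hb, ?_, h6, by rw [h6]; exact h5⟩
    by_contra hcon
    exact hnf (h7.2 hcon)
  -- every run that starts at `x` comes to an end
  have hend : ∀ h ∈ U, G.base h = x → ∃ y, Run G.opp M h y ∧ (y ∈ bd G A ∨ G.opp y ∈ T) := by
    intro a0 ha0 hbx
    by_contra hcon
    push Not at hcon
    set R : Finset H := U.filter (fun y => Run G.opp M a0 y ∧ FF G A x w m U y ∧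
      G.base y ∈ A) with hR
    have ha0R : a0 ∈ R := by
      rw [hR, Finset.mem_filter]
      exact ⟨ha0, Run.refl _, S.fwd_x ha0 hbx, by rw [hbx]; exact hx⟩
    have hstep : ∀ y ∈ R, ∃ z ∈ R.erase a0, M (G.opp y) z := by
      intro y hy
      rw [hR, Finset.mem_filter] at hy
      obtain ⟨hyU, hrun, hF, hyA⟩ := hy
      obtain ⟨c1, c2⟩ := hcon y hrun
      have h1 : G.base (G.opp y) ∈ A := by
        by_contra h
        exact c1 ((hbd y).2 ⟨S.sub hyU, hyA, h⟩)
      obtain ⟨z, hz1, hz2, hz3, hz4⟩ := hnext y hF h1 c2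
      refine ⟨z, ?_, hz1⟩
      rw [Finset.mem_erase, hR, Finset.mem_filter]
      refine ⟨?_, hMU _ _ hz1, hrun.snoc hz1, hz2, by rw [hz3]; exact h1⟩
      rintro rfl
      exact hz4 hbx
    choose! nx hnx1 hnx2 using hstep
    have hle : R.card ≤ (R.erase a0).card := by
      refine Finset.card_le_card_of_injOn nx hnx1 ?_
      intro y hy y' hy' he
      have h1 := hnx2 y hy
      have h2 := hnx2 y' hy'
      have he' : nx y = nx y' := he
      rw [he'] at h1
      have h3 : G.opp y = G.opp y' := m2 _ _ _ (m1 _ _ h1) (m1 _ _ h2)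
      have hyd : y ∈ G.darts := S.sub (Finset.mem_filter.1 (Finset.mem_coe.1 hy)).1
      have hyd' : y' ∈ G.darts := S.sub (Finset.mem_filter.1 (Finset.mem_coe.1 hy')).1
      rw [← G.opp_opp y hyd, h3, G.opp_opp y' hyd']
    have hlt := Finset.card_erase_lt_of_mem ha0R
    omega
  choose! en hen1 hen2 using hend
  set P : Finset H := U.filter (fun h => G.base h = x) with hP
  have hPmem : ∀ h, h ∈ P ↔ h ∈ U ∧ G.base h = x := by
    intro h
    rw [hP, Finset.mem_filter]
  have hMd : ∀ a b, M a b → b ∈ G.darts := fun a b h => S.sub (hMU a b h)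
  have hinj : Set.InjOn en (P : Set H) := by
    intro a ha a' ha' he
    rw [Finset.mem_coe, hPmem] at ha ha'
    have h1 := hen1 a ha.1 ha.2
    have h2 := hen1 a' ha'.1 ha'.2
    rw [← he] at h2
    rcases h1.compare G.opp_opp m1 m2 hMd (S.sub ha.1) a' (S.sub ha'.1) h2 with h3 | h3
    · rcases h3.tail with h4 | ⟨u, -, h4⟩
      · exact h4
      · obtain ⟨-, -, -, h5, h6, -⟩ := m3 _ _ h4
        rw [← h6] at h5
        exact absurd ha'.2 h5
    · rcases h3.tail with h4 | ⟨u, -, h4⟩
      · exact h4.symm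
      · obtain ⟨-, -, -, h5, h6, -⟩ := m3 _ _ h4
        rw [← h6] at h5
        exact absurd ha.2 h5
  have hTopp : ∀ g ∈ T, G.opp (G.opp g) = g := fun g hg => G.opp_opp g
    (S.sub ((hTmem g).1 hg).1.1)
  have hTsum : T.card = ∑ a ∈ A.erase x, t a := by
    rw [Finset.card_eq_sum_card_fiberwise (f := G.base) (t := A.erase x)]
    · refine Finset.sum_congr rfl ?_
      intro a ha
      rw [Finset.mem_erase] at ha
      exact hTcard a ha.2 ha.1
    · intro h hh
      rw [Finset.mem_coe] at hh ⊢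
      exact Finset.mem_erase.2 ⟨hTx h hh, ((hTmem h).1 hh).1.2⟩
  have hTimg : (T.image G.opp).card = T.card := by
    refine Finset.card_image_of_injOn ?_
    intro g hg g' hg' he
    have he' : G.opp g = G.opp g' := he
    rw [← hTopp g hg, he', hTopp g' hg']
  have himg : P.image en = bd G A ∪ T.image G.opp := by
    refine Finset.eq_of_subset_of_card_le ?_ ?_
    · intro y hy
      obtain ⟨a, ha, rfl⟩ := Finset.mem_image.1 hy
      rw [hPmem] at ha
      rw [Finset.mem_union]
      rcases hen2 a ha.1 ha.2 with h | h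
      · exact Or.inl h
      · refine Or.inr (Finset.mem_image.2 ⟨_, h, ?_⟩)
        have hd : en a ∈ G.darts := (hen1 a ha.1 ha.2).stay hMd (S.sub ha.1)
        exact G.opp_opp _ hd
    · rw [Finset.card_image_of_injOn hinj]
      have h1 := Finset.card_union_le (bd G A) (T.image G.opp)
      have h2 : P.card = m := (S.card_x hx hw).1
      have h3 : cut G A = (bd G A).card := rfl
      omega
  have hWx : W.filter (fun h => G.base h = x) = P := by
    ext h
    rw [Finset.mem_filter, hWmem, hPmem]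
    constructor
    · rintro ⟨⟨h1, h2⟩, h3⟩
      exact ⟨h1, h3⟩
    · rintro ⟨h1, h3⟩
      exact ⟨⟨h1, by rw [h3]; exact hx⟩, h3⟩
  refine ⟨W, T, M, en, ?_⟩
  refine
    { U_mem := fun h hh => ⟨S.sub ((hWmem h).1 hh).1, ((hWmem h).1 hh).2⟩
      bd_sub := fun h hh => (hWmem h).2 ⟨S.bdA hh, ((hbd h).1 hh).2.1⟩
      T_sub := Finset.filter_subset _ _
      T_x := hTx
      T_bd := fun h hh => S.back_mem ((hTmem h).1 hh).1.1 ((hTmem h).1 hh).2.1
      T_card := hTcard
      M_symm := m1
      M_fun := m2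
      M_mem := ?_
      M_total := ?_
      nc := ?_
      run := ?_
      surj_bd := ?_
      surj_T := ?_
      card := ?_
      U_card := ?_ }
  · intro a b hab
    obtain ⟨h1, -, h3, h4, h5, -⟩ := m3 a b hab
    exact ⟨(hWmem a).2 ⟨h1, h3⟩, fun h => ((hTmem a).1 h).2.2 ⟨b, hab⟩, h4, h5⟩
  · intro a ha haT hax
    rw [hWmem] at ha
    by_cases hf : FF G A x w m U a
    · exact m4 a ha.1 ha.2 hax hf
    · by_contra hcon
      exact haT ((hTmem a).2 ⟨ha, hf, hcon⟩)
  · intro v hv hvx
    have : (G.rot v).filter (fun h => h ∈ W) = (G.rot v).filter (fun a => a ∈ U) := by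
      refine List.filter_congr ?_
      intro a ha
      rw [G.mem_rot] at ha
      rw [decide_eq_decide, hWmem]
      constructor
      · exact fun h => h.1
      · exact fun h => ⟨h, by rw [ha.2]; exact hv⟩
    rw [this]
    exact m5 v hv hvx
  · intro p hp hb
    rw [hWmem] at hp
    exact ⟨hen1 p hp.1 hb, hen2 p hp.1 hb⟩
  · intro b hb
    have : b ∈ P.image en := by
      rw [himg]
      exact Finset.mem_union_left _ hb
    obtain ⟨p, hp, he⟩ := Finset.mem_image.1 this
    rw [hPmem] at hp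
    exact ⟨p, (hWmem p).2 ⟨hp.1, by rw [hp.2]; exact hx⟩, hp.2, he⟩
  · intro g hg
    have : G.opp g ∈ P.image en := by
      rw [himg]
      exact Finset.mem_union_right _ (Finset.mem_image_of_mem _ hg)
    obtain ⟨p, hp, he⟩ := Finset.mem_image.1 this
    rw [hPmem] at hp
    exact ⟨p, (hWmem p).2 ⟨hp.1, by rw [hp.2]; exact hx⟩, hp.2, by rw [he, hTopp g hg]⟩
  · rw [hWx, hm]
    exact (S.card_x hx hw).1
  · rw [hm]
    exact S.card_U

end Sys

/-- Module (F). -/
theorem stFlow : StFlow := by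
  intro V H G A x t hx hA hcut
  set w : V → ℕ := fun a => if a = x then 0 else t a with hw
  have hwx : w x = 0 := by simp [hw]
  have hsum : ∑ a ∈ A, w a = ∑ a ∈ A.erase x, t a := by
    rw [← Finset.sum_erase_add A w hx, hwx, Nat.add_zero]
    refine Finset.sum_congr rfl ?_
    intro a ha
    rw [Finset.mem_erase] at ha
    simp [hw, ha.1]
  obtain ⟨U, S⟩ := exists_FSys G A x hx w (cut G A + ∑ a ∈ A.erase x, t a) (by rw [hsum]) (by
    intro X h1 h2
    by_cases h3 : X = A
    · rw [h3, hsum]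
    · have := hcut X h1 h2 h3
      omega)
  refine S.exists_flow hx hwx t ?_ rfl
  intro a ha hax
  simp [hw, hax]

end RotWqo.Bag
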