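import Pool.Agent.Lib.MP_cb4a0f_co.Bag.LinkedB11
import Pool.Agent.Lib.MP_cb4a0f_co.Parts

/-!
# MP_cb4a0f_co: the leaf theorem
-/

open Classical

namespace RotWqo.Bag

universe u v w

/-- The leaf theorem for sets with at most `k` vertices. -/
def LeafK (k : ℕ) : Prop := ∀ (c : ℕ) (Q : Type w) (q : Q → Q → Prop) [IsPreorder Q q],
  WellQuasiOrdered q → ∀ (V : ℕ → Type u) (H : ℕ → Type v) [∀ i, Nonempty (V i)]
    [∀ i, Nonempty (H i)] (G : ∀ i, RotGraph (V i) (H i)) (lab : ∀ i, V i → Q)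
    (A : ∀ i, Finset (V i)), (∀ i, A i ⊆ (G i).verts) → (∀ i, (A i).card ≤ k) →
    (∀ i, cut (G i) (A i) ≤ c) → (∀ i, (loopsAt (G i) (A i)).card ≤ c) →
    ∃ m n, m < n ∧ ∃ β, PE (fun a b => q (lab m a) (lab n b)) (G m) (A m) (G n) (A n) β

section pieces

variable {Q : Type w} {V : ℕ → Type u} {H : ℕ → Type v}

/-- Embedding of pieces. -/
def leP (q : Q → Q → Prop) (G : ∀ i, RotGraph (V i) (H i)) (lab : ∀ i, V i → Q)
    (x y : Σ i, Finset (V i)) : Prop :=
  ∃ β, PE (fun v w => q (lab x.1 v) (lab y.1 w)) (G x.1) x.2 (G y.1) y.2 β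

theorem leP_preorder (q : Q → Q → Prop) [IsPreorder Q q] (G : ∀ i, RotGraph (V i) (H i))
    (lab : ∀ i, V i → Q) : IsPreorder (Σ i, Finset (V i)) (leP q G lab) :=
  { refl := fun x => ⟨id, PE.refl (fun v w => q (lab x.1 v) (lab x.1 w))
      (fun v => _root_.refl _) _ _⟩
    trans := fun x y z ⟨β, h⟩ ⟨β', h'⟩ => ⟨β' ∘ β,
      PE.trans (r₁ := fun v w => q (lab x.1 v) (lab y.1 w))
        (r₂ := fun v w => q (lab y.1 v) (lab z.1 w))
        (r := fun v w => q (lab x.1 v) (lab z.1 w))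
        (fun u v w h h' => _root_.trans h h') h h'⟩ }

theorem pwo_pieces {k : ℕ} (hk : LeafK.{u, v, w} k) (c : ℕ) (q : Q → Q → Prop) [IsPreorder Q q]
    (hq : WellQuasiOrdered q) [∀ i, Nonempty (V i)] [∀ i, Nonempty (H i)]
    (G : ∀ i, RotGraph (V i) (H i)) (lab : ∀ i, V i → Q) :
    {x : Σ i, Finset (V i) | x.2 ⊆ (G x.1).verts ∧ x.2.card ≤ k ∧ cut (G x.1) x.2 ≤ c ∧
      (loopsAt (G x.1) x.2).card ≤ c}.PartiallyWellOrderedOn (leP q G lab) := by
  rw [Set.partiallyWellOrderedOn_iff_exists_lt]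
  intro f hf
  obtain ⟨m, n, hmn, β, hβ⟩ := hk c Q q hq (fun n => V (f n).1) (fun n => H (f n).1)
    (fun n => G (f n).1) (fun n => lab (f n).1) (fun n => (f n).2) (fun n => (hf n).1)
    (fun n => (hf n).2.1) (fun n => (hf n).2.2.1) (fun n => (hf n).2.2.2)
  exact ⟨m, n, hmn, β, hβ⟩

/-- The case of small cuts. -/
theorem leaf_glue {k : ℕ} (hk : LeafK.{u, v, w} k) (c N : ℕ) (q : Q → Q → Prop)
    [IsPreorder Q q] (hq : WellQuasiOrdered q) [∀ i, Nonempty (V i)] [∀ i, Nonempty (H i)]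
    (G : ∀ i, RotGraph (V i) (H i)) (lab : ∀ i, V i → Q) (A S : ∀ i, Finset (V i))
    (hA : ∀ i, A i ⊆ (G i).verts) (hAk : ∀ i, (A i).card ≤ k + 1)
    (hAc : ∀ i, cut (G i) (A i) ≤ c) (hAl : ∀ i, (loopsAt (G i) (A i)).card ≤ c)
    (hS : ∀ i, S i ⊆ A i) (hS0 : ∀ i, (S i).Nonempty) (hS1 : ∀ i, S i ≠ A i)
    (hSN : ∀ i, cut (G i) (S i) ≤ N) :
    ∃ m n, m < n ∧ ∃ β, PE (fun a b => q (lab m a) (lab n b)) (G m) (A m) (G n) (A n) β := by
  have hP := pwo_pieces hk (c + N) q hq G lab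
  have := leP_preorder q G lab
  have hSA : ∀ i, (S i).card < (A i).card := fun i =>
    Finset.card_lt_card ((hS i).ssubset_of_ne (hS1 i))
  have hS' : ∀ i, (⟨i, S i⟩ : Σ i, Finset (V i)) ∈ {x : Σ i, Finset (V i) |
      x.2 ⊆ (G x.1).verts ∧ x.2.card ≤ k ∧ cut (G x.1) x.2 ≤ c + N ∧
      (loopsAt (G x.1) x.2).card ≤ c + N} := fun i =>
    ⟨(hS i).trans (hA i), by have := hSA i; have := hAk i; show (S i).card ≤ k; omega,
      (hSN i).trans (Nat.le_add_left _ _),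
      ((Finset.card_le_card (loopsAt_mono (G i) (hS i))).trans (hAl i)).trans
        (Nat.le_add_right _ _)⟩
  have hB' : ∀ i, (⟨i, A i \ S i⟩ : Σ i, Finset (V i)) ∈ {x : Σ i, Finset (V i) |
      x.2 ⊆ (G x.1).verts ∧ x.2.card ≤ k ∧ cut (G x.1) x.2 ≤ c + N ∧
      (loopsAt (G x.1) x.2).card ≤ c + N} := fun i =>
    ⟨Finset.sdiff_subset.trans (hA i), by
        have h1 := Finset.card_pos.mpr (hS0 i)
        have h2 := Finset.card_sdiff_add_card_eq_card (hS i)
        have := hAk i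
        show (A i \ S i).card ≤ k
        omega, by
        have h1 := cut_posimod (G i) (A i) (S i)
        have h2 := hAc i
        have h3 := hSN i
        show cut (G i) (A i \ S i) ≤ c + N
        omega,
      ((Finset.card_le_card (loopsAt_mono (G i) Finset.sdiff_subset)).trans (hAl i)).trans
        (Nat.le_add_right _ _)⟩
  obtain ⟨g, hg⟩ := hP.exists_monotone_subseq hS'
  obtain ⟨g', hg'⟩ := hP.exists_monotone_subseq (fun n => hB' (g n))
  obtain ⟨m, n, hmn, β, hβ⟩ := exists_PE_glue q (fun n => V (g (g' n)))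
    (fun n => H (g (g' n))) (fun n => G (g (g' n)))
    (fun n => lab (g (g' n))) (fun n => S (g (g' n))) (fun n => A (g (g' n)) \ S (g (g' n)))
    (fun n => Finset.disjoint_sdiff)
    (fun n => hg _ _ (g'.monotone (Nat.le_succ n)))
    (fun n => hg' _ _ (Nat.le_succ n))
  refine ⟨g (g' m), g (g' n), g.strictMono (g'.strictMono hmn), β, ?_⟩
  simpa only [Finset.union_sdiff_of_subset (hS _)] using hβ

end pieces

/-! ### Enumerations -/

/-- The element number `t` of the list. -/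
noncomputable def enu {V : Type*} [Nonempty V] (A : Finset V) (t : ℕ) : V :=
  A.toList.getD t (Classical.arbitrary V)

theorem enu_mem {V : Type*} [Nonempty V] (A : Finset V) {t : ℕ} (ht : t < A.card) :
    enu A t ∈ A := by
  have h1 : t < A.toList.length := by rwa [Finset.length_toList]
  rw [enu, List.getD_eq_getElem _ _ h1]
  exact Finset.mem_toList.mp (List.getElem_mem h1)

theorem exists_enu {V : Type*} [Nonempty V] (A : Finset V) {x : V} (hx : x ∈ A) :
    ∃ t < A.card, enu A t = x := by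
  obtain ⟨t, h1, h2⟩ := List.getElem_of_mem (Finset.mem_toList.mpr hx)
  refine ⟨t, by rwa [Finset.length_toList] at h1, ?_⟩
  rw [enu, List.getD_eq_getElem _ _ h1, h2]

theorem enu_inj {V : Type*} [Nonempty V] (A : Finset V) {t t' : ℕ} (ht : t < A.card)
    (ht' : t' < A.card) (h : enu A t = enu A t') : t = t' := by
  have h1 : t < A.toList.length := by rwa [Finset.length_toList]
  have h2 : t' < A.toList.length := by rwa [Finset.length_toList]
  rw [enu, enu, List.getD_eq_getElem _ _ h1, List.getD_eq_getElem _ _ h2] at h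
  exact (List.Nodup.getElem_inj_iff A.nodup_toList).mp h

theorem exists_enu_map {V V' : Type*} [Nonempty V] [Nonempty V'] (A : Finset V) (A' : Finset V')
    (h : A.card = A'.card) : ∃ f : V → V', Set.BijOn f (A : Set V) (A' : Set V') ∧
      ∀ t < A.card, f (enu A t) = enu A' t := by
  have h0 : ∀ x : V, ∃ t, x ∈ A → t < A.card ∧ enu A t = x := by
    intro x
    by_cases hx : x ∈ A
    · obtain ⟨t, h1, h2⟩ := exists_enu A hx
      exact ⟨t, fun _ => ⟨h1, h2⟩⟩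
    · exact ⟨0, fun h => absurd h hx⟩
  choose e he using h0
  have hf : ∀ t < A.card, e (enu A t) = t := fun t ht => by
    obtain ⟨h1, h2⟩ := he _ (enu_mem A ht)
    exact enu_inj A h1 ht h2
  refine ⟨fun x => enu A' (e x), ⟨?_, ?_, ?_⟩, fun t ht => by
    show enu A' (e (enu A t)) = enu A' t
    rw [hf t ht]⟩
  · intro x hx
    exact Finset.mem_coe.mpr (enu_mem A' (h ▸ (he x (Finset.mem_coe.mp hx)).1))
  · intro x hx y hy hxy
    obtain ⟨h1, h2⟩ := he x (Finset.mem_coe.mp hx)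
    obtain ⟨h3, h4⟩ := he y (Finset.mem_coe.mp hy)
    rw [← h2, ← h4, enu_inj A' (h ▸ h1) (h ▸ h3) hxy]
  · intro y hy
    obtain ⟨t, h1, h2⟩ := exists_enu A' (Finset.mem_coe.mp hy)
    refine ⟨enu A t, Finset.mem_coe.mpr (enu_mem A (h ▸ h1)), ?_⟩
    show enu A' (e (enu A t)) = y
    rw [hf t (h ▸ h1), h2]

open Filter in
/-- The case of large proper cuts. -/
theorem leaf_large (hSk : StSkel.{u, v, w}) (hU : StUniv.{u, v}) (k c : ℕ) {Q : Type w}
    (q : Q → Q → Prop) [IsPreorder Q q] (hq : WellQuasiOrdered q) (V : ℕ → Type u)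
    (H : ℕ → Type v) [∀ i, Nonempty (V i)] [∀ i, Nonempty (H i)]
    (G : ∀ i, RotGraph (V i) (H i)) (lab : ∀ i, V i → Q) (A : ∀ i, Finset (V i))
    (hA : ∀ i, A i ⊆ (G i).verts) (hk : ∀ i, (A i).card ≤ k)
    (hc : ∀ i, cut (G i) (A i) ≤ c) (hl : ∀ i, (loopsAt (G i) (A i)).card ≤ c)
    (hcase : ∀ N, ∀ᶠ i in atTop, ∀ S : Finset (V i), S ⊆ A i → S.Nonempty → S ≠ A i →
      N < cut (G i) S) :
    ∃ m n, m < n ∧ ∃ β, PE (fun a b => q (lab m a) (lab n b)) (G m) (A m) (G n) (A n) β := by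
  have hpre : IsPreorder (Fin k → Q) (fun a b => ∀ t, q (a t) (b t)) :=
    { refl := fun a t => _root_.refl _
      trans := fun a b c h h' t => _root_.trans (h t) (h' t) }
  have hpi : WellQuasiOrdered (fun a b : Fin k → Q => ∀ t, q (a t) (b t)) :=
    WellQuasiOrdered.pi fun _ => hq
  have heq : WellQuasiOrdered (fun a b : Fin (k + 1) × Fin (c + 1) => a = b) :=
    Finite.wellQuasiOrdered _
  have hpre2 : IsPreorder ((Fin k → Q) × (Fin (k + 1) × Fin (c + 1)))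
      (fun a b => (∀ t, q (a.1 t) (b.1 t)) ∧ a.2 = b.2) :=
    { refl := fun a => ⟨fun t => _root_.refl _, rfl⟩
      trans := fun a b c h h' => ⟨fun t => _root_.trans (h.1 t) (h'.1 t), h.2.trans h'.2⟩ }
  have hD : WellQuasiOrdered (fun a b : (Fin k → Q) × (Fin (k + 1) × Fin (c + 1)) =>
      (∀ t, q (a.1 t) (b.1 t)) ∧ a.2 = b.2) := hpi.prod heq
  obtain ⟨g, hg⟩ := hD.exists_monotone_subseq (fun i => (fun t => lab i (enu (A i) t),
    (⟨(A i).card, Nat.lt_succ_of_le (hk i)⟩, ⟨cut (G i) (A i), Nat.lt_succ_of_le (hc i)⟩)))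
  have hcard : ∀ m n, m ≤ n → (A (g m)).card = (A (g n)).card := fun m n hmn =>
    congrArg (fun p : Fin (k + 1) × Fin (c + 1) => (p.1 : ℕ)) (hg m n hmn).2
  have hcut : ∀ m n, m ≤ n → cut (G (g m)) (A (g m)) = cut (G (g n)) (A (g n)) :=
    fun m n hmn => congrArg (fun p : Fin (k + 1) × Fin (c + 1) => (p.2 : ℕ)) (hg m n hmn).2
  have hlab : ∀ m n, m ≤ n → ∀ t < k, q (lab (g m) (enu (A (g m)) t))
      (lab (g n) (enu (A (g n)) t)) := fun m n hmn t ht => (hg m n hmn).1 ⟨t, ht⟩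
  by_cases hbad : ∃ N, ∃ᶠ n in atTop, (Bad (G (g n)) (A (g n))).card ≤ N
  · obtain ⟨N, hN⟩ := hbad
    obtain ⟨φ, hφ, hφN⟩ := extraction_of_frequently_atTop hN
    obtain ⟨m, n, hmn, β, hβ⟩ := hSk k N Q q hq (fun n => V (g (φ n))) (fun n => H (g (φ n)))
      (fun n => G (g (φ n))) (fun n => lab (g (φ n))) (fun n => A (g (φ n))) (fun n => hA _)
      (fun n => hk _) hφN
    exact ⟨g (φ m), g (φ n), g.strictMono (hφ hmn), β, hβ⟩
  · push Not at hbad
    obtain ⟨N, hN⟩ := hU k c (dts (G (g 0)) (A (g 0))).card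
    have h1 := g.strictMono.tendsto_atTop.eventually (hcase N)
    obtain ⟨n, hn1, hn2, hn3⟩ := (h1.and ((hbad N).and (eventually_ge_atTop 1))).exists
    obtain ⟨f, hf, hfe⟩ := exists_enu_map (A (g 0)) (A (g n)) (hcard 0 n (Nat.zero_le _))
    refine ⟨g 0, g n, g.strictMono (by omega), ?_⟩
    refine hN (V (g 0)) (V (g n)) (H (g 0)) (H (g n)) (G (g 0)) (A (g 0)) (G (g n)) (A (g n))
      _ f (hA _) (hA _) hf (fun x hx => ?_) (hk _) le_rfl (hcut 0 n (Nat.zero_le _)) (hc _)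
      (hl _) (fun S hS1 hS2 hS3 => (hn1 S hS2 hS1 hS3).le) hn2.le
    obtain ⟨t, ht, rfl⟩ := exists_enu _ hx
    rw [hfe t ht]
    exact hlab 0 n (Nat.zero_le _) t (lt_of_lt_of_le ht (hk _))

open Filter in
theorem leafK (hSk : StSkel.{u, v, w}) (hU : StUniv.{u, v}) (k : ℕ) : LeafK.{u, v, w} k := by
  induction k with
  | zero =>
    intro c Q q _ hq V H _ _ G lab A hA hk hc hl
    refine hSk 0 0 Q q hq V H G lab A hA hk fun i => ?_
    have h0 : A i = ∅ := Finset.card_eq_zero.mp (Nat.le_zero.mp (hk i))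
    rw [h0, Bad]
    simp
  | succ k ih =>
    intro c Q q _ hq V H _ _ G lab A hA hk hc hl
    by_cases hcase : ∃ N, ∃ᶠ i in atTop, ∃ S : Finset (V i), S ⊆ A i ∧ S.Nonempty ∧ S ≠ A i ∧
        cut (G i) S ≤ N
    · -- small cuts
      obtain ⟨N, hN⟩ := hcase
      obtain ⟨φ, hφ, hφN⟩ := extraction_of_frequently_atTop hN
      choose S hS1 hS2 hS3 hS4 using hφN
      obtain ⟨m, n, hmn, β, hβ⟩ := leaf_glue ih c N q hq (fun n => G (φ n))
        (fun n => lab (φ n)) (fun n => A (φ n)) S (fun n => hA _) (fun n => hk _)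
        (fun n => hc _) (fun n => hl _) hS1 hS2 hS3 hS4
      exact ⟨φ m, φ n, hφ hmn, β, hβ⟩
    · push Not at hcase
      exact leaf_large hSk hU (k + 1) c q hq V H G lab A hA hk hc hl hcase

/-- (L) The leaf theorem. -/
theorem stLeaf (hSk : StSkel.{u, v, w}) (hU : StUniv.{u, v}) : StLeaf.{u, v, w} :=
  fun k c Q q _ hq V H _ _ G lab A hA hk hc hl =>
    leafK hSk hU k c Q q hq V H G lab A hA hk hc hl

end RotWqo.Bag
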