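import Pool.Agent.Lib.MP_cb4a0f_co.Bag.Stmts
import Pool.Agent.Lib.MP_cb4a0f_co.Linked

/-!
# Existence of linked trees of bags
-/

open Classical

namespace RotWqo.Bag

namespace TLB

variable {V : Type*}

/-! ### Sets of nodes -/

lemma bset_leaf (B : Finset V) : bset (Tree.leaf B) = B := by
  simp [bset, Tree.set, Tree.leaves]

lemma bset_node (l r : Tree (Finset V)) : bset (Tree.node l r) = bset l ∪ bset r := by
  ext v
  simp only [bset, TL.set_node, Finset.mem_sup, Finset.mem_union, id]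
  constructor
  · rintro ⟨B, h1 | h1, h2⟩
    · exact Or.inl ⟨B, h1, h2⟩
    · exact Or.inr ⟨B, h1, h2⟩
  · rintro (⟨B, h1, h2⟩ | ⟨B, h1, h2⟩)
    · exact ⟨B, Or.inl h1, h2⟩
    · exact ⟨B, Or.inr h1, h2⟩

lemma mem_bset {t : Tree (Finset V)} {v : V} : v ∈ bset t ↔ ∃ B ∈ t.leaves, v ∈ B := by
  simp [bset, Tree.set, Finset.mem_sup]

/-- The leaves are nonempty, disjoint and in `Q`. -/
def Ok (Q : Finset V → Prop) : Tree (Finset V) → Prop
  | .leaf B => B.Nonempty ∧ Q B
  | .node l r => Ok Q l ∧ Ok Q r ∧ Disjoint (bset l) (bset r)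

lemma ok_node {Q : Finset V → Prop} {l r : Tree (Finset V)} : Ok Q (.node l r) ↔
    Ok Q l ∧ Ok Q r ∧ Disjoint (bset l) (bset r) := Iff.rfl

lemma ok_leaf {Q : Finset V → Prop} {B : Finset V} : Ok Q (.leaf B) ↔ B.Nonempty ∧ Q B := Iff.rfl

lemma ok_iff {Q : Finset V → Prop} {t : Tree (Finset V)} : Ok Q t ↔
    t.leaves.Pairwise Disjoint ∧ ∀ B ∈ t.leaves, B.Nonempty ∧ Q B := by
  induction t with
  | leaf B => simp [Ok, Tree.leaves]
  | node l r ihl ihr =>
    have e : (Tree.node l r).leaves = l.leaves ++ r.leaves := rfl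
    have hd : Disjoint (bset l) (bset r) ↔ ∀ a ∈ l.leaves, ∀ b ∈ r.leaves, Disjoint a b := by
      simp only [Finset.disjoint_left, mem_bset]
      constructor
      · intro h a ha b hb v hva hvb
        exact h ⟨a, ha, hva⟩ ⟨b, hb, hvb⟩
      · rintro h v ⟨a, ha, hva⟩ ⟨b, hb, hvb⟩
        exact h a ha b hb hva hvb
    rw [ok_node, ihl, ihr, e, List.pairwise_append, hd]
    simp only [List.mem_append]
    constructor
    · rintro ⟨⟨h1, h2⟩, ⟨h3, h4⟩, h5⟩
      exact ⟨⟨h1, h3, h5⟩, fun B hB => hB.elim (h2 B) (h4 B)⟩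
    · rintro ⟨⟨h1, h3, h5⟩, h⟩
      exact ⟨⟨h1, fun B hB => h B (Or.inl hB)⟩, ⟨h3, fun B hB => h B (Or.inr hB)⟩, h5⟩

lemma Ok.nonempty {Q : Finset V → Prop} {t : Tree (Finset V)} (h : Ok Q t) :
    (bset t).Nonempty := by
  induction t with
  | leaf v => rw [bset_leaf]; exact h.1
  | node l r ihl _ => rw [bset_node]; exact (ihl h.1).mono Finset.subset_union_left

lemma sub_bset {s t : Tree (Finset V)} (h : IsSub s t) : bset s ⊆ bset t := by
  induction h with
  | refl => exact Finset.Subset.refl _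
  | left l r _ ih => rw [bset_node]; exact ih.trans Finset.subset_union_left
  | right l r _ ih => rw [bset_node]; exact ih.trans Finset.subset_union_right

lemma Ok.sub {Q : Finset V → Prop} {s t : Tree (Finset V)} (ht : Ok Q t) (h : IsSub s t) :
    Ok Q s := by
  induction h with
  | refl => exact ht
  | left l r _ ih => exact ih ht.1
  | right l r _ ih => exact ih ht.2.1

/-- The sets of two nodes are nested or disjoint. -/
lemma laminar {Q : Finset V → Prop} {t : Tree (Finset V)} (hnd : Ok Q t) :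
    ∀ {s s' : Tree (Finset V)}, IsSub s t → IsSub s' t →
    Disjoint (bset s) (bset s') ∨ bset s ⊆ bset s' ∨ bset s' ⊆ bset s := by
  induction t with
  | leaf v =>
    intro s s' h h'
    cases h
    cases h'
    exact Or.inr (Or.inl (Finset.Subset.refl _))
  | node l r ihl ihr =>
    obtain ⟨h1, h2, h3⟩ := hnd
    intro s s' h h'
    cases h with
    | refl => exact Or.inr (Or.inr (sub_bset h'))
    | left _ _ h =>
      cases h' with
      | refl => exact Or.inr (Or.inl (sub_bset (IsSub.left _ _ h)))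
      | left _ _ h' => exact ihl h1 h h'
      | right _ _ h' => exact Or.inl (h3.mono (sub_bset h) (sub_bset h'))
    | right _ _ h =>
      cases h' with
      | refl => exact Or.inr (Or.inl (sub_bset (IsSub.right _ _ h)))
      | left _ _ h' => exact Or.inl (h3.symm.mono (sub_bset h) (sub_bset h'))
      | right _ _ h' => exact ihr h2 h h'

/-! ### Counting descending pairs -/

/-- The number of nodes reachable from the root through nodes in `p`. -/
noncomputable def cnt (p : Finset V → Prop) : Tree (Finset V) → ℕ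
  | .leaf v => if p (bset (Tree.leaf v)) then 1 else 0
  | .node l r => if p (bset (Tree.node l r)) then 1 + cnt p l + cnt p r else 0

/-- The number of descending pairs with all nodes in `p`. -/
noncomputable def dsc (p : Finset V → Prop) : Tree (Finset V) → ℕ
  | .leaf v => cnt p (.leaf v)
  | .node l r => cnt p (.node l r) + dsc p l + dsc p r

lemma cnt_leaf (p : Finset V → Prop) (v : Finset V) :
    cnt p (.leaf v) = if p (bset (Tree.leaf v)) then 1 else 0 := rfl

lemma cnt_node (p : Finset V → Prop) (l r : Tree (Finset V)) :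
    cnt p (.node l r) = if p (bset (Tree.node l r)) then 1 + cnt p l + cnt p r else 0 := rfl

lemma dsc_leaf (p : Finset V → Prop) (v : Finset V) : dsc p (.leaf v) = cnt p (.leaf v) := rfl

lemma dsc_node (p : Finset V → Prop) (l r : Tree (Finset V)) :
    dsc p (.node l r) = cnt p (.node l r) + dsc p l + dsc p r := rfl

lemma cnt_zero {p : Finset V → Prop} {t : Tree (Finset V)} (h : ¬ p (bset t)) : cnt p t = 0 := by
  cases t with
  | leaf v => rw [cnt_leaf, if_neg h]
  | node l r => rw [cnt_node, if_neg h]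

lemma cnt_pos {p : Finset V → Prop} {t : Tree (Finset V)} (h : p (bset t)) : 0 < cnt p t := by
  cases t with
  | leaf v => rw [cnt_leaf, if_pos h]; norm_num
  | node l r => rw [cnt_node, if_pos h]; omega

lemma cnt_le_dsc (p : Finset V → Prop) (t : Tree (Finset V)) : cnt p t ≤ dsc p t := by
  cases t with
  | leaf v => rw [dsc_leaf]
  | node l r => rw [dsc_node]; omega

lemma cnt_mono {p q : Finset V → Prop} {t : Tree (Finset V)}
    (h : ∀ s, IsSub s t → p (bset s) → q (bset s)) : cnt p t ≤ cnt q t := by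
  induction t with
  | leaf v =>
    by_cases hp : p (bset (Tree.leaf v))
    · rw [cnt_leaf, cnt_leaf, if_pos hp, if_pos (h _ (IsSub.refl) hp)]
    · rw [cnt_zero hp]; exact Nat.zero_le _
  | node l r ihl ihr =>
    by_cases hp : p (bset (Tree.node l r))
    · rw [cnt_node, cnt_node, if_pos hp, if_pos (h _ (IsSub.refl) hp)]
      have h1 := ihl fun s hs => h s (IsSub.left _ _ hs)
      have h2 := ihr fun s hs => h s (IsSub.right _ _ hs)
      omega
    · rw [cnt_zero hp]; exact Nat.zero_le _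

lemma dsc_mono {p q : Finset V → Prop} {t : Tree (Finset V)}
    (h : ∀ s, IsSub s t → p (bset s) → q (bset s)) : dsc p t ≤ dsc q t := by
  induction t with
  | leaf v => rw [dsc_leaf, dsc_leaf]; exact cnt_mono h
  | node l r ihl ihr =>
    rw [dsc_node, dsc_node]
    have h0 := cnt_mono h
    have h1 := ihl fun s hs => h s (IsSub.left _ _ hs)
    have h2 := ihr fun s hs => h s (IsSub.right _ _ hs)
    omega

lemma dsc_eq_zero {p : Finset V → Prop} {t : Tree (Finset V)} :
    dsc p t = 0 ↔ ∀ s, IsSub s t → ¬ p (bset s) := by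
  induction t with
  | leaf v =>
    rw [dsc_leaf]
    constructor
    · intro h s hs hp
      cases hs
      exact absurd h (cnt_pos hp).ne'
    · intro h
      exact cnt_zero (h _ IsSub.refl)
  | node l r ihl ihr =>
    rw [dsc_node]
    constructor
    · intro h s hs hp
      have h1 : cnt p (.node l r) = 0 := by omega
      have h2 : dsc p l = 0 := by omega
      have h3 : dsc p r = 0 := by omega
      cases hs with
      | refl => exact absurd h1 (cnt_pos hp).ne'
      | left _ _ hs => exact ihl.mp h2 s hs hp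
      | right _ _ hs => exact ihr.mp h3 s hs hp
    · intro h
      rw [cnt_zero (h _ IsSub.refl), ihl.mpr fun s hs => h s (IsSub.left _ _ hs),
        ihr.mpr fun s hs => h s (IsSub.right _ _ hs)]

/-- Two disjoint predicates below a third one: counts from the root. -/
lemma cnt_add {p q g : Finset V → Prop} {t : Tree (Finset V)}
    (hp : ∀ s, IsSub s t → p (bset s) → g (bset s)) (hq : ∀ s, IsSub s t → q (bset s) → g (bset s))
    (hd : ∀ s, IsSub s t → p (bset s) → ¬ q (bset s)) : cnt p t + cnt q t ≤ cnt g t := by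
  by_cases h : p (bset t)
  · rw [cnt_zero (hd t IsSub.refl h), add_zero]
    exact cnt_mono hp
  · rw [cnt_zero h, zero_add]
    exact cnt_mono hq

/-- Two disjoint predicates below a third one: counts of descending pairs. -/
lemma dsc_add {p q g : Finset V → Prop} {t : Tree (Finset V)}
    (hp : ∀ s, IsSub s t → p (bset s) → g (bset s)) (hq : ∀ s, IsSub s t → q (bset s) → g (bset s))
    (hd : ∀ s, IsSub s t → p (bset s) → ¬ q (bset s)) : dsc p t + dsc q t ≤ dsc g t := by
  induction t with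
  | leaf v => rw [dsc_leaf, dsc_leaf, dsc_leaf]; exact cnt_add hp hq hd
  | node l r ihl ihr =>
    rw [dsc_node, dsc_node, dsc_node]
    have h0 := cnt_add hp hq hd
    have h1 := ihl (fun s hs => hp s (IsSub.left _ _ hs)) (fun s hs => hq s (IsSub.left _ _ hs))
      (fun s hs => hd s (IsSub.left _ _ hs))
    have h2 := ihr (fun s hs => hp s (IsSub.right _ _ hs)) (fun s hs => hq s (IsSub.right _ _ hs))
      (fun s hs => hd s (IsSub.right _ _ hs))
    omega

/-- Strict inequality if the inequality of the counts from the root is strict. -/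
lemma dsc_add_lt {p q g : Finset V → Prop} {t : Tree (Finset V)}
    (hp : ∀ s, IsSub s t → p (bset s) → g (bset s)) (hq : ∀ s, IsSub s t → q (bset s) → g (bset s))
    (hd : ∀ s, IsSub s t → p (bset s) → ¬ q (bset s)) (hlt : cnt p t + cnt q t < cnt g t) :
    dsc p t + dsc q t < dsc g t := by
  cases t with
  | leaf v => rw [dsc_leaf, dsc_leaf, dsc_leaf]; exact hlt
  | node l r =>
    rw [dsc_node, dsc_node, dsc_node]
    have h1 := dsc_add (fun s hs => hp s (IsSub.left l r hs))
      (fun s hs => hq s (IsSub.left _ _ hs)) (fun s hs => hd s (IsSub.left _ _ hs))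
    have h2 := dsc_add (fun s hs => hp s (IsSub.right l r hs))
      (fun s hs => hq s (IsSub.right _ _ hs)) (fun s hs => hd s (IsSub.right _ _ hs))
    omega

/-- Strict inequality if some node is in `g` but in neither `p` nor `q`. -/
lemma dsc_add_lt_of_node {p q g : Finset V → Prop} {s t : Tree (Finset V)} (hst : IsSub s t)
    (hg : g (bset s)) (hnp : ¬ p (bset s)) (hnq : ¬ q (bset s))
    (hp : ∀ s, IsSub s t → p (bset s) → g (bset s)) (hq : ∀ s, IsSub s t → q (bset s) → g (bset s))
    (hd : ∀ s, IsSub s t → p (bset s) → ¬ q (bset s)) :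
    dsc p t + dsc q t < dsc g t := by
  induction hst with
  | refl =>
    refine dsc_add_lt hp hq hd ?_
    rw [cnt_zero hnp, cnt_zero hnq]
    exact cnt_pos hg
  | left l r hs ih =>
    rw [dsc_node, dsc_node, dsc_node]
    have h0 := cnt_add hp hq hd
    have h1 := ih (fun s hs => hp s (IsSub.left l r hs))
      (fun s hs => hq s (IsSub.left _ _ hs)) (fun s hs => hd s (IsSub.left _ _ hs))
    have h2 := dsc_add (fun s hs => hp s (IsSub.right l r hs))
      (fun s hs => hq s (IsSub.right _ _ hs)) (fun s hs => hd s (IsSub.right _ _ hs))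
    omega
  | right l r hs ih =>
    rw [dsc_node, dsc_node, dsc_node]
    have h0 := cnt_add hp hq hd
    have h1 := dsc_add (fun s hs => hp s (IsSub.left l r hs))
      (fun s hs => hq s (IsSub.left _ _ hs)) (fun s hs => hd s (IsSub.left _ _ hs))
    have h2 := ih (fun s hs => hp s (IsSub.right l r hs))
      (fun s hs => hq s (IsSub.right _ _ hs)) (fun s hs => hd s (IsSub.right _ _ hs))
    omega

/-- Strict inequality of the counts from the root, from a path. -/
lemma cnt_lt_of_path {d : Finset V → ℕ} {m : ℕ} {a b : Tree (Finset V)} (h : PathGe (fun S : Finset (Finset V) => d (S.sup id)) m a b)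
    {p : Finset V → Prop} {j : ℕ} (hj : j ≤ m) (hnp : ¬ p (bset a))
    (hp : ∀ s, IsSub s b → p (bset s) → j ≤ d (bset s)) :
    cnt p b < cnt (fun S => j ≤ d S) b := by
  induction h with
  | refl h =>
    rw [cnt_zero hnp]
    exact cnt_pos (hj.trans h)
  | left l r hm _ ih =>
    have h1 := ih fun s hs => hp s (IsSub.left _ _ hs)
    have h2 : cnt p r ≤ cnt (fun S => j ≤ d S) r :=
      cnt_mono fun s hs => hp s (IsSub.right _ _ hs)
    rw [cnt_node (fun S => j ≤ d S), if_pos (show j ≤ d (bset (Tree.node l r)) from hj.trans hm)]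
    by_cases hpn : p (bset (Tree.node l r))
    · rw [cnt_node, if_pos hpn]
      omega
    · rw [cnt_zero hpn]
      omega
  | right l r hm _ ih =>
    have h1 := ih fun s hs => hp s (IsSub.right _ _ hs)
    have h2 : cnt p l ≤ cnt (fun S => j ≤ d S) l :=
      cnt_mono fun s hs => hp s (IsSub.left _ _ hs)
    rw [cnt_node (fun S => j ≤ d S), if_pos (show j ≤ d (bset (Tree.node l r)) from hj.trans hm)]
    by_cases hpn : p (bset (Tree.node l r))
    · rw [cnt_node, if_pos hpn]
      omega
    · rw [cnt_zero hpn]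
      omega

lemma sub_of_path {d : Finset V → ℕ} {m : ℕ} {a b : Tree (Finset V)} (h : PathGe (fun S : Finset (Finset V) => d (S.sup id)) m a b) :
    IsSub a b := by
  induction h with
  | refl h => exact IsSub.refl
  | left l r _ _ ih => exact IsSub.left _ _ ih
  | right l r _ _ ih => exact IsSub.right _ _ ih

/-! ### Restriction of a tree -/

/-- Restriction of a tree to the vertices in `p`. -/
lemma restrict (p : V → Prop) {Q : Finset V → Prop}
    (hQ : ∀ S T : Finset V, S ⊆ T → S.Nonempty → Q T → Q S) {t : Tree (Finset V)}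
    (ht : Ok Q t) : (∀ v ∈ bset t, ¬ p v) ∨
    ∃ t' : Tree (Finset V), Ok Q t' ∧ bset t' = (bset t).filter p ∧
      ∀ g : Finset V → Prop,
        cnt g t' ≤ cnt (fun S => (S.filter p).Nonempty ∧ g (S.filter p)) t ∧
        dsc g t' ≤ dsc (fun S => (S.filter p).Nonempty ∧ g (S.filter p)) t := by
  induction t with
  | leaf B =>
    by_cases hv : (B.filter p).Nonempty
    · have e : bset (Tree.leaf (B.filter p)) = (bset (Tree.leaf B)).filter p := by
        rw [bset_leaf, bset_leaf]
      refine Or.inr ⟨.leaf (B.filter p), ⟨hv, hQ _ _ (Finset.filter_subset _ _) hv ht.2⟩, e,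
        fun g => ?_⟩
      have h2 : cnt g (.leaf (B.filter p)) ≤
          cnt (fun S => (S.filter p).Nonempty ∧ g (S.filter p)) (.leaf B) := by
        by_cases hg : g (bset (Tree.leaf (B.filter p)))
        · rw [cnt_leaf, cnt_leaf, if_pos hg, if_pos]
          rw [← e]
          exact ⟨by rw [bset_leaf]; exact hv, hg⟩
        · rw [cnt_zero hg]
          exact Nat.zero_le _
      exact ⟨h2, h2⟩
    · refine Or.inl fun w hw hp => hv ⟨w, ?_⟩
      rw [bset_leaf] at hw
      exact Finset.mem_filter.mpr ⟨hw, hp⟩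
  | node l r ihl ihr =>
    obtain ⟨hl0, hr0, hd0⟩ := ht
    have e : bset (Tree.node l r) = bset l ∪ bset r := bset_node l r
    rcases ihl hl0 with hl | ⟨l', hlo, hl, hl'⟩
    · have el : (bset l).filter p = ∅ := Finset.filter_eq_empty_iff.mpr fun v hv => hl v hv
      rcases ihr hr0 with hr | ⟨r', hro, hr, hr'⟩
      · left
        intro v hv
        rw [bset_node, Finset.mem_union] at hv
        exact hv.elim (hl v) (hr v)
      · right
        have h0 : bset r' = (bset (Tree.node l r)).filter p := by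
          rw [hr, e, Finset.filter_union, el, Finset.empty_union]
        refine ⟨r', hro, h0, fun g => ?_⟩
        have h1 := (hr' g).1
        have h2 := (hr' g).2
        have h3 : cnt g r' ≤
            cnt (fun S => (S.filter p).Nonempty ∧ g (S.filter p)) (.node l r) := by
          by_cases hg : g (bset r')
          · rw [cnt_node, if_pos]
            · omega
            · rw [← h0]
              exact ⟨hro.nonempty, hg⟩
          · rw [cnt_zero hg]
            exact Nat.zero_le _
        refine ⟨h3, ?_⟩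
        rw [dsc_node]
        omega
    · rcases ihr hr0 with hr | ⟨r', hro, hr, hr'⟩
      · have er : (bset r).filter p = ∅ := Finset.filter_eq_empty_iff.mpr fun v hv => hr v hv
        right
        have h0 : bset l' = (bset (Tree.node l r)).filter p := by
          rw [hl, e, Finset.filter_union, er, Finset.union_empty]
        refine ⟨l', hlo, h0, fun g => ?_⟩
        have h1 := (hl' g).1
        have h2 := (hl' g).2
        have h3 : cnt g l' ≤
            cnt (fun S => (S.filter p).Nonempty ∧ g (S.filter p)) (.node l r) := by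
          by_cases hg : g (bset l')
          · rw [cnt_node, if_pos]
            · omega
            · rw [← h0]
              exact ⟨hlo.nonempty, hg⟩
          · rw [cnt_zero hg]
            exact Nat.zero_le _
        refine ⟨h3, ?_⟩
        rw [dsc_node]
        omega
      · right
        have h0 : bset (Tree.node l' r') = (bset (Tree.node l r)).filter p := by
          rw [e, bset_node, hl, hr, Finset.filter_union]
        have ho : Ok Q (Tree.node l' r') := by
          refine ⟨hlo, hro, ?_⟩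
          rw [hl, hr]
          exact hd0.mono (Finset.filter_subset _ _) (Finset.filter_subset _ _)
        refine ⟨.node l' r', ho, h0, fun g => ?_⟩
        have h1 := (hl' g).1
        have h2 := (hl' g).2
        have h4 := (hr' g).1
        have h5 := (hr' g).2
        have h3 : cnt g (.node l' r') ≤
            cnt (fun S => (S.filter p).Nonempty ∧ g (S.filter p)) (.node l r) := by
          by_cases hg : g (bset (Tree.node l' r'))
          · rw [cnt_node, if_pos hg, cnt_node, if_pos]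
            · omega
            · rw [← h0]
              exact ⟨ho.nonempty, hg⟩
          · rw [cnt_zero hg]
            exact Nat.zero_le _
        refine ⟨h3, ?_⟩
        rw [dsc_node, dsc_node]
        omega

/-! ### The upper part of the new tree -/

/-- The upper version of a node. -/
def Up (A X : Finset V) (g : Finset V → Prop) (S : Finset V) : Prop :=
  (Disjoint S A ∧ (S \ X).Nonempty ∧ g (S \ X)) ∨ (A ⊆ S ∧ g (S ∪ X))

/-- One step of the construction of the upper part: `l` is the child on the path, `r` the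
sibling, `b` the parent. -/
lemma upper_step (A X : Finset V) {Q : Finset V → Prop}
    (hQ : ∀ S T : Finset V, S ⊆ T → S.Nonempty → Q T → Q S) (low : Tree (Finset V))
    {l r l' : Tree (Finset V)} (hAl : A ⊆ bset l) (hrA : Disjoint (bset r) A)
    (hlr : Disjoint (bset l) (bset r)) (hro : Ok Q r) (hlo : Ok Q l')
    (hls : bset l' = bset l ∪ X)
    (hc : ∀ g : Finset V → Prop, ¬ g X → cnt g l' ≤ cnt (Up A X g) l ∧
      dsc g l' ≤ dsc (Up A X g) l + dsc g low) :
    ∃ b' : Tree (Finset V), Ok Q b' ∧ bset b' = bset l ∪ bset r ∪ X ∧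
      ∀ g : Finset V → Prop, ¬ g X →
        cnt g b' ≤ (if Up A X g (bset l ∪ bset r) then 1 + cnt (Up A X g) l + cnt (Up A X g) r
          else 0) ∧
        dsc g b' ≤ (if Up A X g (bset l ∪ bset r) then 1 + cnt (Up A X g) l + cnt (Up A X g) r
          else 0) + dsc (Up A X g) l + dsc (Up A X g) r + dsc g low := by
  obtain ⟨p, hpX⟩ : ∃ p : V → Prop, ∀ v, p v ↔ v ∉ X := ⟨_, fun _ => Iff.rfl⟩
  have hf : ∀ S : Finset V, S.filter p = S \ X := fun S => by
    ext v
    rw [Finset.mem_filter, Finset.mem_sdiff, hpX]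
  rcases restrict p hQ hro with hr | ⟨r', hro', hr, hr'⟩
  · have hrX : bset r ⊆ X := by
      intro v hv
      by_contra hvX
      exact hr v hv ((hpX v).mpr hvX)
    refine ⟨l', hlo, ?_, fun g hg => ?_⟩
    · rw [hls, Finset.union_assoc, Finset.union_eq_right.mpr hrX]
    · have h1 := (hc g hg).1
      have h2 := (hc g hg).2
      have h3 : cnt g l' ≤ (if Up A X g (bset l ∪ bset r) then
          1 + cnt (Up A X g) l + cnt (Up A X g) r else 0) := by
        by_cases hgl : g (bset l')
        · rw [if_pos]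
          · omega
          · refine Or.inr ⟨hAl.trans Finset.subset_union_left, ?_⟩
            rw [hls] at hgl
            rwa [Finset.union_assoc, Finset.union_eq_right.mpr hrX]
        · rw [cnt_zero hgl]
          exact Nat.zero_le _
      refine ⟨h3, ?_⟩
      omega
  · rw [hf] at hr
    have hbs : bset (Tree.node l' r') = bset l ∪ bset r ∪ X := by
      rw [bset_node, hls, hr]
      ext v
      simp only [Finset.mem_union, Finset.mem_sdiff]
      tauto
    refine ⟨.node l' r', ⟨hlo, hro', ?_⟩, hbs, fun g hg => ?_⟩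
    · rw [hls, hr, Finset.disjoint_left]
      intro v hv hv'
      rw [Finset.mem_union] at hv
      rw [Finset.mem_sdiff] at hv'
      rcases hv with hv | hv
      · exact Finset.disjoint_left.mp hlr hv hv'.1
      · exact hv'.2 hv
    · have h1 := (hc g hg).1
      have h2 := (hc g hg).2
      have h4 : cnt g r' ≤ cnt (Up A X g) r := by
        refine (hr' g).1.trans (cnt_mono fun s hs hsg => ?_)
        rw [hf] at hsg
        exact Or.inl ⟨hrA.mono_left (sub_bset hs), hsg.1, hsg.2⟩
      have h5 : dsc g r' ≤ dsc (Up A X g) r := by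
        refine (hr' g).2.trans (dsc_mono fun s hs hsg => ?_)
        rw [hf] at hsg
        exact Or.inl ⟨hrA.mono_left (sub_bset hs), hsg.1, hsg.2⟩
      have h3 : cnt g (.node l' r') ≤ (if Up A X g (bset l ∪ bset r) then
          1 + cnt (Up A X g) l + cnt (Up A X g) r else 0) := by
        by_cases hgl : g (bset (Tree.node l' r'))
        · rw [cnt_node, if_pos hgl, if_pos]
          · omega
          · refine Or.inr ⟨hAl.trans Finset.subset_union_left, ?_⟩
            rwa [hbs] at hgl
        · rw [cnt_zero hgl]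
          exact Nat.zero_le _
      refine ⟨h3, ?_⟩
      rw [dsc_node]
      omega

/-- The upper part of the new tree. -/
lemma upper {d : Finset V → ℕ} {m : ℕ} {a b : Tree (Finset V)}
    (h : PathGe (fun S : Finset (Finset V) => d (S.sup id)) m a b) {Q : Finset V → Prop}
    (hQ : ∀ S T : Finset V, S ⊆ T → S.Nonempty → Q T → Q S)
    (hnd : Ok Q b) (X : Finset V) (haX : bset a ⊆ X) (low : Tree (Finset V)) (hlo : Ok Q low)
    (hlow : bset low = X) :
    ∃ b' : Tree (Finset V), Ok Q b' ∧ bset b' = bset b ∪ X ∧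
      ∀ g : Finset V → Prop, ¬ g X →
        cnt g b' ≤ cnt (Up (bset a) X g) b ∧ dsc g b' ≤ dsc (Up (bset a) X g) b + dsc g low := by
  induction h with
  | refl h =>
    refine ⟨low, hlo, ?_, fun g hg => ⟨?_, Nat.le_add_left _ _⟩⟩
    · rw [hlow, Finset.union_eq_right.mpr haX]
    · rw [← hlow] at hg
      rw [cnt_zero hg]
      exact Nat.zero_le _
  | left l r hm hp ih =>
    obtain ⟨h1, h2, h3⟩ := hnd
    obtain ⟨l', hlo', hl', hc⟩ := ih h1
    have hAl := sub_bset (sub_of_path hp)
    obtain ⟨b', hbo, hb', hcb⟩ := upper_step (bset a) X hQ low (r := r) hAl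
      (h3.symm.mono_right hAl) h3 h2 hlo' hl' hc
    refine ⟨b', hbo, ?_, fun g hg => ?_⟩
    · rw [hb', bset_node]
    have h4 := hcb g hg
    rw [dsc_node, cnt_node, bset_node]
    exact h4
  | right l r hm hp ih =>
    obtain ⟨h1, h2, h3⟩ := hnd
    obtain ⟨l', hlo', hl', hc⟩ := ih h2
    have hAl := sub_bset (sub_of_path hp)
    obtain ⟨b', hbo, hb', hcb⟩ := upper_step (bset a) X hQ low (r := l) hAl
      (h3.mono_right hAl) h3.symm h1 hlo' hl' hc
    refine ⟨b', hbo, ?_, fun g hg => ?_⟩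
    · rw [hb', bset_node, Finset.union_comm (bset r)]
    have h4 := hcb g hg
    rw [dsc_node, cnt_node, bset_node, Finset.union_comm (bset l) (bset r)]
    refine ⟨h4.1.trans (le_of_eq ?_), h4.2.trans (le_of_eq ?_)⟩
    · split_ifs <;> omega
    · split_ifs <;> omega

/-! ### Replacement of a subtree -/

lemma replace {Q : Finset V → Prop} {b b' : Tree (Finset V)} (hb : bset b' = bset b)
    (hbo : Ok Q b') {t : Tree (Finset V)} (h : IsSub b t) (ht : Ok Q t) :
    ∃ t' : Tree (Finset V), Ok Q t' ∧ bset t' = bset t ∧ ∀ g : Finset V → Prop,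
      cnt g b' ≤ cnt g b → cnt g t' ≤ cnt g t ∧ (dsc g b' ≤ dsc g b → dsc g t' ≤ dsc g t) ∧
        (dsc g b' < dsc g b → dsc g t' < dsc g t) := by
  induction h with
  | refl => exact ⟨b', hbo, hb, fun g h => ⟨h, id, id⟩⟩
  | left l r _ ih =>
    obtain ⟨l', hlo, hl', hc⟩ := ih ht.1
    have hset : bset (Tree.node l' r) = bset (Tree.node l r) := by
      rw [bset_node, bset_node, hl']
    refine ⟨.node l' r, ⟨hlo, ht.2.1, hl' ▸ ht.2.2⟩, hset, fun g hg => ?_⟩
    obtain ⟨h1, h2, h3⟩ := hc g hg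
    have h4 : cnt g (.node l' r) ≤ cnt g (.node l r) := by
      rw [cnt_node, cnt_node, hset]
      split_ifs
      · omega
      · exact le_refl _
    refine ⟨h4, fun h => ?_, fun h => ?_⟩
    · have := h2 h
      rw [dsc_node, dsc_node]
      omega
    · have := h3 h
      rw [dsc_node, dsc_node]
      omega
  | right l r _ ih =>
    obtain ⟨r', hro, hr', hc⟩ := ih ht.2.1
    have hset : bset (Tree.node l r') = bset (Tree.node l r) := by
      rw [bset_node, bset_node, hr']
    refine ⟨.node l r', ⟨ht.1, hro, hr' ▸ ht.2.2⟩, hset, fun g hg => ?_⟩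
    obtain ⟨h1, h2, h3⟩ := hc g hg
    have h4 : cnt g (.node l r') ≤ cnt g (.node l r) := by
      rw [cnt_node, cnt_node, hset]
      split_ifs
      · omega
      · exact le_refl _
    refine ⟨h4, fun h => ?_, fun h => ?_⟩
    · have := h2 h
      rw [dsc_node, dsc_node]
      omega
    · have := h3 h
      rw [dsc_node, dsc_node]
      omega

/-! ### The improvement step -/

/-- The sets of the nodes. -/
noncomputable def nodes : Tree (Finset V) → Finset (Finset V)
  | .leaf v => {(bset (Tree.leaf v))}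
  | .node l r => insert (bset (Tree.node l r)) (nodes l ∪ nodes r)

lemma mem_nodes {t : Tree (Finset V)} {S : Finset V} : S ∈ nodes t ↔ ∃ s, IsSub s t ∧ (bset s) = S := by
  induction t with
  | leaf v =>
    rw [nodes, Finset.mem_singleton]
    constructor
    · rintro rfl
      exact ⟨_, IsSub.refl, rfl⟩
    · rintro ⟨s, hs, rfl⟩
      cases hs
      rfl
  | node l r ihl ihr =>
    rw [nodes, Finset.mem_insert, Finset.mem_union, ihl, ihr]
    constructor
    · rintro (rfl | ⟨s, hs, rfl⟩ | ⟨s, hs, rfl⟩)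
      · exact ⟨_, IsSub.refl, rfl⟩
      · exact ⟨s, IsSub.left _ _ hs, rfl⟩
      · exact ⟨s, IsSub.right _ _ hs, rfl⟩
    · rintro ⟨s, hs, rfl⟩
      cases hs with
      | refl => exact Or.inl rfl
      | left _ _ hs => exact Or.inr (Or.inl ⟨s, hs, rfl⟩)
      | right _ _ hs => exact Or.inr (Or.inr ⟨s, hs, rfl⟩)

/-- The lower version of a node is in `g`. -/
def Low (X : Finset V) (g : Finset V → Prop) (S : Finset V) : Prop :=
  (S ∩ X).Nonempty ∧ g (S ∩ X)

/-- A node off the path which is cut by `X`. -/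
def CutBy (A X S : Finset V) : Prop := Disjoint S A ∧ (S ∩ X).Nonempty ∧ (S \ X).Nonempty

lemma choose_X (d : Finset V → ℕ) (A B X0 : Finset V) (cc : Finset V → ℕ) (h1 : A ⊆ X0)
    (h2 : X0 ⊆ B) : ∃ X, A ⊆ X ∧ X ⊆ B ∧ d X ≤ d X0 ∧ (∀ Y, A ⊆ Y → Y ⊆ B → d X ≤ d Y) ∧
      ∀ Y, A ⊆ Y → Y ⊆ B → d Y = d X → cc X ≤ cc Y := by
  obtain ⟨X1, hX1, hmin1⟩ := Finset.exists_min_image (B.powerset.filter (fun Y => A ⊆ Y)) d
    ⟨X0, Finset.mem_filter.mpr ⟨Finset.mem_powerset.mpr h2, h1⟩⟩
  obtain ⟨X, hX, hmin⟩ := Finset.exists_min_image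
    ((B.powerset.filter (fun Y => A ⊆ Y)).filter (fun Y => d Y = d X1)) cc
    ⟨X1, Finset.mem_filter.mpr ⟨hX1, rfl⟩⟩
  obtain ⟨hX, hdX⟩ := Finset.mem_filter.mp hX
  obtain ⟨hXB, hAX⟩ := Finset.mem_filter.mp hX
  refine ⟨X, hAX, Finset.mem_powerset.mp hXB, ?_, fun Y hY1 hY2 => ?_, fun Y hY1 hY2 hY3 => ?_⟩
  · rw [hdX]
    exact hmin1 X0 (Finset.mem_filter.mpr ⟨Finset.mem_powerset.mpr h2, h1⟩)
  · rw [hdX]
    exact hmin1 Y (Finset.mem_filter.mpr ⟨Finset.mem_powerset.mpr hY2, hY1⟩)
  · exact hmin Y (Finset.mem_filter.mpr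
      ⟨Finset.mem_filter.mpr ⟨Finset.mem_powerset.mpr hY2, hY1⟩, hY3.trans hdX⟩)

/-- Fact (1): both versions of a cut node off the path have smaller value. -/
lemma cut_lt (d : Finset V → ℕ)
    (hsub : ∀ X Y : Finset V, d (X ∩ Y) + d (X ∪ Y) ≤ d X + d Y)
    (hpos : ∀ X Y : Finset V, d (X \ Y) + d (Y \ X) ≤ d X + d Y)
    {Q : Finset V → Prop} {b : Tree (Finset V)} (hnd : Ok Q b) {A X : Finset V} (hAX : A ⊆ X) (hXB : X ⊆ (bset b))
    (hmin : ∀ Y, A ⊆ Y → Y ⊆ (bset b) → d X ≤ d Y)
    (hcc : ∀ Y, A ⊆ Y → Y ⊆ (bset b) → d Y = d X →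
      ((nodes b).filter (CutBy A X)).card ≤ ((nodes b).filter (CutBy A Y)).card)
    {s : Tree (Finset V)} (hs : IsSub s b) (hc : CutBy A X (bset s)) :
    d ((bset s) ∩ X) < d (bset s) ∧ d ((bset s) \ X) < d (bset s) := by
  obtain ⟨hdis, hne1, hne2⟩ := hc
  have hlt : ∀ Y, A ⊆ Y → Y ⊆ (bset b) → (∀ t, IsSub t b → CutBy A Y (bset t) → CutBy A X (bset t)) →
      ¬ CutBy A Y (bset s) → d X < d Y := by
    intro Y hAY hYB hsubset hnot
    refine lt_of_le_of_ne (hmin Y hAY hYB) fun heq => ?_
    have h1 := hcc Y hAY hYB heq.symm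
    have h2 : (nodes b).filter (CutBy A Y) ⊂ (nodes b).filter (CutBy A X) := by
      rw [Finset.ssubset_iff_of_subset]
      · exact ⟨(bset s), Finset.mem_filter.mpr ⟨mem_nodes.mpr ⟨s, hs, rfl⟩, hdis, hne1, hne2⟩,
          fun h => hnot (Finset.mem_filter.mp h).2⟩
      · intro S hS
        obtain ⟨h3, h4⟩ := Finset.mem_filter.mp hS
        obtain ⟨t, ht, rfl⟩ := mem_nodes.mp h3
        exact Finset.mem_filter.mpr ⟨h3, hsubset t ht h4⟩
    have h3 := Finset.card_lt_card h2
    omega
  have hsB := sub_bset hs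
  constructor
  · have h1 : d X < d ((bset s) ∪ X) := by
      refine hlt _ (hAX.trans Finset.subset_union_right) (Finset.union_subset hsB hXB) ?_ ?_
      · rintro t ht ⟨h3, ⟨v, hv⟩, ⟨w, hw⟩⟩
        rw [Finset.mem_inter, Finset.mem_union] at hv
        rw [Finset.mem_sdiff, Finset.mem_union] at hw
        push Not at hw
        refine ⟨h3, ?_, ⟨w, Finset.mem_sdiff.mpr ⟨hw.1, hw.2.2⟩⟩⟩
        rcases laminar hnd ht hs with h | h | h
        · rcases hv.2 with hv2 | hv2
          · exact absurd hv2 (Finset.disjoint_left.mp h hv.1)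
          · exact ⟨v, Finset.mem_inter.mpr ⟨hv.1, hv2⟩⟩
        · exact absurd (h hw.1) hw.2.1
        · exact hne1.mono (Finset.inter_subset_inter_right h)
      · rintro ⟨_, _, ⟨w, hw⟩⟩
        rw [Finset.mem_sdiff, Finset.mem_union] at hw
        exact hw.2 (Or.inl hw.1)
    have h2 := hsub (bset s) X
    omega
  · have h1 : d X < d (X \ (bset s)) := by
      refine hlt _ ?_ (Finset.sdiff_subset.trans hXB) ?_ ?_
      · intro v hv
        exact Finset.mem_sdiff.mpr ⟨hAX hv, fun h => Finset.disjoint_left.mp hdis h hv⟩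
      · rintro t ht ⟨h3, ⟨v, hv⟩, ⟨w, hw⟩⟩
        rw [Finset.mem_inter, Finset.mem_sdiff] at hv
        rw [Finset.mem_sdiff, Finset.mem_sdiff] at hw
        refine ⟨h3, ⟨v, Finset.mem_inter.mpr ⟨hv.1, hv.2.1⟩⟩, ?_⟩
        rcases laminar hnd ht hs with h | h | h
        · refine ⟨w, Finset.mem_sdiff.mpr ⟨hw.1, fun hwX => hw.2 ⟨hwX, ?_⟩⟩⟩
          exact fun hws => Finset.disjoint_left.mp h hw.1 hws
        · exact absurd (h hv.1) hv.2.2
        · exact hne2.mono (Finset.sdiff_subset_sdiff h (Finset.Subset.refl _))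
      · rintro ⟨_, ⟨v, hv⟩, _⟩
        rw [Finset.mem_inter, Finset.mem_sdiff] at hv
        exact hv.2.2 hv.1
    have h2 := hpos (bset s) X
    omega

lemma improve (d : Finset V → ℕ)
    (hsub : ∀ X Y : Finset V, d (X ∩ Y) + d (X ∪ Y) ≤ d X + d Y)
    (hpos : ∀ X Y : Finset V, d (X \ Y) + d (Y \ X) ≤ d X + d Y)
    {Q : Finset V → Prop} (hQ : ∀ S T : Finset V, S ⊆ T → S.Nonempty → Q T → Q S)
    {m : ℕ} {a b : Tree (Finset V)}
    (hp : PathGe (fun S : Finset (Finset V) => d (S.sup id)) m a b) (hnd : Ok Q b)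
    (hb : d (bset b) = m) {X0 : Finset V} (h1 : (bset a) ⊆ X0) (h2 : X0 ⊆ (bset b)) (h3 : d X0 < m) :
    ∃ (b' : Tree (Finset V)) (k0 : ℕ), Ok Q b' ∧ bset b' = bset b ∧ (∃ s, IsSub s b ∧ k0 ≤ d (bset s)) ∧
      (∀ j, k0 ≤ j → cnt (fun S => j ≤ d S) b' ≤ cnt (fun S => j ≤ d S) b ∧
        dsc (fun S => j ≤ d S) b' ≤ dsc (fun S => j ≤ d S) b) ∧
      dsc (fun S => k0 ≤ d S) b' < dsc (fun S => k0 ≤ d S) b := by
  obtain ⟨X, hAX, hXB, hdX, hmin, hcc⟩ := choose_X d (bset a) (bset b) X0
    (fun X => ((nodes b).filter (CutBy (bset a) X)).card) h1 h2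
  have hab := sub_of_path hp
  have hAB := sub_bset hab
  have hAne : (bset a).Nonempty := (hnd.sub hab).nonempty
  -- the two parts
  obtain ⟨p, hpX⟩ : ∃ p : V → Prop, ∀ v, p v ↔ v ∈ X := ⟨_, fun _ => Iff.rfl⟩
  have hfil : ∀ S : Finset V, S.filter p = S ∩ X := by
    intro S
    ext v
    rw [Finset.mem_filter, Finset.mem_inter, hpX]
  obtain ⟨low, hlo, hlow, hlowc⟩ : ∃ t' : Tree (Finset V), Ok Q t' ∧ bset t' = X ∧
      ∀ g : Finset V → Prop, cnt g t' ≤ cnt (Low X g) b ∧ dsc g t' ≤ dsc (Low X g) b := by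
    rcases restrict p hQ hnd with h | ⟨t', h4, h4', h5⟩
    · obtain ⟨v, hv⟩ := hAne
      exact absurd ((hpX v).mpr (hAX hv)) (h v (hAB hv))
    · refine ⟨t', h4, ?_, fun g => ?_⟩
      · rw [h4', hfil, Finset.inter_eq_right.mpr hXB]
      have h6 := h5 g
      have h7 : (fun S : Finset V => (S.filter p).Nonempty ∧ g (S.filter p)) = Low X g := by
        funext S
        rw [hfil]
        rfl
      rw [h7] at h6
      exact h6
  obtain ⟨b', hbo', hb'l, hb'c⟩ := upper hp hQ hnd X hAX low hlo hlow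
  rw [Finset.union_eq_left.mpr hXB] at hb'l
  -- pointwise facts
  have hcut : ∀ s, IsSub s b → CutBy (bset a) X (bset s) →
      d ((bset s) ∩ X) < d (bset s) ∧ d ((bset s) \ X) < d (bset s) := fun s hs hc =>
    cut_lt d hsub hpos hnd hAX hXB hmin hcc hs hc
  have hpath : ∀ s, IsSub s b → (bset a) ⊆ (bset s) → d X ≤ d ((bset s) ∩ X) ∧ d X ≤ d ((bset s) ∪ X) ∧
      d ((bset s) ∩ X) + d ((bset s) ∪ X) ≤ d (bset s) + d X := fun s hs hc =>
    ⟨hmin _ (Finset.subset_inter hc hAX) (Finset.inter_subset_right.trans hXB),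
      hmin _ (hc.trans Finset.subset_union_left) (Finset.union_subset (sub_bset hs) hXB),
      hsub _ _⟩
  have hnotdis : ∀ s : Finset V, (bset a) ⊆ s → ¬ Disjoint s (bset a) := by
    intro s hs hd
    obtain ⟨v, hv⟩ := hAne
    exact Finset.disjoint_left.mp hd (hs hv) hv
  have hLg : ∀ j s, IsSub s b → Low X (fun S => j ≤ d S) (bset s) → j ≤ d (bset s) := by
    rintro j s hs ⟨hne, hj⟩
    have hj : j ≤ d ((bset s) ∩ X) := hj
    rcases laminar hnd hs hab with h | h | h
    · by_cases hne2 : ((bset s) \ X).Nonempty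
      · exact hj.trans (hcut s hs ⟨h, hne, hne2⟩).1.le
      · rw [Finset.not_nonempty_iff_eq_empty, Finset.sdiff_eq_empty_iff_subset] at hne2
        rwa [Finset.inter_eq_left.mpr hne2] at hj
    · rwa [Finset.inter_eq_left.mpr (h.trans hAX)] at hj
    · have := hpath s hs h
      omega
  have hUg : ∀ j s, IsSub s b → Up (bset a) X (fun S => j ≤ d S) (bset s) → j ≤ d (bset s) := by
    rintro j s hs (⟨hdis, hne, hj⟩ | ⟨hA, hj⟩)
    · have hj : j ≤ d ((bset s) \ X) := hj
      by_cases hne2 : ((bset s) ∩ X).Nonempty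
      · exact hj.trans (hcut s hs ⟨hdis, hne2, hne⟩).2.le
      · rw [Finset.not_nonempty_iff_eq_empty, ← Finset.disjoint_iff_inter_eq_empty] at hne2
        rwa [Finset.sdiff_eq_self_of_disjoint hne2] at hj
    · have hj : j ≤ d ((bset s) ∪ X) := hj
      have := hpath s hs hA
      omega
  have hLU : ∀ j s, IsSub s b → d X < j → Low X (fun S => j ≤ d S) (bset s) →
      Up (bset a) X (fun S => j ≤ d S) (bset s) →
        d ((bset s) ∩ X) < d (bset s) ∧ ¬ Up (bset a) X (fun S => d (bset s) ≤ d S) (bset s) := by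
    rintro j s hs hjq ⟨hne, hj⟩ (⟨hdis, hne2, hj2⟩ | ⟨hA, hj2⟩)
    · have h4 := hcut s hs ⟨hdis, hne, hne2⟩
      refine ⟨h4.1, ?_⟩
      rintro (⟨_, _, h5⟩ | ⟨h5, _⟩)
      · exact absurd h4.2 (not_lt.mpr h5)
      · exact hnotdis _ h5 hdis
    · have hj : j ≤ d ((bset s) ∩ X) := hj
      have hj2 : j ≤ d ((bset s) ∪ X) := hj2
      have h4 := hpath s hs hA
      refine ⟨by omega, ?_⟩
      rintro (⟨h5, _, _⟩ | ⟨_, h5⟩)
      · exact hnotdis _ hA h5
      · have h5 : d (bset s) ≤ d ((bset s) ∪ X) := h5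
        omega
  -- altered nodes
  obtain ⟨Alt, hAlt⟩ : ∃ Alt : Finset V → Prop, ∀ S, Alt S ↔
      ¬ Low X (fun T => d S ≤ d T) S ∧ ¬ Up (bset a) X (fun T => d S ≤ d T) S :=
    ⟨_, fun _ => Iff.rfl⟩
  have hnb : ∀ j s, IsSub s b → max (((nodes b).filter Alt).sup d) (d X + 1) ≤ j →
      Up (bset a) X (fun S => j ≤ d S) (bset s) → ¬ Low X (fun S => j ≤ d S) (bset s) := by
    intro j s hs hj hU hL
    obtain ⟨h4, h5⟩ := hLU j s hs (by omega) hL hU
    have h6 : Alt (bset s) := (hAlt _).mpr ⟨fun h => absurd h4 (not_lt.mpr h.2), h5⟩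
    have h7 : d (bset s) ≤ ((nodes b).filter Alt).sup d :=
      Finset.le_sup (f := d) (Finset.mem_filter.mpr ⟨mem_nodes.mpr ⟨s, hs, rfl⟩, h6⟩)
    have h8 : j ≤ d ((bset s) ∩ X) := hL.2
    omega
  have hall : ∀ j, d X + 1 ≤ j → cnt (fun S => j ≤ d S) b' ≤
      cnt (Up (bset a) X (fun S => j ≤ d S)) b ∧ dsc (fun S => j ≤ d S) b' ≤
        dsc (Up (bset a) X (fun S => j ≤ d S)) b + dsc (Low X (fun S => j ≤ d S)) b := by
    intro j hj
    have h4 := hb'c (fun S => j ≤ d S) (by omega)
    have h5 := hlowc (fun S => j ≤ d S)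
    exact ⟨h4.1, h4.2.trans (Nat.add_le_add_left h5.2 _)⟩
  refine ⟨b', max (((nodes b).filter Alt).sup d) (d X + 1), hbo', hb'l, ?_, ?_, ?_⟩
  · rcases le_total (((nodes b).filter Alt).sup d) (d X + 1) with h | h
    · rw [max_eq_right h]
      exact ⟨b, IsSub.refl, by omega⟩
    · rw [max_eq_left h]
      have hne : ((nodes b).filter Alt).Nonempty := by
        rw [Finset.nonempty_iff_ne_empty]
        intro h4
        rw [h4, Finset.sup_empty] at h
        simp at h
      obtain ⟨S, hS, hS2⟩ := Finset.exists_mem_eq_sup _ hne d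
      obtain ⟨s, hs, rfl⟩ := mem_nodes.mp (Finset.mem_filter.mp hS).1
      exact ⟨s, hs, hS2.le⟩
  · intro j hj
    have h4 := hall j (by omega)
    refine ⟨h4.1.trans (cnt_mono fun s hs => hUg j s hs), h4.2.trans ?_⟩
    exact dsc_add (fun s hs => hUg j s hs) (fun s hs => hLg j s hs)
      (fun s hs => hnb j s hs hj)
  · have h4 := hall (max (((nodes b).filter Alt).sup d) (d X + 1)) (le_max_right _ _)
    refine lt_of_le_of_lt h4.2 ?_
    rcases le_or_gt (((nodes b).filter Alt).sup d) (d X) with h | h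
    · have h5 : max (((nodes b).filter Alt).sup d) (d X + 1) = d X + 1 := by omega
      rw [h5] at hnb ⊢
      refine dsc_add_lt (fun s hs => hUg _ s hs) (fun s hs => hLg _ s hs)
        (fun s hs => hnb _ s hs le_rfl) ?_
      have h6 : ¬ Low X (fun S => d X + 1 ≤ d S) (bset b) := by
        rintro ⟨_, h7⟩
        have h7 : d X + 1 ≤ d ((bset b) ∩ X) := h7
        rw [Finset.inter_eq_right.mpr hXB] at h7
        omega
      rw [cnt_zero h6, add_zero]
      refine cnt_lt_of_path hp (by omega) ?_ (fun s hs => hUg _ s hs)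
      rintro (⟨h7, _, _⟩ | ⟨_, h7⟩)
      · exact hnotdis _ (Finset.Subset.refl _) h7
      · have h7 : d X + 1 ≤ d ((bset a) ∪ X) := h7
        rw [Finset.union_eq_right.mpr hAX] at h7
        omega
    · have h5 : max (((nodes b).filter Alt).sup d) (d X + 1) = ((nodes b).filter Alt).sup d := by
        omega
      rw [h5] at hnb ⊢
      have hne : ((nodes b).filter Alt).Nonempty := by
        rw [Finset.nonempty_iff_ne_empty]
        intro h4
        rw [h4, Finset.sup_empty] at h
        simp at h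
      obtain ⟨S, hS, hS2⟩ := Finset.exists_mem_eq_sup _ hne d
      obtain ⟨h6, h7⟩ := Finset.mem_filter.mp hS
      obtain ⟨s, hs, rfl⟩ := mem_nodes.mp h6
      rw [hAlt] at h7
      rw [hS2] at hnb ⊢
      exact dsc_add_lt_of_node hs (le_refl _) h7.2 h7.1 (fun s hs => hUg _ s hs)
        (fun s hs => hLg _ s hs) (fun s hs => hnb _ s hs le_rfl)

end TLB

open TLB in
/-- Existence of linked trees of bags. -/
theorem exists_linkedB {V : Type*} (d : Finset V → ℕ)
    (hsub : ∀ X Y : Finset V, d (X ∩ Y) + d (X ∪ Y) ≤ d X + d Y)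
    (hpos : ∀ X Y : Finset V, d (X \ Y) + d (Y \ X) ≤ d X + d Y)
    {Q : Finset V → Prop} (hQ : ∀ S T : Finset V, S ⊆ T → S.Nonempty → Q T → Q S)
    (k : ℕ) (t : Tree (Finset V)) (hnd : Ok Q t) (hk : ∀ s, IsSub s t → d (bset s) ≤ k) :
    ∃ t' : Tree (Finset V), Ok Q t' ∧ bset t' = bset t ∧ (∀ s, IsSub s t' → d (bset s) ≤ k) ∧
      ∀ b a : Tree (Finset V), ∀ m, IsSub b t' →
        PathGe (fun S : Finset (Finset V) => d (S.sup id)) m a b →
        d (bset b) = m → d (bset a) = m →
          ∀ X : Finset V, bset a ⊆ X → X ⊆ bset b → m ≤ d X := by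
  obtain ⟨t', ⟨h1, h2, h3⟩, hmin⟩ := TL.lex_min
    (fun (j : ℕ) (s : Tree (Finset V)) => dsc (fun S => j ≤ d S) s) k
    (fun s => Ok Q s ∧ bset s = bset t ∧ ∀ u, IsSub u s → d (bset u) ≤ k) t ⟨hnd, rfl, hk⟩
  refine ⟨t', h1, h2, h3, ?_⟩
  intro b a m hb hp hbm ham X hX1 hX2
  by_contra hlt
  obtain ⟨b', k0, hbo, hperm, ⟨s, hs, hks⟩, hle, hlt'⟩ :=
    improve d hsub hpos hQ hp (h1.sub hb) hbm hX1 hX2 (not_le.mp hlt)
  obtain ⟨t'', ho', hperm', hc⟩ := replace hperm hbo hb h1
  have hk0 : k0 ≤ k := hks.trans (h3 s (TL.sub_trans hs hb))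
  refine hmin t'' ⟨ho', hperm'.trans h2, ?_⟩ k0 hk0 (fun j hj hjk => ?_) ?_
  · have h4 : dsc (fun S => k + 1 ≤ d S) t' = 0 := by
      rw [dsc_eq_zero]
      intro s hs
      have := h3 s hs
      omega
    have h5 := hle (k + 1) (by omega)
    have h6 := (hc _ h5.1).2.1 h5.2
    rw [h4, Nat.le_zero, dsc_eq_zero] at h6
    intro u hu
    have := h6 u hu
    omega
  · exact (hc _ (hle j hj).1).2.1 (hle j hj).2
  · exact (hc _ (hle k0 le_rfl).1).2.2 hlt'

lemma loopsAt_mono {V H : Type*} (G : RotGraph V H) {S T : Finset V} (h : S ⊆ T) :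
    loopsAt G S ⊆ loopsAt G T := by
  intro x hx
  obtain ⟨h1, h2, h3⟩ := Finset.mem_filter.mp hx
  exact Finset.mem_filter.mpr ⟨h1, h h2, h3⟩

/-- (T) Linked trees of bags. -/
theorem stLinked : StLinked := by
  intro k V H G t ht
  have hQ : ∀ S T : Finset V, S ⊆ T → S.Nonempty →
      (T.card ≤ k ∧ (loopsAt G T).card ≤ k) → S.card ≤ k ∧ (loopsAt G S).card ≤ k :=
    fun S T h _ hT => ⟨(Finset.card_le_card h).trans hT.1,
      (Finset.card_le_card (loopsAt_mono G h)).trans hT.2⟩
  obtain ⟨t', h1, h2, h3, h4⟩ := exists_linkedB (cut G) (cut_submod _) (cut_posimod _) hQ k t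
    (TLB.ok_iff.mpr ⟨ht.pw, fun B hB => ⟨ht.ne B hB, ht.card B hB, ht.loops B hB⟩⟩) ht.cuts
  obtain ⟨h5, h6⟩ := TLB.ok_iff.mp h1
  exact ⟨t', ⟨h5, fun B hB => (h6 B hB).1, fun B hB => (h6 B hB).2.1,
    fun B hB => (h6 B hB).2.2, h2.trans ht.verts, h3⟩, h4⟩

end RotWqo.Bag
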