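import Pool.Agent.Lib.MP_cb4a0f_co.Bag.Leaf11
import Pool.Agent.Lib.MP_cb4a0f_co.Main

/-!
# MP_cb4a0f_co: rotated graphs with trees of bags of bounded width are well-quasi-ordered
-/

open Classical

namespace RotWqo.Bag

universe u v w

section Trees

variable {V : Type*}

theorem pathGe_bset {d : Finset (Finset V) → ℕ} {m : ℕ} {a b : Tree (Finset V)}
    (h : PathGe d m a b) : bset a ⊆ bset b := by
  induction h with
  | refl _ => exact subset_rfl
  | left l r _ _ ih => rw [TLB.bset_node]; exact ih.trans Finset.subset_union_left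
  | right l r _ _ ih => rw [TLB.bset_node]; exact ih.trans Finset.subset_union_right

end Trees

/-- The pieces: subtrees of the trees of bags. -/
structure Elt (V : ℕ → Type u) (T : ∀ i, Tree (Finset (V i))) where
  /-- index of the rotated graph -/
  i : ℕ
  /-- the subtree -/
  t : Tree (Finset (V i))
  h : IsSub t (T i)

variable {V : ℕ → Type u} {T : ∀ i, Tree (Finset (V i))}

/-- Children. -/
def Ch (x y : Elt V T) : Prop :=
  ∃ l r, x.t = .node l r ∧ ((∃ h, y = ⟨x.i, l, h⟩) ∨ ∃ h, y = ⟨x.i, r, h⟩)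

/-- The value of a piece. -/
noncomputable def val {H : ℕ → Type v} (G : ∀ i, RotGraph (V i) (H i)) (x : Elt V T) : ℕ :=
  cut (G x.i) (bset x.t)

theorem Desc.pathGe {H : ℕ → Type v} (G : ∀ i, RotGraph (V i) (H i)) {m : ℕ} {x y : Elt V T}
    (h : Desc Ch (val G) m x y) :
    ∃ i, ∃ b a : Tree (Finset (V i)), ∃ hb ha, x = ⟨i, b, hb⟩ ∧ y = ⟨i, a, ha⟩ ∧
      PathGe (fun S : Finset (Finset (V i)) => cut (G i) (S.sup id)) m a b := by
  induction h with
  | refl x hx => exact ⟨x.i, x.t, x.t, x.h, x.h, rfl, rfl, .refl hx⟩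
  | step x z y hx hxz _ ih =>
    obtain ⟨i, b, a, hb, ha, hz0, hy0, hp⟩ := ih
    obtain ⟨l, r, hlr, hz⟩ := hxz
    have hx' : m ≤ cut (G x.i) (x.t.set.sup id) := hx
    rcases hz with ⟨h, hz⟩ | ⟨h, hz⟩
    · rw [hz0] at hz
      cases hz
      refine ⟨x.i, x.t, a, x.h, ha, rfl, hy0, ?_⟩
      rw [hlr] at hx' ⊢
      exact .left _ _ hx' hp
    · rw [hz0] at hz
      cases hz
      refine ⟨x.i, x.t, a, x.h, ha, rfl, hy0, ?_⟩
      rw [hlr] at hx' ⊢
      exact .right _ _ hx' hp

/-- (M) The main theorem. -/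
theorem stMain (hL : StLeaf.{u, v, w}) : StMain.{u, v, w} := by
  intro k Q q _ hq V H _ _ G lab hG
  by_cases hne : ∃ i, (G i).verts = ∅
  · obtain ⟨i, hi⟩ := hne
    refine ⟨i, i + 1, Nat.lt_succ_self i, imm_of_PE _ _ _ (fun _ => Classical.arbitrary _) ?_⟩
    rw [hi]
    exact PE.empty _ _ _
  push Not at hne
  -- linked trees of bags
  have hT : ∀ i, ∃ t, IsBagTree k (G i) t ∧ LinkedB (G i) t := by
    intro i
    obtain ⟨t, ht⟩ := (hG i).resolve_left (hne i).ne_empty
    exact stLinked k (V i) (H i) (G i) t ht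
  choose T hT1 hT4 using hT
  have hok : ∀ i, TLB.Ok (fun _ => True) (T i) := fun i =>
    TLB.ok_iff.mpr ⟨(hT1 i).pw, fun B hB => ⟨(hT1 i).ne B hB, trivial⟩⟩
  set le : Elt V T → Elt V T → Prop := fun x y =>
    ∃ β, PE (fun v w => q (lab x.i v) (lab y.i w)) (G x.i) (bset x.t) (G y.i) (bset y.t) β
    with hle
  have : IsPreorder (Elt V T) le :=
    { refl := fun x => ⟨id, PE.refl (fun v w => q (lab x.i v) (lab x.i w))
        (fun v => _root_.refl _) _ _⟩
      trans := fun x y z ⟨β, h⟩ ⟨β', h'⟩ => ⟨β' ∘ β,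
        PE.trans (r₁ := fun v w => q (lab x.i v) (lab y.i w))
          (r₂ := fun v w => q (lab y.i v) (lab z.i w))
          (r := fun v w => q (lab x.i v) (lab z.i w))
          (fun u v w h h' => _root_.trans h h') h h'⟩ }
  have main : (Set.univ : Set (Elt V T)).PartiallyWellOrderedOn le := by
    refine wqo_of_levels le (fun x => x.t.leaves.length) (val G) k Ch ?_ ?_ ?_ ?_
    · rintro x y ⟨l, r, hlr, ⟨h, rfl⟩ | ⟨h, rfl⟩⟩
      · have := leaves_pos r
        simp only [hlr, Tree.leaves, List.length_append]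
        omega
      · have := leaves_pos l
        simp only [hlr, Tree.leaves, List.length_append]
        omega
    · intro x
      exact (hT1 x.i).cuts x.t x.h
    · intro m x y hx hy hd
      obtain ⟨i, b, a, hb, ha, rfl, rfl, hp⟩ := Desc.pathGe G hd
      exact exists_link (fun v w => q (lab i v) (lab i w)) (fun v => _root_.refl _) (G i)
        (bset a) (bset b) (pathGe_bset hp)
        ((hT1 i).verts ▸ TLB.sub_bset hb) m hy hx (hT4 i b a m hb hp hx hy)
    · intro X hC
      set C : Set (Elt V T) := {y | ∃ x ∈ X, Ch x y} with hCdef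
      have h1 : {x | x ∈ X ∧ ∃ v, x.t = .leaf v}.PartiallyWellOrderedOn le := by
        rw [Set.partiallyWellOrderedOn_iff_exists_lt]
        intro f hf
        choose B hB using fun n => (hf n).2
        have hmem : ∀ n, B n ∈ (T (f n).i).leaves := by
          intro n
          have h := (f n).h
          rw [hB n] at h
          clear_value le
          generalize T (f n).i = t at h
          induction h with
          | refl => simp [Tree.leaves]
          | left l r _ ih => exact List.mem_append_left _ ih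
          | right l r _ ih => exact List.mem_append_right _ ih
        obtain ⟨m, n, hmn, β, hβ⟩ := hL k k Q q hq (fun n => V (f n).i) (fun n => H (f n).i)
          (fun n => G (f n).i) (fun n => lab (f n).i) B
          (fun n => by
            rw [← (hT1 (f n).i).verts]
            intro v hv
            exact TLB.mem_bset.mpr ⟨B n, hmem n, hv⟩)
          (fun n => (hT1 (f n).i).card _ (hmem n))
          (fun n => by
            have h := (hT1 (f n).i).cuts _ (f n).h
            rwa [hB n, TLB.bset_leaf] at h)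
          (fun n => (hT1 (f n).i).loops _ (hmem n))
        refine ⟨m, n, hmn, β, ?_⟩
        simpa only [hB, TLB.bset_leaf] using hβ
      have h2 : {x | x ∈ X ∧ ∃ l r, x.t = .node l r}.PartiallyWellOrderedOn le := by
        rw [Set.partiallyWellOrderedOn_iff_exists_lt]
        intro f hf
        choose l r hlr using fun n => (hf n).2
        have hsub : ∀ n, IsSub (.node (l n) (r n)) (T (f n).i) := fun n => hlr n ▸ (f n).h
        have hl : ∀ n, IsSub (l n) (T (f n).i) := fun n =>
          IsSub.trans' (.left _ _ .refl) (hsub n)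
        have hr : ∀ n, IsSub (r n) (T (f n).i) := fun n =>
          IsSub.trans' (.right _ _ .refl) (hsub n)
        have hlC : ∀ n, (⟨(f n).i, l n, hl n⟩ : Elt V T) ∈ C := fun n =>
          ⟨f n, (hf n).1, l n, r n, hlr n, Or.inl ⟨hl n, rfl⟩⟩
        have hrC : ∀ n, (⟨(f n).i, r n, hr n⟩ : Elt V T) ∈ C := fun n =>
          ⟨f n, (hf n).1, l n, r n, hlr n, Or.inr ⟨hr n, rfl⟩⟩
        obtain ⟨g, hg⟩ := hC.exists_monotone_subseq hlC
        obtain ⟨g', hg'⟩ := hC.exists_monotone_subseq (fun n => hrC (g n))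
        obtain ⟨m, n, hmn, β, hβ⟩ := exists_PE_glue q (fun n => V (f (g (g' n))).i)
          (fun n => H (f (g (g' n))).i) (fun n => G (f (g (g' n))).i)
          (fun n => lab (f (g (g' n))).i) (fun n => bset (l (g (g' n))))
          (fun n => bset (r (g (g' n))))
          (fun n => ((hok _).sub (hsub _)).2.2)
          (fun n => hg _ _ (g'.monotone (Nat.le_succ n)))
          (fun n => hg' _ _ (Nat.le_succ n))
        refine ⟨g (g' m), g (g' n), g.strictMono (g'.strictMono hmn), β, ?_⟩
        simpa only [hlr, TLB.bset_node] using hβ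
      refine (h1.union h2).mono fun x hx => ?_
      rcases ht : x.t with v | ⟨l, r⟩
      · exact Or.inl ⟨hx, v, ht⟩
      · exact Or.inr ⟨hx, l, r, ht⟩
  obtain ⟨m, n, hmn, β, hβ⟩ := main.exists_lt
    (f := fun n => (⟨n, T n, .refl⟩ : Elt V T)) (fun n => Set.mem_univ _)
  refine ⟨m, n, hmn, imm_of_PE _ _ _ β ?_⟩
  have hβ' : PE (fun v w => q (lab m v) (lab n w)) (G m) (bset (T m)) (G n) (bset (T n)) β := hβ
  rwa [(hT1 m).verts, (hT1 n).verts] at hβ'

end RotWqo.Bag
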