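import Pool.Agent.Lib.MP_cb4a0f_co.Bag.Stmts
import Pool.Agent.Lib.MP_81e58e_co.LRamsey

/-!
# MP_cb4a0f_co: many bad half-edges give a long pattern (module P)
-/

open Classical

namespace RotWqo.Bag

universe u v

/-! ### Combinatorial tools -/

theorem ram (C : Type) [Finite C] (m : ℕ) : ∃ N : ℕ, ∀ f : ℕ → ℕ → C,
    ∃ J : ℕ → ℕ, (∀ i j, i < j → j < m → J i < J j) ∧ (∀ i < m, J i < N) ∧
      ∃ c : C, ∀ i j, i < j → j < m → f (J i) (J j) = c := by
  obtain ⟨N, hN⟩ := CodegDens.ramsey C 2 m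
  refine ⟨N, fun f => ?_⟩
  obtain ⟨J, hJ, hJb, hJc⟩ := hN (fun s => f (s 0) (s 1)) (by
    intro s s' hs
    rw [hs 0 (by norm_num), hs 1 (by norm_num)])
  refine ⟨J, fun i j hij _ => hJ hij, hJb, f (J 0) (J 1), ?_⟩
  intro i j hij hj
  have key : ∀ a b : ℕ, a < b → StrictMono (fun k : ℕ => if k = 0 then a else b + (k - 1)) := by
    intro a b hab
    apply strictMono_nat_of_lt_succ
    intro n
    rcases Nat.eq_zero_or_pos n with hn | hn
    · subst hn; simpa using hab
    · have h3 : n ≠ 0 := by omega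
      have h4 : n + 1 ≠ 0 := by omega
      simp only [if_neg h3, if_neg h4]
      omega
  have h := hJc (fun k : ℕ => if k = 0 then i else j + (k - 1))
    (fun k : ℕ => if k = 0 then 0 else 1 + (k - 1)) (key i j hij) (by
      intro k hk
      by_cases h3 : k = 0
      · simp only [if_pos h3]; omega
      · simp only [if_neg h3]; omega) (key 0 1 (by omega)) (by
      intro k hk
      by_cases h3 : k = 0
      · simp only [if_pos h3]; omega
      · simp only [if_neg h3]; omega)
  simpa using h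

theorem enumI (I : Finset ℕ) (R : ℕ) (h : R ≤ I.card) : ∃ J : ℕ → ℕ,
    (∀ i j, i < j → j < R → J i < J j) ∧ ∀ i < R, J i ∈ I := by
  refine ⟨fun i => if hi : i < I.card then I.orderEmbOfFin rfl ⟨i, hi⟩ else 0, ?_, ?_⟩
  · intro i j hij hj
    have hi' : i < I.card := by omega
    have hj' : j < I.card := by omega
    simp only [dif_pos hi', dif_pos hj']
    exact (I.orderEmbOfFin rfl).strictMono (by simpa using hij)
  · intro i hi
    have hi' : i < I.card := by omega
    simp only [dif_pos hi']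
    exact Finset.orderEmbOfFin_mem _ _ _

theorem pigeon {β : Type*} (I : Finset ℕ) (f : ℕ → β) (T : Finset β) (R : ℕ)
    (hf : ∀ i ∈ I, f i ∈ T) (hc : T.card * R < I.card) : ∃ J : ℕ → ℕ, ∃ y ∈ T,
      (∀ i j, i < j → j < R → J i < J j) ∧ (∀ i < R, J i ∈ I) ∧ ∀ i < R, f (J i) = y := by
  obtain ⟨y, hy, h⟩ := Finset.exists_lt_card_fiber_of_mul_lt_card_of_maps_to hf hc
  obtain ⟨J, h1, h2⟩ := enumI (I.filter (fun i => f i = y)) R h.le
  exact ⟨J, y, hy, h1, fun i hi => (Finset.mem_filter.1 (h2 i hi)).1,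
    fun i hi => (Finset.mem_filter.1 (h2 i hi)).2⟩

theorem avoid {H : Type*} (M : ℕ) (F : ℕ → Finset H) (X : Finset H)
    (hd : ∀ i < M, ∀ j < M, i ≠ j → Disjoint (F i) (F j)) :
    M - X.card ≤ ((Finset.range M).filter (fun i => Disjoint (F i) X)).card := by
  have h1 : ((Finset.range M).filter (fun i => ¬ Disjoint (F i) X)).card ≤ X.card := by
    have h2 : ∀ i, ¬ Disjoint (F i) X → ∃ g, g ∈ F i ∧ g ∈ X := by
      intro i hi
      rw [Finset.not_disjoint_iff] at hi
      exact hi
    rcases Finset.eq_empty_or_nonempty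
      ((Finset.range M).filter (fun i => ¬ Disjoint (F i) X)) with hB | ⟨i0, hi0⟩
    · rw [hB]; exact Nat.zero_le _
    have hi0' := (Finset.mem_filter.1 hi0).2
    refine Finset.card_le_card_of_injOn
      (fun i => if hi : ¬ Disjoint (F i) X then (h2 i hi).choose else (h2 i0 hi0').choose) ?_ ?_
    · intro i hi
      have hi2 := (Finset.mem_filter.1 (Finset.mem_coe.1 hi)).2
      simp only [dif_pos hi2]
      exact (h2 i hi2).choose_spec.2
    · intro i hi j hj hij
      have hi1 := (Finset.mem_filter.1 (Finset.mem_coe.1 hi)).1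
      have hj1 := (Finset.mem_filter.1 (Finset.mem_coe.1 hj)).1
      have hi2 := (Finset.mem_filter.1 (Finset.mem_coe.1 hi)).2
      have hj2 := (Finset.mem_filter.1 (Finset.mem_coe.1 hj)).2
      simp only [dif_pos hi2, dif_pos hj2] at hij
      by_contra hne
      have h3 := hd i (Finset.mem_range.1 hi1) j (Finset.mem_range.1 hj1) hne
      exact (Finset.disjoint_left.1 h3) (h2 i hi2).choose_spec.1
        (by rw [hij]; exact (h2 j hj2).choose_spec.1)
  have h3 := Finset.card_filter_add_card_filter_not (s := Finset.range M)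
    (fun i => Disjoint (F i) X)
  rw [Finset.card_range] at h3
  omega

/-! ### Comparison in a direction -/

theorem lt.trans' {s : Bool} {a b c : ℕ} (h1 : lt s a b) (h2 : lt s b c) : lt s a c := by
  unfold lt at *
  cases s <;> simp_all <;> omega

theorem lt.ne' {s : Bool} {a b : ℕ} (h : lt s a b) : a ≠ b := by
  unfold lt at *
  cases s <;> simp_all <;> omega

theorem lt_or (s : Bool) {a b : ℕ} (h : a ≠ b) : lt s a b ∨ lt s b a := by
  unfold lt
  cases s <;> simp <;> omega

theorem lt_not {s : Bool} {a b : ℕ} (h : a ≠ b) (h2 : ¬ lt s a b) : lt s b a :=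
  (lt_or s h).resolve_left h2

theorem not_lt_of {s : Bool} {a b : ℕ} (h : lt s a b) : ¬ lt s b a := by
  unfold lt at *
  cases s <;> simp_all <;> omega

/-- all `a` before all `b` in the direction `s` -/
theorem sep_of_lt {s : Bool} {n : ℕ} {a b : ℕ → ℕ} (h : ∀ i < n, ∀ j < n, lt s (a i) (b j)) :
    (∀ i < n, ∀ j < n, a i < b j) ∨ ∀ i < n, ∀ j < n, b j < a i := by
  cases s
  · right; intro i hi j hj; simpa [lt] using h i hi j hj
  · left; intro i hi j hj; simpa [lt] using h i hi j hj

theorem sep_of_gt {s : Bool} {n : ℕ} {a b : ℕ → ℕ} (h : ∀ i < n, ∀ j < n, lt s (b j) (a i)) :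
    (∀ i < n, ∀ j < n, a i < b j) ∨ ∀ i < n, ∀ j < n, b j < a i := by
  cases s
  · left; intro i hi j hj; simpa [lt] using h i hi j hj
  · right; intro i hi j hj; simpa [lt] using h i hi j hj

/-! ### Half-edges and positions -/

variable {V : Type u} {H : Type v}

theorem pos_injP (G : RotGraph V H) {h h' : H} (hh : h ∈ G.darts) (_hh' : h' ∈ G.darts)
    (hb : G.base h = G.base h') (hp : pos G h = pos G h') : h = h' := by
  unfold pos at hp
  rw [← hb] at hp
  exact (List.idxOf_inj ((G.mem_rot _ _).2 ⟨hh, rfl⟩)).1 hp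

theorem exists_at_pos (G : RotGraph V H) {h : H} (hh : h ∈ G.darts) {m : ℕ}
    (hm : m ≤ pos G h) : ∃ g ∈ G.darts, G.base g = G.base h ∧ pos G g = m := by
  have h1 : h ∈ G.rot (G.base h) := (G.mem_rot _ _).2 ⟨hh, rfl⟩
  have h2 : pos G h < (G.rot (G.base h)).length := List.idxOf_lt_length_of_mem h1
  have h3 : m < (G.rot (G.base h)).length := lt_of_le_of_lt hm h2
  have h4 := (G.mem_rot (G.base h) ((G.rot (G.base h))[m])).1 (List.getElem_mem h3)
  refine ⟨(G.rot (G.base h))[m], h4.1, h4.2, ?_⟩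
  unfold pos
  rw [h4.2]
  exact List.Nodup.idxOf_getElem (G.nodup _) m h3

theorem opp_inj (G : RotGraph V H) {h h' : H} (hh : h ∈ G.darts) (hh' : h' ∈ G.darts)
    (ho : G.opp h = G.opp h') : h = h' := by
  rw [← G.opp_opp h hh, ho, G.opp_opp h' hh']

/-- a sequence of pairs of half-edges at `x` in disjoint intervals -/
structure PSeq (G : RotGraph V H) (n : ℕ) (x : V) (e f : ℕ → H) : Prop where
  e_mem : ∀ i < n, e i ∈ G.darts ∧ G.base (e i) = x
  f_mem : ∀ i < n, f i ∈ G.darts ∧ G.base (f i) = x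
  ef : ∀ i < n, pos G (e i) < pos G (f i)
  fe : ∀ i j, i < j → j < n → pos G (f i) < pos G (e j)

theorem PSeq.sub {G : RotGraph V H} {n m : ℕ} {x : V} {e f : ℕ → H} (h : PSeq G n x e f)
    {J : ℕ → ℕ} (hJ : ∀ i j, i < j → j < m → J i < J j) (hJn : ∀ i < m, J i < n) :
    PSeq G m x (fun i => e (J i)) (fun i => f (J i)) :=
  ⟨fun i hi => h.e_mem _ (hJn i hi), fun i hi => h.f_mem _ (hJn i hi),
    fun i hi => h.ef _ (hJn i hi), fun i j hij hj => h.fe _ _ (hJ i j hij hj) (hJn j hj)⟩

theorem PSeq.ee {G : RotGraph V H} {n : ℕ} {x : V} {e f : ℕ → H} (h : PSeq G n x e f)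
    {i j : ℕ} (hij : i < j) (hj : j < n) : pos G (e i) < pos G (e j) :=
  (h.ef i (hij.trans hj)).trans (h.fe i j hij hj)

theorem PSeq.ff {G : RotGraph V H} {n : ℕ} {x : V} {e f : ℕ → H} (h : PSeq G n x e f)
    {i j : ℕ} (hij : i < j) (hj : j < n) : pos G (f i) < pos G (f j) :=
  (h.fe i j hij hj).trans (h.ef j hj)

theorem PSeq.ef_lt {G : RotGraph V H} {n : ℕ} {x : V} {e f : ℕ → H} (h : PSeq G n x e f)
    {i j : ℕ} (hij : i < j) (hj : j < n) : pos G (e i) < pos G (f j) :=
  (h.ee hij hj).trans (h.ef j hj)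

theorem PSeq.e_ne {G : RotGraph V H} {n : ℕ} {x : V} {e f : ℕ → H} (h : PSeq G n x e f)
    {i j : ℕ} (hi : i < n) (hj : j < n) (hij : i ≠ j) : e i ≠ e j := by
  intro he
  rcases Nat.lt_or_gt_of_ne hij with h1 | h1
  · have := h.ee h1 hj; rw [he] at this; omega
  · have := h.ee h1 hi; rw [he] at this; omega

theorem PSeq.f_ne {G : RotGraph V H} {n : ℕ} {x : V} {e f : ℕ → H} (h : PSeq G n x e f)
    {i j : ℕ} (hi : i < n) (hj : j < n) (hij : i ≠ j) : f i ≠ f j := by
  intro he
  rcases Nat.lt_or_gt_of_ne hij with h1 | h1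
  · have := h.ff h1 hj; rw [he] at this; omega
  · have := h.ff h1 hi; rw [he] at this; omega

theorem PSeq.ef_ne {G : RotGraph V H} {n : ℕ} {x : V} {e f : ℕ → H} (h : PSeq G n x e f)
    {i j : ℕ} (hi : i < n) (hj : j < n) : e i ≠ f j := by
  intro he
  rcases Nat.lt_trichotomy i j with h1 | h1 | h1
  · have := h.ef_lt h1 hj; rw [he] at this; omega
  · subst h1; have := h.ef i hi; rw [he] at this; omega
  · have := h.fe j i h1 hi; rw [he] at this; omega

/-- the other halves of different half-edges at a common vertex have different positions -/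
theorem opp_pos_ne (G : RotGraph V H) {g g' : H} (hg : g ∈ G.darts) (hg' : g' ∈ G.darts)
    (hb : G.base (G.opp g) = G.base (G.opp g')) (hne : g ≠ g') :
    pos G (G.opp g) ≠ pos G (G.opp g') := by
  intro h
  exact hne (opp_inj G hg hg' (pos_injP G (G.opp_mem _ hg) (G.opp_mem _ hg') hb h))

/-- pattern A from a long sequence -/
theorem mkPatA (n : ℕ) : ∃ N : ℕ, ∀ (V : Type u) (H : Type v) (G : RotGraph V H) (A : Finset V)
    (x y z : V) (e f : ℕ → H), x ∈ A → y ∈ A → z ∈ A → y ≠ x → z ≠ x → PSeq G N x e f →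
    (∀ i < N, G.base (G.opp (e i)) = y) → (∀ i < N, G.base (G.opp (f i)) = z) →
    (y = z → (∀ i < N, ∀ j < N, pos G (G.opp (e i)) < pos G (G.opp (f j))) ∨
      ∀ i < N, ∀ j < N, pos G (G.opp (f j)) < pos G (G.opp (e i))) → Pat G A n x := by
  obtain ⟨N, hN⟩ := ram (Prop × Prop) n
  refine ⟨N, ?_⟩
  intro V H G A x y z e f hx hy hz hyx hzx hP he hf hsep
  obtain ⟨J, hJ, hJN, c, hc⟩ := hN (fun i j => (pos G (G.opp (e i)) < pos G (G.opp (e j)),
    pos G (G.opp (f i)) < pos G (G.opp (f j))))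
  have hP' := hP.sub hJ hJN
  right
  refine ⟨y, z, fun i => e (J i), fun i => f (J i), decide c.1, decide c.2, ?_⟩
  refine ⟨hx, hy, hz, hyx, hzx, fun i hi => ⟨(hP'.e_mem i hi).1, (hP'.e_mem i hi).2,
    he _ (hJN i hi)⟩, fun i hi => ⟨(hP'.f_mem i hi).1, (hP'.f_mem i hi).2, hf _ (hJN i hi)⟩,
    hP'.ef, hP'.fe, ?_, ?_, ?_⟩
  · intro i j hij hj
    have h1 := congrArg Prod.fst (hc i j hij hj)
    dsimp only at h1
    have hi : i < n := hij.trans hj
    have h2 : pos G (G.opp (e (J i))) ≠ pos G (G.opp (e (J j))) :=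
      opp_pos_ne G (hP'.e_mem i hi).1 (hP'.e_mem j hj).1
        (by rw [he _ (hJN i hi), he _ (hJN j hj)]) (hP'.e_ne hi hj hij.ne)
    unfold lt
    by_cases hc1 : c.1
    · simp only [hc1, decide_true, if_true]
      rw [h1]; exact hc1
    · simp only [hc1, decide_false]
      rw [← h1] at hc1
      simp only [Bool.false_eq_true, if_false]
      omega
  · intro i j hij hj
    have h1 := congrArg Prod.snd (hc i j hij hj)
    dsimp only at h1
    have hi : i < n := hij.trans hj
    have h2 : pos G (G.opp (f (J i))) ≠ pos G (G.opp (f (J j))) :=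
      opp_pos_ne G (hP'.f_mem i hi).1 (hP'.f_mem j hj).1
        (by rw [hf _ (hJN i hi), hf _ (hJN j hj)]) (hP'.f_ne hi hj hij.ne)
    unfold lt
    by_cases hc1 : c.2
    · simp only [hc1, decide_true, if_true]
      rw [h1]; exact hc1
    · simp only [hc1, decide_false]
      rw [← h1] at hc1
      simp only [Bool.false_eq_true, if_false]
      omega
  · intro hyz
    rcases hsep hyz with h | h
    · left; intro i hi j hj; exact h _ (hJN i hi) _ (hJN j hj)
    · right; intro i hi j hj; exact h _ (hJN i hi) _ (hJN j hj)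

theorem exSeq (G : RotGraph V H) (n : ℕ) (y : V) (s : Bool) (p q g : ℕ → H)
    (hp : ∀ i < n, p i ∈ G.darts ∧ G.base (p i) = y)
    (hq : ∀ i < n, q i ∈ G.darts ∧ G.base (q i) = y)
    (hg : ∀ i < n, g i ∈ G.darts ∧ G.base (g i) = y)
    (h1 : ∀ i < n, lt s (pos G (p i)) (pos G (g i)))
    (h2 : ∀ i < n, lt s (pos G (g i)) (pos G (q i)))
    (h3 : ∀ i j, i < j → j < n → lt s (pos G (q i)) (pos G (p j))) :
    ∃ e f, PSeq G n y e f ∧ ∀ i < n, ∃ i' < n, (e i = p i' ∨ e i = q i') ∧ f i = g i' := by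
  cases s
  · refine ⟨fun i => q (n - 1 - i), fun i => g (n - 1 - i), ⟨fun i hi => hq _ (by omega),
      fun i hi => hg _ (by omega), ?_, ?_⟩, fun i hi => ⟨n - 1 - i, by omega, Or.inr rfl, rfl⟩⟩
    · intro i hi
      have := h2 (n - 1 - i) (by omega)
      simpa [lt] using this
    · intro i j hij hj
      have a1 := h3 (n - 1 - j) (n - 1 - i) (by omega) (by omega)
      have a2 := h1 (n - 1 - i) (by omega)
      simp only [lt, Bool.false_eq_true, if_false] at a1 a2
      exact a2.trans a1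
  · refine ⟨p, g, ⟨hp, hg, ?_, ?_⟩, fun i hi => ⟨i, hi, Or.inl rfl, rfl⟩⟩
    · intro i hi
      have := h1 i hi
      simpa [lt] using this
    · intro i j hij hj
      have a1 := h2 i (by omega)
      have a2 := h3 i j hij hj
      simp only [lt, if_true] at a1 a2
      exact a1.trans a2

/-- pairs with the same order at both ends and something between them at `y` -/
theorem caseLoc (k c n : ℕ) : ∃ N : ℕ, ∀ (V : Type u) (H : Type v) (G : RotGraph V H)
    (A : Finset V) (x y : V) (h h' : ℕ → H) (s : Bool), A.card ≤ k → cut G A ≤ c →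
    (loopsAt G A).card ≤ c → x ∈ A → y ∈ A → y ≠ x → PSeq G N x h h' →
    (∀ i < N, pos G (h' i) = pos G (h i) + 1) →
    (∀ i < N, G.base (G.opp (h i)) = y ∧ G.base (G.opp (h' i)) = y) →
    (∀ i < N, lt s (pos G (G.opp (h i))) (pos G (G.opp (h' i)))) →
    (∀ i j, i < j → j < N → lt s (pos G (G.opp (h' i))) (pos G (G.opp (h j)))) →
    (∀ i < N, pos G (G.opp (h' i)) ≠ pos G (G.opp (h i)) + 1 ∧
      pos G (G.opp (h i)) ≠ pos G (G.opp (h' i)) + 1) → ∃ x, Pat G A n x := by
  obtain ⟨NA, hNA⟩ := mkPatA.{u, v} n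
  obtain ⟨R, hR⟩ := ram (Prop × Prop × Prop) (max n NA + 1)
  refine ⟨k * max R NA + 1 + 2 * c, ?_⟩
  intro V H G A x y h h' s hAk hcut hloop hx hy hyx hP hsucc hopp hpar hloc hnadj
  set N := k * max R NA + 1 + 2 * c with hN
  -- half-edges between
  have hex : ∀ i, ∃ g, i < N → g ∈ G.darts ∧ G.base g = y ∧
      lt s (pos G (G.opp (h i))) (pos G g) ∧ lt s (pos G g) (pos G (G.opp (h' i))) := by
    intro i
    by_cases hi : i < N
    · have ho := G.opp_mem _ (hP.e_mem i hi).1
      have ho' := G.opp_mem _ (hP.f_mem i hi).1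
      have a1 := hpar i hi
      obtain ⟨a2, a3⟩ := hnadj i hi
      cases s
      · simp only [lt, Bool.false_eq_true, if_false] at a1 ⊢
        obtain ⟨g, g1, g2, g3⟩ := exists_at_pos G ho
          (m := pos G (G.opp (h' i)) + 1) (by omega)
        exact ⟨g, fun _ => ⟨g1, g2.trans (hopp i hi).1, by omega, by omega⟩⟩
      · simp only [lt, if_true] at a1 ⊢
        obtain ⟨g, g1, g2, g3⟩ := exists_at_pos G ho'
          (m := pos G (G.opp (h i)) + 1) (by omega)
        exact ⟨g, fun _ => ⟨g1, g2.trans (hopp i hi).2, by omega, by omega⟩⟩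
    · exact ⟨h i, fun hi2 => absurd hi2 hi⟩
  choose g hg using hex
  have hgg : ∀ i j, i < j → j < N → lt s (pos G (g i)) (pos G (g j)) := by
    intro i j hij hj
    exact ((hg i (hij.trans hj)).2.2.2.trans' (hloc i j hij hj)).trans' (hg j hj).2.2.1
  have hgne : ∀ i < N, ∀ j < N, i ≠ j → g i ≠ g j := by
    intro i hi j hj hij he
    rcases Nat.lt_or_gt_of_ne hij with h1 | h1
    · exact (hgg i j h1 hj).ne' (by rw [he])
    · exact (hgg j i h1 hi).ne' (by rw [he])
  -- drop boundary and loops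
  have hX : (bd G A ∪ loopsAt G A).card ≤ 2 * c := by
    refine (Finset.card_union_le _ _).trans ?_
    unfold cut at hcut
    omega
  have hav := avoid N (fun i => {g i}) (bd G A ∪ loopsAt G A) (by
    intro i hi j hj hij
    rw [Finset.disjoint_singleton]
    exact hgne i hi j hj hij)
  set I := (Finset.range N).filter (fun i => Disjoint ({g i} : Finset H)
    (bd G A ∪ loopsAt G A)) with hI
  have hIm : ∀ i ∈ I, i < N ∧ G.base (G.opp (g i)) ∈ A ∧ G.base (G.opp (g i)) ≠ y := by
    intro i hi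
    rw [hI, Finset.mem_filter, Finset.mem_range, Finset.disjoint_singleton_left,
      Finset.mem_union, not_or] at hi
    obtain ⟨hi1, hi2, hi3⟩ := hi
    obtain ⟨g1, g2, -, -⟩ := hg i hi1
    refine ⟨hi1, ?_, ?_⟩
    · by_contra hcon
      exact hi2 (Finset.mem_filter.2 ⟨g1, by rw [g2]; exact hy, hcon⟩)
    · intro hcon
      exact hi3 (Finset.mem_filter.2 ⟨g1, by rw [g2]; exact hy, by rw [hcon, g2]⟩)
  obtain ⟨J, d, hd, hJ, hJI, hJd⟩ := pigeon I (fun i => G.base (G.opp (g i))) A (max R NA)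
    (fun i hi => (hIm i hi).2.1) (by
      have : A.card * max R NA ≤ k * max R NA := Nat.mul_le_mul_right _ hAk
      omega)
  have hJN : ∀ i < max R NA, J i < N := fun i hi => (hIm _ (hJI i hi)).1
  have hdy : 0 < max R NA → d ≠ y := by
    intro h0
    rw [← hJd 0 h0]
    exact (hIm _ (hJI 0 h0)).2.2
  -- a general construction with centre y
  have hcen : ∀ (m : ℕ) (J' : ℕ → ℕ), NA ≤ m → (∀ i j, i < j → j < m → J' i < J' j) →
      (∀ i < m, J' i < N) → (∀ i < m, G.base (G.opp (g (J' i))) = d) → d ≠ y →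
      (d = x → (∀ i < m, ∀ j < m, pos G (h (J' i)) < pos G (G.opp (g (J' j))) ∧
          pos G (h' (J' i)) < pos G (G.opp (g (J' j)))) ∨
        ∀ i < m, ∀ j < m, pos G (G.opp (g (J' j))) < pos G (h (J' i)) ∧
          pos G (G.opp (g (J' j))) < pos G (h' (J' i))) → Pat G A n y := by
    intro m J' hm hJ' hJ'N hJ'd hdy' hsep
    obtain ⟨e, f, hef, hsrc⟩ := exSeq G m y s (fun i => G.opp (h (J' i)))
      (fun i => G.opp (h' (J' i))) (fun i => g (J' i))
      (fun i hi => ⟨G.opp_mem _ (hP.e_mem _ (hJ'N i hi)).1, (hopp _ (hJ'N i hi)).1⟩)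
      (fun i hi => ⟨G.opp_mem _ (hP.f_mem _ (hJ'N i hi)).1, (hopp _ (hJ'N i hi)).2⟩)
      (fun i hi => ⟨(hg _ (hJ'N i hi)).1, (hg _ (hJ'N i hi)).2.1⟩)
      (fun i hi => (hg _ (hJ'N i hi)).2.2.1) (fun i hi => (hg _ (hJ'N i hi)).2.2.2)
      (fun i j hij hj => hloc _ _ (hJ' i j hij hj) (hJ'N j hj))
    have he : ∀ i < m, ∃ i' < m, G.opp (e i) = h (J' i') ∨ G.opp (e i) = h' (J' i') := by
      intro i hi
      obtain ⟨i', hi', h1, -⟩ := hsrc i hi
      refine ⟨i', hi', ?_⟩
      rcases h1 with h1 | h1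
      · left; rw [h1, G.opp_opp _ (hP.e_mem _ (hJ'N i' hi')).1]
      · right; rw [h1, G.opp_opp _ (hP.f_mem _ (hJ'N i' hi')).1]
    have hf : ∀ i < m, ∃ i' < m, f i = g (J' i') := by
      intro i hi
      obtain ⟨i', hi', -, h1⟩ := hsrc i hi
      exact ⟨i', hi', h1⟩
    refine hNA V H G A y x d e f hy hx hd hyx.symm hdy'
      (hef.sub (J := fun i => i) (fun i j hij _ => hij) (fun i hi => by omega)) ?_ ?_ ?_
    · intro i hi
      obtain ⟨i', hi', h1 | h1⟩ := he i (by omega)
      · rw [h1]; exact (hP.e_mem _ (hJ'N i' hi')).2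
      · rw [h1]; exact (hP.f_mem _ (hJ'N i' hi')).2
    · intro i hi
      obtain ⟨i', hi', h1⟩ := hf i (by omega)
      rw [h1]; exact hJ'd i' hi'
    · intro hxd
      rcases hsep hxd.symm with h1 | h1
      · left
        intro i hi j hj
        obtain ⟨i', hi', h2⟩ := he i (by omega)
        obtain ⟨j', hj', h3⟩ := hf j (by omega)
        rw [h3]
        rcases h2 with h2 | h2
        · rw [h2]; exact (h1 i' hi' j' hj').1
        · rw [h2]; exact (h1 i' hi' j' hj').2
      · right
        intro i hi j hj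
        obtain ⟨i', hi', h2⟩ := he i (by omega)
        obtain ⟨j', hj', h3⟩ := hf j (by omega)
        rw [h3]
        rcases h2 with h2 | h2
        · rw [h2]; exact (h1 i' hi' j' hj').1
        · rw [h2]; exact (h1 i' hi' j' hj').2
  rcases Nat.eq_zero_or_pos n with hn0 | hn0
  · -- trivial pattern
    subst hn0
    refine ⟨x, Or.inl ⟨y, h, h', true, hx, hy, hyx, ?_, ?_, ?_, ?_, ?_, ?_⟩⟩
    · intro i hi; omega
    · intro i hi; omega
    · intro i hi; omega
    · intro i j _ hj; omega
    · intro i hi; omega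
    · intro i j _ hj; omega
  have hpos : 0 < max R NA := by
    -- R is at least the length of the homogeneous sequence
    obtain ⟨J0, -, hb, -⟩ := hR (fun _ _ => (True, True, True))
    have := hb 0 (by omega)
    have h2 : R ≤ max R NA := le_max_left _ _
    omega
  have hdy0 := hdy hpos
  by_cases hdx : d = x
  · -- second use of Ramsey's theorem
    obtain ⟨J2, hJ2, hJ2R, cc, hcc⟩ := hR (fun i j =>
      (pos G (G.opp (g (J i))) < pos G (h (J i)), pos G (G.opp (g (J i))) < pos G (h (J j)),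
        pos G (h (J i)) < pos G (G.opp (g (J j)))))
    set m := max n NA with hm
    have hRm : ∀ i < m + 1, J2 i < max R NA := fun i hi =>
      lt_of_lt_of_le (hJ2R i hi) (le_max_left _ _)
    set K : ℕ → ℕ := fun i => J (J2 i) with hK
    have hKm : ∀ i j, i < j → j < m + 1 → K i < K j := fun i j hij hj =>
      hJ _ _ (hJ2 i j hij hj) (hRm j hj)
    have hKN : ∀ i < m + 1, K i < N := fun i hi => hJN _ (hRm i hi)
    have hKd : ∀ i < m + 1, G.base (G.opp (g (K i))) = d := fun i hi => hJd _ (hRm i hi)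
    have hPK := hP.sub hKm hKN
    have hgK : ∀ i < m + 1, g (K i) ∈ G.darts ∧ G.base (g (K i)) = y ∧
        lt s (pos G (G.opp (h (K i)))) (pos G (g (K i))) ∧
        lt s (pos G (g (K i))) (pos G (G.opp (h' (K i)))) := fun i hi => hg _ (hKN i hi)
    have hlK : ∀ i j, i < j → j < m + 1 →
        lt s (pos G (G.opp (h' (K i)))) (pos G (G.opp (h (K j)))) := fun i j hij hj =>
      hloc _ _ (hKm i j hij hj) (hKN j hj)
    -- the positions of the third half-edges at x are different from the others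
    have hne1 : ∀ i < m + 1, ∀ j < m + 1, pos G (G.opp (g (K i))) ≠ pos G (h (K j)) := by
      intro i hi j hj heq
      have h1 : G.opp (g (K i)) = h (K j) := by
        refine pos_injP G (G.opp_mem _ (hgK i hi).1) (hPK.e_mem j hj).1 ?_ heq
        rw [hKd i hi, hdx]; exact (hPK.e_mem j hj).2.symm
      have h2 : g (K i) = G.opp (h (K j)) := by
        rw [← h1, G.opp_opp _ (hgK i hi).1]
      rcases Nat.lt_trichotomy i j with h3 | h3 | h3
      · exact ((hgK i hi).2.2.2.trans' (hlK i j h3 hj)).ne' (by rw [h2])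
      · subst h3
        exact (hgK i hi).2.2.1.ne' (by rw [h2])
      · exact ((((hgK j hj).2.2.1.trans' (hgK j hj).2.2.2).trans' (hlK j i h3 hi)).trans'
          (hgK i hi).2.2.1).ne' (by rw [h2])
    have hne2 : ∀ i < m + 1, ∀ j < m + 1, pos G (G.opp (g (K i))) ≠ pos G (h' (K j)) := by
      intro i hi j hj heq
      have h1 : G.opp (g (K i)) = h' (K j) := by
        refine pos_injP G (G.opp_mem _ (hgK i hi).1) (hPK.f_mem j hj).1 ?_ heq
        rw [hKd i hi, hdx]; exact (hPK.f_mem j hj).2.symm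
      have h2 : g (K i) = G.opp (h' (K j)) := by
        rw [← h1, G.opp_opp _ (hgK i hi).1]
      rcases Nat.lt_trichotomy i j with h3 | h3 | h3
      · exact ((((hgK i hi).2.2.2.trans' (hlK i j h3 hj)).trans' (hgK j hj).2.2.1).trans'
          (hgK j hj).2.2.2).ne' (by rw [h2])
      · subst h3
        exact (hgK i hi).2.2.2.ne' (by rw [h2])
      · exact ((hlK j i h3 hi).trans' (hgK i hi).2.2.1).ne' (by rw [h2])
    have hc1 : ∀ i < m, (pos G (G.opp (g (K i))) < pos G (h (K i))) = cc.1 := fun i hi =>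
      congrArg Prod.fst (hcc i m hi (by omega))
    have hc2 : ∀ i j, i < j → j < m + 1 →
        (pos G (G.opp (g (K i))) < pos G (h (K j))) = cc.2.1 := fun i j hij hj =>
      congrArg (fun q => q.2.1) (hcc i j hij hj)
    have hc3 : ∀ i j, i < j → j < m + 1 →
        (pos G (h (K i)) < pos G (G.opp (g (K j)))) = cc.2.2 := fun i j hij hj =>
      congrArg (fun q => q.2.2) (hcc i j hij hj)
    have hsx : ∀ i < m + 1, pos G (h' (K i)) = pos G (h (K i)) + 1 := fun i hi =>
      hsucc _ (hKN i hi)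
    have hnm : n ≤ m := le_max_left _ _
    have hAm : NA ≤ m := le_max_right _ _
    by_cases h1 : cc.1
    · have hg1 : ∀ i < m, pos G (G.opp (g (K i))) < pos G (h (K i)) := fun i hi => by
        rw [hc1 i hi]; exact h1
      by_cases h3 : cc.2.2
      · -- pattern T
        have hg3 : ∀ i j, i < j → j < m + 1 → pos G (h (K i)) < pos G (G.opp (g (K j))) :=
          fun i j hij hj => by rw [hc3 i j hij hj]; exact h3
        refine ⟨x, Or.inl ⟨y, fun i => G.opp (g (K i)), fun i => h (K i), s, hx, hy, hyx,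
          ?_, ?_, ?_, ?_, ?_, ?_⟩⟩
        · intro i hi
          refine ⟨G.opp_mem _ (hgK i (by omega)).1, by rw [hKd i (by omega), hdx], ?_⟩
          rw [G.opp_opp _ (hgK i (by omega)).1]
          exact (hgK i (by omega)).2.1
        · intro i hi
          exact ⟨(hPK.e_mem i (by omega)).1, (hPK.e_mem i (by omega)).2,
            (hopp _ (hKN i (by omega))).1⟩
        · intro i hi; exact hg1 i (by omega)
        · intro i j hij hj; exact hg3 i j hij (by omega)
        · intro i hi
          rw [G.opp_opp _ (hgK i (by omega)).1]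
          exact (hgK i (by omega)).2.2.1
        · intro i j hij hj
          rw [G.opp_opp _ (hgK i (by omega)).1]
          exact (hgK i (by omega)).2.2.2.trans' (hlK i j hij (by omega))
      · -- separated
        have hg3 : ∀ i j, i < j → j < m + 1 → pos G (G.opp (g (K j))) < pos G (h (K i)) := by
          intro i j hij hj
          have := hc3 i j hij hj
          have h5 := hne1 j hj i (by omega)
          rw [← this] at h3
          omega
        refine ⟨y, hcen m K hAm (fun i j hij hj => hKm i j hij (by omega))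
          (fun i hi => hKN i (by omega)) (fun i hi => hKd i (by omega)) hdy0 (fun _ => ?_)⟩
        right
        intro i hi j hj
        have h6 : pos G (G.opp (g (K j))) < pos G (h (K i)) := by
          rcases Nat.lt_trichotomy i j with h7 | h7 | h7
          · exact hg3 i j h7 (by omega)
          · subst h7; exact hg1 i hi
          · exact (hg1 j hj).trans (hPK.ee h7 (by omega))
        exact ⟨h6, by rw [hsx i (by omega)]; omega⟩
    · have hg1 : ∀ i < m, pos G (h (K i)) < pos G (G.opp (g (K i))) := by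
        intro i hi
        have := hc1 i hi
        have h5 := hne1 i (by omega) i (by omega)
        rw [← this] at h1
        omega
      by_cases h2 : cc.2.1
      · -- pattern T
        have hg2 : ∀ i j, i < j → j < m + 1 → pos G (G.opp (g (K i))) < pos G (h (K j)) :=
          fun i j hij hj => by rw [hc2 i j hij hj]; exact h2
        refine ⟨x, Or.inl ⟨y, fun i => h' (K i), fun i => G.opp (g (K i)), s, hx, hy, hyx,
          ?_, ?_, ?_, ?_, ?_, ?_⟩⟩
        · intro i hi
          exact ⟨(hPK.f_mem i (by omega)).1, (hPK.f_mem i (by omega)).2,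
            (hopp _ (hKN i (by omega))).2⟩
        · intro i hi
          refine ⟨G.opp_mem _ (hgK i (by omega)).1, by rw [hKd i (by omega), hdx], ?_⟩
          rw [G.opp_opp _ (hgK i (by omega)).1]
          exact (hgK i (by omega)).2.1
        · intro i hi
          have h5 := hne2 i (by omega) i (by omega)
          have h6 := hg1 i (by omega)
          have h7 := hsx i (by omega)
          omega
        · intro i j hij hj
          have h6 := hg2 i j hij (by omega)
          have h7 := hsx j (by omega)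
          omega
        · intro i hi
          rw [G.opp_opp _ (hgK i (by omega)).1]
          exact (hgK i (by omega)).2.2.2
        · intro i j hij hj
          rw [G.opp_opp _ (hgK j (by omega)).1]
          exact (hlK i j hij (by omega)).trans' (hgK j (by omega)).2.2.1
      · have hg2 : ∀ i j, i < j → j < m + 1 → pos G (h (K j)) < pos G (G.opp (g (K i))) := by
          intro i j hij hj
          have := hc2 i j hij hj
          have h5 := hne1 i (by omega) j hj
          rw [← this] at h2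
          omega
        refine ⟨y, hcen m K hAm (fun i j hij hj => hKm i j hij (by omega))
          (fun i hi => hKN i (by omega)) (fun i hi => hKd i (by omega)) hdy0 (fun _ => ?_)⟩
        left
        intro i hi j hj
        have h6 : pos G (h (K i)) < pos G (G.opp (g (K j))) := by
          rcases Nat.lt_trichotomy i j with h7 | h7 | h7
          · exact (hPK.ee h7 (by omega)).trans (hg1 j hj)
          · subst h7; exact hg1 i hi
          · exact hg2 j i h7 (by omega)
        have h8 := hne2 j (by omega) i (by omega)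
        have h9 := hsx i (by omega)
        exact ⟨h6, by omega⟩
  · exact ⟨y, hcen (max R NA) J (le_max_right _ _) hJ hJN hJd hdy0 (fun h => absurd h hdx)⟩

/-- all pairs go from `x` to `y` -/
theorem caseEq (k c n : ℕ) : ∃ N : ℕ, ∀ (V : Type u) (H : Type v) (G : RotGraph V H)
    (A : Finset V) (x y : V) (h h' : ℕ → H), A.card ≤ k → cut G A ≤ c →
    (loopsAt G A).card ≤ c → x ∈ A → y ∈ A → y ≠ x → PSeq G N x h h' →
    (∀ i < N, pos G (h' i) = pos G (h i) + 1) →
    (∀ i < N, G.base (G.opp (h i)) = y ∧ G.base (G.opp (h' i)) = y) →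
    (∀ i < N, pos G (G.opp (h' i)) ≠ pos G (G.opp (h i)) + 1 ∧
      pos G (G.opp (h i)) ≠ pos G (G.opp (h' i)) + 1) → ∃ x, Pat G A n x := by
  obtain ⟨NA, hNA⟩ := mkPatA.{u, v} n
  obtain ⟨NL, hNL⟩ := caseLoc.{u, v} k c n
  obtain ⟨R, hR⟩ := ram (Prop × Prop × Prop × Prop × Prop) (max n (max NA NL) + 1)
  refine ⟨R, ?_⟩
  intro V H G A x y h h' hAk hcut hloop hx hy hyx hP hsucc hopp hnadj
  obtain ⟨J, hJ, hJR, cc, hcc⟩ := hR (fun i j =>
    (pos G (G.opp (h i)) < pos G (G.opp (h j)), pos G (G.opp (h' i)) < pos G (G.opp (h' j)),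
      pos G (G.opp (h i)) < pos G (G.opp (h' i)), pos G (G.opp (h i)) < pos G (G.opp (h' j)),
      pos G (G.opp (h' i)) < pos G (G.opp (h j))))
  set m := max n (max NA NL) with hm
  have hnm : n ≤ m := le_max_left _ _
  have hAm : NA ≤ m := (le_max_left _ _).trans (le_max_right _ _)
  have hLm : NL ≤ m := (le_max_right _ _).trans (le_max_right _ _)
  have hPJ := hP.sub hJ hJR
  obtain ⟨a, ha⟩ : ∃ a : ℕ → ℕ, a = fun i => pos G (G.opp (h (J i))) := ⟨_, rfl⟩
  obtain ⟨b, hb⟩ : ∃ b : ℕ → ℕ, b = fun i => pos G (G.opp (h' (J i))) := ⟨_, rfl⟩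
  have hoJ : ∀ i < m + 1, G.base (G.opp (h (J i))) = y ∧ G.base (G.opp (h' (J i))) = y :=
    fun i hi => hopp _ (hJR i hi)
  have hana : ∀ i < m + 1, ∀ j < m + 1, i ≠ j → a i ≠ a j := by
    intro i hi j hj hij
    rw [ha]
    exact opp_pos_ne G (hPJ.e_mem i hi).1 (hPJ.e_mem j hj).1
      (by rw [(hoJ i hi).1, (hoJ j hj).1]) (hPJ.e_ne hi hj hij)
  have hbnb : ∀ i < m + 1, ∀ j < m + 1, i ≠ j → b i ≠ b j := by
    intro i hi j hj hij
    rw [hb]
    exact opp_pos_ne G (hPJ.f_mem i hi).1 (hPJ.f_mem j hj).1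
      (by rw [(hoJ i hi).2, (hoJ j hj).2]) (hPJ.f_ne hi hj hij)
  have hanb : ∀ i < m + 1, ∀ j < m + 1, a i ≠ b j := by
    intro i hi j hj
    rw [ha, hb]
    exact opp_pos_ne G (hPJ.e_mem i hi).1 (hPJ.f_mem j hj).1
      (by rw [(hoJ i hi).1, (hoJ j hj).2]) (hPJ.ef_ne hi hj)
  have hc1 : ∀ i j, i < j → j < m + 1 → (a i < a j) = cc.1 := fun i j hij hj => by
    rw [ha]; exact congrArg Prod.fst (hcc i j hij hj)
  have hc2 : ∀ i j, i < j → j < m + 1 → (b i < b j) = cc.2.1 := fun i j hij hj => by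
    rw [hb]; exact congrArg (fun q => q.2.1) (hcc i j hij hj)
  have hc3 : ∀ i < m, (a i < b i) = cc.2.2.1 := fun i hi => by
    rw [ha, hb]; exact congrArg (fun q => q.2.2.1) (hcc i m hi (by omega))
  have hc4 : ∀ i j, i < j → j < m + 1 → (a i < b j) = cc.2.2.2.1 := fun i j hij hj => by
    rw [ha, hb]; exact congrArg (fun q => q.2.2.2.1) (hcc i j hij hj)
  have hc5 : ∀ i j, i < j → j < m + 1 → (b i < a j) = cc.2.2.2.2 := fun i j hij hj => by
    rw [ha, hb]; exact congrArg (fun q => q.2.2.2.2) (hcc i j hij hj)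
  -- homogeneous comparisons, in a direction `s` in which the `a i` increase
  obtain ⟨s, hs⟩ : ∃ s : Bool, ∀ i j, i < j → j < m + 1 → lt s (a i) (a j) := by
    by_cases h1 : cc.1
    · refine ⟨true, fun i j hij hj => ?_⟩
      have : a i < a j := by rw [hc1 i j hij hj]; exact h1
      simpa [lt] using this
    · refine ⟨false, fun i j hij hj => ?_⟩
      rw [← hc1 i j hij hj] at h1
      have := hana i (by omega) j hj hij.ne
      simp only [lt, Bool.false_eq_true, if_false]
      omega
  have hhom : ∀ (P : ℕ → ℕ → Prop) (u w : ℕ → ℕ → ℕ) (c0 : Prop),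
      (∀ i j, P i j → (u i j < w i j) = c0 ∧ u i j ≠ w i j) →
      (∀ i j, P i j → lt s (u i j) (w i j)) ∨ ∀ i j, P i j → lt s (w i j) (u i j) := by
    intro P u w c0 hP0
    by_cases hc0 : c0
    · cases s
      · right
        intro i j hij
        have h1 : u i j < w i j := by rw [(hP0 i j hij).1]; exact hc0
        simpa [lt] using h1
      · left
        intro i j hij
        have h1 : u i j < w i j := by rw [(hP0 i j hij).1]; exact hc0
        simpa [lt] using h1
    · cases s
      · left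
        intro i j hij
        obtain ⟨h1, h2⟩ := hP0 i j hij
        have h3 : ¬ (u i j < w i j) := by rw [h1]; exact hc0
        simp only [lt, Bool.false_eq_true, if_false]
        omega
      · right
        intro i j hij
        obtain ⟨h1, h2⟩ := hP0 i j hij
        have h3 : ¬ (u i j < w i j) := by rw [h1]; exact hc0
        simp only [lt, if_true]
        omega
  have hβ := hhom (fun i j => i < j ∧ j < m + 1) (fun i _ => b i) (fun _ j => b j) cc.2.1
    (fun i j hij => ⟨hc2 i j hij.1 hij.2, hbnb i (by omega) j hij.2 hij.1.ne⟩)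
  have hγ := hhom (fun i _ => i < m) (fun i _ => a i) (fun i _ => b i) cc.2.2.1
    (fun i j hij => ⟨hc3 i hij, hanb i (by omega) i (by omega)⟩)
  have hδ := hhom (fun i j => i < j ∧ j < m + 1) (fun i _ => a i) (fun _ j => b j) cc.2.2.2.1
    (fun i j hij => ⟨hc4 i j hij.1 hij.2, hanb i (by omega) j hij.2⟩)
  have hε := hhom (fun i j => i < j ∧ j < m + 1) (fun i _ => b i) (fun _ j => a j) cc.2.2.2.2
    (fun i j hij => ⟨hc5 i j hij.1 hij.2, (hanb j hij.2 i (by omega)).symm⟩)
  -- conclusion in the separated case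
  have hfin : ((∀ i < m, ∀ j < m, a i < b j) ∨ ∀ i < m, ∀ j < m, b j < a i) →
      ∃ x, Pat G A n x := by
    intro hsep
    refine ⟨x, hNA V H G A x y y (fun i => h (J i)) (fun i => h' (J i)) hx hy hy hyx hyx
      (hPJ.sub (J := fun i => i) (fun i j hij _ => hij) (fun i hi => by omega))
      (fun i hi => (hoJ i (by omega)).1) (fun i hi => (hoJ i (by omega)).2) (fun _ => ?_)⟩
    rw [ha, hb] at hsep
    rcases hsep with h1 | h1
    · left; intro i hi j hj; exact h1 i (by omega) j (by omega)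
    · right; intro i hi j hj; exact h1 i (by omega) j (by omega)
  rcases hβ with hβ | hβ
  · rcases hγ with hγ | hγ
    · rcases hε with hε | hε
      · -- local, parallel
        refine hNL V H G A x y (fun i => h (J i)) (fun i => h' (J i)) s hAk hcut hloop hx hy hyx
          (hPJ.sub (J := fun i => i) (fun i j hij _ => hij) (fun i hi => by omega))
          (fun i hi => hsucc _ (hJR i (by omega))) (fun i hi => hoJ i (by omega)) ?_ ?_
          (fun i hi => hnadj _ (hJR i (by omega)))
        · intro i hi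
          have := hγ i 0 (by omega : i < m)
          rw [ha, hb] at this
          exact this
        · intro i j hij hj
          have := hε i j ⟨hij, by omega⟩
          rw [ha, hb] at this
          exact this
      · apply hfin
        apply sep_of_lt (s := s)
        intro i hi j hj
        rcases Nat.lt_trichotomy i j with h7 | h7 | h7
        · exact (hγ i 0 hi).trans' (hβ i j ⟨h7, by omega⟩)
        · subst h7; exact hγ i 0 hi
        · exact hε j i ⟨h7, by omega⟩
    · rcases hδ with hδ | hδ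
      · -- pattern T
        have e1 : ∀ i < m, lt s (pos G (G.opp (h' (J i)))) (pos G (G.opp (h (J i)))) := by
          intro i hi
          have := hγ i 0 hi
          rw [ha, hb] at this
          exact this
        have e2 : ∀ i j, i < j → j < m + 1 →
            lt s (pos G (G.opp (h (J i)))) (pos G (G.opp (h' (J j)))) := by
          intro i j hij hj
          have := hδ i j ⟨hij, hj⟩
          rw [ha, hb] at this
          exact this
        refine ⟨x, Or.inl ⟨y, fun i => h (J i), fun i => h' (J i), s, hx, hy, hyx,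
          ?_, ?_, ?_, ?_, ?_, ?_⟩⟩
        · intro i hi
          exact ⟨(hPJ.e_mem i (by omega)).1, (hPJ.e_mem i (by omega)).2, (hoJ i (by omega)).1⟩
        · intro i hi
          exact ⟨(hPJ.f_mem i (by omega)).1, (hPJ.f_mem i (by omega)).2, (hoJ i (by omega)).2⟩
        · intro i hi; exact hPJ.ef i (by omega)
        · intro i j hij hj; exact hPJ.fe i j hij (by omega)
        · intro i hi; exact e1 i (by omega)
        · intro i j hij hj; exact e2 i j hij (by omega)
      · apply hfin
        apply sep_of_gt (s := s)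
        intro i hi j hj
        rcases Nat.lt_trichotomy i j with h7 | h7 | h7
        · exact hδ i j ⟨h7, by omega⟩
        · subst h7; exact hγ i 0 hi
        · exact (hβ j i ⟨h7, by omega⟩).trans' (hγ i 0 hi)
  · rcases hγ with hγ | hγ
    · apply hfin
      apply sep_of_lt (s := s)
      intro i hi j hj
      rcases Nat.lt_trichotomy i j with h7 | h7 | h7
      · exact (hs i j h7 (by omega)).trans' (hγ j 0 hj)
      · subst h7; exact hγ i 0 hi
      · exact (hγ i 0 hi).trans' (hβ j i ⟨h7, by omega⟩)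
    · apply hfin
      apply sep_of_gt (s := s)
      intro i hi j hj
      rcases Nat.lt_trichotomy i j with h7 | h7 | h7
      · exact (hβ i j ⟨h7, by omega⟩).trans' (hγ i 0 hi)
      · subst h7; exact hγ i 0 hi
      · exact (hγ j 0 hj).trans' (hs j i h7 (by omega))

theorem stPat : StPat.{u, v} := by
  intro k c n
  obtain ⟨NA, hNA⟩ := mkPatA.{u, v} n
  obtain ⟨NE, hNE⟩ := caseEq.{u, v} k c n
  obtain ⟨R, hR⟩ : ∃ R, R = max NA NE + 1 := ⟨_, rfl⟩
  have hRA : NA ≤ R := by rw [hR]; exact (le_max_left _ _).trans (Nat.le_succ _)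
  have hRE : NE ≤ R := by rw [hR]; exact (le_max_right _ _).trans (Nat.le_succ _)
  have hR0 : 0 < R := by rw [hR]; exact Nat.succ_pos _
  obtain ⟨M, hM⟩ : ∃ M, M = k * k * R + 1 + 2 * c := ⟨_, rfl⟩
  refine ⟨k * (2 * M) + 1, ?_⟩
  intro V H G A hAk hcut hloop hbad
  obtain ⟨x, hx, hB⟩ := Finset.exists_lt_card_fiber_of_mul_lt_card_of_maps_to
    (s := Bad G A) (t := A) (f := G.base) (n := 2 * M)
    (fun h hh => (Finset.mem_filter.1 hh).2.1) (by
      have : A.card * (2 * M) ≤ k * (2 * M) := Nat.mul_le_mul_right _ hAk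
      omega)
  set B := (Bad G A).filter (fun h => G.base h = x) with hBdef
  have hBm : ∀ h ∈ B, h ∈ G.darts ∧ G.base h = x ∧ ∃ h' ∈ G.darts, G.base h' = G.base h ∧
      pos G h' = pos G h + 1 ∧ ¬ Par G A h h' := by
    intro h hh
    obtain ⟨h1, h2⟩ := Finset.mem_filter.1 hh
    obtain ⟨h3, h4, h5⟩ := Finset.mem_filter.1 h1
    exact ⟨h3, h2, h5⟩
  have hcard : (B.image (pos G)).card = B.card := by
    refine Finset.card_image_of_injOn ?_
    intro h hh h' hh' he
    exact pos_injP G (hBm h hh).1 (hBm h' hh').1 (by rw [(hBm h hh).2.1, (hBm h' hh').2.1]) he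
  obtain ⟨J, hJ, hJB⟩ := enumI (B.image (pos G)) (2 * M) (by omega)
  have hex : ∀ i, ∃ h h' : H, i < 2 * M → h ∈ G.darts ∧ G.base h = x ∧ h' ∈ G.darts ∧
      G.base h' = x ∧ pos G h = J i ∧ pos G h' = J i + 1 ∧ ¬ Par G A h h' := by
    intro i
    by_cases hi : i < 2 * M
    · obtain ⟨h, hh, hp⟩ := Finset.mem_image.1 (hJB i hi)
      obtain ⟨h1, h2, h', h3, h4, h5, h6⟩ := hBm h hh
      exact ⟨h, h', fun _ => ⟨h1, h2, h3, h4.trans h2, hp, by rw [h5, hp], h6⟩⟩
    · have : 0 < B.card := by omega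
      obtain ⟨h, _⟩ := Finset.card_pos.1 this
      exact ⟨h, h, fun hi2 => absurd hi2 hi⟩
  choose g g' hg using hex
  have hP : PSeq G M x (fun i => g (2 * i)) (fun i => g' (2 * i)) := by
    refine ⟨fun i hi => ?_, fun i hi => ?_, fun i hi => ?_, fun i j hij hj => ?_⟩
    · obtain ⟨h1, h2, h3, h4, h5, h6, h7⟩ := hg (2 * i) (by omega)
      exact ⟨h1, h2⟩
    · obtain ⟨h1, h2, h3, h4, h5, h6, h7⟩ := hg (2 * i) (by omega)
      exact ⟨h3, h4⟩
    · obtain ⟨h1, h2, h3, h4, h5, h6, h7⟩ := hg (2 * i) (by omega)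
      rw [h5, h6]; omega
    · obtain ⟨h1, h2, h3, h4, h5, h6, h7⟩ := hg (2 * i) (by omega)
      obtain ⟨k1, k2, k3, k4, k5, k6, k7⟩ := hg (2 * j) (by omega)
      rw [h6, k5]
      have a1 := hJ (2 * i) (2 * i + 1) (by omega) (by omega)
      have a2 := hJ (2 * i + 1) (2 * j) (by omega) (by omega)
      omega
  have hX : (bd G A ∪ loopsAt G A).card ≤ 2 * c := by
    refine (Finset.card_union_le _ _).trans ?_
    unfold cut at hcut
    omega
  have hav := avoid M (fun i => {g (2 * i), g' (2 * i)}) (bd G A ∪ loopsAt G A) (by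
    intro i hi j hj hij
    have a1 := hP.e_ne hi hj hij
    have a2 := hP.f_ne hi hj hij
    have a3 := hP.ef_ne hi hj
    have a4 := hP.ef_ne hj hi
    rw [Finset.disjoint_left]
    intro a ha hb
    rw [Finset.mem_insert, Finset.mem_singleton] at ha hb
    rcases ha with ha | ha <;> rcases hb with hb | hb
    · exact a1 (ha.symm.trans hb)
    · exact a3 (ha.symm.trans hb)
    · exact a4 (hb.symm.trans ha)
    · exact a2 (ha.symm.trans hb))
  set I := (Finset.range M).filter (fun i => Disjoint ({g (2 * i), g' (2 * i)} : Finset H)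
    (bd G A ∪ loopsAt G A)) with hI
  have hinn : ∀ h : H, h ∈ G.darts → G.base h = x → h ∉ bd G A ∪ loopsAt G A → Inn G A h := by
    intro h h1 h2 h3
    rw [Finset.mem_union, not_or] at h3
    refine ⟨h1, by rw [h2]; exact hx, ?_, ?_⟩
    · by_contra hcon
      exact h3.1 (Finset.mem_filter.2 ⟨h1, by rw [h2]; exact hx, hcon⟩)
    · intro hcon
      exact h3.2 (Finset.mem_filter.2 ⟨h1, by rw [h2]; exact hx, hcon⟩)
  have hIm : ∀ i ∈ I, i < M ∧ Inn G A (g (2 * i)) ∧ Inn G A (g' (2 * i)) := by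
    intro i hi
    rw [hI, Finset.mem_filter, Finset.mem_range, Finset.disjoint_left] at hi
    obtain ⟨hi1, hi2⟩ := hi
    obtain ⟨h1, h2, h3, h4, h5, h6, h7⟩ := hg (2 * i) (by omega)
    exact ⟨hi1, hinn _ h1 h2 (hi2 (by simp)), hinn _ h3 h4 (hi2 (by simp))⟩
  obtain ⟨J2, q, hq, hJ2, hJ2I, hJ2q⟩ := pigeon I
    (fun i => (G.base (G.opp (g (2 * i))), G.base (G.opp (g' (2 * i))))) (A ×ˢ A) R
    (fun i hi => by
      obtain ⟨-, h1, h2⟩ := hIm i hi
      exact Finset.mem_product.2 ⟨h1.2.2.1, h2.2.2.1⟩) (by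
      have h1 : (A ×ˢ A).card * R ≤ k * k * R := by
        rw [Finset.card_product]
        exact Nat.mul_le_mul_right _ (Nat.mul_le_mul hAk hAk)
      omega)
  obtain ⟨y, z⟩ := q
  obtain ⟨hy, hz⟩ := Finset.mem_product.1 hq
  dsimp only at hy hz
  have hJM : ∀ i < R, J2 i < M := fun i hi => (hIm _ (hJ2I i hi)).1
  have hyz : ∀ i < R, G.base (G.opp (g (2 * J2 i))) = y ∧ G.base (G.opp (g' (2 * J2 i))) = z := by
    intro i hi
    have := hJ2q i hi
    exact ⟨congrArg Prod.fst this, congrArg Prod.snd this⟩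
  have hyx : y ≠ x := by
    obtain ⟨-, h1, -⟩ := hIm _ (hJ2I 0 hR0)
    have h2 := h1.2.2.2
    rw [(hyz 0 hR0).1, (hP.e_mem _ (hJM 0 hR0)).2] at h2
    exact h2
  have hzx : z ≠ x := by
    obtain ⟨-, -, h1⟩ := hIm _ (hJ2I 0 hR0)
    have h2 := h1.2.2.2
    rw [(hyz 0 hR0).2, (hP.f_mem _ (hJM 0 hR0)).2] at h2
    exact h2
  have hPJ := hP.sub hJ2 hJM
  by_cases hyz0 : y = z
  · subst hyz0
    refine hNE V H G A x y (fun i => g (2 * J2 i)) (fun i => g' (2 * J2 i)) hAk hcut hloop hx hy
      hyx (hPJ.sub (J := fun i => i) (fun i j hij _ => hij) (fun i hi => by omega)) ?_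
      (fun i hi => hyz i (by omega)) ?_
    · intro i hi
      obtain ⟨h1, h2, h3, h4, h5, h6, h7⟩ := hg (2 * J2 i) (by have := hJM i (by omega); omega)
      rw [h5, h6]
    · intro i hi
      obtain ⟨h1, h2, h3, h4, h5, h6, h7⟩ := hg (2 * J2 i) (by have := hJM i (by omega); omega)
      obtain ⟨-, i1, i2⟩ := hIm _ (hJ2I i (by omega))
      have hyi := hyz i (by omega)
      have h8 : ¬ (pos G (G.opp (g' (2 * J2 i))) = pos G (G.opp (g (2 * J2 i))) + 1 ∨
          pos G (G.opp (g (2 * J2 i))) = pos G (G.opp (g' (2 * J2 i))) + 1) := by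
        intro hcon
        exact h7 ⟨i1, i2, by rw [h2, h4], by rw [hyi.1, hyi.2], by rw [h5, h6], hcon⟩
      rw [not_or] at h8
      exact h8
  · exact ⟨x, hNA V H G A x y z (fun i => g (2 * J2 i)) (fun i => g' (2 * J2 i)) hx hy hz hyx hzx
      (hPJ.sub (J := fun i => i) (fun i j hij _ => hij) (fun i hi => by omega))
      (fun i hi => (hyz i (by omega)).1) (fun i hi => (hyz i (by omega)).2)
      (fun h => absurd h hyz0)⟩

end RotWqo.Bag
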