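import Pool.Agent.Lib.MP_cb4a0f_co.Bag.UnivA

/-!
# MP_cb4a0f_co: coordinates of pieces with few bad half-edges
-/

open Classical

namespace RotWqo.Bag

universe u v w

/-- Coordinates of a piece: the vertices are numbered by `e`, the half-edge `h` has the class
`cl h` and the place `off h` in its class, the class `j` at the vertex number `i` has `s i j`
elements, `b i j` says that it consists of one half-edge of an edge that leaves the piece, and
otherwise the other halves are in the class `p i j`, in the same order or in the inverse order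
according to `σ`. -/
structure Crd {V : Type u} {H : Type v} (G : RotGraph V H) (A : Finset V) (N : ℕ) (e : V → ℕ)
    (cl off : H → ℕ) (s : ℕ → ℕ → ℕ) (b σ : ℕ → ℕ → Bool) (p : ℕ → ℕ → ℕ × ℕ) : Prop where
  e_bij : Set.BijOn e (A : Set V) (Finset.range A.card : Set ℕ)
  cl_le : ∀ h ∈ dts G A, cl h ≤ N
  off_lt : ∀ h ∈ dts G A, off h < s (e (G.base h)) (cl h)
  surj : ∀ v ∈ A, ∀ j ≤ N, ∀ o < s (e v) j, ∃ h ∈ dts G A, G.base h = v ∧ cl h = j ∧ off h = o
  mono : ∀ h ∈ dts G A, ∀ h' ∈ dts G A, G.base h = G.base h' →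
    (pos G h < pos G h' ↔ cl h < cl h' ∨ cl h = cl h' ∧ off h < off h')
  b_iff : ∀ h ∈ dts G A, (b (e (G.base h)) (cl h) = true ↔ h ∈ bd G A)
  b_one : ∀ v ∈ A, ∀ j ≤ N, b (e v) j = true → s (e v) j = 1
  p_eq : ∀ h ∈ dts G A, G.base (G.opp h) ∈ A →
    p (e (G.base h)) (cl h) = (e (G.base (G.opp h)), cl (G.opp h))
  s_eq : ∀ h ∈ dts G A, G.base (G.opp h) ∈ A →
    s (e (G.base (G.opp h))) (cl (G.opp h)) = s (e (G.base h)) (cl h)
  off_opp : ∀ h ∈ dts G A, G.base (G.opp h) ∈ A → off (G.opp h) =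
    if σ (e (G.base h)) (cl h) = σ (e (G.base (G.opp h))) (cl (G.opp h)) then off h
    else s (e (G.base h)) (cl h) - 1 - off h

/-- (S1) Pieces with at most `N` bad half-edges have coordinates. -/
def StCrd : Prop := ∀ (V : Type u) (H : Type v) (G : RotGraph V H) (A : Finset V) (N : ℕ),
  A ⊆ G.verts → (Bad G A).card ≤ N → ∃ e cl off s b σ p, Crd G A N e cl off s b σ p

/-- (S2) Pieces with coordinates are well-quasi-ordered. -/
def StDick : Prop := ∀ (k N : ℕ) (Q : Type w) (q : Q → Q → Prop) [IsPreorder Q q],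
  WellQuasiOrdered q → ∀ (V : ℕ → Type u) (H : ℕ → Type v) [∀ i, Nonempty (V i)]
    [∀ i, Nonempty (H i)] (G : ∀ i, RotGraph (V i) (H i)) (lab : ∀ i, V i → Q)
    (A : ∀ i, Finset (V i)), (∀ i, (A i).card ≤ k) →
    (∀ i, ∃ e cl off s b σ p, Crd (G i) (A i) N e cl off s b σ p) →
    ∃ m n, m < n ∧ ∃ β, PE (fun a b => q (lab m a) (lab n b)) (G m) (A m) (G n) (A n) β

theorem stSkel (h1 : StCrd.{u, v}) (h2 : StDick.{u, v, w}) : StSkel.{u, v, w} := by
  intro k N Q q _ hq V H _ _ G lab A hA hk hN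
  exact h2 k N Q q hq V H G lab A hk fun i => h1 _ _ (G i) (A i) N (hA i) (hN i)

end RotWqo.Bag
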