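import Pool.Agent.Lib.MP_cb4a0f_co.Bag.Defs

/-!
# MP_cb4a0f_co: rotated graphs with bags, statements of the modules
-/

open Classical

namespace RotWqo.Bag

universe u v w

/-- (S) Pieces with a bounded number of vertices and a bounded number of bad half-edges. -/
def StSkel : Prop := ∀ (k N : ℕ) (Q : Type w) (q : Q → Q → Prop) [IsPreorder Q q],
  WellQuasiOrdered q → ∀ (V : ℕ → Type u) (H : ℕ → Type v) [∀ i, Nonempty (V i)]
    [∀ i, Nonempty (H i)] (G : ∀ i, RotGraph (V i) (H i)) (lab : ∀ i, V i → Q)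
    (A : ∀ i, Finset (V i)), (∀ i, A i ⊆ (G i).verts) → (∀ i, (A i).card ≤ k) →
    (∀ i, (Bad (G i) (A i)).card ≤ N) →
    ∃ m n, m < n ∧ ∃ β, PE (fun a b => q (lab m a) (lab n b)) (G m) (A m) (G n) (A n) β

/-- (P) Many bad half-edges: a long pattern. -/
def StPat : Prop := ∀ k c n : ℕ, ∃ N : ℕ, ∀ (V : Type u) (H : Type v) (G : RotGraph V H)
  (A : Finset V), A.card ≤ k → cut G A ≤ c → (loopsAt G A).card ≤ c → N ≤ (Bad G A).card →
    ∃ x, Pat G A n x

/-- (A) Patterns realise consecutive blocks of arches, in a place that does not depend on the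
blocks. -/
def StArch : Prop := ∀ L m : ℕ, ∃ n : ℕ, ∀ (V : Type u) (H : Type v) (G : RotGraph V H)
  (A : Finset V) (x : V) (U : Finset H), U ⊆ G.darts → U.card ≤ m → Pat G A n x →
    ∃ lo, ∀ rs : List (ℕ × ℕ), 0 < len rs → len rs ≤ L →
      ∃ u, Arches G A U x lo (len rs) u (cap rs)

/-- (C) Arches realise every matching of the `R` strands. -/
def StComb : Prop := ∀ R : ℕ, ∃ L : ℕ, ∀ μ : ℕ → ℕ,
  (∀ i < R, μ i < R ∧ μ (μ i) = i ∧ μ i ≠ i) → ∃ (rs : List (ℕ × ℕ)) (bot : ℕ → ℕ),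
    len rs ≤ L ∧ R ≤ len rs ∧
    (∀ p < len rs, cap rs p < len rs ∧ cap rs (cap rs p) = p ∧ cap rs p ≠ p) ∧
    (∀ p, R ≤ p → p < len rs → R ≤ bot p ∧ bot p < len rs ∧ bot (bot p) = p ∧ bot p ≠ p) ∧
    (∀ p q, R ≤ p → p < q → q < bot p → bot p < len rs → p < bot q ∧ bot q < bot p) ∧
    ∀ i < R, Wk (cap rs) bot R i (μ i)

/-- (F) Flows with demands. -/
def StFlow : Prop := ∀ (V : Type u) (H : Type v) (G : RotGraph V H) (A : Finset V) (x : V)
  (t : V → ℕ), x ∈ A → A ⊆ G.verts →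
    (∀ X, x ∈ X → X ⊆ A → X ≠ A → cut G A + ∑ a ∈ A.erase x, t a ≤ cut G X) →
    ∃ U T M en, Flow G A x t U T M en

/-- (U) Universality: a piece with large cuts and many bad half-edges contains all small pieces
with the same number of vertices and of boundary half-edges. -/
def StUniv : Prop := ∀ k c D : ℕ, ∃ N : ℕ, ∀ (V V' : Type u) (H H' : Type v) [Nonempty H']
  (G : RotGraph V H) (A : Finset V) (G' : RotGraph V' H') (A' : Finset V')
  (r : V → V' → Prop) (f : V → V'), A ⊆ G.verts → A' ⊆ G'.verts →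
    Set.BijOn f (A : Set V) (A' : Set V') → (∀ v ∈ A, r v (f v)) → A.card ≤ k →
    (dts G A).card ≤ D → cut G A = cut G' A' → cut G' A' ≤ c → (loopsAt G' A').card ≤ c →
    (∀ S, S.Nonempty → S ⊆ A' → S ≠ A' → N ≤ cut G' S) → N ≤ (Bad G' A').card →
    ∃ β, PE r G A G' A' β

/-- (L) The leaf theorem. -/
def StLeaf : Prop := ∀ (k c : ℕ) (Q : Type w) (q : Q → Q → Prop) [IsPreorder Q q],
  WellQuasiOrdered q → ∀ (V : ℕ → Type u) (H : ℕ → Type v) [∀ i, Nonempty (V i)]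
    [∀ i, Nonempty (H i)] (G : ∀ i, RotGraph (V i) (H i)) (lab : ∀ i, V i → Q)
    (A : ∀ i, Finset (V i)), (∀ i, A i ⊆ (G i).verts) → (∀ i, (A i).card ≤ k) →
    (∀ i, cut (G i) (A i) ≤ c) → (∀ i, (loopsAt (G i) (A i)).card ≤ c) →
    ∃ m n, m < n ∧ ∃ β, PE (fun a b => q (lab m a) (lab n b)) (G m) (A m) (G n) (A n) β

/-- (T) Linked trees of bags. -/
def StLinked : Prop := ∀ (k : ℕ) (V : Type u) (H : Type v) (G : RotGraph V H)
  (t : Tree (Finset V)), IsBagTree k G t → ∃ t', IsBagTree k G t' ∧ LinkedB G t'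

/-- (M) The main theorem. -/
def StMain : Prop := ∀ (k : ℕ) (Q : Type w) (q : Q → Q → Prop) [IsPreorder Q q],
  WellQuasiOrdered q → ∀ (V : ℕ → Type u) (H : ℕ → Type v) [∀ i, Nonempty (V i)]
    [∀ i, Nonempty (H i)] (G : ∀ i, RotGraph (V i) (H i)) (lab : ∀ i, V i → Q),
    (∀ i, (G i).verts = ∅ ∨ ∃ t, IsBagTree k (G i) t) →
    ∃ i j, i < j ∧ Imm (fun v w => q (lab i v) (lab j w)) (G i) (G j)

end RotWqo.Bag
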