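import Pool.Agent.Lib.MP_cb4a0f_co.Bag.Stmts

/-!
# MP_cb4a0f_co: auxiliary lemmas for the universality of pieces with long patterns
-/

open Classical

namespace RotWqo.Bag

variable {V H : Type*}

/-! ### Positions -/

lemma pos_eq {G : RotGraph V H} {v : V} {h : H} (hv : G.base h = v) :
    pos G h = (G.rot v).idxOf h := by
  rw [pos, hv]

lemma mem_rot_of {G : RotGraph V H} {h : H} (hh : h ∈ G.darts) : h ∈ G.rot (G.base h) :=
  (G.mem_rot _ _).2 ⟨hh, rfl⟩

lemma rot_sorted (G : RotGraph V H) (v : V) :
    (G.rot v).Pairwise (fun a b => pos G a < pos G b) := by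
  rw [List.pairwise_iff_getElem]
  intro i j hi hj hij
  have h1 : ∀ (i : ℕ) (hi : i < (G.rot v).length), pos G (G.rot v)[i] = i := by
    intro i hi
    have h2 := (G.mem_rot v (G.rot v)[i]).1 (List.getElem_mem hi)
    rw [pos_eq h2.2]
    exact (G.nodup v).idxOf_getElem i hi
  rw [h1, h1]
  exact hij

lemma pos_inj {G : RotGraph V H} {a b : H} (ha : a ∈ G.darts) (_ : b ∈ G.darts)
    (hab : G.base a = G.base b) (h : pos G a = pos G b) : a = b := by
  rw [pos, pos, hab] at h
  have h1 : a ∈ G.rot (G.base b) := hab ▸ mem_rot_of ha
  exact (List.idxOf_inj h1).1 h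

/-- A sorted list with the right elements is the filtered list of half-edges. -/
lemma filter_rot_eq (G : RotGraph V H) (v : V) (S : List H)
    (hsort : S.Pairwise (fun a b => pos G a < pos G b)) (p : H → Prop) [DecidablePred p]
    (hp : ∀ h, h ∈ S ↔ (h ∈ G.rot v ∧ p h)) : (G.rot v).filter (fun h => p h) = S := by
  have h1 : ((G.rot v).filter (fun h => p h)).Pairwise (fun a b => pos G a < pos G b) :=
    (rot_sorted G v).filter _
  have hnd : S.Nodup := hsort.imp fun {a b} h => by
    rintro rfl
    exact lt_irrefl _ h
  have hnd' : ((G.rot v).filter (fun h => p h)).Nodup := (G.nodup v).filter _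
  refine List.Perm.eq_of_pairwise (le := fun a b => pos G a < pos G b) ?_ h1 hsort ?_
  · intro a b _ _ h2 h3
    exact absurd h2 (not_lt.2 h3.le)
  · rw [List.perm_ext_iff_of_nodup hnd' hnd]
    intro a
    rw [List.mem_filter, decide_eq_true_eq, hp]

/-! ### Non-crossing matchings -/

lemma nc_of_inside {M : H → H → Prop} (ps : H → ℕ) (hs : ∀ a b, M a b → M b a)
    (hf : ∀ a b c, M a b → M a c → b = c) (n : ℕ) : ∀ l : List H, l.length = n →
    l.Pairwise (fun a b => ps a < ps b) → (∀ a ∈ l, ∀ b, M a b → b ∈ l) →
    (∀ a ∈ l, ¬ M a a) →
    (∀ a ∈ l, ∀ b, M a b → ∀ c ∈ l, ps a < ps c → ps c < ps b →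
      ∃ d, M c d ∧ ps a < ps d ∧ ps d < ps b) → NC M l := by
  induction n using Nat.strong_induction_on with
  | _ n ih =>
    intro l hl hsort hmem hne hin
    by_cases hex : ∃ a ∈ l, ∃ b, M a b
    · -- a pair with minimal distance
      have hpi : ∀ a ∈ l, ∀ b ∈ l, ps a = ps b → a = b := by
        intro a ha b hb hab
        obtain ⟨i, hi, rfl⟩ := List.getElem_of_mem ha
        obtain ⟨j, hj, rfl⟩ := List.getElem_of_mem hb
        rcases lt_trichotomy i j with h | h | h
        · exact absurd hab (List.pairwise_iff_getElem.1 hsort i j hi hj h).ne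
        · subst h; rfl
        · exact absurd hab (List.pairwise_iff_getElem.1 hsort j i hj hi h).ne'
      have hex2 : ∃ d, ∃ a ∈ l, ∃ b, M a b ∧ ps a < ps b ∧ ps b - ps a = d := by
        obtain ⟨a, ha, b, hab⟩ := hex
        have hb := hmem a ha b hab
        rcases lt_trichotomy (ps a) (ps b) with h | h | h
        · exact ⟨_, a, ha, b, hab, h, rfl⟩
        · have := hpi a ha b hb h
          subst this
          exact absurd hab (hne a ha)
        · exact ⟨_, b, hb, a, hs _ _ hab, h, rfl⟩
      obtain ⟨a, ha, b, hab, hlt, hd⟩ := Nat.find_spec hex2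
      have hmin : ∀ c ∈ l, ¬ (ps a < ps c ∧ ps c < ps b) := by
        rintro c hc ⟨h1, h2⟩
        obtain ⟨d, hcd, h3, h4⟩ := hin a ha b hab c hc h1 h2
        have hdl := hmem c hc d hcd
        rcases lt_trichotomy (ps c) (ps d) with h | h | h
        · exact Nat.find_min hex2 (m := ps d - ps c) (by omega) ⟨c, hc, d, hcd, h, rfl⟩
        · have := hpi c hc d hdl h
          subst this
          exact hne c hc hcd
        · exact Nat.find_min hex2 (m := ps c - ps d) (by omega) ⟨d, hdl, c, hs _ _ hcd, h, rfl⟩
      have hb := hmem a ha b hab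
      obtain ⟨s, t, rfl⟩ := List.append_of_mem ha
      rw [List.pairwise_append, List.pairwise_cons] at hsort
      obtain ⟨hs1, ⟨hs2, hs3⟩, hs4⟩ := hsort
      have hbt : b ∈ t := by
        rcases List.mem_append.1 hb with h | h
        · have := hs4 b h a (by simp)
          omega
        · rcases List.mem_cons.1 h with h | h
          · subst h
            omega
          · exact h
      obtain ⟨c, t', rfl⟩ : ∃ c t', t = c :: t' := by
        cases t with
        | nil => simp at hbt
        | cons c t' => exact ⟨c, t', rfl⟩
      have hcb : c = b := by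
        rcases List.mem_cons.1 hbt with h | h
        · exact h.symm
        · have h1 := hs2 c (by simp)
          have h2 := (List.pairwise_cons.1 hs3).1 b h
          exact absurd ⟨h1, h2⟩ (hmin c (by simp))
      subst hcb
      have h0 : (s ++ a :: c :: t') ~r (a :: c :: (t' ++ s)) := by
        have := List.isRotated_append (l := s) (l' := a :: c :: t')
        simpa using this
      have h1 : (s ++ t') ~r (t' ++ s) := List.isRotated_append
      refine NC.pair _ a c (t' ++ s) h0 hab ((NC.of_isRotated ?_ h1))
      have hsub : ∀ e ∈ s ++ t', e ∈ s ++ a :: c :: t' := by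
        intro e he
        rcases List.mem_append.1 he with h | h
        · simp [h]
        · simp [h]
      have hea : ∀ e ∈ s ++ t', e ≠ a ∧ e ≠ c := by
        intro e he
        rcases List.mem_append.1 he with h | h
        · have h1 := hs4 e h a (by simp)
          have h2 := hs4 e h c (by simp)
          constructor
          · rintro rfl; omega
          · rintro rfl; omega
        · have h1 := hs2 e (by simp [h])
          have h2 := (List.pairwise_cons.1 hs3).1 e h
          constructor
          · rintro rfl; omega
          · rintro rfl; omega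
      refine ih (s ++ t').length ?_ (s ++ t') rfl ?_ ?_ ?_ ?_
      · rw [← hl]
        simp
      · rw [List.pairwise_append]
        refine ⟨hs1, (List.pairwise_cons.1 hs3).2, fun e he e' he' => hs4 e he e' (by simp [he'])⟩
      · intro e he d hed
        have h2 := hmem e (hsub e he) d hed
        have h3 := hea e he
        have hda : d ≠ a := by
          rintro rfl
          exact h3.2 (hf _ _ _ (hs _ _ hed) hab)
        have hdc : d ≠ c := by
          rintro rfl
          exact h3.1 (hf _ _ _ (hs _ _ hed) (hs _ _ hab))
        rcases List.mem_append.1 h2 with h | h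
        · simp [h]
        · rcases List.mem_cons.1 h with h | h
          · exact absurd h hda
          · rcases List.mem_cons.1 h with h | h
            · exact absurd h hdc
            · simp [h]
      · intro e he
        exact hne e (hsub e he)
      · intro e he d hed g hg h2 h3
        exact hin e (hsub e he) d hed g (hsub g hg) h2 h3
    · push Not at hex
      exact NC.done l hex

lemma nc_link {M : H → H → Prop} (hs : ∀ a b, M a b → M b a) (K : List H)
    (hK : ∀ a ∈ K, ∀ b, ¬ M a b) : ∀ (W P : List H), W.length = P.length →
    (∀ p ∈ W.zip P, M p.1 p.2) → NC M (W ++ (K ++ P.reverse)) := by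
  intro W
  induction W with
  | nil =>
    intro P hl hz
    have : P = [] := by
      cases P with
      | nil => rfl
      | cons a t => simp at hl
    subst this
    simp only [List.reverse_nil, List.append_nil, List.nil_append]
    exact NC.done _ hK
  | cons w W ih =>
    intro P hl hz
    cases P with
    | nil => simp at hl
    | cons p P =>
      have h1 := ih P (by simpa using hl) (fun q hq => hz q (by simp [hq]))
      have h2 : M w p := hz (w, p) (by simp)
      refine NC.pair _ p w _ ?_ (hs _ _ h2) h1
      have := List.isRotated_append (l := w :: W ++ (K ++ P.reverse)) (l' := [p])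
      simpa using this

end RotWqo.Bag
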