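import Pool.Agent.Lib.MP_cb4a0f_co.Bag.UnivA

/-!
# MP_cb4a0f_co: the embedding obtained from a flow, arches and a matching of the strands
-/

open Classical

namespace RotWqo.Bag

variable {V H V' H' : Type*}

lemma map_idx {α β : Type*} (l : List α) (l' : List β) (hnd : l.Nodup)
    (hlen : l.length = l'.length) (d : β) :
    l.map (fun h => (l'[l.idxOf h]?).getD d) = l' := by
  refine List.ext_getElem (by simp [hlen]) fun i h1 h2 => ?_
  have h3 : i < l.length := by simpa using h1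
  simp [hnd.idxOf_getElem i h3, h2]

/-- Partners of the strands. -/
lemma exists_mu (G : RotGraph V H) (A : Finset V) (R : ℕ)
    (hR : R = (dts G A).card + cut G A) (sT sB : H → ℕ)
    (hT : ∀ h ∈ dts G A, sT h < R) (hB : ∀ h ∈ bd G A, sB h < R)
    (hTi : ∀ h ∈ dts G A, ∀ h' ∈ dts G A, sT h = sT h' → h = h')
    (hBi : ∀ h ∈ bd G A, ∀ h' ∈ bd G A, sB h = sB h' → h = h')
    (hTB : ∀ h ∈ dts G A, ∀ h' ∈ bd G A, sT h ≠ sB h') :
    ∃ μ : ℕ → ℕ, (∀ i < R, μ i < R ∧ μ (μ i) = i ∧ μ i ≠ i) ∧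
      (∀ h ∈ dts G A, G.base (G.opp h) ∈ A → μ (sT h) = sT (G.opp h)) ∧
      (∀ h ∈ bd G A, μ (sT h) = sB h) := by
  classical
  rcases isEmpty_or_nonempty H with hE | hE
  · refine ⟨id, fun i hi => ?_, fun h => (hE.false h).elim, fun h => (hE.false h).elim⟩
    have h1 : (dts G A).card = 0 := Finset.card_eq_zero.2 (Finset.eq_empty_of_isEmpty _)
    have h2 : cut G A = 0 := Finset.card_eq_zero.2 (Finset.eq_empty_of_isEmpty _)
    omega
  set F : Finset (H ⊕ H) := (dts G A).disjSum (bd G A) with hF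
  set s : H ⊕ H → ℕ := Sum.elim sT sB with hs
  set pt : H ⊕ H → H ⊕ H := fun a => match a with
    | .inl h => if G.base (G.opp h) ∈ A then .inl (G.opp h) else .inr h
    | .inr h => .inl h with hpt
  have hmemT : ∀ h, Sum.inl h ∈ F ↔ h ∈ dts G A := fun h => Finset.inl_mem_disjSum
  have hmemB : ∀ h, Sum.inr h ∈ F ↔ h ∈ bd G A := fun h => Finset.inr_mem_disjSum
  have hmd : ∀ h, h ∈ dts G A ↔ h ∈ G.darts ∧ G.base h ∈ A := fun h => by simp [dts]
  have hinj : Set.InjOn s (F : Set (H ⊕ H)) := by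
    rintro (a | a) ha (b | b) hb hab
    · rw [hTi a ((hmemT a).1 (Finset.mem_coe.1 ha)) b ((hmemT b).1 (Finset.mem_coe.1 hb)) hab]
    · exact absurd hab (hTB a ((hmemT a).1 (Finset.mem_coe.1 ha)) b
        ((hmemB b).1 (Finset.mem_coe.1 hb)))
    · exact absurd hab.symm (hTB b ((hmemT b).1 (Finset.mem_coe.1 hb)) a
        ((hmemB a).1 (Finset.mem_coe.1 ha)))
    · rw [hBi a ((hmemB a).1 (Finset.mem_coe.1 ha)) b ((hmemB b).1 (Finset.mem_coe.1 hb)) hab]
  have hlt : ∀ a ∈ F, s a < R := by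
    rintro (a | a) ha
    · exact hT a ((hmemT a).1 ha)
    · exact hB a ((hmemB a).1 ha)
  have himg : F.image s = Finset.range R := by
    refine Finset.eq_of_subset_of_card_le ?_ ?_
    · intro i hi
      obtain ⟨a, ha, rfl⟩ := Finset.mem_image.1 hi
      exact Finset.mem_range.2 (hlt a ha)
    · rw [Finset.card_image_of_injOn hinj, Finset.card_range, hF, Finset.card_disjSum, hR]
      rfl
  have hsurj : ∀ i < R, ∃ a ∈ F, s a = i := by
    intro i hi
    have : i ∈ F.image s := by rw [himg]; exact Finset.mem_range.2 hi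
    exact Finset.mem_image.1 this
  choose! inv hinv1 hinv2 using hsurj
  have hinvs : ∀ a ∈ F, inv (s a) = a := fun a ha =>
    hinj (Finset.mem_coe.2 (hinv1 _ (hlt a ha))) (Finset.mem_coe.2 ha) (hinv2 _ (hlt a ha))
  have hptF : ∀ a ∈ F, pt a ∈ F ∧ pt (pt a) = a ∧ pt a ≠ a := by
    rintro (h | h) ha
    · have h1 := (hmd h).1 ((hmemT h).1 ha)
      by_cases h2 : G.base (G.opp h) ∈ A
      · have h3 : pt (.inl h) = .inl (G.opp h) := if_pos h2
        rw [h3]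
        refine ⟨(hmemT _).2 ((hmd _).2 ⟨G.opp_mem h h1.1, h2⟩), ?_, ?_⟩
        · have h4 : pt (.inl (G.opp h)) = .inl (G.opp (G.opp h)) := by
            refine if_pos ?_
            rw [G.opp_opp h h1.1]
            exact h1.2
          rw [h4, G.opp_opp h h1.1]
        · intro h4
          exact G.opp_ne h h1.1 (Sum.inl.inj h4)
      · have h3 : pt (.inl h) = .inr h := if_neg h2
        rw [h3]
        exact ⟨(hmemB _).2 (mem_bd.2 ⟨h1.1, h1.2, h2⟩), rfl, by simp⟩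
    · have h1 := mem_bd.1 ((hmemB h).1 ha)
      have h3 : pt (.inr h) = .inl h := rfl
      rw [h3]
      refine ⟨(hmemT _).2 ((hmd _).2 ⟨h1.1, h1.2.1⟩), if_neg h1.2.2, by simp⟩
  refine ⟨fun i => s (pt (inv i)), fun i hi => ?_, fun h hh hA => ?_, fun h hh => ?_⟩
  · have h1 := hinv1 i hi
    obtain ⟨h2, h3, h4⟩ := hptF _ h1
    refine ⟨hlt _ h2, ?_, ?_⟩
    · show s (pt (inv (s (pt (inv i))))) = i
      rw [hinvs _ h2, h3, hinv2 i hi]
    · intro h5
      have h6 : s (pt (inv i)) = s (inv i) := by rw [hinv2 i hi]; exact h5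
      exact h4 (hinj (Finset.mem_coe.2 h2) (Finset.mem_coe.2 h1) h6)
  · have h1 : inv (sT h) = .inl h := hinvs (.inl h) ((hmemT h).2 hh)
    show s (pt (inv (sT h))) = sT (G.opp h)
    rw [h1]
    have h3 : pt (.inl h) = .inl (G.opp h) := if_pos hA
    rw [h3]
    rfl
  · have h0 := mem_bd.1 hh
    have h1 : inv (sT h) = .inl h := hinvs (.inl h) ((hmemT h).2 ((hmd h).2 ⟨h0.1, h0.2.1⟩))
    show s (pt (inv (sT h))) = sB h
    rw [h1]
    have h3 : pt (.inl h) = .inr h := if_neg h0.2.2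
    rw [h3]
    rfl

/-- The total turning relation. -/
def MM (G' : RotGraph V' H') (MF : H' → H' → Prop) (u : ℕ → H') (τ bot : ℕ → ℕ) (R L m : ℕ)
    (P : List H') (a b : H') : Prop :=
  MF a b ∨ (∃ i < L, a = G'.opp (u i) ∧ b = G'.opp (u (τ i))) ∨
    (∃ p, R ≤ p ∧ p < L ∧ a = u p ∧ b = u (bot p)) ∨
    ∃ j < m, (a = u j ∧ P[j]? = some b) ∨ (b = u j ∧ P[j]? = some a)

/-- All data of the embedding. -/
structure Asm (G : RotGraph V H) (A : Finset V) (G' : RotGraph V' H') (A' : Finset V')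
    (f : V → V') (x : V') (t : V' → ℕ) (U T : Finset H') (MF : H' → H' → Prop) (en : H' → H')
    (lo L m R : ℕ) (u : ℕ → H') (τ bot μ : ℕ → ℕ) (P : List H') (φ β : H → H')
    (sT sB : H → ℕ) : Prop where
  hf : Set.BijOn f (A : Set V) (A' : Set V')
  hx : x ∈ A'
  fl : Flow G' A' x t U T MF en
  ar : Arches G' A' U x lo L u τ
  hR : R = m + t x
  hRL : R ≤ L
  ht : ∀ v ∈ A, t (f v) = (G.rot v).length
  τ1 : ∀ p < L, τ p < L ∧ τ (τ p) = p ∧ τ p ≠ p
  b1 : ∀ p, R ≤ p → p < L → R ≤ bot p ∧ bot p < L ∧ bot (bot p) = p ∧ bot p ≠ p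
  b2 : ∀ p q, R ≤ p → p < q → q < bot p → bot p < L → p < bot q ∧ bot q < bot p
  wk : ∀ i < R, Wk τ bot R i (μ i)
  hPl : P.length = m
  hP : P.reverse = (G'.rot x).filter (fun h => h ∈ U ∧ lo ≤ pos G' h) ++
    (G'.rot x).filter (fun h => h ∈ U ∧ pos G' h < lo)
  φx : ∀ v ∈ A, f v = x → (G.rot v).map φ = (List.range (t x)).map (fun i => u (m + i))
  φT : ∀ v ∈ A, f v ≠ x → (G.rot v).map φ = (G'.rot (f v)).filter (fun h => h ∈ T)
  β_bij : Set.BijOn β (bd G A : Set H) (bd G' A' : Set H')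
  sTx : ∀ h ∈ dts G A, f (G.base h) = x → sT h < R ∧ φ h = u (sT h)
  sTT : ∀ h ∈ dts G A, f (G.base h) ≠ x → sT h < m ∧ ∃ p, P[sT h]? = some p ∧
    G'.opp (en p) = φ h
  sBB : ∀ h ∈ bd G A, sB h < m ∧ ∃ p, P[sB h]? = some p ∧ en p = β h
  μT : ∀ h ∈ dts G A, G.base (G.opp h) ∈ A → μ (sT h) = sT (G.opp h)
  μB : ∀ h ∈ bd G A, μ (sT h) = sB h

end RotWqo.Bag
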