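import Pool.Agent.Lib.MP_cb4a0f_co.Bag.UnivB

/-!
# MP_cb4a0f_co: the embedding obtained from a flow, arches and a matching of the strands (2)
-/

open Classical

namespace RotWqo.Bag

variable {V H V' H' : Type*} {G : RotGraph V H} {A : Finset V} {G' : RotGraph V' H'}
  {A' : Finset V'} {f : V → V'} {x : V'} {t : V' → ℕ} {U T : Finset H'} {MF : H' → H' → Prop}
  {en : H' → H'} {lo L m R : ℕ} {u : ℕ → H'} {τ bot μ : ℕ → ℕ} {P : List H'} {φ β : H → H'}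
  {sT sB : H → ℕ}

section

variable (S : Asm G A G' A' f x t U T MF en lo L m R u τ bot μ P φ β sT sB)

include S

lemma Asm.u_inj {i j : ℕ} (hi : i < L) (hj : j < L) (h : u i = u j) : i = j := by
  rcases lt_trichotomy i j with h1 | h1 | h1
  · have := S.ar.mono i j h1 hj
    rw [h] at this
    exact absurd this (lt_irrefl _)
  · exact h1
  · have := S.ar.mono j i h1 hi
    rw [h] at this
    exact absurd this (lt_irrefl _)

lemma Asm.ou_inj {i j : ℕ} (hi : i < L) (hj : j < L) (h : G'.opp (u i) = G'.opp (u j)) :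
    i = j := by
  refine S.u_inj hi hj ?_
  rw [← G'.opp_opp _ (S.ar.mem i hi).1, h, G'.opp_opp _ (S.ar.mem j hj).1]

lemma Asm.u_ne_ou {i j : ℕ} (hi : i < L) (hj : j < L) : u i ≠ G'.opp (u j) := by
  intro h
  have h1 := (S.ar.mem i hi).2.1
  rw [h] at h1
  exact (S.ar.mem j hj).2.2.2 h1

lemma Asm.mem_P {a : H'} : a ∈ P ↔ a ∈ U ∧ G'.base a = x := by
  rw [← List.mem_reverse, S.hP, List.mem_append, List.mem_filter, List.mem_filter,
    decide_eq_true_eq, decide_eq_true_eq, G'.mem_rot]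
  constructor
  · rintro (⟨⟨-, h2⟩, h3, -⟩ | ⟨⟨-, h2⟩, h3, -⟩)
    · exact ⟨h3, h2⟩
    · exact ⟨h3, h2⟩
  · rintro ⟨h1, h2⟩
    have h3 := (S.fl.U_mem a h1).1
    rcases le_or_gt lo (pos G' a) with h | h
    · exact Or.inl ⟨⟨h3, h2⟩, h1, h⟩
    · exact Or.inr ⟨⟨h3, h2⟩, h1, h⟩

lemma Asm.P_nodup : P.Nodup := by
  rw [← List.nodup_reverse, S.hP, List.nodup_append]
  refine ⟨(G'.nodup x).filter _, (G'.nodup x).filter _, ?_⟩
  intro a ha b hb hab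
  subst hab
  rw [List.mem_filter, decide_eq_true_eq] at ha hb
  omega

lemma Asm.P_mem {j : ℕ} {a : H'} (h : P[j]? = some a) : j < m ∧ a ∈ U ∧ G'.base a = x := by
  have h1 := List.mem_of_getElem? h
  have h2 := (List.getElem?_eq_some_iff.1 h).1
  rw [S.hPl] at h2
  exact ⟨h2, S.mem_P.1 h1⟩

lemma Asm.P_inj {i j : ℕ} {a : H'} (h : P[i]? = some a) (h' : P[j]? = some a) : i = j := by
  obtain ⟨h1, h2⟩ := List.getElem?_eq_some_iff.1 h
  obtain ⟨h3, h4⟩ := List.getElem?_eq_some_iff.1 h'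
  exact (S.P_nodup.getElem_inj_iff).1 (h2.trans h4.symm)

/-! ### The kernel -/

lemma Asm.map_mem {v : V} (hv : v ∈ A) {h : H} (hh : h ∈ G.darts) (hb : G.base h = v) :
    (f v = x ∧ ∃ i < t x, φ h = u (m + i)) ∨ (f v ≠ x ∧ φ h ∈ T ∧ G'.base (φ h) = f v) := by
  have h1 : φ h ∈ (G.rot v).map φ := List.mem_map.2 ⟨h, (G.mem_rot v h).2 ⟨hh, hb⟩, rfl⟩
  by_cases hx : f v = x
  · rw [S.φx v hv hx, List.mem_map] at h1
    obtain ⟨i, hi, h2⟩ := h1
    exact Or.inl ⟨hx, i, List.mem_range.1 hi, h2.symm⟩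
  · rw [S.φT v hv hx, List.mem_filter, decide_eq_true_eq] at h1
    exact Or.inr ⟨hx, h1.2, ((G'.mem_rot _ _).1 h1.1).2⟩

lemma Asm.ker_iff {a : H'} : Ker G A φ a ↔ a ∈ T ∨ ∃ i < t x, a = u (m + i) := by
  constructor
  · rintro ⟨h, hh, hb, rfl⟩
    rcases S.map_mem hb hh rfl with ⟨-, i, hi, h1⟩ | ⟨-, h1, -⟩
    · exact Or.inr ⟨i, hi, h1⟩
    · exact Or.inl h1
  · rintro (h1 | ⟨i, hi, rfl⟩)
    · have h2 := S.fl.U_mem a (S.fl.T_sub h1)
      obtain ⟨v, hv, hfv⟩ := S.hf.surjOn (Finset.mem_coe.2 h2.2)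
      have hx : f v ≠ x := by rw [hfv]; exact S.fl.T_x a h1
      have h3 : a ∈ (G.rot v).map φ := by
        rw [S.φT v (Finset.mem_coe.1 hv) hx, List.mem_filter, decide_eq_true_eq, G'.mem_rot]
        exact ⟨⟨h2.1, hfv.symm⟩, h1⟩
      obtain ⟨h, hh, h4⟩ := List.mem_map.1 h3
      obtain ⟨h5, h6⟩ := (G.mem_rot v h).1 hh
      exact ⟨h, h5, h6 ▸ Finset.mem_coe.1 hv, h4⟩
    · obtain ⟨v, hv, hfv⟩ := S.hf.surjOn (Finset.mem_coe.2 S.hx)
      have h3 : u (m + i) ∈ (G.rot v).map φ := by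
        rw [S.φx v (Finset.mem_coe.1 hv) hfv, List.mem_map]
        exact ⟨i, List.mem_range.2 hi, rfl⟩
      obtain ⟨h, hh, h4⟩ := List.mem_map.1 h3
      obtain ⟨h5, h6⟩ := (G.mem_rot v h).1 hh
      exact ⟨h, h5, h6 ▸ Finset.mem_coe.1 hv, h4⟩

/-! ### The matching -/

/-- The kinds of letters. -/
lemma Asm.MM_symm (a b : H') (h : MM G' MF u τ bot R L m P a b) :
    MM G' MF u τ bot R L m P b a := by
  rcases h with h | ⟨i, hi, rfl, rfl⟩ | ⟨p, h1, h2, rfl, rfl⟩ | ⟨j, hj, h | h⟩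
  · exact Or.inl (S.fl.M_symm _ _ h)
  · obtain ⟨h1, h2, -⟩ := S.τ1 i hi
    exact Or.inr (Or.inl ⟨τ i, h1, rfl, by rw [h2]⟩)
  · obtain ⟨h3, h4, h5, -⟩ := S.b1 p h1 h2
    exact Or.inr (Or.inr (Or.inl ⟨bot p, h3, h4, rfl, by rw [h5]⟩))
  · exact Or.inr (Or.inr (Or.inr ⟨j, hj, Or.inr h⟩))
  · exact Or.inr (Or.inr (Or.inr ⟨j, hj, Or.inl h⟩))

lemma Asm.hm : m ≤ R := by
  have := S.hR
  omega

/-- A letter matched by `MM`, with its kind. -/
lemma Asm.kind {a b : H'} (h : MM G' MF u τ bot R L m P a b) :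
    (a ∈ U ∧ a ∉ T ∧ G'.base a ≠ x ∧ MF a b) ∨
    (∃ i < L, a = G'.opp (u i) ∧ b = G'.opp (u (τ i))) ∨
    (∃ p, R ≤ p ∧ p < L ∧ a = u p ∧ b = u (bot p)) ∨
    (∃ j < m, a = u j ∧ P[j]? = some b) ∨ (∃ j < m, b = u j ∧ P[j]? = some a) := by
  rcases h with h | h | h | ⟨j, hj, h | h⟩
  · obtain ⟨h1, h2, h3, -⟩ := S.fl.M_mem _ _ h
    exact Or.inl ⟨h1, h2, h3, h⟩
  · exact Or.inr (Or.inl h)
  · exact Or.inr (Or.inr (Or.inl h))
  · exact Or.inr (Or.inr (Or.inr (Or.inl ⟨j, hj, h.1, h.2⟩)))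
  · exact Or.inr (Or.inr (Or.inr (Or.inr ⟨j, hj, h.1, h.2⟩)))

lemma Asm.MM_fun (a b c : H') (h : MM G' MF u τ bot R L m P a b)
    (h' : MM G' MF u τ bot R L m P a c) : b = c := by
  have hmR := S.hm
  have hRL := S.hRL
  rcases S.kind h with ⟨h1, h2, h3, h4⟩ | ⟨i, hi, h1, h2⟩ | ⟨p, hp, hp', h1, h2⟩ |
    ⟨j, hj, h1, h2⟩ | ⟨j, hj, h1, h2⟩
  · rcases S.kind h' with ⟨-, -, -, k4⟩ | ⟨i', hi', k1, k2⟩ | ⟨p', hp1, hp2, k1, k2⟩ |
      ⟨j', hj', k1, k2⟩ | ⟨j', hj', k1, k2⟩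
    · exact S.fl.M_fun _ _ _ h4 k4
    · exact absurd (k1 ▸ h1) (S.ar.disj i' hi').2
    · exact absurd (k1 ▸ h1) (S.ar.disj p' hp2).1
    · exact absurd (k1 ▸ h1) (S.ar.disj j' (by omega)).1
    · exact absurd (S.P_mem k2).2.2 h3
  · rcases S.kind h' with ⟨k1, -, -, -⟩ | ⟨i', hi', k1, k2⟩ | ⟨p', hp1, hp2, k1, k2⟩ |
      ⟨j', hj', k1, k2⟩ | ⟨j', hj', k1, k2⟩
    · exact absurd (h1 ▸ k1) (S.ar.disj i hi).2
    · have := S.ou_inj hi hi' (h1.symm.trans k1)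
      subst this
      rw [h2, k2]
    · exact absurd (k1.symm.trans h1) (S.u_ne_ou hp2 hi)
    · exact absurd (k1.symm.trans h1) (S.u_ne_ou (by omega) hi)
    · have := (S.P_mem k2).2.2
      rw [h1] at this
      exact absurd this (S.ar.mem i hi).2.2.2
  · rcases S.kind h' with ⟨k1, -, -, -⟩ | ⟨i', hi', k1, k2⟩ | ⟨p', hp1, hp2, k1, k2⟩ |
      ⟨j', hj', k1, k2⟩ | ⟨j', hj', k1, k2⟩
    · exact absurd (h1 ▸ k1) (S.ar.disj p hp').1
    · exact absurd (h1.symm.trans k1) (S.u_ne_ou hp' hi')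
    · have := S.u_inj hp' hp2 (h1.symm.trans k1)
      subst this
      rw [h2, k2]
    · have := S.u_inj hp' (by omega) (h1.symm.trans k1)
      omega
    · exact absurd (h1 ▸ (S.P_mem k2).2.1) (S.ar.disj p hp').1
  · rcases S.kind h' with ⟨k1, -, -, -⟩ | ⟨i', hi', k1, k2⟩ | ⟨p', hp1, hp2, k1, k2⟩ |
      ⟨j', hj', k1, k2⟩ | ⟨j', hj', k1, k2⟩
    · exact absurd (h1 ▸ k1) (S.ar.disj j (by omega)).1
    · exact absurd (h1.symm.trans k1) (S.u_ne_ou (by omega) hi')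
    · have := S.u_inj (i := j) (by omega) hp2 (h1.symm.trans k1)
      omega
    · have := S.u_inj (i := j) (j := j') (by omega) (by omega) (h1.symm.trans k1)
      subst this
      exact Option.some.inj (h2.symm.trans k2)
    · exact absurd (h1 ▸ (S.P_mem k2).2.1) (S.ar.disj j (by omega)).1
  · rcases S.kind h' with ⟨-, -, k3, -⟩ | ⟨i', hi', k1, k2⟩ | ⟨p', hp1, hp2, k1, k2⟩ |
      ⟨j', hj', k1, k2⟩ | ⟨j', hj', k1, k2⟩
    · exact absurd (S.P_mem h2).2.2 k3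
    · have := (S.P_mem h2).2.2
      rw [k1] at this
      exact absurd this (S.ar.mem i' hi').2.2.2
    · exact absurd (k1 ▸ (S.P_mem h2).2.1) (S.ar.disj p' hp2).1
    · exact absurd (k1 ▸ (S.P_mem h2).2.1) (S.ar.disj j' (by omega)).1
    · have := S.P_inj h2 k2
      subst this
      rw [h1, k1]

lemma Asm.MM_mem (a b : H') (h : MM G' MF u τ bot R L m P a b) : a ∈ G'.darts := by
  have hmR := S.hm
  have hRL := S.hRL
  rcases S.kind h with ⟨h1, -⟩ | ⟨i, hi, h1, -⟩ | ⟨p, hp, hp', h1, -⟩ |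
    ⟨j, hj, h1, -⟩ | ⟨j, hj, -, h2⟩
  · exact (S.fl.U_mem a h1).1
  · rw [h1]
    exact G'.opp_mem _ (S.ar.mem i hi).1
  · rw [h1]
    exact (S.ar.mem p hp').1
  · rw [h1]
    exact (S.ar.mem j (by omega)).1
  · exact (S.fl.U_mem a (S.P_mem h2).2.1).1

lemma Asm.MM_base (a b : H') (h : MM G' MF u τ bot R L m P a b) :
    G'.base a ∈ A' ∧ G'.base b = G'.base a := by
  have hmR := S.hm
  have hRL := S.hRL
  rcases S.kind h with ⟨h1, -, -, h2⟩ | ⟨i, hi, h1, h2⟩ | ⟨p, hp, hp', h1, h2⟩ |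
    ⟨j, hj, h1, h2⟩ | ⟨j, hj, h1, h2⟩
  · exact ⟨(S.fl.U_mem a h1).2, (S.fl.M_mem _ _ h2).2.2.2⟩
  · rw [h1, h2]
    exact ⟨(S.ar.mem i hi).2.2.1, S.ar.same i hi⟩
  · rw [h1, h2, (S.ar.mem p hp').2.1, (S.ar.mem _ (S.b1 p hp hp').2.1).2.1]
    exact ⟨S.hx, rfl⟩
  · rw [h1, (S.ar.mem j (by omega)).2.1, (S.P_mem h2).2.2]
    exact ⟨S.hx, rfl⟩
  · rw [h1, (S.ar.mem j (by omega)).2.1, (S.P_mem h2).2.2]
    exact ⟨S.hx, rfl⟩

lemma Asm.MM_ker (a b : H') (h : MM G' MF u τ bot R L m P a b) : ¬ Ker G A φ a := by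
  have hmR := S.hm
  have hRL := S.hRL
  have hR := S.hR
  rw [S.ker_iff]
  rintro (k | ⟨q, hq, k⟩)
  · have kU := S.fl.T_sub k
    rcases S.kind h with ⟨h1, h2, -⟩ | ⟨i, hi, h1, -⟩ | ⟨p, hp, hp', h1, -⟩ |
      ⟨j, hj, h1, -⟩ | ⟨j, hj, -, h2⟩
    · exact h2 k
    · rw [h1] at kU
      exact (S.ar.disj i hi).2 kU
    · rw [h1] at kU
      exact (S.ar.disj p hp').1 kU
    · rw [h1] at kU
      exact (S.ar.disj j (by omega)).1 kU
    · exact S.fl.T_x a k (S.P_mem h2).2.2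
  · have hql : m + q < L := by omega
    rcases S.kind h with ⟨h1, h2, -⟩ | ⟨i, hi, h1, -⟩ | ⟨p, hp, hp', h1, -⟩ |
      ⟨j, hj, h1, -⟩ | ⟨j, hj, -, h2⟩
    · rw [k] at h1
      exact (S.ar.disj _ hql).1 h1
    · exact S.u_ne_ou hql hi (k.symm.trans h1)
    · have := S.u_inj hql hp' (k.symm.trans h1)
      omega
    · have := S.u_inj (j := j) hql (by omega) (k.symm.trans h1)
      omega
    · have := (S.P_mem h2).2.1
      rw [k] at this
      exact (S.ar.disj _ hql).1 this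

/-! ### Rotations -/

lemma Asm.range_sorted (a n : ℕ) (h : a + n ≤ L) :
    ((List.range n).map (fun i => u (a + i))).Pairwise (fun a b => pos G' a < pos G' b) := by
  rw [List.pairwise_map]
  have h1 : (List.range n).Pairwise (fun i j => i < j ∧ j < n) := by
    rw [List.pairwise_iff_getElem]
    intro i j hi hj hij
    simp only [List.getElem_range]
    simp only [List.length_range] at hi hj
    exact ⟨hij, hj⟩
  refine h1.imp fun {i j} hij => ?_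
  exact S.ar.mono _ _ (by omega) (by omega)

lemma Asm.rot_eq (v : V) (hv : v ∈ A) :
    (G'.rot (f v)).filter (fun a => Ker G A φ a) = (G.rot v).map φ := by
  have hR := S.hR
  have hRL := S.hRL
  by_cases hx : f v = x
  · rw [S.φx v hv hx, hx]
    refine filter_rot_eq G' x _ (S.range_sorted m (t x) (by omega)) _ ?_
    intro h
    rw [List.mem_map, S.ker_iff, G'.mem_rot]
    constructor
    · rintro ⟨i, hi, rfl⟩
      have hi' := List.mem_range.1 hi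
      have h1 := S.ar.mem (m + i) (by omega)
      exact ⟨⟨h1.1, h1.2.1⟩, Or.inr ⟨i, hi', rfl⟩⟩
    · rintro ⟨⟨h1, h2⟩, h3 | ⟨i, hi, rfl⟩⟩
      · exact absurd h2 (S.fl.T_x h h3)
      · exact ⟨i, List.mem_range.2 hi, rfl⟩
  · rw [S.φT v hv hx]
    refine List.filter_congr fun h hh => ?_
    rw [decide_eq_decide, S.ker_iff]
    constructor
    · rintro (h1 | ⟨i, hi, rfl⟩)
      · exact h1
      · have h1 := (S.ar.mem (m + i) (by omega)).2.1
        exact absurd (((G'.mem_rot _ _).1 hh).2.symm.trans h1) hx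
    · exact Or.inl

end

end RotWqo.Bag
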