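import Pool.Agent.Lib.MP_cb4a0f_co.Bag.UnivC

/-!
# MP_cb4a0f_co: the embedding obtained from a flow, arches and a matching of the strands (3)
-/

open Classical

namespace RotWqo.Bag

variable {V H V' H' : Type*} {G : RotGraph V H} {A : Finset V} {G' : RotGraph V' H'}
  {A' : Finset V'} {f : V → V'} {x : V'} {t : V' → ℕ} {U T : Finset H'} {MF : H' → H' → Prop}
  {en : H' → H'} {lo L m R : ℕ} {u : ℕ → H'} {τ bot μ : ℕ → ℕ} {P : List H'} {φ β : H → H'}
  {sT sB : H → ℕ}

section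

variable (S : Asm G A G' A' f x t U T MF en lo L m R u τ bot μ P φ β sT sB)

include S

/-! ### Non-crossing at the vertices different from the centre -/

lemma Asm.nc_ne (v : V') (hv : v ∈ A') (hvx : v ≠ x) :
    NC (MM G' MF u τ bot R L m P) ((G'.rot v).filter
      (fun a => Ker G A φ a ∨ ∃ b, MM G' MF u τ bot R L m P a b)) := by
  have hmR := S.hm
  have hRL := S.hRL
  have hR := S.hR
  set Top : H' → H' → Prop := fun a b => ∃ i < L, a = G'.opp (u i) ∧ b = G'.opp (u (τ i))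
    with hTop
  set M₁ : H' → H' → Prop := fun a b => MF a b ∨
    (∃ p, R ≤ p ∧ p < L ∧ a = u p ∧ b = u (bot p)) ∨
    ∃ j < m, (a = u j ∧ P[j]? = some b) ∨ (b = u j ∧ P[j]? = some a) with hM₁
  have hl : (G'.rot v).filter (fun a => Ker G A φ a ∨ ∃ b, MM G' MF u τ bot R L m P a b) =
      (G'.rot v).filter (fun a => a ∈ U ∨ ∃ i < L, a = G'.opp (u i)) := by
    refine List.filter_congr fun a ha => ?_
    have hav := ((G'.mem_rot _ _).1 ha).2
    rw [decide_eq_decide, S.ker_iff]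
    constructor
    · rintro ((h1 | ⟨i, hi, rfl⟩) | ⟨b, hb⟩)
      · exact Or.inl (S.fl.T_sub h1)
      · exact absurd (hav.symm.trans (S.ar.mem (m + i) (by omega)).2.1) hvx
      · rcases S.kind hb with ⟨h1, -⟩ | ⟨i, hi, h1, -⟩ | ⟨p, hp, hp', rfl, -⟩ |
          ⟨j, hj, rfl, -⟩ | ⟨j, hj, -, h2⟩
        · exact Or.inl h1
        · exact Or.inr ⟨i, hi, h1⟩
        · exact absurd (hav.symm.trans (S.ar.mem p hp').2.1) hvx
        · exact absurd (hav.symm.trans (S.ar.mem j (by omega)).2.1) hvx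
        · exact Or.inl (S.P_mem h2).2.1
    · rintro (h1 | ⟨i, hi, rfl⟩)
      · by_cases hT : a ∈ T
        · exact Or.inl (Or.inl hT)
        · obtain ⟨b, hb⟩ := S.fl.M_total a h1 hT (by rw [hav]; exact hvx)
          exact Or.inr ⟨b, Or.inl hb⟩
      · exact Or.inr ⟨_, Or.inr (Or.inl ⟨i, hi, rfl, rfl⟩)⟩
  rw [hl]
  have hTs : ∀ a b, Top a b → Top b a := by
    rintro a b ⟨i, hi, rfl, rfl⟩
    obtain ⟨h1, h2, -⟩ := S.τ1 i hi
    exact ⟨τ i, h1, rfl, by rw [h2]⟩
  refine NC.trans (M₁ := M₁) (M₂ := Top) ?_ hTs ?_ ?_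
  · intro a b
    constructor
    · rintro (h | h | h | h)
      · exact Or.inl (Or.inl h)
      · exact Or.inr h
      · exact Or.inl (Or.inr (Or.inl h))
      · exact Or.inl (Or.inr (Or.inr h))
    · rintro ((h | h | h) | h)
      · exact Or.inl h
      · exact Or.inr (Or.inr (Or.inl h))
      · exact Or.inr (Or.inr (Or.inr h))
      · exact Or.inr (Or.inl h)
  · refine nc_of_inside (pos G') hTs ?_ _ _ rfl ((rot_sorted G' v).filter _) ?_ ?_ ?_
    · rintro a b c ⟨i, hi, rfl, rfl⟩ ⟨j, hj, h1, rfl⟩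
      have := S.ou_inj hi hj h1
      rw [this]
    · rintro a ha b ⟨i, hi, rfl, rfl⟩
      rw [List.mem_filter, decide_eq_true_eq, G'.mem_rot] at ha ⊢
      obtain ⟨h1, -, -⟩ := S.τ1 i hi
      exact ⟨⟨G'.opp_mem _ (S.ar.mem _ h1).1, (S.ar.same i hi).trans ha.1.2⟩,
        Or.inr ⟨τ i, h1, rfl⟩⟩
    · rintro a - ⟨i, hi, h1, h2⟩
      obtain ⟨h3, -, h4⟩ := S.τ1 i hi
      exact h4 (S.ou_inj hi h3 (h1.symm.trans h2)).symm
    · rintro a ha b ⟨i, hi, rfl, rfl⟩ c hc h1 h2
      rw [List.mem_filter, decide_eq_true_eq, G'.mem_rot] at ha hc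
      obtain ⟨h3, h4⟩ := S.ar.inside i hi c hc.1.1 (hc.1.2.trans ha.1.2.symm) h1 h2
      rcases hc.2 with h5 | ⟨j, hj, rfl⟩
      · exact absurd h5 h3
      · exact ⟨_, ⟨j, hj, rfl, rfl⟩, h4 j hj rfl⟩
  · have hl2 : ((G'.rot v).filter (fun a => a ∈ U ∨ ∃ i < L, a = G'.opp (u i))).filter
        (fun a => decide (∀ b, ¬ Top a b)) = (G'.rot v).filter (fun a => a ∈ U) := by
      rw [List.filter_filter]
      refine List.filter_congr fun a ha => ?_
      rw [Bool.eq_iff_iff, Bool.and_eq_true, decide_eq_true_eq, decide_eq_true_eq,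
        decide_eq_true_eq]
      constructor
      · rintro ⟨h1, h2 | ⟨i, hi, rfl⟩⟩
        · exact h2
        · exact absurd ⟨i, hi, rfl, rfl⟩ (h1 (G'.opp (u (τ i))))
      · intro h1
        refine ⟨?_, Or.inl h1⟩
        rintro b ⟨i, hi, rfl, -⟩
        exact (S.ar.disj i hi).2 h1
    rw [hl2]
    refine (S.fl.nc v hv hvx).congr fun a ha b => ⟨fun h => Or.inl h, ?_⟩
    rw [List.mem_filter, decide_eq_true_eq, G'.mem_rot] at ha
    rintro (h | ⟨p, hp, hp', rfl, -⟩ | ⟨j, hj, ⟨rfl, -⟩ | ⟨-, h⟩⟩)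
    · exact h
    · exact absurd ha.2 (S.ar.disj p hp').1
    · exact absurd ha.2 (S.ar.disj j (by omega)).1
    · exact absurd (ha.1.2.symm.trans (S.P_mem h).2.2) hvx

/-! ### Non-crossing at the centre -/

lemma Asm.pos_le {i j : ℕ} (hij : i ≤ j) (hj : j < L) : pos G' (u i) ≤ pos G' (u j) := by
  rcases hij.lt_or_eq with h | rfl
  · exact (S.ar.mono i j h hj).le
  · exact le_rfl

lemma Asm.lt_of_pos {i j : ℕ} (hi : i < L) (h : pos G' (u i) < pos G' (u j)) : i < j := by
  by_contra hij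
  exact absurd h (not_lt.2 (S.pos_le (not_lt.1 hij) hi))

lemma Asm.nc_x (hR0 : 0 < R) :
    NC (MM G' MF u τ bot R L m P) ((G'.rot x).filter
      (fun a => Ker G A φ a ∨ ∃ b, MM G' MF u τ bot R L m P a b)) := by
  have hmR := S.hm
  have hRL := S.hRL
  have hR := S.hR
  set Bot : H' → H' → Prop := fun a b => ∃ p, R ≤ p ∧ p < L ∧ a = u p ∧ b = u (bot p)
    with hBot
  set M₁ : H' → H' → Prop := fun a b => MF a b ∨
    (∃ i < L, a = G'.opp (u i) ∧ b = G'.opp (u (τ i))) ∨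
    ∃ j < m, (a = u j ∧ P[j]? = some b) ∨ (b = u j ∧ P[j]? = some a) with hM₁
  have hl : (G'.rot x).filter (fun a => Ker G A φ a ∨ ∃ b, MM G' MF u τ bot R L m P a b) =
      (G'.rot x).filter (fun a => a ∈ U ∨ ∃ i < L, a = u i) := by
    refine List.filter_congr fun a ha => ?_
    have hav := ((G'.mem_rot _ _).1 ha).2
    rw [decide_eq_decide, S.ker_iff]
    constructor
    · rintro ((h1 | ⟨i, hi, rfl⟩) | ⟨b, hb⟩)
      · exact Or.inl (S.fl.T_sub h1)
      · exact Or.inr ⟨m + i, by omega, rfl⟩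
      · rcases S.kind hb with ⟨h1, -⟩ | ⟨i, hi, rfl, -⟩ | ⟨p, hp, hp', rfl, -⟩ |
          ⟨j, hj, rfl, -⟩ | ⟨j, hj, -, h2⟩
        · exact Or.inl h1
        · exact absurd hav (S.ar.mem i hi).2.2.2
        · exact Or.inr ⟨p, hp', rfl⟩
        · exact Or.inr ⟨j, by omega, rfl⟩
        · exact Or.inl (S.P_mem h2).2.1
    · rintro (h1 | ⟨i, hi, rfl⟩)
      · have h2 : a ∈ P := S.mem_P.2 ⟨h1, hav⟩
        obtain ⟨j, hj, h3⟩ := List.getElem_of_mem h2
        rw [S.hPl] at hj
        refine Or.inr ⟨u j, Or.inr (Or.inr (Or.inr ⟨j, hj, Or.inr ⟨rfl, ?_⟩⟩))⟩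
        rw [List.getElem?_eq_some_iff]
        exact ⟨_, h3⟩
      · rcases lt_or_ge i m with h1 | h1
        · have h2 : i < P.length := by rw [S.hPl]; exact h1
          exact Or.inr ⟨P[i], Or.inr (Or.inr (Or.inr ⟨i, h1, Or.inl ⟨rfl, by simp [h2]⟩⟩))⟩
        · rcases lt_or_ge i R with h2 | h2
          · exact Or.inl (Or.inr ⟨i - m, by omega, by congr 1; omega⟩)
          · exact Or.inr ⟨_, Or.inr (Or.inr (Or.inl ⟨i, h2, hi, rfl, rfl⟩))⟩
  rw [hl]
  have hBs : ∀ a b, Bot a b → Bot b a := by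
    rintro a b ⟨p, h1, h2, rfl, rfl⟩
    obtain ⟨h3, h4, h5, -⟩ := S.b1 p h1 h2
    exact ⟨bot p, h3, h4, rfl, by rw [h5]⟩
  refine NC.trans (M₁ := M₁) (M₂ := Bot) ?_ hBs ?_ ?_
  · intro a b
    constructor
    · rintro (h | h | h | h)
      · exact Or.inl (Or.inl h)
      · exact Or.inl (Or.inr (Or.inl h))
      · exact Or.inr h
      · exact Or.inl (Or.inr (Or.inr h))
    · rintro ((h | h | h) | h)
      · exact Or.inl h
      · exact Or.inr (Or.inl h)
      · exact Or.inr (Or.inr (Or.inr h))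
      · exact Or.inr (Or.inr (Or.inl h))
  · refine nc_of_inside (pos G') hBs ?_ _ _ rfl ((rot_sorted G' x).filter _) ?_ ?_ ?_
    · rintro a b c ⟨p, h1, h2, rfl, rfl⟩ ⟨q, h3, h4, h5, rfl⟩
      have := S.u_inj h2 h4 h5
      rw [this]
    · rintro a ha b ⟨p, h1, h2, rfl, rfl⟩
      obtain ⟨h3, h4, -⟩ := S.b1 p h1 h2
      rw [List.mem_filter, decide_eq_true_eq, G'.mem_rot]
      have h5 := S.ar.mem _ h4
      exact ⟨⟨h5.1, h5.2.1⟩, Or.inr ⟨_, h4, rfl⟩⟩
    · rintro a - ⟨p, h1, h2, h3, h4⟩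
      obtain ⟨-, h5, -, h6⟩ := S.b1 p h1 h2
      exact h6 (S.u_inj h2 h5 (h3.symm.trans h4)).symm
    · rintro a ha b ⟨p, h1, h2, rfl, rfl⟩ c hc h3 h4
      obtain ⟨h5, h6, h7, h8⟩ := S.b1 p h1 h2
      rw [List.mem_filter, decide_eq_true_eq, G'.mem_rot] at hc
      rcases hc.2 with h9 | ⟨q, hq, rfl⟩
      · exfalso
        rcases lt_or_ge (pos G' c) lo with h10 | h10
        · have := S.ar.free_left c h9 hc.1.2 h10
          have := S.pos_le (Nat.zero_le p) h2
          omega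
        · have := S.ar.free_right c h9 hc.1.2 h10
          have := S.pos_le (i := bot p) (j := L - 1) (by omega) (by omega)
          omega
      · have h9 := S.lt_of_pos h2 h3
        have h10 := S.lt_of_pos hq h4
        obtain ⟨h11, h12⟩ := S.b2 p q h1 h9 h10 h6
        exact ⟨u (bot q), ⟨q, by omega, hq, rfl, rfl⟩, S.ar.mono _ _ h11 (by omega),
          S.ar.mono _ _ h12 h6⟩
  · have hl2 : ((G'.rot x).filter (fun a => a ∈ U ∨ ∃ i < L, a = u i)).filter
        (fun a => decide (∀ b, ¬ Bot a b)) =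
        (G'.rot x).filter (fun h => h ∈ U ∧ pos G' h < lo) ++
          ((List.range R).map u ++ (G'.rot x).filter (fun h => h ∈ U ∧ lo ≤ pos G' h)) := by
      rw [List.filter_filter]
      have hfe : (G'.rot x).filter (fun a => decide (∀ b, ¬ Bot a b) &&
          decide (a ∈ U ∨ ∃ i < L, a = u i)) =
          (G'.rot x).filter (fun a => decide (a ∈ U ∨ ∃ i < R, a = u i)) := by
        refine List.filter_congr fun a ha => ?_
        rw [Bool.eq_iff_iff, Bool.and_eq_true, decide_eq_true_eq, decide_eq_true_eq,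
          decide_eq_true_eq]
        constructor
        · rintro ⟨h1, h2 | ⟨i, hi, rfl⟩⟩
          · exact Or.inl h2
          · refine Or.inr ⟨i, ?_, rfl⟩
            by_contra h3
            exact h1 _ ⟨i, not_lt.1 h3, hi, rfl, rfl⟩
        · rintro (h1 | ⟨i, hi, rfl⟩)
          · refine ⟨?_, Or.inl h1⟩
            rintro b ⟨p, hp, hp', rfl, -⟩
            exact (S.ar.disj p hp').1 h1
          · refine ⟨?_, Or.inr ⟨i, by omega, rfl⟩⟩
            rintro b ⟨p, hp, hp', h3, -⟩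
            have := S.u_inj (by omega) hp' h3
            omega
      rw [hfe]
      refine filter_rot_eq G' x _ ?_ _ ?_
      · rw [List.pairwise_append, List.pairwise_append]
        refine ⟨(rot_sorted G' x).filter _, ⟨?_, (rot_sorted G' x).filter _, ?_⟩, ?_⟩
        · have := S.range_sorted 0 R (by omega)
          simpa using this
        · intro a ha b hb
          obtain ⟨i, hi, rfl⟩ := List.mem_map.1 ha
          have hi' := List.mem_range.1 hi
          rw [List.mem_filter, decide_eq_true_eq, G'.mem_rot] at hb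
          have h1 := S.ar.free_right b hb.2.1 hb.1.2 hb.2.2
          have h2 := S.pos_le (i := i) (j := L - 1) (by omega) (by omega)
          omega
        · intro a ha b hb
          rw [List.mem_filter, decide_eq_true_eq, G'.mem_rot] at ha
          rcases List.mem_append.1 hb with h | h
          · obtain ⟨i, hi, rfl⟩ := List.mem_map.1 h
            have hi' := List.mem_range.1 hi
            have h1 := S.ar.free_left a ha.2.1 ha.1.2 ha.2.2
            have h2 := S.pos_le (Nat.zero_le i) (by omega)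
            omega
          · rw [List.mem_filter, decide_eq_true_eq, G'.mem_rot] at h
            omega
      · intro h
        rw [List.mem_append, List.mem_append, List.mem_filter, List.mem_filter, List.mem_map,
          decide_eq_true_eq, decide_eq_true_eq, G'.mem_rot]
        constructor
        · rintro (⟨h1, h2, -⟩ | ⟨i, hi, rfl⟩ | ⟨h1, h2, -⟩)
          · exact ⟨h1, Or.inl h2⟩
          · have hi' := List.mem_range.1 hi
            have h3 := S.ar.mem i (by omega)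
            exact ⟨⟨h3.1, h3.2.1⟩, Or.inr ⟨i, hi', rfl⟩⟩
          · exact ⟨h1, Or.inl h2⟩
        · rintro ⟨h1, h2 | ⟨i, hi, rfl⟩⟩
          · rcases lt_or_ge (pos G' h) lo with h3 | h3
            · exact Or.inl ⟨h1, h2, h3⟩
            · exact Or.inr (Or.inr ⟨h1, h2, h3⟩)
          · exact Or.inr (Or.inl ⟨i, List.mem_range.2 hi, rfl⟩)
    rw [hl2]
    have hrot : ((List.range m).map u ++ ((List.range (t x)).map (fun i => u (m + i)) ++
        P.reverse)) ~r
        ((G'.rot x).filter (fun h => h ∈ U ∧ pos G' h < lo) ++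
          ((List.range R).map u ++ (G'.rot x).filter (fun h => h ∈ U ∧ lo ≤ pos G' h))) := by
      have h1 : (List.range R).map u = (List.range m).map u ++
          (List.range (t x)).map (fun i => u (m + i)) := by
        rw [hR, List.range_add, List.map_append, List.map_map]
        rfl
      rw [h1, S.hP]
      have h2 := List.isRotated_append
        (l := (List.range m).map u ++ ((List.range (t x)).map (fun i => u (m + i)) ++
          (G'.rot x).filter (fun h => h ∈ U ∧ lo ≤ pos G' h)))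
        (l' := (G'.rot x).filter (fun h => h ∈ U ∧ pos G' h < lo))
      simpa [List.append_assoc] using h2
    have hM₁s : ∀ a b, M₁ a b → M₁ b a := by
      rintro a b (h | ⟨i, hi, rfl, rfl⟩ | ⟨j, hj, h | h⟩)
      · exact Or.inl (S.fl.M_symm _ _ h)
      · obtain ⟨h1, h2, -⟩ := S.τ1 i hi
        exact Or.inr (Or.inl ⟨τ i, h1, rfl, by rw [h2]⟩)
      · exact Or.inr (Or.inr ⟨j, hj, Or.inr h⟩)
      · exact Or.inr (Or.inr ⟨j, hj, Or.inl h⟩)
    refine NC.of_isRotated (nc_link hM₁s _ ?_ _ _ ?_ ?_) hrot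
    · intro a ha b hab
      obtain ⟨i, hi, rfl⟩ := List.mem_map.1 ha
      have hi' := List.mem_range.1 hi
      rcases hab with h | ⟨j, hj, h, -⟩ | ⟨j, hj, ⟨h, -⟩ | ⟨-, h⟩⟩
      · exact (S.ar.disj (m + i) (by omega)).1 (S.fl.M_mem _ _ h).1
      · exact S.u_ne_ou (by omega) hj h
      · have := S.u_inj (i := m + i) (j := j) (by omega) (by omega) h
        omega
      · exact (S.ar.disj (m + i) (by omega)).1 (S.P_mem h).2.1
    · rw [List.length_map, List.length_range, S.hPl]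
    · intro p hp
      obtain ⟨j, hj, rfl⟩ := List.getElem_of_mem hp
      rw [List.length_zip, List.length_map, List.length_range, S.hPl, min_self] at hj
      have h2 : j < P.length := by rw [S.hPl]; exact hj
      refine Or.inr (Or.inr ⟨j, hj, Or.inl ⟨?_, ?_⟩⟩)
      · simp
      · simp [h2]

/-! ### Runs -/

lemma Asm.run_area {p q : ℕ} (h : Wk τ bot R p q) : p < L →
    q < R ∧ Run G'.opp (MM G' MF u τ bot R L m P) (u p) (G'.opp (u q)) := by
  induction h with
  | done p h1 =>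
    intro hp
    exact ⟨h1, Run.step _ _ _ (Or.inr (Or.inl ⟨p, hp, rfl, rfl⟩)) (Run.refl _)⟩
  | step p q h1 _ ih =>
    intro hp
    obtain ⟨h2, h3, -⟩ := S.τ1 p hp
    obtain ⟨h4, h5, h6, -⟩ := S.b1 _ h1 h2
    obtain ⟨h7, h8⟩ := ih h5
    refine ⟨h7, Run.step _ (G'.opp (u (τ p))) _ (Or.inr (Or.inl ⟨p, hp, rfl, rfl⟩))
      (Run.step _ (u (bot (τ p))) _ ?_ h8)⟩
    rw [G'.opp_opp _ (S.ar.mem _ h2).1]
    exact Or.inr (Or.inr (Or.inl ⟨τ p, h1, h2, rfl, rfl⟩))

lemma Asm.run_in {h : H} (hh : h ∈ dts G A) :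
    Run G'.opp (MM G' MF u τ bot R L m P) (φ h) (u (sT h)) := by
  by_cases hx : f (G.base h) = x
  · rw [← (S.sTx h hh hx).2]
    exact Run.refl _
  · obtain ⟨h1, p, h2, h3⟩ := S.sTT h hh hx
    have h4 := S.P_mem h2
    have h5 := (S.fl.run p h4.2.1 h4.2.2).1
    have h6 := h5.reverse S.fl.M_symm (fun a b hab => G'.opp_opp _
      (S.fl.U_mem _ (S.fl.M_mem _ _ hab).1).1)
    rw [h3] at h6
    refine (h6.mono fun a b hab => Or.inl hab).snoc ?_
    rw [G'.opp_opp _ (S.fl.U_mem _ h4.2.1).1]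
    exact Or.inr (Or.inr (Or.inr ⟨sT h, h1, Or.inr ⟨rfl, h2⟩⟩))

lemma Asm.run_outT {h : H} (hh : h ∈ dts G A) {z : H'}
    (hz : Run G'.opp (MM G' MF u τ bot R L m P) z (G'.opp (u (sT h)))) :
    ∃ y, Run G'.opp (MM G' MF u τ bot R L m P) z y ∧ G'.opp y = φ h := by
  have hRL := S.hRL
  have hmR := S.hm
  by_cases hx : f (G.base h) = x
  · obtain ⟨h1, h2⟩ := S.sTx h hh hx
    exact ⟨_, hz, by rw [G'.opp_opp _ (S.ar.mem _ (by omega)).1, h2]⟩
  · obtain ⟨h1, p, h2, h3⟩ := S.sTT h hh hx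
    have h4 := S.P_mem h2
    have h5 := (S.fl.run p h4.2.1 h4.2.2).1
    have h6 : Run G'.opp (MM G' MF u τ bot R L m P) z p := by
      refine hz.snoc ?_
      rw [G'.opp_opp _ (S.ar.mem _ (by omega)).1]
      exact Or.inr (Or.inr (Or.inr ⟨sT h, h1, Or.inl ⟨rfl, h2⟩⟩))
    exact ⟨en p, h6.trans (h5.mono fun a b hab => Or.inl hab), h3⟩

lemma Asm.run_outB {h : H} (hh : h ∈ bd G A) {z : H'}
    (hz : Run G'.opp (MM G' MF u τ bot R L m P) z (G'.opp (u (sB h)))) :
    Run G'.opp (MM G' MF u τ bot R L m P) z (β h) := by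
  have hRL := S.hRL
  have hmR := S.hm
  obtain ⟨h1, p, h2, h3⟩ := S.sBB h hh
  have h4 := S.P_mem h2
  have h5 := (S.fl.run p h4.2.1 h4.2.2).1
  have h6 : Run G'.opp (MM G' MF u τ bot R L m P) z p := by
    refine hz.snoc ?_
    rw [G'.opp_opp _ (S.ar.mem _ (by omega)).1]
    exact Or.inr (Or.inr (Or.inr ⟨sB h, h1, Or.inl ⟨rfl, h2⟩⟩))
  rw [← h3]
  exact h6.trans (h5.mono fun a b hab => Or.inl hab)

lemma Asm.sT_lt {h : H} (hh : h ∈ dts G A) : sT h < R := by
  have hmR := S.hm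
  by_cases hx : f (G.base h) = x
  · exact (S.sTx h hh hx).1
  · exact (S.sTT h hh hx).1.trans_le hmR

/-- The embedding. -/
theorem Asm.pe (hR0 : 0 < R) (r : V → V' → Prop) (hr : ∀ v ∈ A, r v (f v)) :
    PE r G A G' A' β := by
  have hRL := S.hRL
  have hmR := S.hm
  have hmd : ∀ h, h ∈ G.darts → G.base h ∈ A → h ∈ dts G A := fun h h1 h2 => by
    simp [dts, h1, h2]
  refine ⟨f, φ, MM G' MF u τ bot R L m P, ?_⟩
  refine ⟨fun v hv => Finset.mem_coe.1 (S.hf.mapsTo (Finset.mem_coe.2 hv)), hr, S.hf.injOn,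
    S.MM_symm, S.MM_fun, S.MM_mem, S.MM_base, S.MM_ker, ?_, ?_, ?_, ?_, ?_, ?_, ?_, S.β_bij⟩
  · intro h hh hA
    rcases S.map_mem hA hh rfl with ⟨-, i, hi, h1⟩ | ⟨-, h1, -⟩
    · rw [h1]
      have := S.hR
      exact (S.ar.mem _ (by omega)).1
    · exact (S.fl.U_mem _ (S.fl.T_sub h1)).1
  · intro h hh hA
    rcases S.map_mem hA hh rfl with ⟨h0, i, hi, h1⟩ | ⟨-, -, h1⟩
    · rw [h1, h0]
      have := S.hR
      exact (S.ar.mem _ (by omega)).2.1
    · exact h1
  · intro h hh h' hh' hA hA' hφ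
    have hb : G.base h = G.base h' := by
      refine S.hf.injOn (Finset.mem_coe.2 hA) (Finset.mem_coe.2 hA') ?_
      rcases S.map_mem hA hh rfl with ⟨h0, i, hi, h1⟩ | ⟨-, -, h1⟩
      · rcases S.map_mem hA' hh' rfl with ⟨k0, j, hj, k1⟩ | ⟨k, k0, k1⟩
        · rw [h0, k0]
        · rw [hφ] at h1
          have := S.hR
          rw [h1] at k0
          exact absurd (S.fl.T_sub k0) (S.ar.disj _ (by omega)).1
      · rcases S.map_mem hA' hh' rfl with ⟨k0, j, hj, k1⟩ | ⟨-, -, k1⟩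
        · rw [← hφ] at k1
          have := S.hR
          rw [k1, (S.ar.mem _ (by omega)).2.1] at h1
          rw [← h1, k0]
        · rw [← h1, ← k1, hφ]
    have h1 : ((G.rot (G.base h)).map φ).Nodup := by
      rw [← S.rot_eq _ hA]
      exact (G'.nodup _).filter _
    refine List.inj_on_of_nodup_map h1 ((G.mem_rot _ _).2 ⟨hh, rfl⟩)
      ((G.mem_rot _ _).2 ⟨hh', hb.symm⟩) hφ
  · intro v hv
    rw [S.rot_eq v hv]
  · intro v hv
    by_cases hx : v = x
    · subst hx
      exact S.nc_x hR0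
    · exact S.nc_ne v hv hx
  · intro h hh hA hA'
    have hd := hmd h hh hA
    have hd' := hmd _ (G.opp_mem h hh) hA'
    have hlt := S.sT_lt hd
    obtain ⟨h1, h2⟩ := S.run_area (S.wk _ hlt) (by omega)
    rw [S.μT h hd hA'] at h2
    exact S.run_outT hd' ((S.run_in hd).trans h2)
  · intro h hh
    have h0 := mem_bd.1 hh
    have hd := hmd h h0.1 h0.2.1
    have hlt := S.sT_lt hd
    obtain ⟨h1, h2⟩ := S.run_area (S.wk _ hlt) (by omega)
    rw [S.μB h hh] at h2
    exact S.run_outB hh ((S.run_in hd).trans h2)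

end

end RotWqo.Bag
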