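import Pool.Agent.Lib.MP_cb4a0f_co.Bag.UnivD

/-!
# MP_cb4a0f_co: universality of pieces with long patterns
-/

open Classical

namespace RotWqo.Bag

universe u v w

variable {V H V' H' : Type*}

/-- A bijection between the boundaries. -/
lemma exists_bij {α β : Type*} [Nonempty β] (s : Finset α) (t : Finset β) (h : s.card = t.card) :
    ∃ b : α → β, Set.BijOn b (s : Set α) (t : Set β) := by
  classical
  let e := Finset.equivOfCardEq h
  refine ⟨fun a => if ha : a ∈ s then (e ⟨a, ha⟩ : β) else Classical.arbitrary β, ?_, ?_, ?_⟩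
  · intro a ha
    have ha' : a ∈ s := Finset.mem_coe.1 ha
    simp only [ha', dif_pos]
    exact Finset.mem_coe.2 (e ⟨a, ha'⟩).2
  · intro a ha b hb hab
    have ha' : a ∈ s := Finset.mem_coe.1 ha
    have hb' : b ∈ s := Finset.mem_coe.1 hb
    simp only [ha', hb', dif_pos] at hab
    have := e.injective (Subtype.ext hab)
    exact congrArg Subtype.val this
  · intro b hb
    have hb' : b ∈ t := Finset.mem_coe.1 hb
    refine ⟨(e.symm ⟨b, hb'⟩ : α), Finset.mem_coe.2 (e.symm ⟨b, hb'⟩).2, ?_⟩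
    have h1 : ((e.symm ⟨b, hb'⟩ : s) : α) ∈ s := (e.symm ⟨b, hb'⟩).2
    simp only [h1, dif_pos]
    simp

/-- Pieces without half-edges. -/
lemma pe_zero [Nonempty H'] (G : RotGraph V H) (A : Finset V) (G' : RotGraph V' H')
    (A' : Finset V') (r : V → V' → Prop) (f : V → V')
    (hf : Set.BijOn f (A : Set V) (A' : Set V')) (hr : ∀ v ∈ A, r v (f v))
    (h0 : (dts G A).card = 0) (h1 : cut G' A' = 0) : ∃ β, PE r G A G' A' β := by
  classical
  have hd : ∀ h ∈ G.darts, G.base h ∉ A := by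
    intro h hh hA
    have h2 : h ∈ dts G A := by simp [dts, hh, hA]
    rw [Finset.card_eq_zero.1 h0] at h2
    simp at h2
  have hb' : bd G' A' = ∅ := Finset.card_eq_zero.1 h1
  have hb : bd G A = ∅ := by
    refine Finset.eq_empty_of_forall_notMem fun h hh => ?_
    have := mem_bd.1 hh
    exact hd h this.1 this.2.1
  have hk : ∀ (φ : H → H') (a : H'), ¬ Ker G A φ a := by
    rintro φ a ⟨h, hh, hA, -⟩
    exact hd h hh hA
  refine ⟨fun _ => Classical.arbitrary H', f, fun _ => Classical.arbitrary H',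
    fun _ _ => False, ?_⟩
  refine ⟨fun v hv => Finset.mem_coe.1 (hf.mapsTo (Finset.mem_coe.2 hv)), hr, hf.injOn,
    fun _ _ h => h.elim, fun _ _ _ h => h.elim, fun _ _ h => h.elim, fun _ _ h => h.elim,
    fun _ _ h => h.elim, fun h hh hA => absurd hA (hd h hh), fun h hh hA => absurd hA (hd h hh),
    fun h hh _ _ hA => absurd hA (hd h hh), ?_, ?_, fun h hh hA => absurd hA (hd h hh), ?_, ?_⟩
  · intro v hv
    have h2 : G.rot v = [] := by
      refine List.eq_nil_iff_forall_not_mem.2 fun h hh => ?_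
      have := (G.mem_rot _ _).1 hh
      exact hd h this.1 (this.2 ▸ hv)
    rw [h2]
    simp [hk]
  · intro x _
    exact NC.done _ fun _ _ _ h => h
  · intro h hh
    rw [hb] at hh
    simp at hh
  · rw [hb, hb']
    simp

lemma card_dts (G : RotGraph V H) (A : Finset V) :
    (dts G A).card = ∑ v ∈ A, (G.rot v).length := by
  classical
  rw [Finset.card_eq_sum_card_fiberwise (f := G.base) (t := A)]
  · refine Finset.sum_congr rfl fun v hv => ?_
    rw [← List.toFinset_card_of_nodup (G.nodup v)]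
    congr 1
    ext h
    simp only [Finset.mem_filter, dts, List.mem_toFinset, G.mem_rot]
    constructor
    · rintro ⟨⟨h1, -⟩, h2⟩
      exact ⟨h1, h2⟩
    · rintro ⟨h1, h2⟩
      exact ⟨⟨h1, h2 ▸ hv⟩, h2⟩
  · intro h hh
    simp only [dts, Finset.coe_filter, Set.mem_ofPred_eq] at hh
    exact Finset.mem_coe.2 hh.2

/-- The embedding from the modules. -/
theorem univ_aux [Nonempty H'] {k c D R L LR n : ℕ}
    (hArch : ∀ (G : RotGraph V' H') (A : Finset V') (x : V') (U : Finset H'), U ⊆ G.darts →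
      U.card ≤ 2 * k * (c + D) → Pat G A n x →
      ∃ lo, ∀ rs : List (ℕ × ℕ), 0 < len rs → len rs ≤ L →
        ∃ u, Arches G A U x lo (len rs) u (cap rs))
    (hComb : ∀ μ : ℕ → ℕ,
      (∀ i < R, μ i < R ∧ μ (μ i) = i ∧ μ i ≠ i) → ∃ (rs : List (ℕ × ℕ)) (bot : ℕ → ℕ),
        len rs ≤ LR ∧ R ≤ len rs ∧
        (∀ p < len rs, cap rs p < len rs ∧ cap rs (cap rs p) = p ∧ cap rs p ≠ p) ∧
        (∀ p, R ≤ p → p < len rs → R ≤ bot p ∧ bot p < len rs ∧ bot (bot p) = p ∧ bot p ≠ p) ∧
        (∀ p q, R ≤ p → p < q → q < bot p → bot p < len rs → p < bot q ∧ bot q < bot p) ∧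
        ∀ i < R, Wk (cap rs) bot R i (μ i))
    (hLR : LR ≤ L)
    (hFlow : ∀ (G : RotGraph V' H') (A : Finset V') (x : V') (t : V' → ℕ), x ∈ A → A ⊆ G.verts →
      (∀ X, x ∈ X → X ⊆ A → X ≠ A → cut G A + ∑ a ∈ A.erase x, t a ≤ cut G X) →
      ∃ U T M en, Flow G A x t U T M en)
    (G : RotGraph V H) (A : Finset V) (G' : RotGraph V' H') (A' : Finset V')
    (r : V → V' → Prop) (f : V → V') (hA' : A' ⊆ G'.verts)
    (hf : Set.BijOn f (A : Set V) (A' : Set V')) (hr : ∀ v ∈ A, r v (f v)) (hk : A.card ≤ k)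
    (hD : (dts G A).card ≤ D) (hcc : cut G A = cut G' A') (hc : cut G' A' ≤ c)
    (hcut : ∀ S, S.Nonempty → S ⊆ A' → S ≠ A' → c + D ≤ cut G' S)
    (x : V') (hpat : Pat G' A' n x) (hR : R = (dts G A).card + cut G A) (hR0 : 0 < R) :
    ∃ β, PE r G A G' A' β := by
  classical
  have hxA : x ∈ A' := by
    rcases hpat with ⟨y, e, g, s, h⟩ | ⟨y, z, e, g, s, s', h⟩
    · exact h.hx
    · exact h.hx
  -- the demands
  set t : V' → ℕ := fun a => ∑ v ∈ A.filter (fun v => f v = a), (G.rot v).length with ht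
  have htf : ∀ v ∈ A, t (f v) = (G.rot v).length := by
    intro v hv
    have h1 : A.filter (fun w => f w = f v) = {v} := by
      ext w
      simp only [Finset.mem_filter, Finset.mem_singleton]
      constructor
      · rintro ⟨h1, h2⟩
        exact hf.injOn (Finset.mem_coe.2 h1) (Finset.mem_coe.2 hv) h2
      · rintro rfl
        exact ⟨hv, rfl⟩
    rw [ht]
    simp only [h1, Finset.sum_singleton]
  have hsum : ∑ a ∈ A', t a = (dts G A).card := by
    rw [card_dts, ht]
    exact Finset.sum_fiberwise_of_maps_to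
      (fun v hv => Finset.mem_coe.1 (hf.mapsTo (Finset.mem_coe.2 hv))) _
  have hsum2 : ∑ a ∈ A'.erase x, t a + t x = (dts G A).card := by
    rw [Finset.sum_erase_add _ _ hxA, hsum]
  set m : ℕ := cut G' A' + ∑ a ∈ A'.erase x, t a with hm
  have hRm : R = m + t x := by omega
  have hmD : m ≤ c + D := by omega
  have hcard : A'.card = A.card := by
    have h1 : A.image f = A' := by
      apply Finset.coe_injective
      rw [Finset.coe_image]
      exact hf.image_eq
    rw [← h1, Finset.card_image_of_injOn hf.injOn]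
  -- the flow
  obtain ⟨U, T, MF, en, fl⟩ := hFlow G' A' x t hxA hA' (fun X hxX hXA hne =>
    hmD.trans (hcut X ⟨x, hxX⟩ hXA hne))
  obtain ⟨lo, hlo⟩ := hArch G' A' x U (fun h hh => (fl.U_mem h hh).1) (by
    refine fl.U_card.trans ?_
    rw [hcard]
    exact Nat.mul_le_mul (Nat.mul_le_mul_left 2 hk) hmD) hpat
  -- the half-edges of the flow at `x`
  set PL : List H' := (G'.rot x).filter (fun h => h ∈ U ∧ lo ≤ pos G' h) ++
    (G'.rot x).filter (fun h => h ∈ U ∧ pos G' h < lo) with hPL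
  have hPLmem : ∀ h, h ∈ PL ↔ h ∈ U ∧ G'.base h = x := by
    intro h
    rw [hPL, List.mem_append, List.mem_filter, List.mem_filter, decide_eq_true_eq,
      decide_eq_true_eq, G'.mem_rot]
    constructor
    · rintro (⟨⟨-, h2⟩, h3, -⟩ | ⟨⟨-, h2⟩, h3, -⟩)
      · exact ⟨h3, h2⟩
      · exact ⟨h3, h2⟩
    · rintro ⟨h1, h2⟩
      have h3 := (fl.U_mem h h1).1
      rcases lt_or_ge (pos G' h) lo with h4 | h4
      · exact Or.inr ⟨⟨h3, h2⟩, h1, h4⟩
      · exact Or.inl ⟨⟨h3, h2⟩, h1, h4⟩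
  have hPLnd : PL.Nodup := by
    rw [hPL, List.nodup_append]
    refine ⟨(G'.nodup x).filter _, (G'.nodup x).filter _, ?_⟩
    intro a ha b hb hab
    rw [List.mem_filter, decide_eq_true_eq] at ha hb
    rw [hab] at ha
    omega
  have hPLlen : PL.length = m := by
    rw [← List.toFinset_card_of_nodup hPLnd, hm, ← fl.card]
    congr 1
    ext h
    rw [List.mem_toFinset, hPLmem, Finset.mem_filter]
  set P : List H' := PL.reverse with hP
  have hPmem : ∀ h, h ∈ P ↔ h ∈ U ∧ G'.base h = x := fun h => by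
    rw [hP, List.mem_reverse, hPLmem]
  have hPnd : P.Nodup := List.nodup_reverse.2 hPLnd
  have hPlen : P.length = m := by rw [hP, List.length_reverse, hPLlen]
  -- the map to `T`
  set TL : V' → List H' := fun v => (G'.rot v).filter (fun h => h ∈ T) with hTL
  have hTLlen : ∀ v ∈ A, f v ≠ x → (TL (f v)).length = (G.rot v).length := by
    intro v hv hvx
    rw [← htf v hv, ← fl.T_card (f v) (Finset.mem_coe.1 (hf.mapsTo (Finset.mem_coe.2 hv))) hvx,
      hTL]
    simp only
    rw [← List.toFinset_card_of_nodup ((G'.nodup (f v)).filter _)]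
    congr 1
    ext h
    simp only [List.mem_toFinset, List.mem_filter, decide_eq_true_eq, G'.mem_rot,
      Finset.mem_filter]
    constructor
    · rintro ⟨⟨-, h1⟩, h2⟩
      exact ⟨h2, h1⟩
    · rintro ⟨h1, h2⟩
      exact ⟨⟨(fl.U_mem h (fl.T_sub h1)).1, h2⟩, h1⟩
  obtain ⟨d⟩ := ‹Nonempty H'›
  set φ0 : H → H' := fun h => ((TL (f (G.base h)))[(G.rot (G.base h)).idxOf h]?).getD d with hφ0
  have hφ0map : ∀ v ∈ A, f v ≠ x → (G.rot v).map φ0 = TL (f v) := by
    intro v hv hvx
    rw [← map_idx (G.rot v) (TL (f v)) (G.nodup v) (hTLlen v hv hvx).symm d]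
    refine List.map_congr_left fun h hh => ?_
    rw [hφ0]
    simp only
    rw [((G.mem_rot _ _).1 hh).2]
  have hmd : ∀ h, h ∈ dts G A ↔ h ∈ G.darts ∧ G.base h ∈ A := fun h => by simp [dts]
  have hφ0mem : ∀ h ∈ dts G A, f (G.base h) ≠ x → φ0 h ∈ T ∧ G'.base (φ0 h) = f (G.base h) := by
    intro h hh hx
    obtain ⟨h1, h2⟩ := (hmd h).1 hh
    have h3 : φ0 h ∈ TL (f (G.base h)) := by
      rw [← hφ0map _ h2 hx]
      exact List.mem_map_of_mem (mem_rot_of h1)
    rw [hTL] at h3
    simp only [List.mem_filter, decide_eq_true_eq, G'.mem_rot] at h3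
    exact ⟨h3.2, h3.1.2⟩
  have hφ0inj : ∀ h ∈ dts G A, ∀ h' ∈ dts G A, f (G.base h) ≠ x → f (G.base h') ≠ x →
      φ0 h = φ0 h' → h = h' := by
    intro h hh h' hh' hx hx' he
    obtain ⟨h1, h2⟩ := (hmd h).1 hh
    obtain ⟨h1', h2'⟩ := (hmd h').1 hh'
    have hb : G.base h = G.base h' := by
      refine hf.injOn (Finset.mem_coe.2 h2) (Finset.mem_coe.2 h2') ?_
      rw [← (hφ0mem h hh hx).2, ← (hφ0mem h' hh' hx').2, he]
    have h3 : ((G.rot (G.base h)).map φ0).Nodup := by
      rw [hφ0map _ h2 hx]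
      exact (G'.nodup _).filter _
    exact List.inj_on_of_nodup_map h3 (mem_rot_of h1) ((G.mem_rot _ _).2 ⟨h1', hb.symm⟩) he
  -- the chosen starts
  have hpT : ∀ g, ∃ p, g ∈ T → p ∈ U ∧ G'.base p = x ∧ G'.opp (en p) = g := by
    intro g
    by_cases hg : g ∈ T
    · obtain ⟨p, hp⟩ := fl.surj_T g hg
      exact ⟨p, fun _ => hp⟩
    · exact ⟨d, fun h => absurd h hg⟩
  choose pT hpT using hpT
  have hpB : ∀ b, ∃ p, b ∈ bd G' A' → p ∈ U ∧ G'.base p = x ∧ en p = b := by
    intro b
    by_cases hb : b ∈ bd G' A'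
    · obtain ⟨p, hp⟩ := fl.surj_bd b hb
      exact ⟨p, fun _ => hp⟩
    · exact ⟨d, fun h => absurd h hb⟩
  choose pB hpB using hpB
  have : Nonempty H' := ⟨d⟩
  obtain ⟨β, hβ⟩ := exists_bij (bd G A) (bd G' A') hcc
  have hβm : ∀ h ∈ bd G A, β h ∈ bd G' A' := fun h hh =>
    Finset.mem_coe.1 (hβ.mapsTo (Finset.mem_coe.2 hh))
  set sT : H → ℕ := fun h => if f (G.base h) = x then m + (G.rot (G.base h)).idxOf h else
    P.idxOf (pT (φ0 h)) with hsT
  set sB : H → ℕ := fun h => P.idxOf (pB (β h)) with hsB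
  have hsTx : ∀ h, f (G.base h) = x → sT h = m + (G.rot (G.base h)).idxOf h := fun h hx =>
    if_pos hx
  have hsTn : ∀ h, f (G.base h) ≠ x → sT h = P.idxOf (pT (φ0 h)) := fun h hx => if_neg hx
  have hxlt : ∀ h ∈ dts G A, f (G.base h) = x → (G.rot (G.base h)).idxOf h < t x := by
    intro h hh hx
    obtain ⟨h1, h2⟩ := (hmd h).1 hh
    rw [← hx, htf _ h2]
    exact List.idxOf_lt_length_iff.2 (mem_rot_of h1)
  have hPT : ∀ h ∈ dts G A, f (G.base h) ≠ x → pT (φ0 h) ∈ P ∧
      G'.opp (en (pT (φ0 h))) = φ0 h := by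
    intro h hh hx
    obtain ⟨h1, h2, h3⟩ := hpT _ (hφ0mem h hh hx).1
    exact ⟨(hPmem _).2 ⟨h1, h2⟩, h3⟩
  have hPB : ∀ h ∈ bd G A, pB (β h) ∈ P ∧ en (pB (β h)) = β h := by
    intro h hh
    obtain ⟨h1, h2, h3⟩ := hpB _ (hβm h hh)
    exact ⟨(hPmem _).2 ⟨h1, h2⟩, h3⟩
  have hsTm : ∀ h ∈ dts G A, f (G.base h) ≠ x → sT h < m := by
    intro h hh hx
    rw [hsTn h hx, ← hPlen]
    exact List.idxOf_lt_length_iff.2 (hPT h hh hx).1
  have hsBm : ∀ h ∈ bd G A, sB h < m := by
    intro h hh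
    rw [hsB, ← hPlen]
    exact List.idxOf_lt_length_iff.2 (hPB h hh).1
  obtain ⟨μ, hμ, hμT, hμB⟩ := exists_mu G A R hR sT sB
    (by
      intro h hh
      by_cases hx : f (G.base h) = x
      · rw [hsTx h hx]
        have := hxlt h hh hx
        omega
      · have := hsTm h hh hx
        omega)
    (by
      intro h hh
      have := hsBm h hh
      omega)
    (by
      intro h hh h' hh' he
      obtain ⟨h1, h2⟩ := (hmd h).1 hh
      obtain ⟨h1', h2'⟩ := (hmd h').1 hh'
      by_cases hx : f (G.base h) = x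
      · by_cases hx' : f (G.base h') = x
        · have hb : G.base h = G.base h' :=
            hf.injOn (Finset.mem_coe.2 h2) (Finset.mem_coe.2 h2') (hx.trans hx'.symm)
          rw [hsTx h hx, hsTx h' hx', ← hb] at he
          have h3 : (G.rot (G.base h)).idxOf h = (G.rot (G.base h)).idxOf h' := by omega
          exact (List.idxOf_inj (mem_rot_of h1)).1 h3
        · have h3 := hsTm h' hh' hx'
          rw [← he, hsTx h hx] at h3
          omega
      · by_cases hx' : f (G.base h') = x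
        · have h3 := hsTm h hh hx
          rw [he, hsTx h' hx'] at h3
          omega
        · rw [hsTn h hx, hsTn h' hx'] at he
          have h3 := (List.idxOf_inj (hPT h hh hx).1).1 he
          refine hφ0inj h hh h' hh' hx hx' ?_
          rw [← (hPT h hh hx).2, ← (hPT h' hh' hx').2, h3])
    (by
      intro h hh h' hh' he
      have h3 := (List.idxOf_inj (hPB h hh).1).1 he
      refine hβ.injOn (Finset.mem_coe.2 hh) (Finset.mem_coe.2 hh') ?_
      rw [← (hPB h hh).2, ← (hPB h' hh').2, h3])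
    (by
      intro h hh h' hh' he
      by_cases hx : f (G.base h) = x
      · have h3 := hsBm h' hh'
        rw [← he, hsTx h hx] at h3
        omega
      · rw [hsTn h hx] at he
        have h3 := (List.idxOf_inj (hPT h hh hx).1).1 he
        have h4 := (hPT h hh hx).2
        rw [h3, (hPB h' hh').2] at h4
        have h5 := mem_bd.1 (hβm h' hh')
        rw [h4] at h5
        exact h5.2.2 (fl.U_mem _ (fl.T_sub (hφ0mem h hh hx).1)).2)
  obtain ⟨rs, bot, hrs1, hrs2, hrs3, hrs4, hrs5, hrs6⟩ := hComb μ hμ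
  obtain ⟨u, ar⟩ := hlo rs (by omega) (by omega)
  set φ : H → H' := fun h => if f (G.base h) = x then u (m + (G.rot (G.base h)).idxOf h) else
    φ0 h with hφ
  have S : Asm G A G' A' f x t U T MF en lo (len rs) m R u (cap rs) bot μ P φ β sT sB := by
    refine ⟨hf, hxA, fl, ar, hRm, hrs2, htf, hrs3, hrs4, hrs5, hrs6, hPlen, ?_, ?_, ?_, hβ, ?_,
      ?_, ?_, hμT, hμB⟩
    · rw [hP, List.reverse_reverse, hPL]
    · intro v hv hvx
      have hlen : (G.rot v).length = t x := by rw [← htf v hv, hvx]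
      refine List.ext_getElem (by simp [hlen]) fun i h1 h2 => ?_
      have h3 : i < (G.rot v).length := by simpa using h1
      have h4 := ((G.mem_rot _ _).1 (List.getElem_mem h3)).2
      simp only [List.getElem_map, List.getElem_range, hφ]
      rw [if_pos (by rw [h4, hvx]), h4, (G.nodup v).idxOf_getElem i h3]
    · intro v hv hvx
      refine Eq.trans ?_ (hφ0map v hv hvx)
      refine List.map_congr_left fun h hh => ?_
      rw [hφ]
      simp only
      rw [if_neg]
      rw [((G.mem_rot _ _).1 hh).2]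
      exact hvx
    · intro h hh hx
      refine ⟨?_, ?_⟩
      · rw [hsTx h hx]
        have := hxlt h hh hx
        omega
      · rw [hsTx h hx, hφ]
        simp only
        rw [if_pos hx]
    · intro h hh hx
      refine ⟨hsTm h hh hx, pT (φ0 h), ?_, ?_⟩
      · rw [hsTn h hx]
        exact List.getElem?_idxOf (hPT h hh hx).1
      · rw [(hPT h hh hx).2, hφ]
        simp only
        rw [if_neg hx]
    · intro h hh
      exact ⟨hsBm h hh, pB (β h), List.getElem?_idxOf (hPB h hh).1, (hPB h hh).2⟩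
  exact ⟨β, S.pe hR0 r hr⟩

theorem stUniv (hP : StPat.{u, v}) (hA : StArch.{u, v}) (hC : StComb) (hF : StFlow.{u, v}) :
    StUniv.{u, v} := by
  intro k c D
  choose LR hLR using hC
  set L : ℕ := (Finset.range (c + D + 1)).sup LR with hL
  obtain ⟨n, hn⟩ := hA L (2 * k * (c + D))
  obtain ⟨N1, hN1⟩ := hP k c n
  refine ⟨max N1 (c + D), ?_⟩
  intro V V' H H' _ G A G' A' r f _ hA' hf hr hk hD hcc hc hl hcut hbad
  have hcard : A'.card = A.card := by
    have h1 : A.image f = A' := by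
      apply Finset.coe_injective
      rw [Finset.coe_image]
      exact hf.image_eq
    rw [← h1, Finset.card_image_of_injOn hf.injOn]
  by_cases hR0 : (dts G A).card + cut G A = 0
  · exact pe_zero G A G' A' r f hf hr (by omega) (by omega)
  · obtain ⟨x, hx⟩ := hN1 V' H' G' A' (by omega) hc hl ((le_max_left _ _).trans hbad)
    refine univ_aux (k := k) (c := c) (D := D) (n := n) (L := L)
      (R := (dts G A).card + cut G A) (LR := LR ((dts G A).card + cut G A))
      (fun G A x U => hn V' H' G A x U) (hLR _) ?_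
      (fun G A x t => hF V' H' G A x t) G A G' A' r f hA' hf hr hk hD hcc hc
      (fun S h1 h2 h3 => (le_max_right _ _).trans (hcut S h1 h2 h3)) x hx rfl (by omega)
    rw [hL]
    exact Finset.le_sup (f := LR) (Finset.mem_range.2 (by omega))

end RotWqo.Bag
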